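import Pool.Agent.H965.K3.Stubs
import Pool.Graph.R_pool_sql_team_seeded_3dad9d7b.NH38.Fork.NG1
import Pool.Graph.R_pool_sql_team_seeded_3dad9d7b.NH38.Fork.NG2

/-!
K3, task A1 (by helper784): positivity and asymptotics of the coefficients of `dv`.
-/

namespace Pool.Agent.H965.K3

open Polynomial Filter Topology
open Pool.Agent.NH38.Fork (sv kap rf pv)

namespace A1

open Pool.Agent.NH38.Fork.NG1 (NNc nn_add nn_mul nn_C nn_X nn_one cf nn_cf cf_mul nn_pv)
open Pool.Agent.NH38.Fork.NG2 (E Dn E_succ E_zero Dn_succ Dn_zero kap_succ kap_zero kap_pos pc rc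
  wt wt_self sv_sum kap_lim Dn_eq)

theorem kap_lt (n : ℕ) : kap n < kap (n+1) := by
  rw [kap_succ]
  have h1 : 1 < ((n:ℚ) + 4/3) / (n + 2/3) := by
    rw [one_lt_div (by positivity)]
    linarith
  exact lt_mul_of_one_lt_right (kap_pos n) h1

theorem kap_lt2 (n : ℕ) : kap n < kap (n+2) := (kap_lt n).trans (kap_lt (n+1))

theorem nn_diff (m : ℕ) : NNc (sv (m+2) - sv m) := by
  have h1 := nn_pv 2 3 (by norm_num) (by norm_num) m
  have h2 := nn_pv 2 3 (by norm_num) (by norm_num) (m+1)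
  have e : sv (m+2) - sv m = (pv 2 3 (m+1+1) - cf (m+1+1) * pv 2 3 (m+1)) +
      (cf (m+1+1) * (pv 2 3 (m+1) - cf (m+1) * pv 2 3 m) + X * pv 2 3 m) := by
    have h3 := cf_mul (m+1)
    have e1 : sv (m+2) = pv 2 3 (m+1+1) := rfl
    have e2 : sv m = pv 2 3 m := rfl
    rw [e1, e2]
    linear_combination (pv 2 3 m) * h3
  rw [e]
  exact nn_add h2.2.2 (nn_add (nn_mul (nn_cf _) h1.2.2) (nn_mul nn_X h1.1))

/-- the size -/
noncomputable def NN (i : ℕ) : ℝ := ((2*i+2 : ℕ) : ℝ)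

lemma NN_eq (i : ℕ) : NN i = 2*(i:ℝ) + 2 := by unfold NN; push_cast; ring

lemma NN_pos (i : ℕ) : 0 < NN i := by rw [NN_eq]; positivity

lemma NN_lim : Tendsto NN atTop atTop := by
  unfold NN
  refine tendsto_natCast_atTop_atTop.comp ?_
  refine tendsto_atTop_mono (fun i => ?_) tendsto_id
  simp only [id]; omega

lemma inv_lim (c : ℝ) : Tendsto (fun i : ℕ => c / NN i) atTop (𝓝 0) := NN_lim.const_div_atTop c

lemma invpow_lim {k : ℕ} (hk : k ≠ 0) : Tendsto (fun i : ℕ => 1 / NN i ^ k) atTop (𝓝 0) := by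
  have h := (inv_lim 1).pow k
  rw [zero_pow hk] at h
  refine h.congr fun i => ?_
  rw [div_pow, one_pow]

/-- the real value of `E` at `2 i + 2 + s` -/
noncomputable def Er (s : ℚ) (i j : ℕ) : ℝ := ((E (((2*i+2 : ℕ) : ℚ) + s) j : ℚ) : ℝ)

lemma Er_zero (s : ℚ) (i : ℕ) : Er s i 0 = 1 := by simp [Er, E_zero]

lemma Er_succ (s : ℚ) (i j : ℕ) :
    Er s i (j+1) = Er s i j * ((NN i + s - j) * (NN i + s + 1 + j)) := by
  unfold Er NN
  rw [E_succ]
  push_cast
  ring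

lemma Er_lim (s : ℚ) (j : ℕ) : Tendsto (fun i : ℕ => Er s i j / NN i ^ (2*j)) atTop (𝓝 1) := by
  induction j with
  | zero => simp [Er_zero]
  | succ j ih =>
    have h1 : Tendsto (fun i : ℕ => 1 + ((s:ℝ) - j) / NN i) atTop (𝓝 1) := by
      simpa using (inv_lim ((s:ℝ) - j)).const_add 1
    have h2 : Tendsto (fun i : ℕ => 1 + ((s:ℝ) + 1 + j) / NN i) atTop (𝓝 1) := by
      simpa using (inv_lim ((s:ℝ) + 1 + j)).const_add 1
    have h3 := (ih.mul h1).mul h2
    rw [mul_one, mul_one] at h3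
    refine h3.congr fun i => ?_
    have hN := (NN_pos i).ne'
    rw [Er_succ, show 2 * (j+1) = 2*j + 2 by ring, pow_add]
    field_simp
    ring

/-- `1 / (kap (n+1) / kap (n-1) - 1)` -/
noncomputable def qq (x : ℝ) : ℝ := (9*x^2 + 3*x - 2) / (12*x + 6)

lemma dE_lim (j : ℕ) : Tendsto (fun i : ℕ => (Er 1 i j - Er (-1) i j) * qq (NN i) / NN i ^ (2*j))
    atTop (𝓝 (3*j)) := by
  induction j with
  | zero => simp [Er_zero]
  | succ j ih =>
    have h1 : Tendsto (fun i : ℕ => 1 + (1 - (j:ℝ)) / NN i) atTop (𝓝 1) := by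
      simpa using (inv_lim (1 - (j:ℝ))).const_add 1
    have h2 : Tendsto (fun i : ℕ => 1 + (2 + (j:ℝ)) / NN i) atTop (𝓝 1) := by
      simpa using (inv_lim (2 + (j:ℝ))).const_add 1
    have h3 := (ih.mul h1).mul h2
    have h4 : Tendsto (fun i : ℕ => 3 + 1 / NN i - (2/3) * (1 / NN i ^ 2)) atTop (𝓝 3) := by
      have := ((inv_lim 1).const_add 3).sub ((invpow_lim (k := 2) (by norm_num)).const_mul (2/3))
      simpa using this
    have h5 := h3.add ((Er_lim (-1) j).mul h4)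
    have e : 3 * (j:ℝ) * 1 * 1 + 1 * 3 = 3 * ((j+1 : ℕ) : ℝ) := by push_cast; ring
    rw [e] at h5
    refine h5.congr fun i => ?_
    have hN := NN_pos i
    have hN' := hN.ne'
    rw [Er_succ, Er_succ, show 2 * (j+1) = 2*j + 2 by ring, pow_add]
    unfold qq
    have h12 : 12 * NN i + 6 ≠ 0 := by positivity
    generalize Er 1 i j = a
    generalize Er (-1) i j = b
    push_cast
    generalize NN i = x at *
    field_simp
    ring

lemma kap_rel (i : ℕ) : ((kap (2*i+3) : ℚ) : ℝ) - ((kap (2*i+1) : ℚ) : ℝ) =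
    ((kap (2*i+1) : ℚ) : ℝ) / qq (NN i) := by
  have e : kap (2*i+3) = kap (2*i+1) * ((((2*i+1 : ℕ):ℚ) + 4/3) / (((2*i+1 : ℕ):ℚ) + 2/3)) *
      ((((2*i+1+1 : ℕ):ℚ) + 4/3) / (((2*i+1+1 : ℕ):ℚ) + 2/3)) := by
    rw [show 2*i+3 = (2*i+1+1)+1 by ring, kap_succ, kap_succ]
  rw [e]
  generalize kap (2*i+1) = K
  have hy : 2 ≤ NN i := by
    rw [NN_eq]
    have : (0:ℝ) ≤ i := by positivity
    linarith
  have e1 : (((2*i+1 : ℕ):ℝ) + 4/3) = (3 * NN i + 1) / 3 := by rw [NN_eq]; push_cast; ring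
  have e2 : (((2*i+1 : ℕ):ℝ) + 2/3) = (3 * NN i - 1) / 3 := by rw [NN_eq]; push_cast; ring
  have e3 : (((2*i+1+1 : ℕ):ℝ) + 4/3) = (3 * NN i + 4) / 3 := by rw [NN_eq]; push_cast; ring
  have e4 : (((2*i+1+1 : ℕ):ℝ) + 2/3) = (3 * NN i + 2) / 3 := by rw [NN_eq]; push_cast; ring
  have e5 : ((K * ((((2*i+1 : ℕ):ℚ) + 4/3) / (((2*i+1 : ℕ):ℚ) + 2/3)) *
      ((((2*i+1+1 : ℕ):ℚ) + 4/3) / (((2*i+1+1 : ℕ):ℚ) + 2/3)) : ℚ) : ℝ) =
      (K : ℝ) * ((((2*i+1 : ℕ):ℝ) + 4/3) / (((2*i+1 : ℕ):ℝ) + 2/3)) *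
      ((((2*i+1+1 : ℕ):ℝ) + 4/3) / (((2*i+1+1 : ℕ):ℝ) + 2/3)) := by
    push_cast
    ring
  rw [e5, e1, e2, e3, e4]
  unfold qq
  generalize NN i = y at *
  have e6 : 9 * y^2 + 3 * y - 2 = (3 * y - 1) * (3 * y + 2) := by ring
  rw [e6]
  have h1 : 3 * y - 1 ≠ 0 := by
    have : 0 < 3 * y - 1 := by linarith
    exact this.ne'
  have h2 : 3 * y + 2 ≠ 0 := by
    have : 0 < 3 * y + 2 := by linarith
    exact this.ne'
  have h4 : 12 * y + 6 ≠ 0 := by
    have : 0 < 12 * y + 6 := by linarith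
    exact this.ne'
  field_simp
  ring

lemma tri (v R : ℕ → ℕ → ℝ) (w : ℕ → ℕ → ℝ) (ρ : ℕ → ℝ)
    (hw : ∀ j, w j j = 4^j)
    (hs : ∀ i j, ∑ k ∈ Finset.range (j+1), v i k * w k j = R i j)
    (hR : ∀ j, Tendsto (fun i => R i j / NN i ^ (2*j)) atTop (𝓝 (ρ j))) (j : ℕ) :
    Tendsto (fun i => v i j / NN i ^ (2*j)) atTop (𝓝 (ρ j / 4^j)) := by
  induction j using Nat.strong_induction_on with
  | _ j ih =>
    have h1 : Tendsto (fun i => ∑ k ∈ Finset.range j, v i k * w k j / NN i ^ (2*j)) atTop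
        (𝓝 0) := by
      rw [show (0:ℝ) = ∑ k ∈ Finset.range j, (0:ℝ) by simp]
      refine tendsto_finsetSum _ fun k hk => ?_
      have hkj : k < j := Finset.mem_range.mp hk
      have h2 := ((ih k hkj).mul_const (w k j)).mul (invpow_lim (k := 2*(j-k)) (by omega))
      rw [mul_zero] at h2
      refine h2.congr fun i => ?_
      have hN := (NN_pos i).ne'
      rw [show 2*j = 2*k + 2*(j-k) by omega, pow_add]
      field_simp
    have h2 := ((hR j).sub h1).div_const ((4:ℝ)^j)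
    rw [sub_zero] at h2
    refine h2.congr fun i => ?_
    have h3 := hs i j
    rw [Finset.sum_range_succ, hw] at h3
    rw [← Finset.sum_div, ← sub_div]
    have h4 : R i j - ∑ k ∈ Finset.range j, v i k * w k j = v i j * 4^j := by linarith
    rw [h4]
    have hN := (NN_pos i).ne'
    field_simp

lemma Dn_shift (j : ℕ) : (1 + 3*(j:ℚ)) * Dn (4/3) j = Dn (1/3) j := by
  induction j with
  | zero => simp [Dn_zero]
  | succ j ih =>
    rw [Dn_succ, Dn_succ, ← ih]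
    push_cast
    have : (0:ℚ) ≤ j := by positivity
    generalize (j:ℚ) = x at *
    generalize Dn (4/3) j = D
    have h1 : (4/3 + x) ≠ 0 := by positivity
    have h2 : (1/3 + x) ≠ 0 := by positivity
    have h3 : (1 + x) ≠ 0 := by positivity
    field_simp
    ring

end A1

open A1 in
theorem t3_pos : S3_pos := by
  intro n j hn
  rcases n with _ | m
  · show 0 ≤ (1 : ℚ[X]).coeff j
    exact Pool.Agent.NH38.Fork.NG1.nn_one j
  · show 0 ≤ (C (1 / (kap (m+2) - kap m)) * (sv (m+2) - sv m)).coeff j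
    rw [coeff_C_mul]
    have h1 := kap_lt2 m
    have h2 : 0 < kap (m+2) - kap m := by linarith
    exact mul_nonneg (by positivity) (nn_diff m j)

open A1 Pool.Agent.NH38.Fork.NG2 in
theorem t3_dvA : S3_dvA := by
  intro j
  have hodd : ∀ i : ℕ, ¬ Even (2*i+1) := fun i => by
    rw [Nat.not_even_iff_odd]; exact ⟨i, rfl⟩
  have hodd3 : ∀ i : ℕ, ¬ Even (2*i+3) := fun i => by
    rw [Nat.not_even_iff_odd]; exact ⟨i+1, by ring⟩
  rw [← tendsto_add_atTop_iff_nat 1]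
  have h := A1.tri
    (fun i k => (((dv (2*i+2)).coeff k : ℚ) : ℝ))
    (fun i k => ((1 / (kap (2*i+3) - kap (2*i+1)) *
      ((pc (2*i+3) k + rc (2*i+3) k) - (pc (2*i+1) k + rc (2*i+1) k)) : ℚ) : ℝ))
    (fun k l => ((wt k l : ℚ) : ℝ)) (fun k => ((Dn (1/3) k : ℚ) : ℝ))
    (fun k => by simp only [wt_self]; push_cast; rfl)
    (fun i k => by
      have h1 := sv_sum (2*i+1) (hodd i) k
      have h3 := sv_sum (2*i+3) (hodd3 i) k
      have h4 : ∑ l ∈ Finset.range (k+1), (dv (2*i+2)).coeff l * wt l k =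
          1 / (kap (2*i+3) - kap (2*i+1)) *
          ((pc (2*i+3) k + rc (2*i+3) k) - (pc (2*i+1) k + rc (2*i+1) k)) := by
        rw [← h1, ← h3, ← Finset.sum_sub_distrib, Finset.mul_sum]
        refine Finset.sum_congr rfl fun l _ => ?_
        have : dv (2*i+2) = C (1 / (kap (2*i+1+2) - kap (2*i+1))) *
          (sv (2*i+1+2) - sv (2*i+1)) := rfl
        rw [this, coeff_C_mul, coeff_sub]
        ring
      exact_mod_cast h4)
    (by
      intro k
      have hK0 : Tendsto (fun i : ℕ => 1 / ((kap (2*i+1) : ℚ) : ℝ)) atTop (𝓝 0) :=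
        kap_lim.const_div_atTop 1
      have hD := dE_lim k
      have hE := Er_lim 1 k
      have h1 := ((hK0.mul hD).mul_const ((Dn (2/3) k : ℚ) : ℝ)).add
        ((hE.add hD).mul_const ((Dn (4/3) k : ℚ) : ℝ))
      have e : 0 * (3 * (k:ℝ)) * ((Dn (2/3) k : ℚ) : ℝ) + (1 + 3 * (k:ℝ)) * ((Dn (4/3) k : ℚ) : ℝ) =
          ((Dn (1/3) k : ℚ) : ℝ) := by
        rw [← Dn_shift]
        push_cast
        ring
      rw [e] at h1
      refine h1.congr fun i => ?_
      have hN := (NN_pos i).ne'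
      have hkr := kap_rel i
      have hq : 0 < qq (NN i) := by
        unfold qq
        have := NN_pos i
        have h2 : 2 ≤ NN i := by
          rw [NN_eq]
          have : (0:ℝ) ≤ i := by positivity
          linarith
        apply div_pos
        · nlinarith
        · positivity
      have hK : ((kap (2*i+1) : ℚ) : ℝ) ≠ 0 := by exact_mod_cast (kap_pos (2*i+1)).ne'
      have hE1 : ((E ((2*i+3 : ℕ) : ℚ) k : ℚ) : ℝ) = Er 1 i k := by
        unfold Er
        have : ((2*i+3 : ℕ) : ℚ) = ((2*i+2 : ℕ) : ℚ) + 1 := by push_cast; ring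
        rw [this]
      have hE2 : ((E ((2*i+1 : ℕ) : ℚ) k : ℚ) : ℝ) = Er (-1) i k := by
        unfold Er
        have : ((2*i+1 : ℕ) : ℚ) = ((2*i+2 : ℕ) : ℚ) + (-1) := by push_cast; ring
        rw [this]
      simp only [pc, rc]
      rw [Rat.cast_mul, Rat.cast_div, Rat.cast_one, Rat.cast_sub, hkr, Rat.cast_sub, Rat.cast_add,
        Rat.cast_add, Rat.cast_mul, Rat.cast_mul, Rat.cast_mul, Rat.cast_mul, Rat.cast_mul,
        Rat.cast_mul, hE1, hE2]
      have hk3 : ((kap (2*i+3) : ℚ) : ℝ) = ((kap (2*i+1) : ℚ) : ℝ) +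
          ((kap (2*i+1) : ℚ) : ℝ) / qq (NN i) := by linarith
      rw [hk3]
      generalize ((kap (2*i+1) : ℚ) : ℝ) = K at *
      generalize qq (NN i) = Q at *
      generalize Er 1 i k = a
      generalize Er (-1) i k = b
      generalize ((Dn (2/3) k : ℚ) : ℝ) = D2
      generalize ((Dn (4/3) k : ℚ) : ℝ) = D4
      have hQ := hq.ne'
      field_simp
      ring) j
  rw [Dn_eq (1/3) (by norm_num)] at h
  have e : (1 / (rf (((1/3 : ℚ)) : ℝ) j * (Nat.factorial j : ℝ)) / 4^j) =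
      1 / (4^j * rf (1/3) j * (Nat.factorial j : ℝ)) := by
    have : (((1/3 : ℚ)) : ℝ) = 1/3 := by norm_num
    rw [this, div_div]
    congr 1
    ring
  rw [e] at h
  exact h

end Pool.Agent.H965.K3
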