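import Pool.Agent.H965.K3.Stubs
import Pool.Agent.H966.T1.A1

/-!
Task K3-A3 (helper323): the algebraic generating function `S3_WI`: the coefficients of
`F_4(4/3, 2/3; 1/3, 4/3; A, B)` are `wp1 m + (A - B) wp1 (m - 1)`, `wp1` those of
`F_4(5/3, 4/3; 4/3, 4/3; A, B)` (task T1-A1).
-/

set_option autoImplicit false

namespace Pool.Agent.H965.K3

namespace A3

open Finset Filter Topology
open Pool.Agent.NH97.WI (ca rf_pos)
open Pool.Agent.NH38.Fork (x1 x2 rf rr)
open Pool.Agent.H966.T1 (wp1)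
open Pool.Agent.H966.T1.A1 (T shiftA shiftB T_add T_sub T_smul wp1_eq rfs)

theorem rf_shift (s : ℝ) (n : ℕ) : rf s (n+1) = s * rf (s+1) n := by
  induction n with
  | zero => simp [rf]
  | succ n ih =>
    rw [rfs, ih, rfs]
    push_cast
    ring

theorem rf_third (l : ℕ) : rf (1/3) l * (3 * l + 1) = rf (4/3) l := by
  induction l with
  | zero => simp [rf]
  | succ l ih =>
    rw [rfs, rfs, ← ih]
    push_cast
    ring

theorem wp3_eq (A B : ℝ) (m : ℕ) :
    wp3 A B m = rf (4/3) m * rf (2/3) m * T A B m (fun _ l => 3 * l + 1) := by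
  unfold wp3 T
  rw [Finset.Nat.sum_antidiagonal_eq_sum_range_succ_mk, Finset.mul_sum]
  apply Finset.sum_congr rfl
  intro i _
  change _ = rf (4/3) m * rf (2/3) m * ((3 * ((m - i : ℕ) : ℝ) + 1) *
    (B^i / (rf (4/3) i * (Nat.factorial i : ℝ)) *
      (A^(m-i) / (rf (4/3) (m-i) * (Nat.factorial (m-i) : ℝ)))))
  have h1 : 0 < rf (4/3) (m-i) := rf_pos (s := 4/3) (by norm_num) (m-i)
  have h1' : 0 < rf (1/3) (m-i) := rf_pos (s := 1/3) (by norm_num) (m-i)
  have h2 : 0 < rf (4/3) i := rf_pos (s := 4/3) (by norm_num) i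
  have h3 : (0:ℝ) < (Nat.factorial i : ℝ) := by positivity
  have h4 : (0:ℝ) < (Nat.factorial (m-i) : ℝ) := by positivity
  have h5 := rf_third (m-i)
  rw [← h5] at h1 ⊢
  have h6 : (0:ℝ) < 3 * ((m - i : ℕ) : ℝ) + 1 := by positivity
  field_simp

theorem wp3_succ (A B : ℝ) (m : ℕ) : wp3 A B (m+1) = wp1 A B (m+1) + (A - B) * wp1 A B m := by
  rw [wp3_eq, wp1_eq, wp1_eq]
  have e2 : (A - B) * T A B m (fun _ _ => 1) =
      T A B (m+1) (fun i l => l * (l + 1/3) - i * (i + 1/3)) := by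
    rw [sub_mul, shiftA, shiftB, T_sub]
    unfold T
    apply Finset.sum_congr rfl
    intro p _
    ring
  have e3 : (A - B) * (rf (5/3) m * rf (4/3) m * T A B m (fun _ _ => 1)) =
      rf (5/3) m * rf (4/3) m * T A B (m+1) (fun i l => l * (l + 1/3) - i * (i + 1/3)) := by
    rw [← e2]; ring
  have e4 : rf (2/3) (m+1) = 2/3 * rf (5/3) m := by
    rw [rf_shift]; norm_num
  rw [e3, e4, rfs, rfs, mul_comm (rf (5/3) m * (5/3 + m))]
  have e5 : ∀ c : ℝ, ∀ φ : ℝ → ℝ → ℝ, c * T A B (m+1) φ = T A B (m+1) (fun i l => c * φ i l) :=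
    fun c φ => T_smul A B (m+1) c φ
  have e6 : T A B (m+1) (fun _ l => (4/3 + m) * (2/3) * (3 * l + 1)) =
      T A B (m+1) (fun i l => (4/3 + m) * (5/3 + m) * 1 + (l * (l + 1/3) - i * (i + 1/3))) := by
    unfold T
    apply Finset.sum_congr rfl
    rintro ⟨i, l⟩ hp
    have h1 : i + l = m + 1 := by simpa using hp
    have h2 : (i:ℝ) + l = m + 1 := by exact_mod_cast h1
    have h3 : (m : ℝ) = i + l - 1 := by linarith
    simp only
    rw [h3]
    ring
  rw [← T_add, ← T_smul, ← T_smul] at e6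
  linear_combination (rf (5/3) m * rf (4/3) m) * e6

theorem wp3_zero (A B : ℝ) : wp3 A B 0 = wp1 A B 0 := by
  simp [wp3, wp1, rf]

end A3

theorem t3_WI : S3_WI := by
  intro A B hA hB h
  have h1 := Pool.Agent.H966.T1.t1_WI A B hA hB h
  set S := (Pool.Agent.NH38.Fork.x2 A B - Pool.Agent.NH38.Fork.x1 A B)^(-(5:ℝ)/3)
  have h2 : HasSum (fun m => Pool.Agent.H966.T1.wp1 A B (m+1)) (S - Pool.Agent.H966.T1.wp1 A B 0) := by
    have := (hasSum_nat_add_iff' 1).mpr h1
    simpa using this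
  have h3 : HasSum (fun m => wp3 A B (m+1))
      (S - Pool.Agent.H966.T1.wp1 A B 0 + (A - B) * S) := by
    refine (h2.add (h1.mul_left (A - B))).congr_fun ?_
    intro m
    exact A3.wp3_succ A B m
  have h4 : Pool.Agent.NH38.Fork.x1 A B + Pool.Agent.NH38.Fork.x2 A B = 1 + A - B := by
    unfold Pool.Agent.NH38.Fork.x1 Pool.Agent.NH38.Fork.x2
    ring
  rw [h4, ← hasSum_nat_add_iff' 1]
  simp only [Finset.sum_range_one]
  rw [A3.wp3_zero]
  have e : (1 + A - B) * S - Pool.Agent.H966.T1.wp1 A B 0 =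
      S - Pool.Agent.H966.T1.wp1 A B 0 + (A - B) * S := by ring
  rw [e]
  exact h3

end Pool.Agent.H965.K3
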