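import Pool.Agent.H965.K3.Stubs
import Pool.Graph.R_pool_sql_team_seeded_3dad9d7b.NH38.Fork.NG4
import Pool.Agent.H966.T1.A2

/-!
Forked channels, the walls of the left arm to the inner wall of the right arm (helper965):
task A4, the limit function. Adapted from `H966/T1/A2.lean` and `NH38/Fork/NG4.lean`.
-/

set_option autoImplicit false

namespace Pool.Agent.H965.K3

open Filter Topology MeasureTheory

namespace A4

open Pool.Agent.NH38.Step (cardy)
open Pool.Agent.NH38.Step.A2 (BB BB_pos cardy_zero cardy_cont cardy_deriv)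
open Pool.Agent.H757R2.CardyLimit (gd int_gd)
open Pool.Agent.NH38.Fork (x1 x2 rf Bt rr)
open Pool.Agent.NH38.Fork.NG4 (rf_pos rf_shift disc_pos roots root_cont root_deriv Bt_BB)
open Pool.Agent.H966.T1.A2 (roots1 root2_deriv)

theorem wp3_nonneg {A B : ℝ} (hA : 0 < A) (hB : 0 < B) (m : ℕ) : 0 ≤ wp3 A B m := by
  refine Finset.sum_nonneg fun i _ => ?_
  have h1 := rf_pos (s := 4/3) (by norm_num) m
  have h2 := rf_pos (s := 2/3) (by norm_num) m
  have h3 := rf_pos (s := 4/3) (by norm_num) i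
  have h4 := rf_pos (s := 1/3) (by norm_num) (m - i)
  positivity

theorem ap3_eq (A B : ℝ) (m : ℕ) : ap3 A B m = 1/3 * (wp3 A B m * (1 / ((m:ℝ) + 1/3))) := by
  have hm : (m:ℝ) + 1/3 ≠ 0 := by positivity
  have h1 : rf (1/3) m = 1/3 * rf (4/3) m * (1 / ((m:ℝ) + 1/3)) := by
    rw [← rf_shift]
    field_simp
  unfold ap3 wp3
  rw [Finset.sum_mul, Finset.mul_sum]
  refine Finset.sum_congr rfl fun i _ => ?_
  rw [h1]
  ring

theorem wp3_scale (A B t : ℝ) (m : ℕ) : wp3 (t * A) (t * B) m = t ^ m * wp3 A B m := by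
  unfold wp3
  rw [Finset.mul_sum]
  refine Finset.sum_congr rfl fun i hi => ?_
  have hi' : i ≤ m := Nat.lt_succ_iff.1 (Finset.mem_range.1 hi)
  have h1 : t ^ m = t ^ i * t ^ (m - i) := by
    rw [← pow_add]
    congr 1
    omega
  rw [mul_pow, mul_pow, h1]
  ring

/-- the cross-ratio -/
noncomputable def lam (A B : ℝ) : ℝ := (1 - x2 A B) / (1 - x1 A B)

section

variable {ρ σ : ℝ} (hρ : 0 < ρ) (hσ : 0 < σ) (hρσ : ρ + σ < 1)
include hρ hσ hρσ

/-- the cross-ratio stays in `[0, 1]` -/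
theorem lam_mem {t : ℝ} (h0 : 0 ≤ t) (h1 : t ≤ 1) :
    lam (t * ρ^2) (t * σ^2) ∈ Set.Icc (0:ℝ) 1 ∧
    (0 < t → 0 < lam (t * ρ^2) (t * σ^2) ∧ lam (t * ρ^2) (t * σ^2) < 1) := by
  obtain ⟨hr, h21, h12, h3, h4, h5, h6⟩ := roots hρ hσ hρσ h0 h1
  obtain ⟨h7, h8, h9, h10⟩ := roots1 hρ hσ hρσ h0 h1
  unfold lam
  set x := x1 (t * ρ^2) (t * σ^2) with hx
  set y := x2 (t * ρ^2) (t * σ^2) with hy
  have hden : 0 < 1 - x := by linarith
  refine ⟨⟨div_nonneg (by linarith) hden.le, ?_⟩, fun ht => ⟨?_, ?_⟩⟩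
  · rw [div_le_one hden]
    linarith
  · exact div_pos (by linarith [h10 ht]) hden
  · rw [div_lt_one hden]
    linarith

theorem lam_cont : ContinuousOn (fun t : ℝ => lam (t * ρ^2) (t * σ^2)) (Set.Icc 0 1) := by
  have h1 : ContinuousOn (fun t : ℝ => x1 (t * ρ^2) (t * σ^2)) (Set.Icc 0 1) := root_cont
  have h2 : ContinuousOn (fun t : ℝ => x2 (t * ρ^2) (t * σ^2)) (Set.Icc 0 1) := by
    unfold x2 rr
    fun_prop
  unfold lam
  refine ContinuousOn.div (by fun_prop) (by fun_prop) fun t ht => ?_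
  obtain ⟨h7, h8, h9, h10⟩ := roots1 hρ hσ hρσ ht.1 ht.2
  linarith

theorem lam_deriv {t : ℝ} (h0 : 0 < t) (h1 : t < 1) :
    HasDerivAt (fun t : ℝ => lam (t * ρ^2) (t * σ^2))
      (lam (t * ρ^2) (t * σ^2) * (x1 (t * ρ^2) (t * σ^2) + x2 (t * ρ^2) (t * σ^2)) /
        (t * rr (t * ρ^2) (t * σ^2))) t := by
  have hr1 := root_deriv hρ hσ hρσ h0 h1
  have hr2 := root2_deriv hρ hσ hρσ h0 h1
  obtain ⟨hr, h21, h12, h3, h4, h5, h6⟩ := roots hρ hσ hρσ h0.le h1.le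
  obtain ⟨h7, h8, h9, h10⟩ := roots1 hρ hσ hρσ h0.le h1.le
  have hden : 0 < 1 - x1 (t * ρ^2) (t * σ^2) := by linarith
  have g := (hr2.const_sub 1).div (hr1.const_sub 1) hden.ne'
  refine g.congr_deriv ?_
  unfold lam
  set x := x1 (t * ρ^2) (t * σ^2) with hx
  set y := x2 (t * ρ^2) (t * σ^2) with hy
  set r := rr (t * ρ^2) (t * σ^2) with hrdef
  have ht : t ≠ 0 := h0.ne'
  have hr' : r ≠ 0 := hr.ne'
  have hx' : 1 - x ≠ 0 := by linarith
  field_simp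
  ring

theorem integ3 : IntervalIntegrable (fun t : ℝ => t^(-(2:ℝ)/3) *
      ((x1 (t * ρ^2) (t * σ^2) + x2 (t * ρ^2) (t * σ^2)) *
        (x2 (t * ρ^2) (t * σ^2) - x1 (t * ρ^2) (t * σ^2))^(-(5:ℝ)/3))) volume 0 1 ∧
    ∫ t in (0:ℝ)..1, t^(-(2:ℝ)/3) *
      ((x1 (t * ρ^2) (t * σ^2) + x2 (t * ρ^2) (t * σ^2)) *
        (x2 (t * ρ^2) (t * σ^2) - x1 (t * ρ^2) (t * σ^2))^(-(5:ℝ)/3)) =
      (σ^((2:ℝ)/3))⁻¹ * (BB * cardy (lam (ρ^2) (σ^2))) := by
  set W : ℝ → ℝ := fun t => t^(-(2:ℝ)/3) *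
      ((x1 (t * ρ^2) (t * σ^2) + x2 (t * ρ^2) (t * σ^2)) *
        (x2 (t * ρ^2) (t * σ^2) - x1 (t * ρ^2) (t * σ^2))^(-(5:ℝ)/3)) with hW
  set g : ℝ → ℝ := fun t => (σ^((2:ℝ)/3))⁻¹ * (BB * cardy (lam (t * ρ^2) (t * σ^2)))
    with hg
  have hcont : ContinuousOn g (Set.Icc 0 1) := by
    have h1 : ContinuousOn (fun t : ℝ => cardy (lam (t * ρ^2) (t * σ^2))) (Set.Icc 0 1) :=
      cardy_cont.comp (lam_cont hρ hσ hρσ) fun t ht => (lam_mem hρ hσ hρσ ht.1 ht.2).1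
    exact (h1.const_smul BB).const_smul (σ^((2:ℝ)/3))⁻¹
  have hσ3 : 0 < σ^((2:ℝ)/3) := Real.rpow_pos_of_pos hσ _
  have hderiv : ∀ t ∈ Set.Ioo (0:ℝ) 1, HasDerivAt g (W t) t := by
    intro t ht
    obtain ⟨hr, h21, h12, _, _, hx2, h5⟩ := roots hρ hσ hρσ ht.1.le ht.2.le
    obtain ⟨h7, h8, h9, h10⟩ := roots1 hρ hσ hρσ ht.1.le ht.2.le
    obtain ⟨hx1, hx11⟩ := h5 ht.1
    have hx21 := h10 ht.1
    obtain ⟨hl0, hl1⟩ := (lam_mem hρ hσ hρσ ht.1.le ht.2.le).2 ht.1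
    have ht0 := ht.1
    have h1 := (cardy_deriv hl0 hl1).comp t (lam_deriv hρ hσ hρσ ht.1 ht.2)
    have h2 := (h1.const_mul BB).const_mul (σ^((2:ℝ)/3))⁻¹
    have e : W t = (σ^((2:ℝ)/3))⁻¹ * (BB * (gd (lam (t * ρ^2) (t * σ^2)) / BB *
        (lam (t * ρ^2) (t * σ^2) * (x1 (t * ρ^2) (t * σ^2) + x2 (t * ρ^2) (t * σ^2)) /
          (t * rr (t * ρ^2) (t * σ^2))))) := by
      rw [hW]
      simp only
      rw [h21]
      unfold lam at hl0 hl1 ⊢
      set x := x1 (t * ρ^2) (t * σ^2) with hx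
      set y := x2 (t * ρ^2) (t * σ^2) with hy
      set r := rr (t * ρ^2) (t * σ^2) with hrdef
      have hx1m : 0 < 1 - x := by linarith
      have hy1m : 0 < 1 - y := by linarith
      have hBB := BB_pos
      set l := (1 - y) / (1 - x) with hl
      have hl1' : 1 - l = r / (1 - x) := by
        rw [hl, ← h21]
        field_simp
        ring
      -- `l (1-l) = (1-y) r / (1-x)²`
      have hll : l * (1 - l) = (1 - y) * r / (1 - x)^2 := by
        rw [hl1', hl]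
        field_simp
      have a1 : gd l * l = (1 - y)^((1:ℝ)/3) * (r^(-(2:ℝ)/3) * (1 - x)^((1:ℝ)/3)) := by
        unfold Pool.Agent.H757R2.CardyLimit.gd
        rw [hll, Real.div_rpow (by positivity) (by positivity),
          Real.mul_rpow hy1m.le hr.le]
        have b1 : ((1 - x)^2)^(-(2/3) : ℝ) = (1 - x)^(-(4:ℝ)/3) := by
          rw [← Real.rpow_natCast (1 - x) 2, ← Real.rpow_mul hx1m.le]
          norm_num
        have b2 : (1 - y)^((1:ℝ)/3) = (1 - y)^(-(2/3) : ℝ) * (1 - y) := by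
          conv_rhs => rw [← Real.rpow_one (1 - y)]
          rw [← Real.rpow_mul hy1m.le, one_mul, ← Real.rpow_add hy1m]
          norm_num
        have b3 : (1 - x)^((1:ℝ)/3) = ((1 - x)^(-(4:ℝ)/3))⁻¹ * (1 - x)⁻¹ := by
          rw [← Real.rpow_neg hx1m.le, ← Real.rpow_neg_one (1 - x), ← Real.rpow_add hx1m]
          norm_num
        have b4 : r^(-(2/3) : ℝ) = r^(-(2:ℝ)/3) := by norm_num
        rw [b1, b2, b3, b4, hl]
        have c1 : (1 - x)^(-(4:ℝ)/3) ≠ 0 := (Real.rpow_pos_of_pos hx1m _).ne'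
        field_simp
      have a2 : (1 - y)^((1:ℝ)/3) * (1 - x)^((1:ℝ)/3) = t^((1:ℝ)/3) * σ^((2:ℝ)/3) := by
        rw [← Real.mul_rpow hy1m.le hx1m.le, mul_comm (1 - y), h7,
          Real.mul_rpow ht0.le (by positivity), ← Real.rpow_natCast σ 2, ← Real.rpow_mul hσ.le]
        norm_num
      have a3 : t^(-(2:ℝ)/3) = t^((1:ℝ)/3) / t := by
        rw [eq_div_iff ht0.ne']
        calc t^(-(2:ℝ)/3) * t = t^(-(2:ℝ)/3) * t^(1:ℝ) := by rw [Real.rpow_one]
          _ = _ := by rw [← Real.rpow_add ht0]; norm_num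
      have a4 : r^(-(5:ℝ)/3) = r^(-(2:ℝ)/3) / r := by
        rw [eq_div_iff hr.ne']
        calc r^(-(5:ℝ)/3) * r = r^(-(5:ℝ)/3) * r^(1:ℝ) := by rw [Real.rpow_one]
          _ = _ := by rw [← Real.rpow_add hr]; norm_num
      have a5 : BB * (gd l / BB * (l * (x + y) / (t * r))) = (gd l * l) * (x + y) / (t * r) := by
        field_simp
      have a6 : (1 - y)^((1:ℝ)/3) * (r^(-(2:ℝ)/3) * (1 - x)^((1:ℝ)/3)) * (x + y) / (t * r) =
          ((1 - y)^((1:ℝ)/3) * (1 - x)^((1:ℝ)/3)) * r^(-(2:ℝ)/3) * (x + y) / (t * r) := by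
        ring
      rw [a5, a1, a6, a2, a3, a4]
      field_simp
    rw [e]
    exact h2
  have hpos : ∀ t ∈ Set.Ioo (0:ℝ) 1, 0 ≤ W t := by
    intro t ht
    obtain ⟨hr, h21, h12, h3, _, hx2, h5⟩ := roots hρ hσ hρσ ht.1.le ht.2.le
    have ht0 := ht.1
    rw [hW]
    simp only
    rw [h21]
    positivity
  have hint : IntervalIntegrable W volume 0 1 := by
    refine intervalIntegral.intervalIntegrable_deriv_of_nonneg (g := g) ?_ ?_ ?_
    · rw [Set.uIcc_of_le zero_le_one]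
      exact hcont
    · rw [min_eq_left zero_le_one, max_eq_right zero_le_one]
      exact hderiv
    · rw [min_eq_left zero_le_one, max_eq_right zero_le_one]
      exact hpos
  refine ⟨hint, ?_⟩
  rw [intervalIntegral.integral_eq_sub_of_hasDerivAt_of_le zero_le_one hcont hderiv hint, hg]
  simp only [one_mul, zero_mul]
  have h0 : lam 0 0 = 0 := by
    unfold lam x2 x1 rr
    simp
  rw [h0, cardy_zero]
  ring

end

end A4

open A4 Pool.Agent.NH38.Step Pool.Agent.NH38.Fork Pool.Agent.NH38.Fork.NG4 in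
theorem t3_F4 (hWI : S3_WI) : S3_F4 := by
  intro ρ σ hρ hσ hρσ
  have hA : 0 < ρ^2 := by positivity
  have hB : 0 < σ^2 := by positivity
  have hWt : ∀ t : ℝ, 0 < t → t ≤ 1 → HasSum (fun m : ℕ => t^m * wp3 (ρ^2) (σ^2) m)
      ((x1 (t * ρ^2) (t * σ^2) + x2 (t * ρ^2) (t * σ^2)) *
        (x2 (t * ρ^2) (t * σ^2) - x1 (t * ρ^2) (t * σ^2))^(-(5:ℝ)/3)) := by
    intro t h0 h1
    have hs1 : √t ≤ 1 := Real.sqrt_le_iff.2 ⟨zero_le_one, by linarith⟩
    have hs0 : 0 ≤ √t := Real.sqrt_nonneg _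
    have h2 : √(t * ρ^2) + √(t * σ^2) < 1 := by
      rw [Real.sqrt_mul h0.le, Real.sqrt_mul h0.le, Real.sqrt_sq hρ.le, Real.sqrt_sq hσ.le]
      nlinarith
    have h3 := hWI (t * ρ^2) (t * σ^2) (by positivity) (by positivity) h2
    have e : wp3 (t * ρ^2) (t * σ^2) = fun m : ℕ => t^m * wp3 (ρ^2) (σ^2) m := by
      funext m
      exact wp3_scale _ _ _ _
    rwa [e] at h3
  have hw1 : Summable (fun m : ℕ => wp3 (ρ^2) (σ^2) m) := by
    have := (hWt 1 one_pos le_rfl).summable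
    simpa using this
  -- the integrals of the terms
  set F : ℕ → ℝ → ℝ := fun m t => wp3 (ρ^2) (σ^2) m * t^((m:ℝ) - 2/3) with hF
  have hexp : ∀ m : ℕ, -1 < (m:ℝ) - 2/3 := fun m => by
    have : (0:ℝ) ≤ m := Nat.cast_nonneg m
    linarith
  have hFint : ∀ m, IntervalIntegrable (F m) volume 0 1 := fun m =>
    (intervalIntegral.intervalIntegrable_rpow' (hexp m)).const_mul _
  have hFval : ∀ m, ∫ t in (0:ℝ)..1, F m t = wp3 (ρ^2) (σ^2) m * (1 / ((m:ℝ) + 1/3)) := by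
    intro m
    rw [hF]
    simp only
    rw [intervalIntegral.integral_const_mul, integral_rpow (Or.inl (hexp m)), Real.one_rpow,
      Real.zero_rpow (by have := hexp m; linarith)]
    congr 1
    rw [sub_zero]
    congr 1
    ring
  have hsum := MeasureTheory.hasSum_integral_of_summable_integral_norm
    (μ := volume.restrict (Set.Ioc (0:ℝ) 1)) (F := F) (fun m => (intervalIntegrable_iff_integrableOn_Ioc_of_le
      zero_le_one).1 (hFint m)) (by
    have h1 : ∀ m, ∫ t in Set.Ioc (0:ℝ) 1, ‖F m t‖ = wp3 (ρ^2) (σ^2) m * (1 / ((m:ℝ) + 1/3)) := by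
      intro m
      rw [← hFval m, intervalIntegral.integral_of_le zero_le_one]
      refine MeasureTheory.setIntegral_congr_fun measurableSet_Ioc fun t ht => ?_
      have : 0 ≤ F m t := mul_nonneg (wp3_nonneg hA hB m) (Real.rpow_nonneg ht.1.le _)
      exact Real.norm_of_nonneg this
    simp only [h1]
    refine Summable.of_nonneg_of_le (fun m => mul_nonneg (wp3_nonneg hA hB m) (by positivity))
      (fun m => ?_) (hw1.mul_right 3)
    refine mul_le_mul_of_nonneg_left ?_ (wp3_nonneg hA hB m)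
    rw [div_le_iff₀ (by positivity)]
    have : (0:ℝ) ≤ m := Nat.cast_nonneg m
    linarith)
  have hval : ∫ t in Set.Ioc (0:ℝ) 1, ∑' m, F m t =
      (σ^((2:ℝ)/3))⁻¹ * (Pool.Agent.NH38.Step.A2.BB * cardy (lam (ρ^2) (σ^2))) := by
    rw [← (integ3 hρ hσ hρσ).2, intervalIntegral.integral_of_le zero_le_one]
    refine MeasureTheory.setIntegral_congr_fun measurableSet_Ioc fun t ht => ?_
    have h1 := ((hWt t ht.1 ht.2).mul_left (t^(-(2:ℝ)/3))).tsum_eq
    rw [← h1]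
    refine tsum_congr fun m => ?_
    have ht0 : 0 < t := ht.1
    rw [hF]
    simp only
    have e : t^((m:ℝ) - 2/3) = t^(-(2:ℝ)/3) * t^m := by
      rw [← Real.rpow_natCast t m, ← Real.rpow_add ht0]
      congr 1
      ring
    rw [e]
    ring
  rw [hval] at hsum
  have hsum2 : HasSum (fun m => ap3 (ρ^2) (σ^2) m)
      (1/3 * ((σ^((2:ℝ)/3))⁻¹ * (Pool.Agent.NH38.Step.A2.BB * cardy (lam (ρ^2) (σ^2))))) := by
    have h1 := hsum.mul_left (1/3)
    have e : (fun m => ap3 (ρ^2) (σ^2) m) = fun m => 1/3 * ∫ t in Set.Ioc (0:ℝ) 1, F m t := by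
      funext m
      rw [ap3_eq, ← hFval m, intervalIntegral.integral_of_le zero_le_one]
    rwa [e]
  have h1 := hsum2.mul_left ((2*σ)^((2:ℝ)/3) * (3 / Bt))
  have hσ3 : 0 < σ^((2:ℝ)/3) := Real.rpow_pos_of_pos hσ _
  have h23 : (0:ℝ) < 2^((2:ℝ)/3) := by positivity
  have hBB := Pool.Agent.NH38.Step.A2.BB_pos
  have e : (2*σ)^((2:ℝ)/3) * (3 / Bt) * (1/3 * ((σ^((2:ℝ)/3))⁻¹ *
      (Pool.Agent.NH38.Step.A2.BB * cardy (lam (ρ^2) (σ^2))))) = 2 * cardy (lam (ρ^2) (σ^2)) := by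
    rw [Bt_BB, Real.mul_rpow (by norm_num) hσ.le]
    field_simp
  rw [e] at h1
  exact h1

end Pool.Agent.H965.K3
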