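import Pool.Agent.H965.K3.Stubs
import Pool.Graph.R_pool_sql_team_seeded_3dad9d7b.NH38.Fork.NG1
import Pool.Graph.R_pool_sql_team_seeded_3dad9d7b.NH38.Fork.NG2
import Pool.Graph.R_pool_sql_team_seeded_3dad9d7b.NH38.Fork.NG5
import Pool.Graph.R_pool_sql_team_seeded_3dad9d7b.NH38.Fork.N1
import Pool.Graph.R_pool_sql_team_seeded_3dad9d7b.NH38.Fork.N5

set_option autoImplicit false

/-!
# K3-A5: the asymptotics of `FK` (S3_Asy). helper539.
-/

namespace Pool.Agent.H965.K3

open Polynomial Filter Topology Finset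
open Pool.Agent.NH38.Step (cardy)
open Pool.Agent.NH38.Fork
open Pool.Agent.NH38.Fork.NG5

theorem t3_Asy (hF4 : S3_F4) (hdA : S3_dvA) (hdp : S3_pos) (hFK : S3_FKle) : S3_Asy := by
  intro a b N ρ σ hρ hσ hρσ ha hb hN habN hNt hla hlb
  have hMJ := t_MJ
  have hpos := t_pos
  have hsv := t_svA
  have hKAP := t_KAP
  -- `N = 2n+1`
  choose n hn using hN
  have hN2 : ∀ i, N i = 2 * n i + 1 := hn
  have hab : ∀ i, a i + b i + 1 = 2 * ((a i + b i + 1) / 2) := fun i => by
    obtain ⟨x, hx⟩ := ha i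
    obtain ⟨y, hy⟩ := hb i
    omega
  set n0 : ℕ → ℕ := fun i => (a i + b i + 1) / 2 with hn0
  have hab' : ∀ i, a i + b i + 1 = 2 * n0 i := hab
  have hnn : ∀ i, n0 i ≤ n i := fun i => by
    have := habN i; have := hN2 i; have := hab' i; omega
  have hnt : Tendsto n atTop atTop := by
    rw [tendsto_atTop] at hNt ⊢
    intro b
    filter_upwards [hNt (2 * b + 1)] with i hi
    have := hN2 i
    omega
  have hnt' : Tendsto (fun i => ((n i : ℕ) : ℝ)) atTop atTop :=
    tendsto_natCast_atTop_atTop.comp hnt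
  have hc : ∀ c : ℝ, Tendsto (fun i => c / (n i : ℝ)) atTop (𝓝 0) := fun c =>
    Tendsto.div_atTop tendsto_const_nhds hnt'
  have key : ∀ (f : ℕ → ℕ) (τ : ℝ), Tendsto (fun i => (f i : ℝ) / N i) atTop (𝓝 τ) →
      Tendsto (fun i => (f i : ℝ) / n i) atTop (𝓝 (2 * τ)) := by
    intro f τ hf
    have h1 : Tendsto (fun i => (f i : ℝ) / N i * (2 * (1 + (1/2) / n i))) atTop
        (𝓝 (τ * (2 * (1 + 0)))) := hf.mul ((tendsto_const_nhds.add (hc (1/2))).const_mul 2)
    rw [show τ * (2 * (1 + 0)) = 2 * τ by ring] at h1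
    refine h1.congr' ?_
    filter_upwards [hnt'.eventually_gt_atTop 0] with i hi
    rw [hN2 i]
    push_cast
    have h2 : (2 * (n i : ℝ) + 1) ≠ 0 := by positivity
    field_simp
  have hla' := key a ρ hla
  have hlb' := key b σ hlb
  have toinf : ∀ (f : ℕ → ℕ) (τ : ℝ), 0 < τ → Tendsto (fun i => (f i : ℝ) / n i) atTop (𝓝 τ) →
      Tendsto f atTop atTop := by
    intro f τ hτ hf
    have h1 : Tendsto (fun i => (n i : ℝ) * ((f i : ℝ) / n i)) atTop atTop :=
      hnt'.atTop_mul_pos hτ hf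
    have h2 : Tendsto (fun i => (f i : ℝ)) atTop atTop := by
      refine h1.congr' ?_
      filter_upwards [hnt'.eventually_gt_atTop 0] with i hi
      field_simp
    exact tendsto_natCast_atTop_iff.mp h2
  have hat : Tendsto a atTop atTop := toinf a (2*ρ) (by positivity) hla'
  have hbt : Tendsto b atTop atTop := toinf b (2*σ) (by positivity) hlb'
  have half : ∀ (f : ℕ → ℕ), Tendsto f atTop atTop → Tendsto (fun i => (f i - 1) / 2) atTop atTop := by
    intro f hf
    rw [tendsto_atTop]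
    intro c
    filter_upwards [hf.eventually_ge_atTop (2 * c + 1)] with i hi
    omega
  have half' : ∀ (f : ℕ → ℕ), Tendsto f atTop atTop → Tendsto (fun i => f i / 2) atTop atTop := by
    intro f hf
    rw [tendsto_atTop]
    intro c
    filter_upwards [hf.eventually_ge_atTop (2 * c + 1)] with i hi
    omega
  -- the bound `r`
  set r : ℝ := (1 + (ρ + σ)) / 2 with hr
  have hr1 : r < 1 := by rw [hr]; linarith
  have hr0 : 0 < r := by rw [hr]; linarith
  have hrb : ∀ᶠ i in atTop, 2 * (n0 i : ℝ) - 1 ≤ r * (2 * n i - 1) := by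
    have h1 : Tendsto (fun i => (a i : ℝ) / n i + (b i : ℝ) / n i + 1 / (n i : ℝ)) atTop
        (𝓝 (2*ρ+2*σ + 0)) := (hla'.add hlb').add (hc 1)
    have h2 : 2*ρ+2*σ + 0 < 2 * r := by rw [hr]; linarith
    filter_upwards [h1.eventually (gt_mem_nhds h2), hnt'.eventually_gt_atTop 0] with i hi hi0
    rw [← add_div, ← add_div, div_lt_iff₀ hi0] at hi
    have h3 : (a i : ℝ) + b i + 1 = 2 * n0 i := by exact_mod_cast hab' i
    rw [h3] at hi
    nlinarith
  -- the constants
  have hK := hKAP b n (2*σ) (by positivity) hbt hnt hlb'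
  set c0 : ℝ := (2*σ)^((2:ℝ)/3) * (3 / Bt) with hc0
  -- the terms
  let t : ℕ → ℕ → ℝ := fun i j => if j < n0 i then ((cd (a i) (b i) j * mj (N i) j : ℚ) : ℝ) else 0
  have hcg : ∀ x y j, Even x → 0 ≤ cd x y j := by
    intro x y j hx
    unfold cd
    rw [Polynomial.coeff_mul]
    exact Finset.sum_nonneg fun p _ => mul_nonneg (hdp x p.1 hx) (hpos y p.2).2
  have hsum : ∀ i, ∑' j, t i j = 2 * ((FK (a i) (b i) (N i) : ℚ) : ℝ) := by
    intro i
    rw [tsum_eq_sum (s := range (n0 i)) (fun j hj => by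
      simp only [t]; rw [if_neg (by rwa [mem_range] at hj)])]
    unfold FK
    push_cast
    rw [mul_div_cancel₀ _ (by norm_num : (2:ℝ) ≠ 0)]
    refine Finset.sum_congr rfl fun j hj => ?_
    simp only [t]
    rw [if_pos (mem_range.mp hj)]
    push_cast
    rfl
  have hbd0 : ∀ i j, 2 ≤ a i → j < n0 i → ((cd (a i) (b i) j * mj (2 * n0 i + 1) j : ℚ) : ℝ) ≤ 2 := by
    intro i j ha2 hj
    have h1 := hFK (a i) (b i) (ha i) ha2 (hb i)
    unfold FK at h1
    have e1 : a i + b i + 2 = 2 * n0 i + 1 := by have := hab' i; omega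
    rw [e1, hab' i, Nat.mul_div_cancel_left _ (by norm_num : 0 < 2)] at h1
    have h2 := Finset.single_le_sum (f := fun j => cd (a i) (b i) j * mj (2 * n0 i + 1) j)
      (s := range (n0 i)) (fun l hl => mul_nonneg (hcg _ _ _ (ha i)) (mj_nonneg hMJ
        (by rw [mem_range] at hl; omega))) (mem_range.mpr hj)
    have h3 : cd (a i) (b i) j * mj (2 * n0 i + 1) j ≤ 2 := by
      linarith
    exact_mod_cast h3
  -- dominated convergence
  have hB := hF4 ρ σ hρ hσ hρσ
  have hdc : Tendsto (fun i => ∑' j, t i j) atTop (𝓝 (∑' j : ℕ, (2*σ)^((2:ℝ)/3) * (3 / Bt) *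
      ap3 (ρ^2) (σ^2) j)) := by
    refine tendsto_tsum_of_dominated_convergence (bound := fun j => 2 * r^j) ?_ ?_ ?_
    · exact (summable_geometric_of_lt_one hr0.le hr1).mul_left 2
    · intro j
      -- the termwise limit
      have hv : ∀ m, Tendsto (fun i => (((dv (a i)).coeff m : ℚ) : ℝ) / (a i : ℝ)^(2*m)) atTop
          (𝓝 (1 / (4^m * rf (1/3) m * (Nat.factorial m : ℝ)))) := by
        intro m
        refine ((hdA m).comp (half' a hat)).congr fun i => ?_
        obtain ⟨y, hy⟩ := ha i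
        simp only [Function.comp]
        rw [show 2 * (a i / 2) = a i by omega]
      have hs : ∀ m, Tendsto (fun i => (((sv (b i)).coeff m / kap (b i) : ℚ) : ℝ) /
          (b i : ℝ)^(2*m)) atTop (𝓝 (1 / (4^m * rf (4/3) m * (Nat.factorial m : ℝ)))) := by
        intro m
        refine ((hsv m).comp (half b hbt)).congr fun i => ?_
        obtain ⟨y, hy⟩ := hb i
        simp only [Function.comp]
        rw [show 2 * ((b i - 1) / 2) + 1 = b i by omega]
      have hm := mj_lim hMJ hnt j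
      have hterm : Tendsto (fun i => ∑ p ∈ antidiagonal j,
          (((((sv (b i)).coeff p.1 / kap (b i) : ℚ) : ℝ) / (b i : ℝ)^(2*p.1)) *
            ((b i : ℝ) / n i)^(2*p.1)) *
          (((((dv (a i)).coeff p.2 : ℚ) : ℝ) / (a i : ℝ)^(2*p.2)) * ((a i : ℝ) / n i)^(2*p.2)) *
          (((kap (b i) * M0 (n i) : ℚ) : ℝ) *
            ((n i : ℝ)^(2*j) * ((mj (2 * n i + 1) j / M0 (n i) : ℚ) : ℝ)))) atTop
          (𝓝 (∑ p ∈ antidiagonal j,
            ((1 / (4^p.1 * rf (4/3) p.1 * (Nat.factorial p.1 : ℝ))) * (2*σ)^(2*p.1)) *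
            ((1 / (4^p.2 * rf (1/3) p.2 * (Nat.factorial p.2 : ℝ))) * (2*ρ)^(2*p.2)) *
            (c0 * (rf (1/3) j * rf (2/3) j)))) := by
        refine tendsto_finsetSum _ fun p _ => ?_
        exact (((hs p.1).mul (hlb'.pow _)).mul ((hv p.2).mul (hla'.pow _))).mul (hK.mul hm)
      have hval : (∑ p ∈ antidiagonal j,
            ((1 / (4^p.1 * rf (4/3) p.1 * (Nat.factorial p.1 : ℝ))) * (2*σ)^(2*p.1)) *
            ((1 / (4^p.2 * rf (1/3) p.2 * (Nat.factorial p.2 : ℝ))) * (2*ρ)^(2*p.2)) *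
            (c0 * (rf (1/3) j * rf (2/3) j))) = (2*σ)^((2:ℝ)/3) * (3 / Bt) * ap3 (ρ^2) (σ^2) j := by
        unfold ap3
        rw [Finset.Nat.sum_antidiagonal_eq_sum_range_succ (fun x y =>
          ((1 / (4^x * rf (4/3) x * (Nat.factorial x : ℝ))) * (2*σ)^(2*x)) *
            ((1 / (4^y * rf (1/3) y * (Nat.factorial y : ℝ))) * (2*ρ)^(2*y)) *
            (c0 * (rf (1/3) j * rf (2/3) j))) j, Finset.mul_sum]
        refine Finset.sum_congr rfl fun l hl => ?_
        rw [hc0, mul_pow, mul_pow, pow_mul (2:ℝ), pow_mul (2:ℝ), pow_mul σ, pow_mul ρ]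
        have h4 : ((2:ℝ)^2) = 4 := by norm_num
        rw [h4]
        have h5 : (4:ℝ)^l ≠ 0 := by positivity
        have h6 : (4:ℝ)^(j-l) ≠ 0 := by positivity
        field_simp
      rw [hval] at hterm
      refine hterm.congr' ?_
      filter_upwards [hat.eventually_gt_atTop j, hbt.eventually_gt_atTop j,
        hnt'.eventually_gt_atTop 0] with i hia hib hin
      simp only [t]
      have hab2 := hab' i
      rw [if_pos (by omega)]
      unfold cd
      rw [mul_comm (dv (a i)) (sv (b i)), Polynomial.coeff_mul, Finset.sum_mul, Rat.cast_sum]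
      refine Finset.sum_congr rfl fun p hp => ?_
      have hp' : p.1 + p.2 = j := by simpa using hp
      rw [← hp', hN2 i]
      have h1 : (a i : ℝ) ≠ 0 := by
        have : 0 < a i := by omega
        positivity
      have h2 : (b i : ℝ) ≠ 0 := by
        have : 0 < b i := by omega
        positivity
      have h3 : (n i : ℝ) ≠ 0 := hin.ne'
      have h4 : ((kap (b i) : ℚ) : ℝ) ≠ 0 := by exact_mod_cast (kap_pos (b i)).ne'
      have h5 : ((M0 (n i) : ℚ) : ℝ) ≠ 0 := by exact_mod_cast (M0_pos (n i)).ne'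
      push_cast
      rw [mul_add, pow_add, div_pow, div_pow]
      field_simp
    · filter_upwards [hrb, hat.eventually_ge_atTop 2] with i hi ha2 j
      by_cases hj : j < n0 i
      · simp only [t]
        rw [if_pos hj, hN2 i]
        have h1 := mj_le hMJ hj.le (hnn i) hi hr0.le hr1.le
        have h2 := hbd0 i j ha2 hj
        have h3 : (0:ℝ) ≤ ((cd (a i) (b i) j : ℚ) : ℝ) := by exact_mod_cast hcg _ _ _ (ha i)
        have h4 : (0:ℝ) ≤ ((mj (2 * n i + 1) j : ℚ) : ℝ) := by
          exact_mod_cast mj_nonneg hMJ (hj.le.trans (hnn i))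
        push_cast at h2 ⊢
        rw [Real.norm_eq_abs, abs_of_nonneg (mul_nonneg h3 h4)]
        calc _ ≤ ((cd (a i) (b i) j : ℚ) : ℝ) * (r^j * ((mj (2*n0 i+1) j : ℚ) : ℝ)) :=
              mul_le_mul_of_nonneg_left h1 h3
          _ = r^j * (((cd (a i) (b i) j : ℚ) : ℝ) * ((mj (2*n0 i+1) j : ℚ) : ℝ)) := by ring
          _ ≤ r^j * 2 := mul_le_mul_of_nonneg_left h2 (by positivity)
          _ = _ := by ring
      · simp only [t]
        rw [if_neg hj, norm_zero]
        positivity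
  rw [hB.tsum_eq] at hdc
  simp only [hsum] at hdc
  have h5 := hdc.const_mul (1/2 : ℝ)
  have e : ∀ x : ℝ, 1/2 * (2*x) = x := fun x => by ring
  simp only [e] at h5
  exact h5

end Pool.Agent.H965.K3
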