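import Pool.Agent.H965.K3.Stubs
import Pool.Graph.R_pool_sql_team_seeded_3dad9d7b.NH38.Fork.Base
import Pool.Graph.R_seed8.H492C.HB

/-!
K3, task B1: reflection defects of the three leg amplitude for the list `t, 1, …, 1`.
-/

namespace Pool.Agent.H965.K3.B1

open Pool.Agent.H988R2.Perc hiding X
open Pool.Agent.H492C (comb comb2 pairG up1)
open Pool.Agent.H983R2.CA
open Pool.Agent.H492C.HB (MM MM_deg KK KK_deg KK_eval nod nodP nodP_eval nod_length nodP_length
  nod_zero CC_Q CC_gg CC_nod gg gg_deg)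
open Pool.Agent.NH38.Step (om prs EE zs prF Gen on cardy pom bev bev_mul bev_C bev_X bev_pow)
open Pool.Agent.NH38.Step.Hom (phi)
open Pool.Agent.NH38.Fork (Dh NZ LR UL Lau ev fn fn_ev fn_length fn_UL left_dvd right_dvd
  good_iff good_append ev_length t_regD t_Dexch t_Dperm a_DstarA a_DstarB a_Dwid)
open Pool.Agent.NH38.Fork.M8 (NZ_on on_length)
open Polynomial Filter Topology

theorem poly_ext {p r : ℂ[X]} (h : ∀ w : ℂ, w ≠ 0 → p.eval w = r.eval w) : p = r := by
  apply Polynomial.eq_of_infinite_eval_eq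
  refine Set.Infinite.mono (s := {w : ℂ | w ≠ 0}) (fun w hw => h w hw) ?_
  have : ({w : ℂ | w ≠ 0} : Set ℂ) = {0}ᶜ := by ext w; simp
  rw [this]
  exact (Set.finite_singleton (0:ℂ)).infinite_compl

/-- joint polynomiality -/
theorem joint (n n0 : ℕ) (P : ℂ[X]) (hP : P ≠ 0) (g : ℂ → ℂ → ℂ) (hg : LR P g)
    (hS : ∀ s, P.eval s ≠ 0 → ∃ S : ℂ[X], S.natDegree ≤ n ∧
      ∀ w, w ≠ 0 → g s w * w^n0 = (w - q) * S.eval w) :
    ∃ (Q : ℂ[X][X]) (j : ℕ), Q.natDegree ≤ n ∧ ∀ s, P.eval s ≠ 0 → ∀ w, w ≠ 0 →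
      g s w * w^n0 * (P.eval s)^j = (w - q) * (Q.map (evalRingHom s)).eval w := by
  obtain ⟨F, j0, hF⟩ := hg.raise
  set F' : ℂ[X][X] := F * (C P * X)^n0 with hF'
  have hmon : (X^j0 * (X - C (C q)) : ℂ[X][X]).Monic := (monic_X_pow j0).mul (monic_X_sub_C _)
  have hmap : ∀ s, (X^j0 * (X - C (C q)) : ℂ[X][X]).map (evalRingHom s) =
      X^j0 * (X - C q) := by
    intro s
    rw [Polynomial.map_mul, Polynomial.map_pow, Polynomial.map_sub, Polynomial.map_X,
      Polynomial.map_C, coe_evalRingHom, eval_C]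
  have key : ∀ s, P.eval s ≠ 0 → ∃ S : ℂ[X], S.natDegree ≤ n ∧
      (∀ w, w ≠ 0 → g s w * w^n0 = (w - q) * S.eval w) ∧
      (F' /ₘ (X^j0 * (X - C (C q)))).map (evalRingHom s) = C ((P.eval s)^(j0 + n0)) * S := by
    intro s hs
    obtain ⟨S, hSd, hSw⟩ := hS s hs
    refine ⟨S, hSd, hSw, ?_⟩
    have h1 : F'.map (evalRingHom s) = (X^j0 * (X - C q)) * (C ((P.eval s)^(j0 + n0)) * S) := by
      apply poly_ext
      intro w hw
      have h2 := hF n0 s w hs hw
      have h3 : (F'.map (evalRingHom s)).eval w = bev F' s w := rfl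
      rw [h3, ← h2]
      simp only [eval_mul, eval_pow, eval_X, eval_sub, eval_C]
      have h4 := hSw w hw
      calc g s w * (P.eval s * w)^(j0 + n0) =
          (g s w * w^n0) * (w^j0 * (P.eval s)^(j0 + n0)) := by
            rw [mul_pow, pow_add w]; ring
        _ = _ := by rw [h4]; ring
    rw [Polynomial.map_divByMonic _ hmon, hmap, h1]
    exact mul_divByMonic_cancel_left _ ((monic_X_pow j0).mul (monic_X_sub_C _))
  refine ⟨F' /ₘ (X^j0 * (X - C (C q))), j0 + n0, ?_, ?_⟩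
  · rw [natDegree_le_iff_coeff_eq_zero]
    intro k hk
    have h1 : (F' /ₘ (X^j0 * (X - C (C q)))).coeff k * P = 0 := by
      apply Polynomial.funext
      intro s
      rw [eval_mul, eval_zero]
      by_cases hs : P.eval s = 0
      · rw [hs, mul_zero]
      · obtain ⟨S, hSd, _, hQ⟩ := key s hs
        have h2 : ((F' /ₘ (X^j0 * (X - C (C q)))).coeff k).eval s =
            ((F' /ₘ (X^j0 * (X - C (C q)))).map (evalRingHom s)).coeff k := by
          rw [Polynomial.coeff_map, coe_evalRingHom]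
        rw [h2, hQ, coeff_C_mul, coeff_eq_zero_of_natDegree_lt (by omega), mul_zero, zero_mul]
    exact (mul_eq_zero.1 h1).resolve_right hP
  · intro s hs w hw
    obtain ⟨S, hSd, hSw, hQ⟩ := key s hs
    rw [hQ, eval_mul, eval_C, hSw w hw]
    ring

theorem pom_perm {L L' : List ℂ} (h : L.Perm L') (a : ℂ) : pom a L = pom a L' := by
  unfold Pool.Agent.NH38.Step.pom
  exact (h.map _).prod_eq

theorem phi_eq (L : List ℂ) (w : ℂ) : phi L w = (w - w⁻¹) * pom (om w) L := rfl

theorem phi_perm {L L' : List ℂ} (h : L.Perm L') (w : ℂ) : phi L w = phi L' w := by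
  rw [phi_eq, phi_eq, pom_perm h]

theorem prod_gg_eval (L : List ℂ) (hL : NZ L) (w : ℂ) (hw : w ≠ 0) :
    ((L.map gg).prod).eval w = L.prod * w^L.length * pom (om w) L := by
  induction L with
  | nil => simp [Pool.Agent.NH38.Step.pom_nil]
  | cons c L ih =>
    have hc : c ≠ 0 := hL c List.mem_cons_self
    rw [List.map_cons, List.prod_cons, eval_mul, ih fun z hz => hL z (List.mem_cons_of_mem _ hz),
      List.prod_cons, List.length_cons, Pool.Agent.NH38.Step.pom_cons]
    have h : (gg c).eval w = c * w * (om w - om c) := by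
      unfold Pool.Agent.H492C.HB.gg Pool.Agent.NH38.Step.om
      simp only [eval_mul, eval_sub, eval_X, eval_C, eval_one]
      field_simp
      ring
    rw [h]
    ring

theorem MM_eval (L : List ℂ) (hL : NZ L) (Q : ℂ[X]) (w : ℂ) (hw : w ≠ 0) :
    (MM L Q).eval w = L.prod * w^(L.length + 1) * ((w - w⁻¹) * pom (om w) L) * Q.eval w := by
  unfold Pool.Agent.H492C.HB.MM
  rw [eval_mul, eval_mul, prod_gg_eval L hL w hw]
  simp only [eval_sub, eval_pow, eval_X, eval_one]
  have : w^2 - 1 = w * (w - w⁻¹) := by field_simp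
  rw [this, pow_succ]
  ring

theorem sym {r v : ℂ} (hr : r^2 + r + 1 = 0) (_hv : v ≠ 0) :
    (r*v - (r*v)⁻¹) * (om (r*v) - om v) = (r*v⁻¹ - (r*v⁻¹)⁻¹) * (om (r*v⁻¹) - om v) := by
  have h3 : r^3 = 1 := by linear_combination (r - 1) * hr
  have hr0 : r ≠ 0 := by rintro rfl; norm_num at h3
  have hi : r⁻¹ = r^2 := by
    rw [inv_eq_iff_eq_inv, eq_comm, inv_eq_iff_eq_inv, eq_comm, inv_eq_of_mul_eq_one_left]
    linear_combination h3
  unfold Pool.Agent.NH38.Step.om
  rw [mul_inv, mul_inv, inv_inv, hi]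
  linear_combination (v^2 - v⁻¹^2) * r * h3

/-- confluence -/
theorem conf (k n0 : ℕ) (hn0 : 1 ≤ n0) (r : ℂ) (hr : r^2 + r + 1 = 0) (L0 : List ℂ) (hL0 : NZ L0)
    (P : ℂ[X]) (hP0 : P.eval 0 ≠ 0) (g : ℂ → ℂ → ℂ) (hg : LR P g)
    (hS : ∀ s, P.eval s ≠ 0 → ∃ S : ℂ[X], S.natDegree ≤ 2*n0 - 1 ∧
      ∀ w, w ≠ 0 → g s w * w^n0 = (w - q) * S.eval w)
    (hnz : ∀ s, P.eval s ≠ 0 → NZ (nod k s))
    (hst : ∀ s, P.eval s ≠ 0 → ∀ v ∈ nod k s, ∃ R : List ℂ, (v :: R).Perm (nod k s ++ L0) ∧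
      g s (r*v) * (r*v - 1) * (r*v⁻¹ - q) * pom (om (r*v)) R =
        g s (r*v⁻¹) * (r*v⁻¹ - 1) * (r*v - q) * pom (om (r*v⁻¹)) R)
    (hne : ∀ᶠ s in 𝓝[≠] (0:ℂ), ∀ v ∈ nod k s, (r*v - q) * (r*v⁻¹ - q) ≠ 0) :
    ∃ p : ℂ[X], p.natDegree ≤ 2*(k + L0.length + 1 + n0) ∧
      (∀ w, w ≠ 0 → g 0 w * (w - 1) * phi (nod k 0 ++ L0) w * w^(k + L0.length + 1 + n0) =
        (w - q) * p.eval w) ∧
      (X - 1)^(2*k+1) ∣ p.comp (C r * X) -
        reflect (2*(k + L0.length + 1 + n0)) (p.comp (C r * X)) := by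
  have hr0 : r ≠ 0 := by
    rintro rfl
    norm_num at hr
  have hP : P ≠ 0 := by
    rintro rfl
    simp at hP0
  obtain ⟨Q, j, hQd, hQ⟩ := joint (2*n0 - 1) n0 P hP g hg hS
  set m := k + L0.length + 1 + n0 with hm
  let F : ℂ → ℂ[X] := fun s => (X - 1) * MM (nod k s ++ L0) (Q.map (evalRingHom s))
  have hlen : ∀ s, (nod k s ++ L0).length = k + L0.length := by
    intro s
    rw [List.length_append, nod_length]
  have hFd : ∀ s, (F s).natDegree ≤ 2*m := by
    intro s
    have h1 := MM_deg (nod k s ++ L0) (Q.map (evalRingHom s)) (2*n0 - 1)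
      (Polynomial.natDegree_map_le.trans hQd)
    rw [hlen] at h1
    have h2 : (X - 1 : ℂ[X]).natDegree ≤ 1 := by compute_degree
    refine (Polynomial.natDegree_mul_le.trans (add_le_add h2 h1)).trans ?_
    omega
  have hFC : CC F := by
    have : F = fun s => (X - 1) * ((X^2 - 1) * (((nod k s).map gg).prod *
        ((L0.map gg).prod)) * Q.map (evalRingHom s)) := by
      funext s
      simp only [F, Pool.Agent.H492C.HB.MM, List.map_append, List.prod_append]
    rw [this]
    exact (CC.const _).mul ((((CC.const _).mul ((CC_nod k).mul (CC.const _))).mul (CC_Q Q)))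
  have hNZ : ∀ s, P.eval s ≠ 0 → NZ (nod k s ++ L0) := by
    intro s hs z hz
    rw [List.mem_append] at hz
    rcases hz with hz | hz
    · exact hnz s hs z hz
    · exact hL0 z hz
  have hFe : ∀ s, P.eval s ≠ 0 → ∀ w, w ≠ 0 → (w - q) * (F s).eval w =
      (w - 1) * ((nod k s ++ L0).prod * ((w - w⁻¹) * pom (om w) (nod k s ++ L0))) * w^m *
        (g s w * (P.eval s)^j) := by
    intro s hs w hw
    have h1 := hQ s hs w hw
    simp only [F]
    rw [eval_mul, MM_eval _ (hNZ s hs) _ w hw, hlen]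
    simp only [eval_sub, eval_X, eval_one]
    calc (w - q) * ((w - 1) * ((nod k s ++ L0).prod * w^(k + L0.length + 1) *
          ((w - w⁻¹) * pom (om w) (nod k s ++ L0)) * (Q.map (evalRingHom s)).eval w)) =
        (w - 1) * ((nod k s ++ L0).prod * ((w - w⁻¹) * pom (om w) (nod k s ++ L0))) *
          w^(k + L0.length + 1) * ((w - q) * (Q.map (evalRingHom s)).eval w) := by ring
      _ = _ := by rw [← h1, hm, pow_add w (k + L0.length + 1)]; ring
  have hPe : ∀ᶠ s in 𝓝[≠] (0:ℂ), P.eval s ≠ 0 :=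
    (P.continuous.continuousAt.eventually_ne hP0).filter_mono nhdsWithin_le_nhds
  have hstar : ∀ᶠ s in 𝓝[≠] (0:ℂ), ∀ v ∈ nod k s, v ≠ 0 ∧
      (F s).eval (r * v) = v^(2*m) * (F s).eval (r * v⁻¹) := by
    filter_upwards [hPe, hne] with s hs hne' v hv
    have hv0 : v ≠ 0 := hnz s hs v hv
    refine ⟨hv0, ?_⟩
    obtain ⟨R, hR, hst'⟩ := hst s hs v hv
    have h1 := hFe s hs (r * v) (mul_ne_zero hr0 hv0)
    have h2 := hFe s hs (r * v⁻¹) (mul_ne_zero hr0 (inv_ne_zero hv0))
    rw [← pom_perm hR, Pool.Agent.NH38.Step.pom_cons] at h1 h2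
    have h3 := sym hr hv0
    have h4 : (r * v)^m = v^(2*m) * (r * v⁻¹)^m := by
      rw [mul_pow, mul_pow, inv_pow, two_mul]
      field_simp
      ring
    apply mul_left_cancel₀ (hne' v hv)
    calc (r*v - q) * (r*v⁻¹ - q) * (F s).eval (r*v) =
        (r*v⁻¹ - q) * ((r*v - q) * (F s).eval (r*v)) := by ring
      _ = (nod k s ++ L0).prod * (r*v)^m * (P.eval s)^j *
          ((r*v - (r*v)⁻¹) * (om (r*v) - om v)) *
          (g s (r*v) * (r*v - 1) * (r*v⁻¹ - q) * pom (om (r*v)) R) := by rw [h1]; ring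
      _ = (nod k s ++ L0).prod * (v^(2*m) * (r * v⁻¹)^m) * (P.eval s)^j *
          ((r*v⁻¹ - (r*v⁻¹)⁻¹) * (om (r*v⁻¹) - om v)) *
          (g s (r*v⁻¹) * (r*v⁻¹ - 1) * (r*v - q) * pom (om (r*v⁻¹)) R) := by rw [h3, h4, hst']
      _ = (r*v - q) * v^(2*m) * ((r*v⁻¹ - 1) * ((nod k s ++ L0).prod *
          ((r*v⁻¹ - (r*v⁻¹)⁻¹) * ((om (r*v⁻¹) - om v) * pom (om (r*v⁻¹)) R))) * (r*v⁻¹)^m *
            (g s (r*v⁻¹) * (P.eval s)^j)) := by ring
      _ = _ := by rw [← h2]; ring
  have hdiv : (X - 1)^(2*k+1) ∣ KK (2*m) r (F 0) := by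
    refine pow_dvd_at_one k (2*m) (fun s => KK (2*m) r (F s))
      (fun s => KK_deg (2*m) r (F s) (hFd s)) ?_ ?_ ?_ ?_
    · have h1 := hFC.scale r
      exact h1.sub (h1.reflect (2*m))
    · refine Filter.Eventually.of_forall fun s => ?_
      rw [KK_eval (2*m) r (F s) (hFd s) one_ne_zero]
      simp
    · intro i hi
      filter_upwards [hstar] with s hs
      have hv : uu i s ∈ nod k s := by
        unfold Pool.Agent.H492C.HB.nod
        rw [List.mem_ofFn]
        exact ⟨⟨i, hi⟩, rfl⟩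
      obtain ⟨h1, h2⟩ := hs _ hv
      rw [KK_eval (2*m) r (F s) (hFd s) h1, h2, sub_self]
    · intro i hi
      filter_upwards [hstar] with s hs
      have hv : uu i s ∈ nod k s := by
        unfold Pool.Agent.H492C.HB.nod
        rw [List.mem_ofFn]
        exact ⟨⟨i, hi⟩, rfl⟩
      obtain ⟨h1, h2⟩ := hs _ hv
      rw [KK_eval (2*m) r (F s) (hFd s) (inv_ne_zero h1), inv_inv, h2, ← mul_assoc, ← mul_pow,
        inv_mul_cancel₀ h1, one_pow, one_mul, sub_self]
  set c : ℂ := (nod k 0 ++ L0).prod * (P.eval 0)^j with hc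
  have hc0 : c ≠ 0 := by
    refine mul_ne_zero (List.prod_ne_zero fun h => hNZ 0 hP0 0 h rfl) (pow_ne_zero j hP0)
  refine ⟨C c⁻¹ * F 0, ?_, ?_, ?_⟩
  · exact (natDegree_C_mul_le _ _).trans (hFd 0)
  · intro w hw
    have h1 := hFe 0 hP0 w hw
    rw [eval_mul, eval_C, phi_eq]
    have h2 : (w - q) * (c⁻¹ * (F 0).eval w) = c⁻¹ * ((w - q) * (F 0).eval w) := by ring
    rw [h2, h1]
    have h3 : (nod k 0 ++ L0).prod * (P.eval 0)^j * c⁻¹ = 1 := mul_inv_cancel₀ hc0
    linear_combination -(g 0 w * (w - 1) * ((w - w⁻¹) * pom (om w) (nod k 0 ++ L0)) * w^m) * h3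
  · have h1 : (C c⁻¹ * F 0).comp (C r * X) - reflect (2*m) ((C c⁻¹ * F 0).comp (C r * X)) =
        C c⁻¹ * KK (2*m) r (F 0) := by
      unfold Pool.Agent.H492C.HB.KK
      rw [mul_comp, C_comp, reflect_C_mul]
      ring
    rw [h1]
    exact dvd_mul_of_dvd_right hdiv _

/-- the quotient by `w - q` -/
theorem quo (A B : List ℂ) (n0 : ℕ) (hA : Odd A.length) (hB : Odd B.length)
    (hl : A.length + B.length = 2*n0) (hAn : NZ A) (hBn : NZ B) :
    ∃ S : ℂ[X], S.natDegree ≤ 2*n0 - 1 ∧ ∀ w, w ≠ 0 → Dh A w 1 B * w^n0 = (w - q) * S.eval w := by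
  obtain ⟨cn, F, hFd, _, _, hF⟩ := a_Dwid A B 1 hA hB hAn hBn one_ne_zero
  rw [hl, Nat.mul_div_cancel_left _ (by norm_num : 0 < 2)] at hF
  rw [hl] at hFd
  have hq : Dh A q 1 B = 0 := by
    have h := t_Dexch A B q 1 hA hB hAn hBn q_ne_zero one_ne_zero
    rw [mul_one, sub_self, zero_mul] at h
    rcases mul_eq_zero.1 h with h | h
    · exact absurd (by linear_combination -h) q_sq_ne_one
    · exact h
  have hroot : F.eval q = 0 := by
    have := hF q q_ne_zero
    simp only [hq, zero_mul] at this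
    exact this.symm
  obtain ⟨S, hS⟩ := Polynomial.dvd_iff_isRoot.2 hroot
  refine ⟨S, ?_, ?_⟩
  · by_cases hS0 : S = 0
    · rw [hS0]; simp
    · have h1 : F.natDegree = 1 + S.natDegree := by
        rw [hS, Polynomial.natDegree_mul (X_sub_C_ne_zero q) hS0, natDegree_X_sub_C]
      omega
  · intro w hw
    have h1 := hF w hw
    simp only at h1
    rw [h1, hS, eval_mul, eval_sub, eval_X, eval_C]

theorem ev_nod (t : ℂ) (k : ℕ) (s : ℂ) : ev (C t :: nodP k) s = t :: nod k s := by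
  unfold Pool.Agent.NH38.Fork.ev
  rw [List.map_cons, nodP_eval, eval_C]

theorem ev_nod' (k : ℕ) (s : ℂ) : ev (nodP k) s = nod k s := by
  unfold Pool.Agent.NH38.Fork.ev
  rw [nodP_eval]

theorem ev_on (k : ℕ) (s : ℂ) : ev (List.replicate k 1) s = on k := by
  unfold Pool.Agent.NH38.Fork.ev Pool.Agent.NH38.Step.on
  rw [List.map_replicate, eval_one]

theorem ev_ton (t : ℂ) (k : ℕ) (s : ℂ) : ev (C t :: List.replicate k 1) s = t :: on k := by
  unfold Pool.Agent.NH38.Fork.ev Pool.Agent.NH38.Step.on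
  rw [List.map_cons, List.map_replicate, eval_one, eval_C]

theorem nod_one (k : ℕ) : nod k 0 = on k := nod_zero k

theorem NZ_cons {t : ℂ} (ht : t ≠ 0) {l : List ℂ} (hl : NZ l) : NZ (t :: l) := by
  intro z hz
  rcases List.mem_cons.1 hz with rfl | hz
  · exact ht
  · exact hl z hz

theorem q2_spec : (q^2)^2 + q^2 + 1 = 0 := by
  linear_combination q_spec + q * q_cube

theorem om_q (v : ℂ) : om (q * v) = om (q^2 * v⁻¹) := by
  have h1 : (q : ℂ)⁻¹ = q^2 := by
    rw [inv_eq_of_mul_eq_one_left]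
    linear_combination q_cube
  have h2 : (q^2 : ℂ)⁻¹ = q := by
    rw [inv_eq_of_mul_eq_one_left]
    linear_combination q_cube
  unfold Pool.Agent.NH38.Step.om
  rw [mul_inv, mul_inv, inv_inv, h1, h2]
  ring

theorem om_q2 (v : ℂ) : om (q^2 * v) = om (q * v⁻¹) := by
  rw [om_q, inv_inv]

theorem partA (a b : ℕ) (t : ℂ) (n0 : ℕ) (ha : Even a) (hb : Odd b) (ht : t ≠ 0)
    (hn : a + b + 1 = 2*n0) : ∃ p : ℂ[X], p.natDegree ≤ 2*(a + (b + 1) + 1 + n0) ∧
      (∀ w, w ≠ 0 → Dh (t :: on a) w 1 (on b) * (w - 1) * phi (on a ++ (t :: on b)) w *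
        w^(a + (b + 1) + 1 + n0) = (w - q) * p.eval w) ∧
      (X - 1)^(2*a+1) ∣ p.comp (C (q^2) * X) -
        reflect (2*(a + (b + 1) + 1 + n0)) (p.comp (C (q^2) * X)) := by
  set P : ℂ[X] := ((C t :: nodP a) ++ List.replicate b 1).prod with hP
  have hgood : ∀ s, P.eval s ≠ 0 ↔ NZ (t :: nod a s) ∧ NZ (on b) := by
    intro s
    rw [hP, good_append, ev_nod, ev_on]
  have hlA : Odd (a + 1) := ha.add_one
  have hg : LR P (fun s w => Dh (t :: nod a s) w 1 (on b)) := by
    have h := t_regD P (fn (C t :: nodP a)) (fn (List.replicate b 1)) (fun _ w => w)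
      (fun _ _ => 1) (by rw [fn_length, List.length_cons, nodP_length]; exact hlA)
      (by rw [fn_length, List.length_replicate]; exact hb)
      (fn_UL (left_dvd _ _)) (fn_UL (right_dvd _ _)) UL.var (UL.const 1)
    simp only [fn_ev, ev_nod, ev_on] at h
    exact h
  have h0 : P.eval 0 ≠ 0 := by
    rw [hgood, nod_one]
    exact ⟨NZ_cons ht (NZ_on a), NZ_on b⟩
  have h := conf a n0 (by omega) (q^2) q2_spec (t :: on b) (NZ_cons ht (NZ_on b)) P h0 _ hg
    ?_ ?_ ?_ ?_
  · simp only [nod_one, List.length_cons, on_length] at h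
    exact h
  · intro s hs
    obtain ⟨h1, h2⟩ := (hgood s).1 hs
    exact quo _ _ n0 (by rw [List.length_cons, nod_length]; exact hlA)
      (by rw [on_length]; exact hb) (by rw [List.length_cons, nod_length, on_length]; omega) h1 h2
  · intro s hs z hz
    exact ((hgood s).1 hs).1 z (List.mem_cons_of_mem _ hz)
  · intro s hs v hv
    obtain ⟨h1, h2⟩ := (hgood s).1 hs
    have hv0 : v ≠ 0 := h1 v (List.mem_cons_of_mem _ hv)
    have hl : ((nod a s).erase v).length + 1 = a := by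
      rw [List.length_erase_of_mem hv, nod_length]
      have : 0 < (nod a s).length := List.length_pos_of_mem hv
      rw [nod_length] at this
      omega
    have hA'n : NZ (t :: (nod a s).erase v) := NZ_cons ht fun z hz =>
      h1 z (List.mem_cons_of_mem _ (List.mem_of_mem_erase hz))
    have hperm : (v :: (t :: (nod a s).erase v)).Perm (t :: nod a s) :=
      (List.Perm.swap t v _).trans ((List.perm_cons_erase hv).symm.cons t)
    have hst := a_DstarA (t :: (nod a s).erase v) (on b) v 1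
      (by rw [List.length_cons, hl]; exact ha) (by rw [on_length]; exact hb) hA'n h2 hv0
      one_ne_zero
    have hDp : ∀ w, w ≠ 0 → Dh (v :: (t :: (nod a s).erase v)) w 1 (on b) =
        Dh (t :: nod a s) w 1 (on b) := fun w hw =>
      t_Dperm _ _ (on b) (on b) (by rw [List.length_cons, List.length_cons, hl]; exact hlA)
        (by rw [on_length]; exact hb) (NZ_cons hv0 hA'n) h2 hperm (List.Perm.refl _) w 1 hw
        one_ne_zero
    refine ⟨(t :: (nod a s).erase v) ++ on b, ?_, ?_⟩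
    · have e1 : (v :: ((t :: (nod a s).erase v) ++ on b)) =
          (v :: (t :: (nod a s).erase v)) ++ on b := rfl
      rw [e1]
      refine (hperm.append_right (on b)).trans ?_
      rw [List.cons_append]
      exact List.perm_middle.symm
    · rw [hDp _ (mul_ne_zero (pow_ne_zero 2 q_ne_zero) hv0),
        hDp _ (mul_ne_zero (pow_ne_zero 2 q_ne_zero) (inv_ne_zero hv0)), mul_one, om_q] at hst
      exact hst
  · have h3 : ∀ᶠ s in 𝓝[≠] (0:ℂ), ∀ i : Fin a, (q^2 * uu i s - q) * (q^2 * (uu i s)⁻¹ - q) ≠ 0 := by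
      rw [Filter.eventually_all]
      intro i
      have hc : ContinuousAt (fun s => (q^2 * uu i s - q) * (q^2 * (uu i s)⁻¹ - q)) 0 := by
        have h4 := uu_cont i
        have h5 : uu i 0 ≠ 0 := by rw [uu_zero]; exact one_ne_zero
        exact ((h4.const_mul _).sub continuousAt_const).mul
          (((h4.inv₀ h5).const_mul _).sub continuousAt_const)
      refine (hc.eventually_ne ?_).filter_mono nhdsWithin_le_nhds
      rw [uu_zero, inv_one, mul_one]
      have h6 : q^2 - q ≠ 0 := by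
        intro h6
        exact Pool.Agent.H492C.HB.q_ne (by linear_combination -h6)
      exact mul_ne_zero h6 h6
    filter_upwards [h3] with s hs v hv
    unfold Pool.Agent.H492C.HB.nod at hv
    rw [List.mem_ofFn] at hv
    obtain ⟨i, rfl⟩ := hv
    exact hs i

theorem partB (a b : ℕ) (t : ℂ) (n0 : ℕ) (ha : Even a) (hb : Odd b) (ht : t ≠ 0)
    (hn : a + b + 1 = 2*n0) : ∃ p : ℂ[X], p.natDegree ≤ 2*(b + (a + 1) + 1 + n0) ∧
      (∀ w, w ≠ 0 → Dh (t :: on a) w 1 (on b) * (w - 1) * phi (on b ++ (t :: on a)) w *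
        w^(b + (a + 1) + 1 + n0) = (w - q) * p.eval w) ∧
      (X - 1)^(2*b+1) ∣ p.comp (C q * X) -
        reflect (2*(b + (a + 1) + 1 + n0)) (p.comp (C q * X)) := by
  set P : ℂ[X] := ((C t :: List.replicate a 1) ++ nodP b).prod with hP
  have hgood : ∀ s, P.eval s ≠ 0 ↔ NZ (t :: on a) ∧ NZ (nod b s) := by
    intro s
    rw [hP, good_append, ev_ton, ev_nod']
  have hlA : Odd (a + 1) := ha.add_one
  have hg : LR P (fun s w => Dh (t :: on a) w 1 (nod b s)) := by
    have h := t_regD P (fn (C t :: List.replicate a 1)) (fn (nodP b)) (fun _ w => w)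
      (fun _ _ => 1) (by rw [fn_length, List.length_cons, List.length_replicate]; exact hlA)
      (by rw [fn_length, nodP_length]; exact hb)
      (fn_UL (left_dvd _ _)) (fn_UL (right_dvd _ _)) UL.var (UL.const 1)
    simp only [fn_ev, ev_nod', ev_ton] at h
    exact h
  have h0 : P.eval 0 ≠ 0 := by
    rw [hgood, nod_one]
    exact ⟨NZ_cons ht (NZ_on a), NZ_on b⟩
  have h := conf b n0 (by omega) q q_spec (t :: on a) (NZ_cons ht (NZ_on a)) P h0 _ hg
    ?_ ?_ ?_ ?_
  · simp only [nod_one, List.length_cons, on_length] at h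
    exact h
  · intro s hs
    obtain ⟨h1, h2⟩ := (hgood s).1 hs
    exact quo _ _ n0 (by rw [List.length_cons, on_length]; exact hlA)
      (by rw [nod_length]; exact hb) (by rw [List.length_cons, nod_length, on_length]; omega) h1 h2
  · intro s hs z hz
    exact ((hgood s).1 hs).2 z hz
  · intro s hs v hv
    obtain ⟨h1, h2⟩ := (hgood s).1 hs
    have hv0 : v ≠ 0 := h2 v hv
    have hl : ((nod b s).erase v).length + 1 = b := by
      rw [List.length_erase_of_mem hv, nod_length]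
      have : 0 < (nod b s).length := List.length_pos_of_mem hv
      rw [nod_length] at this
      omega
    have hB'n : NZ ((nod b s).erase v) := fun z hz => h2 z (List.mem_of_mem_erase hz)
    have hperm : (v :: (nod b s).erase v).Perm (nod b s) := (List.perm_cons_erase hv).symm
    have hst := a_DstarB (t :: on a) ((nod b s).erase v) v 1
      (by rw [List.length_cons, on_length]; exact hlA)
      (by
        rcases Nat.even_or_odd ((nod b s).erase v).length with h | h
        · exact h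
        · exfalso
          rw [← hl] at hb
          rw [← Nat.not_even_iff_odd] at hb
          exact hb h.add_one) h1 hB'n hv0 one_ne_zero
    have hDp : ∀ w, w ≠ 0 → Dh (t :: on a) w 1 (v :: (nod b s).erase v) =
        Dh (t :: on a) w 1 (nod b s) := fun w hw =>
      t_Dperm _ _ _ _ (by rw [List.length_cons, on_length]; exact hlA)
        (by rw [List.length_cons, hl]; exact hb) h1 (by
          intro z hz
          rcases List.mem_cons.1 hz with rfl | hz
          · exact hv0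
          · exact hB'n z hz) (List.Perm.refl _) hperm w 1 hw one_ne_zero
    refine ⟨(t :: on a) ++ (nod b s).erase v, ?_, ?_⟩
    · refine (List.perm_middle.symm).trans ?_
      refine (hperm.append_left (t :: on a)).trans ?_
      exact List.perm_append_comm
    · rw [hDp _ (mul_ne_zero q_ne_zero hv0),
        hDp _ (mul_ne_zero q_ne_zero (inv_ne_zero hv0)), mul_one, om_q2] at hst
      exact hst
  · have h3 : ∀ᶠ s in 𝓝[≠] (0:ℂ), s ≠ 0 := self_mem_nhdsWithin
    have h3' : ∀ᶠ s in 𝓝[≠] (0:ℂ), ∀ i : Fin b, uu i s ≠ 0 := by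
      rw [Filter.eventually_all]
      intro i
      have := (uu_cont i).eventually_ne (y := 0) (by rw [uu_zero]; exact one_ne_zero)
      exact this.filter_mono nhdsWithin_le_nhds
    filter_upwards [h3, h3'] with s hs hs' v hv
    unfold Pool.Agent.H492C.HB.nod at hv
    rw [List.mem_ofFn] at hv
    obtain ⟨i, rfl⟩ := hv
    have h4 : uu i s ≠ 1 := uu_ne_one hs
    have h5 := hs' i
    have e1 : q * uu i s - q = q * (uu i s - 1) := by ring
    have e2 : q * (uu i s)⁻¹ - q = q * ((uu i s)⁻¹ - 1) := by ring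
    rw [e1, e2]
    refine mul_ne_zero (mul_ne_zero q_ne_zero (sub_ne_zero.2 h4))
      (mul_ne_zero q_ne_zero (sub_ne_zero.2 ?_))
    intro h
    exact h4 (inv_eq_one.1 h)

end Pool.Agent.H965.K3.B1

namespace Pool.Agent.H965.K3

open B1
open Pool.Agent.H988R2.Perc hiding X
open Pool.Agent.NH38.Step (on)
open Pool.Agent.NH38.Step.Hom (phi)
open Pool.Agent.NH38.Fork (Dh)
open Polynomial

theorem t3_cfA : S3_cfA := by
  intro a b t ha hb ht
  obtain ⟨n0, hn⟩ : ∃ n0, a + b + 1 = 2*n0 := by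
    obtain ⟨r, hr⟩ := ha
    obtain ⟨s, hs⟩ := hb
    exact ⟨r + s + 1, by omega⟩
  obtain ⟨p, hpd, hp, hpdiv⟩ := partA a b t n0 ha hb ht hn
  obtain ⟨p', hpd', hp', hpdiv'⟩ := partB a b t n0 ha hb ht hn
  have hon : (on a ++ (t :: on b)).Perm (t :: on (a+b)) := by
    refine List.perm_middle.trans ?_
    unfold Pool.Agent.NH38.Step.on
    rw [List.replicate_append_replicate]
  have hon' : (on b ++ (t :: on a)).Perm (t :: on (a+b)) := by
    refine List.perm_middle.trans ?_
    unfold Pool.Agent.NH38.Step.on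
    rw [List.replicate_append_replicate, add_comm b a]
  have e1 : a + (b + 1) + 1 + n0 = 3*(a+b+1)/2 + 1 := by omega
  have e2 : b + (a + 1) + 1 + n0 = 3*(a+b+1)/2 + 1 := by omega
  have e3 : 2*(3*(a+b+1)/2 + 1) = 3*(a+b+1) + 2 := by omega
  rw [e1, e3] at hpd hpdiv
  rw [e2, e3] at hpd' hpdiv'
  simp only [e1, phi_perm hon] at hp
  simp only [e2, phi_perm hon'] at hp'
  have hpp : p = p' := by
    have h : (X - C q) * p = (X - C q) * p' := by
      apply poly_ext
      intro w hw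
      rw [eval_mul, eval_mul, eval_sub, eval_X, eval_C, ← hp w hw, ← hp' w hw]
    exact mul_left_cancel₀ (X_sub_C_ne_zero q) h
  subst hpp
  exact ⟨p, hpd, hp, hpdiv, hpdiv'⟩

end Pool.Agent.H965.K3
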