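import Pool.Agent.H965.K3.Stubs
import Pool.Agent.H966.T1.Main0

/-!
Thin slit, the limit `t → 0` (task B2 of helper965's project K3; proved by helper289).
-/

namespace Pool.Agent.H965.K3.B2

open Pool.Agent.H988R2.Perc hiding X
open Pool.Agent.H965.K3
open Pool.Agent.NH38.Step (om prs EE zs prF Gen on cardy pom bev zs_perm)
open Pool.Agent.NH38.Step.Hom (phi)
open Pool.Agent.NH38.Fork (zo mm na cst gh Dh tt NZ Lau a_wid t_ttwid a_DET a_Dwid t_Dexch)
open Pool.Agent.NH38.Fork.M4 (zo_perm)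
open Pool.Agent.NH38.Fork.M8 (NZ_on on_length zs_on_ne)
open Pool.Agent.H966.T1 (eh a_base)
open Polynomial

/-! ### polynomials in `t` -/

theorem poly_ext {R S : ℂ[X]} (h : ∀ t : ℂ, t ≠ 0 → R.eval t = S.eval t) : R = S := by
  apply Polynomial.eq_of_infinite_eval_eq
  refine Set.Infinite.mono (s := ({0} : Set ℂ)ᶜ) ?_ (Set.finite_singleton (0:ℂ)).infinite_compl
  intro t ht
  exact h t ht

theorem lim0_mul {f g : ℂ → ℂ} {e e' : ℕ} {c c' : ℂ} (hf : Lim0 f e c) (hg : Lim0 g e' c') :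
    Lim0 (fun t => f t * g t) (e + e') (c * c') := by
  obtain ⟨p, hp, hp'⟩ := hf
  obtain ⟨r, hr, hr'⟩ := hg
  refine ⟨p * r, by rw [eval_mul, hp, hr], fun t ht => ?_⟩
  rw [eval_mul, ← hp' t ht, ← hr' t ht]
  ring

theorem lim0_add {f g : ℂ → ℂ} {e : ℕ} {c c' : ℂ} (hf : Lim0 f e c) (hg : Lim0 g e c') :
    Lim0 (fun t => f t + g t) e (c + c') := by
  obtain ⟨p, hp, hp'⟩ := hf
  obtain ⟨r, hr, hr'⟩ := hg
  refine ⟨p + r, by rw [eval_add, hp, hr], fun t ht => ?_⟩
  rw [eval_add, ← hp' t ht, ← hr' t ht]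
  ring

theorem lim0_smul {f : ℂ → ℂ} {e : ℕ} {c : ℂ} (k : ℂ) (hf : Lim0 f e c) :
    Lim0 (fun t => k * f t) e (k * c) := by
  obtain ⟨p, hp, hp'⟩ := hf
  refine ⟨C k * p, by rw [eval_mul, eval_C, hp], fun t ht => ?_⟩
  rw [eval_mul, eval_C, ← hp' t ht]
  ring

theorem lim0_congr {f g : ℂ → ℂ} {e e' : ℕ} {c c' : ℂ} (hf : Lim0 f e c)
    (h : ∀ t, t ≠ 0 → f t = g t) (he : e = e') (hc : c = c') : Lim0 g e' c' := by
  subst he hc
  obtain ⟨p, hp, hp'⟩ := hf
  exact ⟨p, hp, fun t ht => by rw [← h t ht, hp' t ht]⟩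

theorem lim0_zero {f : ℂ → ℂ} {e : ℕ} {c : ℂ} (hf : Lim0 f e c) (h : ∀ t, t ≠ 0 → f t = 0) :
    c = 0 := by
  obtain ⟨p, hp, hp'⟩ := hf
  have h1 : p = 0 := poly_ext fun t ht => by rw [← hp' t ht, h t ht, zero_mul, eval_zero]
  rw [← hp, h1, eval_zero]

/-! ### families -/

theorem ev_eval (Q : ℂ[X][X]) (t w : ℂ) :
    (Q.map (evalRingHom t)).eval w = (Q.eval (C w)).eval t := by
  have h := Polynomial.eval₂_at_apply (p := Q) (evalRingHom t) (C w)
  rw [coe_evalRingHom, eval_C] at h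
  rw [eval_map, h]

theorem ev_coeff (Q : ℂ[X][X]) (t : ℂ) (k : ℕ) :
    (Q.map (evalRingHom t)).coeff k = (Q.coeff k).eval t := by
  rw [coeff_map, coe_evalRingHom]

theorem dvd_lim (Q : ℂ[X][X]) (k : ℕ)
    (h : ∀ t : ℂ, t ≠ 0 → (X - 1)^k ∣ Q.map (evalRingHom t)) :
    (X - 1)^k ∣ Q.map (evalRingHom 0) := by
  have key : ∀ t : ℂ, (X - 1)^k ∣ Q.map (evalRingHom t) ↔
      ∀ d < k, ((Q.comp (X + C 1)).coeff d).eval t = 0 := by
    intro t
    have h1 : ((X : ℂ[X]) - 1) = X - C 1 := by rw [C_1]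
    rw [h1, X_sub_C_pow_dvd_iff, X_pow_dvd_iff]
    have h2 : (Q.map (evalRingHom t)).comp (X + C 1) =
        (Q.comp (X + C 1)).map (evalRingHom t) := by
      rw [Polynomial.map_comp, Polynomial.map_add, map_X, map_C, map_one (evalRingHom t)]
    rw [h2]
    simp only [ev_coeff]
  rw [key]
  intro d hd
  have h3 : (Q.comp (X + C 1)).coeff d = 0 := by
    apply poly_ext
    intro t ht
    rw [eval_zero]
    exact (key t).1 (h t ht) d hd
  rw [h3, eval_zero]

theorem interp (n : ℕ) (f : ℂ → ℂ → ℂ) (c : ℂ → ℂ) (e : ℕ)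
    (h1 : ∀ w, w ≠ 0 → Lim0 (fun t => f t w) e (c w))
    (h2 : ∀ t, t ≠ 0 → ∃ G : ℂ[X], G.natDegree ≤ n ∧ ∀ w, w ≠ 0 → f t w = G.eval w) :
    ∃ Q : ℂ[X][X], (∀ t, t ≠ 0 → ∀ w, w ≠ 0 → (Q.map (evalRingHom t)).eval w = f t w * t^e) ∧
      (∀ t, (Q.map (evalRingHom t)).natDegree ≤ n) ∧
      ∀ w, w ≠ 0 → (Q.map (evalRingHom 0)).eval w = c w := by
  classical
  choose R hR0 hR using h1
  replace hR : ∀ (w : ℂ) (a : w ≠ 0) (t : ℂ), t ≠ 0 → f t w * t ^ e = eval t (R w a) := hR
  let v : ℕ → ℂ := fun i => (i:ℂ) + 1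
  have hv : ∀ i, v i ≠ 0 := fun i => Nat.cast_add_one_ne_zero i
  have hinj : Set.InjOn v (Finset.range (n+1) : Set ℕ) := by
    intro i _ j _ hij
    have h3 : (i:ℂ) + 1 = (j:ℂ) + 1 := hij
    have h4 := add_right_cancel h3
    exact_mod_cast h4
  let Q : ℂ[X][X] := ∑ i ∈ Finset.range (n+1),
    C (R (v i) (hv i)) * (Lagrange.basis (Finset.range (n+1)) v i).map C
  have hQ : ∀ t, Q.map (evalRingHom t) = ∑ i ∈ Finset.range (n+1),
      C ((R (v i) (hv i)).eval t) * Lagrange.basis (Finset.range (n+1)) v i := by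
    intro t
    show (∑ i ∈ Finset.range (n+1), C (R (v i) (hv i)) *
      (Lagrange.basis (Finset.range (n+1)) v i).map C).map (evalRingHom t) = _
    rw [Polynomial.map_sum]
    refine Finset.sum_congr rfl fun i _ => ?_
    rw [Polynomial.map_mul, map_C, coe_evalRingHom, Polynomial.map_map]
    have h5 : (evalRingHom t).comp (C : ℂ →+* ℂ[X]) = RingHom.id ℂ := by
      ext z
      simp
    rw [h5, Polynomial.map_id]
  have hG : ∀ t, t ≠ 0 → ∀ G : ℂ[X], G.natDegree ≤ n → (∀ w, w ≠ 0 → f t w = G.eval w) →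
      Q.map (evalRingHom t) = C (t^e) * G := by
    intro t ht G hGd hGw
    have h6 : C (t^e) * G = Lagrange.interpolate (Finset.range (n+1)) v
        (fun i => (C (t^e) * G).eval (v i)) := by
      apply Lagrange.eq_interpolate hinj
      rw [Finset.card_range]
      have h7 : (C (t^e) * G).natDegree ≤ n := (natDegree_C_mul_le _ _).trans hGd
      exact lt_of_le_of_lt (degree_le_of_natDegree_le h7) (by exact_mod_cast Nat.lt_succ_self n)
    rw [h6, hQ, Lagrange.interpolate_apply]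
    refine Finset.sum_congr rfl fun i _ => ?_
    rw [← hR (v i) (hv i) t ht, hGw (v i) (hv i), eval_mul, eval_C]
    congr 2
    ring
  have hval : ∀ t, t ≠ 0 → ∀ w, w ≠ 0 → (Q.map (evalRingHom t)).eval w = f t w * t^e := by
    intro t ht w hw
    obtain ⟨G, hGd, hGw⟩ := h2 t ht
    rw [hG t ht G hGd hGw, eval_mul, eval_C, hGw w hw]
    ring
  have hco : ∀ k, n < k → Q.coeff k = 0 := by
    intro k hk
    apply poly_ext
    intro t ht
    obtain ⟨G, hGd, hGw⟩ := h2 t ht
    rw [← ev_coeff, hG t ht G hGd hGw, eval_zero, coeff_C_mul,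
      coeff_eq_zero_of_natDegree_lt (lt_of_le_of_lt hGd hk), mul_zero]
  refine ⟨Q, hval, ?_, ?_⟩
  · intro t
    rw [natDegree_le_iff_coeff_eq_zero]
    intro k hk
    rw [ev_coeff, hco k hk, eval_zero]
  · intro w hw
    have h8 : Q.eval (C w) = R w hw := by
      apply poly_ext
      intro t ht
      rw [← ev_eval, hval t ht w hw, ← hR w hw t ht]
    rw [ev_eval, h8, hR0]

/-! ### the limit of `Dh` -/

theorem even_half {n : ℕ} (h : Even n) : ∃ k, n = 2*k := by
  obtain ⟨k, hk⟩ := h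
  exact ⟨k, by omega⟩

theorem NZ_cons {t : ℂ} {l : List ℂ} (ht : t ≠ 0) (hl : NZ l) : NZ (t :: l) := by
  intro z hz
  rw [List.mem_cons] at hz
  rcases hz with rfl | hz
  · exact ht
  · exact hl z hz

theorem NZ_append {l l' : List ℂ} (hl : NZ l) (hl' : NZ l') : NZ (l ++ l') := by
  intro z hz
  rw [List.mem_append] at hz
  rcases hz with hz | hz
  · exact hl z hz
  · exact hl' z hz

theorem perm2 (t w v : ℂ) (L : List ℂ) : (w :: v :: t :: L).Perm (t :: w :: v :: L) := by
  refine (List.Perm.cons w (List.Perm.swap t v L)).trans ?_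
  exact List.Perm.swap t w (v :: L)

theorem lim_D (hzs : S3_zs) (hzo : S3_zo) (heh : S3_eh) (A B : List ℂ) (w v : ℂ)
    (hA : Even A.length) (hB : Odd B.length) (nA : NZ A) (nB : NZ B) (hw : w ≠ 0) (hv : v ≠ 0) :
    Lim0 (fun t => Dh (t :: A) w v B) (A.length + (B.length+1)/2) (Dh3 A w v B) := by
  have l1 := heh A [] B w v hA hB nA (fun z hz => by simp at hz) nB hw hv
  have l2 := hzo A hA nA
  have hlen : Odd (w :: v :: (A ++ B)).length := by
    rw [List.length_cons, List.length_cons, List.length_append]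
    obtain ⟨x, hx⟩ := hA
    obtain ⟨y, hy⟩ := hB
    exact ⟨x + y + 1, by omega⟩
  have l3 := hzs (w :: v :: (A ++ B)) hlen (NZ_cons hw (NZ_cons hv (NZ_append nA nB)))
  have l4 := lim0_smul (-(zo B)) (lim0_mul l2 l3)
  have he : A.length / 2 + ((w :: v :: (A ++ B)).length - 1)/2 =
      A.length + (B.length+1)/2 + ([] : List ℂ).length := by
    rw [List.length_cons, List.length_cons, List.length_append, List.length_nil]
    obtain ⟨x, hx⟩ := hA
    obtain ⟨y, hy⟩ := hB
    omega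
  rw [he] at l4
  have l5 := lim0_smul q⁻¹ (lim0_add l1 l4)
  refine lim0_congr l5 ?_ (by rw [List.length_nil, add_zero]) ?_
  · intro t ht
    have hA' : Odd (t :: A).length := by
      rw [List.length_cons]
      exact hA.add_one
    have h1 := a_base (t :: A) B w v hA' hB (NZ_cons ht nA) nB hw hv
    have h2 : zs (w :: v :: (t :: A ++ B)) = zs (t :: w :: v :: (A ++ B)) := by
      refine zs_perm ?_ ?_
      · rw [List.length_cons, List.length_cons, List.length_append]
        obtain ⟨x, hx⟩ := hA'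
        obtain ⟨y, hy⟩ := hB
        exact ⟨x + y + 2, by omega⟩
      · rw [List.cons_append]
        exact perm2 t w v (A ++ B)
    rw [h2] at h1
    show q⁻¹ * (eh (t :: A) [] B w v + -(zo B) * (zo (t :: A) * zs (t :: w :: v :: (A ++ B)))) =
      Dh (t :: A) w v B
    rw [h1]
    unfold mm
    have hq : q⁻¹ * q = 1 := inv_mul_cancel₀ q_ne_zero
    linear_combination (Dh (t :: A) w v B) * hq
  · unfold Dh3 mm3
    rw [div_eq_mul_inv]
    ring

/-- mass times `tt` -/
theorem lim_mt (hzo : S3_zo) (A B : List ℂ) (w : ℂ) (hA : Even A.length) (hB : Odd B.length)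
    (nA : NZ A) (nB : NZ B) (hw : w ≠ 0) :
    Lim0 (fun t => mm (t :: A) B * tt (t :: A) [] B w) (A.length + (B.length+1)/2)
      (mm3 A B * zs (w :: (A ++ B))) := by
  have l2 := hzo A hA nA
  have hlen : Even (w :: (A ++ B)).length := by
    rw [List.length_cons, List.length_append]
    obtain ⟨x, hx⟩ := hA
    obtain ⟨y, hy⟩ := hB
    exact ⟨x + y + 1, by omega⟩
  have l3 := hzo (w :: (A ++ B)) hlen (NZ_cons hw (NZ_append nA nB))
  have l4 := lim0_smul (zo B) (lim0_mul l2 l3)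
  refine lim0_congr l4 ?_ ?_ ?_
  · intro t ht
    show zo B * (zo (t :: A) * zo (t :: w :: (A ++ B))) = _
    have h2 : tt (t :: A) [] B w = zo (t :: w :: (A ++ B)) := by
      have h3 : tt (t :: A) [] B w = zo (w :: (t :: A ++ (B ++ []))) := rfl
      rw [h3, List.append_nil]
      refine zo_perm ?_ ?_
      · rw [List.length_cons, List.length_append, List.length_cons]
        obtain ⟨x, hx⟩ := hA
        obtain ⟨y, hy⟩ := hB
        exact ⟨x + y + 1, by omega⟩
      · rw [List.cons_append]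
        exact List.Perm.swap t w (A ++ B)
    rw [h2]
    unfold mm
    ring
  · rw [List.length_cons, List.length_append]
    obtain ⟨x, hx⟩ := hA
    obtain ⟨y, hy⟩ := hB
    omega
  · unfold mm3
    ring

theorem coeff_XmC_mul (c : ℂ) (p : ℂ[X]) (n : ℕ) (hp : p.natDegree ≤ n) :
    ((X - C c) * p).coeff (n+1) = p.coeff n := by
  rw [sub_mul, coeff_sub, coeff_X_mul, coeff_C_mul,
    coeff_eq_zero_of_natDegree_lt (lt_of_le_of_lt hp (Nat.lt_succ_self n)), mul_zero, sub_zero]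

/-- the top coefficient of `Dh`, from the determinant formula -/
theorem top_D (A B : List ℂ) (z : ℂ) (hA : Odd A.length) (hB : Odd B.length) (nA : NZ A)
    (nB : NZ B) (hz : z ≠ 0) (G : ℂ[X]) (hG : G.natDegree ≤ A.length + B.length)
    (hGw : ∀ w, w ≠ 0 → Dh A w z B * w^((A.length + B.length)/2) = G.eval w) :
    zs (A ++ B) * G.coeff (A.length + B.length) =
      zs (A ++ B) * (gh A [] B z + q * (mm A B * tt A [] B z)) := by
  obtain ⟨Fg, hFg, _, hFg1, hFg2⟩ := a_wid A [] B hA hB nA (fun z hz => by simp at hz) nB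
  obtain ⟨Ft, hFt, _, hFt1, hFt2⟩ := t_ttwid A [] B hA hB nA (fun z hz => by simp at hz) nB
  have e1 : A.length + B.length + 2 * ([] : List ℂ).length = A.length + B.length := rfl
  have e2 : (A.length + B.length)/2 + ([] : List ℂ).length = (A.length + B.length)/2 := rfl
  have e3 : A ++ (B ++ prs []) = A ++ B := by
    show A ++ (B ++ []) = A ++ B
    rw [List.append_nil]
  rw [e1] at hFg hFg1 hFt hFt1
  rw [e2] at hFg2 hFt2
  rw [e3] at hFg1 hFt1
  have key : C (zs (A ++ B)) * ((X - C z) * G) =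
      (X - C (q*z)) * (C (gh A [] B z) * Ft - C (tt A [] B z) * Fg) := by
    apply poly_ext
    intro w hw
    have h := a_DET A B w z hA hB nA nB hw hz
    simp only [eval_mul, eval_sub, eval_C, eval_X]
    rw [← hGw w hw, ← hFg2 w hw, ← hFt2 w hw]
    linear_combination w^((A.length + B.length)/2) * h
  have key2 : (C (zs (A ++ B)) * ((X - C z) * G)).coeff (A.length + B.length + 1) =
      ((X - C (q*z)) * (C (gh A [] B z) * Ft - C (tt A [] B z) * Fg)).coeff
        (A.length + B.length + 1) := by rw [key]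
  rw [coeff_C_mul, coeff_XmC_mul _ _ _ hG, coeff_XmC_mul, coeff_sub, coeff_C_mul, coeff_C_mul,
    hFg1, hFt1] at key2
  · rw [key2]
    ring
  · refine (natDegree_sub_le _ _).trans (max_le ?_ ?_)
    · exact (natDegree_C_mul_le _ _).trans hFt
    · exact (natDegree_C_mul_le _ _).trans hFg

/-! ### reflections -/

theorem reflect_X_mul (N : ℕ) (f : ℂ[X]) (hf : f.natDegree ≤ N) :
    reflect (N+2) (X * f) = X * reflect N f := by
  ext k
  rw [coeff_reflect]
  rcases Nat.eq_zero_or_pos k with rfl | hk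
  · rw [revAt_le (Nat.zero_le _), Nat.sub_zero, mul_coeff_zero, coeff_X_zero, zero_mul,
      show N + 2 = (N+1) + 1 from rfl, coeff_X_mul]
    exact coeff_eq_zero_of_natDegree_lt (by omega)
  · obtain ⟨j, rfl⟩ : ∃ j, k = j + 1 := ⟨k - 1, by omega⟩
    rw [coeff_X_mul, coeff_reflect]
    by_cases h1 : j + 1 ≤ N + 2
    · rw [revAt_le h1]
      by_cases h2 : j ≤ N
      · rw [revAt_le h2, show N + 2 - (j+1) = (N - j) + 1 by omega, coeff_X_mul]
      · have hj : j = N + 1 := by omega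
        subst hj
        rw [show N + 2 - (N + 1 + 1) = 0 by omega, mul_coeff_zero, coeff_X_zero, zero_mul,
          revAt_eq_self_of_lt (Nat.lt_succ_self N)]
        exact (coeff_eq_zero_of_natDegree_lt (by omega)).symm
    · rw [revAt_eq_self_of_lt (by omega), revAt_eq_self_of_lt (by omega), coeff_X_mul]

theorem reflect_comp (N : ℕ) (c d : ℂ) (hcd : c * d = 1) (hc : c^N = 1) (p : ℂ[X])
    (hp : p.natDegree ≤ N) :
    reflect N (p.comp (C c * X)) = (reflect N p).comp (C d * X) := by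
  ext k
  rw [coeff_reflect, comp_C_mul_X_coeff, comp_C_mul_X_coeff, coeff_reflect]
  by_cases h : k ≤ N
  · rw [revAt_le h]
    congr 1
    have h1 : c^(N - k) * c^k = 1 := by
      rw [← pow_add, Nat.sub_add_cancel h, hc]
    have h2 : c^k * d^k = 1 := by
      rw [← mul_pow, hcd, one_pow]
    calc c^(N - k) = c^(N - k) * (c^k * d^k) := by rw [h2, mul_one]
      _ = (c^(N - k) * c^k) * d^k := by ring
      _ = d^k := by rw [h1, one_mul]
  · rw [revAt_eq_self_of_lt (by omega), coeff_eq_zero_of_natDegree_lt (by omega), zero_mul,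
      zero_mul]

theorem kk_lim (P : ℂ[X][X]) (c : ℂ) (D k : ℕ)
    (h : ∀ t : ℂ, t ≠ 0 → (X - 1)^k ∣ (P.map (evalRingHom t)).comp (C c * X) -
      reflect D ((P.map (evalRingHom t)).comp (C c * X))) :
    (X - 1)^k ∣ (P.map (evalRingHom 0)).comp (C c * X) -
      reflect D ((P.map (evalRingHom 0)).comp (C c * X)) := by
  have key : ∀ t : ℂ, (P.comp (C (C c) * X) - reflect D (P.comp (C (C c) * X))).map
      (evalRingHom t) = (P.map (evalRingHom t)).comp (C c * X) -
      reflect D ((P.map (evalRingHom t)).comp (C c * X)) := by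
    intro t
    have h1 : (P.comp (C (C c) * X)).map (evalRingHom t) =
        (P.map (evalRingHom t)).comp (C c * X) := by
      rw [Polynomial.map_comp, Polynomial.map_mul, map_C, map_X, coe_evalRingHom, eval_C]
    rw [Polynomial.map_sub, ← reflect_map, h1]
  rw [← key]
  apply dvd_lim
  intro t ht
  rw [key]
  exact h t ht

theorem kk_smul (c s : ℂ) (D k : ℕ) (p : ℂ[X])
    (h : (X - 1)^k ∣ p.comp (C c * X) - reflect D (p.comp (C c * X))) :
    (X - 1)^k ∣ (C s * p).comp (C c * X) - reflect D ((C s * p).comp (C c * X)) := by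
  have h1 : (C s * p).comp (C c * X) - reflect D ((C s * p).comp (C c * X)) =
      C s * (p.comp (C c * X) - reflect D (p.comp (C c * X))) := by
    rw [mul_comp, C_comp, reflect_C_mul]
    ring
  rw [h1]
  exact Dvd.dvd.mul_left h _

theorem kk_X (c : ℂ) (hc : c ≠ 0) (N k : ℕ) (p : ℂ[X]) (hp : p.natDegree ≤ N)
    (h : (X - 1)^k ∣ (p * (-X)).comp (C c * X) - reflect (N+2) ((p * (-X)).comp (C c * X))) :
    (X - 1)^k ∣ p.comp (C c * X) - reflect N (p.comp (C c * X)) := by
  have hd : (p.comp (C c * X)).natDegree ≤ N := by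
    rw [natDegree_le_iff_coeff_eq_zero]
    intro j hj
    rw [comp_C_mul_X_coeff, coeff_eq_zero_of_natDegree_lt (lt_of_le_of_lt hp hj), zero_mul]
  have h1 : (p * (-X)).comp (C c * X) = C (-c) * (X * p.comp (C c * X)) := by
    rw [mul_comp, neg_comp, X_comp, C_neg]
    ring
  rw [h1, reflect_C_mul, reflect_X_mul N _ hd] at h
  have h2 : C (-c) * (X * p.comp (C c * X)) - C (-c) * (X * reflect N (p.comp (C c * X))) =
      C (-c) * X * (p.comp (C c * X) - reflect N (p.comp (C c * X))) := by ring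
  rw [h2] at h
  have hcop : IsCoprime ((X - 1 : ℂ[X])^k) (C (-c) * X) := by
    apply IsCoprime.pow_left
    refine ⟨-1, C (-c)⁻¹, ?_⟩
    have h3 : (C (-c)⁻¹ : ℂ[X]) * C (-c) = 1 := by
      rw [← C_mul, inv_mul_cancel₀ (neg_ne_zero.2 hc), C_1]
    linear_combination (X : ℂ[X]) * h3
  exact hcop.dvd_of_dvd_mul_left h

/-! ### `phi` -/

theorem phi_cons (t : ℂ) (S : List ℂ) (w : ℂ) : phi (t :: S) w = phi S w * (om w - om t) := by
  unfold phi
  rw [List.map_cons, List.prod_cons]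
  ring

theorem phi_on (k : ℕ) (w : ℂ) (hw : w ≠ 0) :
    phi (on k) w * w^(k+1) = (w^2 - 1) * (w - 1)^(2*k) := by
  induction k with
  | zero =>
    unfold phi Pool.Agent.NH38.Step.on
    simp only [List.replicate_zero, List.map_nil, List.prod_nil]
    field_simp
    ring
  | succ k ih =>
    have h1 : on (k+1) = 1 :: on k := rfl
    have h2 : (om w - om 1) * w = (w - 1)^2 := by
      unfold Pool.Agent.NH38.Step.om
      field_simp
      ring
    rw [h1, phi_cons]
    calc phi (on k) w * (om w - om 1) * w^(k+1+1) =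
        (phi (on k) w * w^(k+1)) * ((om w - om 1) * w) := by ring
      _ = _ := by
        rw [ih, h2]
        ring

/-! ### the family -/

theorem q2ne : (1:ℂ) - q^2 ≠ 0 := by
  intro h
  exact q_sq_ne_one (by linear_combination -h)

/-- the family of the polynomials `Dh (t :: A) w 1 B w^m t^e` -/
theorem fam (hzs : S3_zs) (hzo : S3_zo) (heh : S3_eh) (hgt : S3_gt) (hc : S3_cert) (a b : ℕ)
    (ha : Even a) (hb : Odd b) : ∃ H : ℂ[X][X],
    (∀ t, t ≠ 0 → ∀ w, w ≠ 0 → (w - q) * (H.map (evalRingHom t)).eval w =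
      Dh (t :: on a) w 1 (on b) * w^((a+b+1)/2) * t^(a + (b+1)/2)) ∧
    (∀ w, w ≠ 0 → (w - q) * (H.map (evalRingHom 0)).eval w =
      Dh3 (on a) w 1 (on b) * w^((a+b+1)/2)) ∧
    (H.map (evalRingHom 0)).natDegree ≤ a + b ∧
    (H.map (evalRingHom 0)).coeff 0 = q * ka a b ∧
    (H.map (evalRingHom 0)).coeff (a+b) = -q^2 * ka a b := by
  have hA : Even (on a).length := by rw [on_length]; exact ha
  have hB : Odd (on b).length := by rw [on_length]; exact hb
  have nA := NZ_on a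
  have nB := NZ_on b
  have hAt : ∀ t : ℂ, Odd (t :: on a).length := fun t => by
    rw [List.length_cons]
    exact hA.add_one
  have nAt : ∀ t : ℂ, t ≠ 0 → NZ (t :: on a) := fun t ht => NZ_cons ht nA
  have hl : ∀ t : ℂ, (t :: on a).length + (on b).length = a + b + 1 := fun t => by
    rw [List.length_cons, on_length, on_length]
    omega
  -- widths
  have hG : ∀ t : ℂ, t ≠ 0 → ∃ G : ℂ[X], G.natDegree ≤ a + b + 1 ∧
      G.coeff 0 = q * gh (t :: on a) [] (on b) 1 +
        mm (t :: on a) (on b) * tt (t :: on a) [] (on b) 1 ∧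
      (∀ w, w ≠ 0 → Dh (t :: on a) w 1 (on b) * w^((a+b+1)/2) = G.eval w) ∧
      zs (t :: on a ++ on b) * G.coeff (a+b+1) = zs (t :: on a ++ on b) *
        (gh (t :: on a) [] (on b) 1 + q * (mm (t :: on a) (on b) *
          tt (t :: on a) [] (on b) 1)) := by
    intro t ht
    obtain ⟨cn, G, g1, g2, _, g4⟩ := a_Dwid (t :: on a) (on b) 1 (hAt t) hB (nAt t ht) nB one_ne_zero
    have h3 := top_D (t :: on a) (on b) 1 (hAt t) hB (nAt t ht) nB one_ne_zero G g1 g4
    rw [hl] at g1 g4 h3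
    exact ⟨G, g1, g2, g4, h3⟩
  have hlim : ∀ w, w ≠ 0 → Lim0 (fun t => Dh (t :: on a) w 1 (on b) * w^((a+b+1)/2))
      (a + (b+1)/2) (Dh3 (on a) w 1 (on b) * w^((a+b+1)/2)) := by
    intro w hw
    have h := lim0_smul (w^((a+b+1)/2))
      (lim_D hzs hzo heh (on a) (on b) w 1 hA hB nA nB hw one_ne_zero)
    rw [on_length, on_length] at h
    exact lim0_congr h (fun t _ => mul_comm _ _) rfl (mul_comm _ _)
  obtain ⟨Q, hQ1, hQ2, hQ3⟩ := interp (a+b+1)
    (fun t w => Dh (t :: on a) w 1 (on b) * w^((a+b+1)/2))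
    (fun w => Dh3 (on a) w 1 (on b) * w^((a+b+1)/2)) (a + (b+1)/2) hlim
    (fun t ht => by
      obtain ⟨G, g1, _, g3, _⟩ := hG t ht
      exact ⟨G, g1, g3⟩)
  have hQG : ∀ t : ℂ, t ≠ 0 → ∀ G : ℂ[X],
      (∀ w, w ≠ 0 → Dh (t :: on a) w 1 (on b) * w^((a+b+1)/2) = G.eval w) →
      Q.map (evalRingHom t) = C (t^(a + (b+1)/2)) * G := by
    intro t ht G hGw
    apply poly_ext
    intro w hw
    rw [hQ1 t ht w hw, eval_mul, eval_C]
    show Dh (t :: on a) w 1 (on b) * w^((a+b+1)/2) * _ = _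
    rw [hGw w hw, mul_comm]
  -- limits of the extreme coefficients
  have lg := hgt (on a) (on b) 1 hA hB nA nB one_ne_zero
  rw [hc a b ha hb, on_length, on_length] at lg
  have lm := lim_mt hzo (on a) (on b) 1 hA hB nA nB one_ne_zero
  have hka : mm3 (on a) (on b) * zs (1 :: (on a ++ on b)) = ka a b := by
    unfold ka
    congr 2
    have h1 : on a ++ on b = on (a+b) := by
      unfold Pool.Agent.NH38.Step.on
      rw [List.replicate_append_replicate]
    rw [h1]
    rfl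
  rw [hka, on_length, on_length] at lm
  have c0 : (Q.map (evalRingHom 0)).coeff 0 = -q^2 * ka a b := by
    obtain ⟨p, hp0, hp⟩ := lim0_add (lim0_smul q lg) lm
    have h1 : Q.coeff 0 = p := by
      apply poly_ext
      intro t ht
      obtain ⟨G, g1, g2, g3, _⟩ := hG t ht
      rw [← ev_coeff, hQG t ht G g3, coeff_C_mul, g2, ← hp t ht]
      ring
    rw [ev_coeff, h1, hp0]
    have h2 := q_spec
    linear_combination (ka a b) * h2
  have cN : (Q.map (evalRingHom 0)).coeff (a+b+1) = -q^2 * ka a b := by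
    obtain ⟨p, hp0, hp⟩ := lim0_add lg (lim0_smul q lm)
    have hodd : Odd (on a ++ on b).length := by
      rw [List.length_append]
      exact hA.add_odd hB
    obtain ⟨Zp, _, hZ⟩ := hzs (on a ++ on b) hodd (NZ_append nA nB)
    have hZ1 : Zp.eval 1 ≠ 0 := by
      rw [← hZ 1 one_ne_zero, one_pow, mul_one]
      show zs (1 :: (on a ++ on b)) ≠ 0
      have h4 : (1:ℂ) :: (on a ++ on b) = on (a+1) ++ on b := rfl
      rw [h4]
      obtain ⟨x, hx⟩ := ha
      obtain ⟨y, hy⟩ := hb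
      exact zs_on_ne (a+1) b ⟨x + y + 1, by omega⟩
    have hZ0 : Zp ≠ 0 := fun h0 => hZ1 (by rw [h0, eval_zero])
    have h1 : Zp * Q.coeff (a+b+1) = Zp * p := by
      apply poly_ext
      intro t ht
      obtain ⟨G, g1, g2, g3, g4⟩ := hG t ht
      rw [eval_mul, eval_mul, ← ev_coeff, hQG t ht G g3, coeff_C_mul, ← hp t ht, ← hZ t ht]
      rw [List.cons_append] at g4
      linear_combination (t^(a + (b+1)/2) * t^(((on a ++ on b).length - 1)/2)) * g4
    have h2 := mul_left_cancel₀ hZ0 h1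
    rw [ev_coeff, h2, hp0]
    have h2 := q_spec
    linear_combination (ka a b) * h2
  -- the zero at `w = q`
  have hDq : ∀ t : ℂ, t ≠ 0 → Dh (t :: on a) q 1 (on b) = 0 := by
    intro t ht
    have h := t_Dexch (t :: on a) (on b) q 1 (hAt t) hB (nAt t ht) nB q_ne_zero one_ne_zero
    have h2 : (1 - q^2) * Dh (t :: on a) q 1 (on b) = 0 := by
      linear_combination h
    exact (mul_eq_zero.1 h2).resolve_left q2ne
  have hroot : Q.eval (C q) = 0 := by
    apply poly_ext
    intro t ht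
    rw [← ev_eval, hQ1 t ht q q_ne_zero, eval_zero]
    show Dh (t :: on a) q 1 (on b) * _ * _ = 0
    rw [hDq t ht, zero_mul, zero_mul]
  obtain ⟨H, hH⟩ := dvd_iff_isRoot.2 (show IsRoot Q (C q) from hroot)
  have hQH : ∀ t : ℂ, Q.map (evalRingHom t) = (X - C q) * H.map (evalRingHom t) := by
    intro t
    rw [hH, Polynomial.map_mul, Polynomial.map_sub, map_X, map_C, coe_evalRingHom, eval_C]
  have hHd : (H.map (evalRingHom 0)).natDegree ≤ a + b := by
    by_cases h0 : H.map (evalRingHom 0) = 0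
    · rw [h0, natDegree_zero]
      exact Nat.zero_le _
    · have h1 := hQ2 0
      rw [hQH, natDegree_mul (X_sub_C_ne_zero q) h0, natDegree_X_sub_C] at h1
      omega
  refine ⟨H, ?_, ?_, hHd, ?_, ?_⟩
  · intro t ht w hw
    have h := hQ1 t ht w hw
    rw [hQH, eval_mul, eval_sub, eval_X, eval_C] at h
    exact h
  · intro w hw
    have h := hQ3 w hw
    rw [hQH, eval_mul, eval_sub, eval_X, eval_C] at h
    exact h
  · rw [hQH, mul_coeff_zero, coeff_sub, coeff_X_zero, coeff_C_zero] at c0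
    have h1 : q * ((H.map (evalRingHom 0)).coeff 0 - q * ka a b) = 0 := by
      linear_combination -c0
    exact sub_eq_zero.1 ((mul_eq_zero.1 h1).resolve_left q_ne_zero)
  · rw [hQH, coeff_XmC_mul _ _ _ hHd] at cN
    exact cN

end Pool.Agent.H965.K3.B2

namespace Pool.Agent.H965.K3

open Pool.Agent.H988R2.Perc hiding X
open Pool.Agent.NH38.Step (om on)
open Pool.Agent.NH38.Step.Hom (phi)
open Pool.Agent.NH38.Fork (zo Dh)
open Polynomial B2

theorem t3_conf (h1 : S3_cfA) (hzs : S3_zs) (hzo : S3_zo) (heh : S3_eh) (hgt : S3_gt)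
    (hc : S3_cert) : S3_conf := by
  intro a b ha hb
  obtain ⟨H, hH1, hH2, hHd, hH0, hHN⟩ := fam hzs hzo heh hgt hc a b ha hb
  obtain ⟨m, hm⟩ : ∃ m, a + b + 1 = 2*m := by
    obtain ⟨x, hx⟩ := ha
    obtain ⟨y, hy⟩ := hb
    exact ⟨x + y + 1, by omega⟩
  have hm1 : (a+b+1)/2 = m := by omega
  have hm3 : 3*(a+b+1)/2 = 3*m := by omega
  set H0 := H.map (evalRingHom 0) with hH0def
  set p : ℂ[X] := H0 * ((X - 1)^(2*(a+b)+2) * (X + 1)) with hp
  have hX1 : ((X : ℂ[X]) - 1).natDegree ≤ 1 := by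
    rw [← C_1]
    exact (natDegree_X_sub_C 1).le
  have hX2 : ((X : ℂ[X]) + 1).natDegree ≤ 1 := by
    rw [← C_1]
    exact (natDegree_X_add_C 1).le
  have hX3 : ((X - 1 : ℂ[X])^(2*(a+b)+2)).natDegree ≤ 2*(a+b)+2 := by
    refine natDegree_pow_le.trans ?_
    calc (2*(a+b)+2) * ((X : ℂ[X]) - 1).natDegree ≤ (2*(a+b)+2) * 1 := Nat.mul_le_mul_left _ hX1
      _ = 2*(a+b)+2 := mul_one _
  have hX4 : ((X - 1 : ℂ[X])^(2*(a+b)+2) * (X + 1)).natDegree ≤ 2*(a+b)+3 :=
    natDegree_mul_le.trans (by omega)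
  have hpd : p.natDegree ≤ 3*(a+b+1) := natDegree_mul_le.trans (by omega)
  -- the family `P`
  set P : ℂ[X][X] := H * ((X - 1)^(2*(a+b)+2) * (X + 1)) *
    (C X * X^2 - C (X^2 + 1) * X + C X) with hP
  have hPt : ∀ t : ℂ, P.map (evalRingHom t) = H.map (evalRingHom t) *
      ((X - 1)^(2*(a+b)+2) * (X + 1)) * (C t * X^2 - C (t^2 + 1) * X + C t) := by
    intro t
    rw [hP]
    simp only [Polynomial.map_mul, Polynomial.map_sub, Polynomial.map_add, Polynomial.map_pow,
      map_X, map_C, Polynomial.map_one, coe_evalRingHom, eval_X, eval_add, eval_pow, eval_one]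
  have hP0 : P.map (evalRingHom 0) = p * (-X) := by
    rw [hPt, hp]
    rw [C_0, zero_mul, zero_sub, add_zero, zero_pow two_ne_zero, zero_add, C_1, one_mul]
  have hval : ∀ t : ℂ, t ≠ 0 → ∀ w, w ≠ 0 → (w - q) * (P.map (evalRingHom t)).eval w =
      Dh (t :: on a) w 1 (on b) * (w - 1) * phi (t :: on (a+b)) w * w^(3*(a+b+1)/2 + 1) *
        t^(a + (b+1)/2 + 1) := by
    intro t ht w hw
    rw [hPt, eval_mul, eval_mul]
    have h := hH1 t ht w hw
    rw [hm1] at h
    have hphi := phi_on (a+b) w hw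
    rw [hm] at hphi
    rw [phi_cons, hm3]
    have hom : (om w - om t) * w * t = t * w^2 - (t^2 + 1) * w + t := by
      unfold Pool.Agent.NH38.Step.om
      field_simp
      ring
    have e1 : ((X - 1 : ℂ[X])^(2*(a+b)+2) * (X + 1)).eval w = (w - 1)^(2*(a+b)+2) * (w + 1) := by
      rw [eval_mul, eval_pow, eval_sub, eval_add, eval_X, eval_one]
    have e2 : (C t * X^2 - C (t^2 + 1) * X + C t : ℂ[X]).eval w =
        t * w^2 - (t^2 + 1) * w + t := by
      rw [eval_add, eval_sub, eval_mul, eval_mul, eval_C, eval_pow, eval_X, eval_C]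
    rw [e1, e2, ← hom]
    have e3 : (w - 1)^(2*(a+b)+2) * (w + 1) = (w - 1) * (phi (on (a+b)) w * w^(2*m)) := by
      rw [hphi]
      ring
    rw [e3]
    calc (w - q) * (eval w (H.map (evalRingHom t)) * ((w - 1) * (phi (on (a+b)) w * w^(2*m))) *
        ((om w - om t) * w * t)) = ((w - q) * eval w (H.map (evalRingHom t))) *
        ((w - 1) * (phi (on (a+b)) w * w^(2*m)) * ((om w - om t) * w * t)) := by ring
      _ = _ := by
        rw [h]
        ring
  have hdiv : ∀ (c : ℂ) (k : ℕ), c ≠ 0 →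
      (∀ t : ℂ, t ≠ 0 → ∃ pt : ℂ[X], (∀ w, w ≠ 0 → Dh (t :: on a) w 1 (on b) * (w - 1) *
        phi (t :: on (a+b)) w * w^(3*(a+b+1)/2 + 1) = (w - q) * pt.eval w) ∧
        (X - 1)^k ∣ pt.comp (C c * X) - reflect (3*(a+b+1) + 2) (pt.comp (C c * X))) →
      (X - 1)^k ∣ p.comp (C c * X) - reflect (3*(a+b+1)) (p.comp (C c * X)) := by
    intro c k hc0 h
    apply kk_X c hc0 _ k p hpd
    rw [← hP0]
    apply kk_lim
    intro t ht
    obtain ⟨pt, hpt, hd⟩ := h t ht
    have h3 : P.map (evalRingHom t) = C (t^(a + (b+1)/2 + 1)) * pt := by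
      apply mul_left_cancel₀ (X_sub_C_ne_zero q)
      apply poly_ext
      intro w hw
      rw [eval_mul, eval_mul, eval_mul, eval_sub, eval_X, eval_C, eval_C, hval t ht w hw,
        hpt w hw]
      ring
    rw [h3]
    exact kk_smul c _ _ k pt hd
  have q2 : (q^2)^(3*(a+b+1)) = 1 := by
    rw [← pow_mul, show 2 * (3*(a+b+1)) = 3 * (2*(a+b+1)) by ring, pow_mul, q_cube, one_pow]
  have q1 : q^(3*(a+b+1)) = 1 := by rw [pow_mul, q_cube, one_pow]
  refine ⟨p, hpd, ?_, ?_, ?_, ?_, ?_, ?_⟩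
  · intro w hw
    have h := hH2 w hw
    rw [hm1] at h
    have hphi := phi_on (a+b) w hw
    rw [hm] at hphi
    rw [hm3, hp, eval_mul]
    have e1 : ((X - 1 : ℂ[X])^(2*(a+b)+2) * (X + 1)).eval w = (w - 1)^(2*(a+b)+2) * (w + 1) := by
      rw [eval_mul, eval_pow, eval_sub, eval_add, eval_X, eval_one]
    have e3 : (w - 1)^(2*(a+b)+2) * (w + 1) = (w - 1) * (phi (on (a+b)) w * w^(2*m)) := by
      rw [hphi]
      ring
    rw [e1, e3]
    linear_combination (-((w - 1) * (phi (on (a+b)) w * w^(2*m)))) * h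
  · rw [hp, mul_coeff_zero, hH0, mul_coeff_zero, coeff_zero_eq_eval_zero,
      coeff_zero_eq_eval_zero, eval_pow, eval_sub, eval_add, eval_X, eval_one, zero_sub, zero_add,
      Even.neg_one_pow ⟨a+b+1, by ring⟩]
    ring
  · have e1 : 3*(a+b+1) = (a + b) + ((2*(a+b)+2) + 1) := by ring
    rw [hp, e1, coeff_mul_add_eq_of_natDegree_le hHd (by omega), hHN,
      coeff_mul_add_eq_of_natDegree_le hX3 hX2]
    have e2 : ((X - 1 : ℂ[X])^(2*(a+b)+2)).coeff (2*(a+b)+2) = 1 := by
      have e3 := coeff_pow_of_natDegree_le (m := 2*(a+b)+2) hX1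
      rw [mul_one] at e3
      rw [e3, coeff_sub, coeff_X_one, coeff_one]
      simp
    rw [e2, coeff_add, coeff_X_one, coeff_one]
    simp
  · rw [hp]
    exact ⟨H0 * (X + 1), by ring⟩
  · have h := hdiv (q^2) (2*a+1) (pow_ne_zero 2 q_ne_zero)
      (fun t ht => by
        obtain ⟨pt, _, h3, h4, _⟩ := h1 a b t ha hb ht
        exact ⟨pt, h3, h4⟩)
    unfold dA3
    rw [reflect_comp _ (q^2) q (by rw [← pow_succ, q_cube]) q2 p hpd] at h
    exact h
  · have h := hdiv q (2*b+1) q_ne_zero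
      (fun t ht => by
        obtain ⟨pt, _, h3, _, h5⟩ := h1 a b t ha hb ht
        exact ⟨pt, h3, h5⟩)
    unfold dB3
    rw [reflect_comp _ q (q^2) (by rw [← pow_succ', q_cube]) q1 p hpd] at h
    exact h

end Pool.Agent.H965.K3
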