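import Pool.Agent.H966.T1.Stubs2

/-!
Forked channels, the outer and inner walls of the left arm to the inner wall of the right arm
(helper965): definitions.

Critical bond percolation on `ℤ²` in the forked channel: a half-infinite strip below (columns
`-a..m+b`), with two arms on top of it: columns `-a..0` and `m..m+b`; `a`, `m` even, `b` odd. The
left wall is wired: this is the extra parameter `0` (first strand) below and in the left arm. All
quantities here are leading coefficients, as `t → 0`, of those of `H966.T1` for the list `t :: A`.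
-/

namespace Pool.Agent.H965.K3

open Pool.Agent.H988R2.Perc hiding X
open Pool.Agent.H492C (comb comb2 pairG up1)
open Pool.Agent.NH38.Step (om prs EE zs prF Gen on cardy pom bev)
open Pool.Agent.NH38.Step.Hom (phi eL DD DD_ne W0 VV bs LP)
open Pool.Agent.NH38.Fork (zo mm na cst gh Dh G T D U tt gF tF NZ ev LR UL Reg Lau PermInv cc gm
  x1 x2 sv vv kap rf mj EAdj UnifG Bt)
open Pool.Agent.H966.T1 (eh E1 U1 TT1 hF FP1 DD1 FAdj1 EAdj1)
open Polynomial Filter Topology MeasureTheory

/-- `f t * t^e` is a polynomial in `t` with value `c` at `0` (leading behaviour at `0`) -/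
def Lim0 (f : ℂ → ℂ) (e : ℕ) (c : ℂ) : Prop :=
  ∃ p : ℂ[X], p.eval 0 = c ∧ ∀ t, t ≠ 0 → f t * t^e = p.eval t

/-! ## glued qKZ vectors -/

/-- upper vector: left arm (parameters `0, A⁻¹, 0`), `m` small arcs, right arm (parameters
`0, B⁻¹`) -/
noncomputable def U3 (A : List ℂ) (m : ℕ) (B : List ℂ) : St →₀ ℂ :=
  comb2 ((A.length + 2) / 2) (Psi (0 :: (A.map (fun x => x⁻¹) ++ [0])))
    (comb2 m (Finsupp.single St.bot 1) (Psi (0 :: B.map (fun x => x⁻¹))))

/-- the glued amplitude: lower parameters `0, A, w, X^±, v, B`; indicator of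
`{face |A|+1 ~ face |A| + 2|X| + 3}` -/
noncomputable def E3 (A X B : List ℂ) (w v : ℂ) : ℂ :=
  pairG (A.length + 1) (A.length + 1 + 2 * X.length + 2)
    (Psi (0 :: (A ++ w :: (prs X ++ v :: B)))) (U3 A X.length B)

/-- total mass -/
noncomputable def TT3 (A X B : List ℂ) (w v : ℂ) : ℂ :=
  Z (0 :: (A ++ w :: (prs X ++ v :: B))) *
    (Z (0 :: (A.map (fun x => x⁻¹) ++ [0])) * Z (0 :: B.map (fun x => x⁻¹)))

/-- normalisation: `cst (t :: A) B k w = t^((|B|+1)/2 + k) * cs3 A B k w` -/
noncomputable def cs3 (A B : List ℂ) (k : ℕ) (w : ℂ) : ℂ :=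
  w^((A.length + 1 + B.length)/2 + k) * A.prod^((B.length+1)/2 + k) * B.prod^((A.length+2)/2 + k) *
    q^(((A.length + 1 + B.length)/2 + k + 1) * ((A.length + 1 + B.length)/2 + k) +
      (((A.length+2)/2) * (A.length/2) + na B))

/-- masses of the arms (leading coefficient of `mm (t :: A) B`) -/
noncomputable def mm3 (A B : List ℂ) : ℂ := zs A * zo B

/-- normalised amplitude -/
noncomputable def eh3 (A X B : List ℂ) (w v : ℂ) : ℂ := E3 A X B w v / cs3 A B X.length (w * v)

/-- the three leg amplitude (leading coefficient of `Dh (t :: A) w v B`) -/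
noncomputable def Dh3 (A : List ℂ) (w v : ℂ) (B : List ℂ) : ℂ :=
  (eh3 A [] B w v - mm3 A B * zo (w :: v :: (A ++ B))) / q

/-- leading coefficient of `gh (t :: A) [] B w` -/
noncomputable def gt3 (A B : List ℂ) (w : ℂ) : ℂ :=
  pairG (A.length + 1) (A.length + 1 + 1 + B.length) (Psi (0 :: (A ++ (w :: (B ++ [0])))))
    (comb2 ((A.length + 2) / 2) (Psi (0 :: (A.map (fun x => x⁻¹) ++ [0])))
      (comb2 0 (Finsupp.single St.bot 1) (up1 B))) / cs3 A B 0 w

/-! ## the formula -/

variable {ι : Type} (x : ι → ℂ)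

/-- normalised amplitude of the complementary event, for a finite family of pairs -/
noncomputable def hF3 (s : Finset ι) (A B : List ℂ) (w v : ℂ) : ℂ :=
  mm3 A B * zo (w :: v :: (A ++ (B ++ prF x s))) - eh3 A (s.toList.map x) B w v

open Classical in
/-- the formula (it is `NH38.Fork.FP` with `v :: (A ++ B)` in place of `A ++ B`) -/
noncomputable def FP3 (g : Finset ι → List ℂ → List ℂ → ℂ → ℂ → ℂ) (s : Finset ι) (A B : List ℂ)
    (w v : ℂ) : ℂ :=
  (∏ j ∈ s, (om w - om (x j))) * zs (v :: (A ++ B)) * g s A B w v -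
    (∏ j ∈ s, EE (om w) (om (x j))) * zs (v :: (A ++ (B ++ prF x s))) * g ∅ A B w v +
    ∑ i ∈ s, gm x s i * (∏ j ∈ s.erase i, (om w - om (x j))) *
      cc (fun z => g ∅ A B z v) w (x i) *
      zs (w :: x i :: v :: (A ++ (B ++ prF x (s.erase i))))

/-- `hF3` at `A = B = X = 1,…,1` and `v = 1` -/
noncomputable def h3 (a b k : ℕ) (w : ℂ) : ℂ :=
  mm3 (on a) (on b) * zo (w :: 1 :: (on a ++ (on b ++ on (2*k)))) - eh3 (on a) (on k) (on b) w 1

/-- `mm3 * zs` -/
noncomputable def ka (a b : ℕ) : ℂ := mm3 (on a) (on b) * zs (on (a+b+1))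

/-! ## the Padé pair of exponent `2/3` -/

/-- `R_n` (for even `n` it is used) -/
noncomputable def Rp : ℕ → ℚ[X]
  | 0 => 1
  | n+1 => C (1 / (kap (n+2) - kap n)) * (H337CB.Ps (n+2) - (X - 1)^2 * H337CB.Ps n)

/-- the reflection of `R_n` -/
noncomputable def Rps (n : ℕ) : ℚ[X] := reflect n (Rp n)

/-- coefficients of the left arm -/
noncomputable def dv : ℕ → ℚ[X]
  | 0 => 1
  | n+1 => C (1 / (kap (n+2) - kap n)) * (sv (n+2) - sv n)

/-- coefficients -/
noncomputable def cd (a b j : ℕ) : ℚ := (dv a * sv b).coeff j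

/-- the crossing probability; `a`, `b` = widths of the arms, `N` = width -/
noncomputable def FK (a b N : ℕ) : ℚ := (∑ j ∈ Finset.range ((a+b+1)/2), cd a b j * mj N j) / 2

/-! ## percolation -/

/-- There is an open path of the forked channel (`H966.T1.FAdj1`: columns `-a..m+b`, slit `[0,m]`
at heights `≥ 0`) from a vertex of the left wall (column `-a`) or of the inner wall of the left arm
(column `0`, height `≥ 0`) to a vertex of the inner wall of the right arm (column `m`,
height `≥ 0`). -/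
def Cross3 (a m b : ℕ) : Set Conf :=
  {ω | ∃ x y : ℤ × ℤ, (x.1 - x.2 = -(a:ℤ) ∨ (x.1 - x.2 = 0 ∧ 0 ≤ x.1 + x.2)) ∧
    y.1 - y.2 = (m : ℤ) ∧ 0 ≤ y.1 + y.2 ∧ Relation.ReflTransGen (FAdj1 a m b ω) x y}

end Pool.Agent.H965.K3
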