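import Pool.Agent.H965.K3.Stubs
import Pool.Agent.H966.T1.H23
import Pool.Graph.R_pool_sql_team_seeded_3dad9d7b.NH38.Fork.GMain

/-!
Forked channels, the walls of the left arm to the inner wall of the right arm, task F1 (helper795):
the residue formula `S3_HF`.
-/

namespace Pool.Agent.H965.K3.F1

open Pool.Agent.NH38.Step.Hom
open Pool.Agent.H988R2.Perc (q q_spec q_cube q_ne_zero q_ne_one q_sq_ne_one mu)
open LaurentPolynomial (T C invert)
open Pool.Agent
open Pool.Agent.NH38.Fork (kap)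

/-! ### the polynomials `Rp` -/

theorem Ps_coeff_zero (n : ℕ) : (H337CB.Ps n).coeff 0 = kap n := by
  rw [← H337CB.reflect_P, Polynomial.coeff_reflect, Polynomial.revAt_le (Nat.zero_le _),
    Nat.sub_zero, H966.T1.H23.P_top]

theorem kap_lt (n : ℕ) : kap n < kap (n+1) := by
  have h1 := H966.T1.H23.kap_succ n
  have h2 := H966.T1.H23.kap_pos n
  have h3 : (0:ℚ) ≤ n := Nat.cast_nonneg n
  have h4 : (3 * (n:ℚ) + 2) * (kap (n+1) - kap n) = 2 * kap n := by linear_combination h1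
  have h5 : 0 < (3 * (n:ℚ) + 2) * (kap (n+1) - kap n) := by rw [h4]; positivity
  have h6 : 0 < (3 * (n:ℚ) + 2) := by positivity
  have h7 := (pos_iff_pos_of_mul_pos h5).mp h6
  linarith

theorem sq_coeff_two : ((Polynomial.X - 1 : Polynomial ℚ)^2).coeff 2 = 1 := by
  have e : (Polynomial.X - 1 : Polynomial ℚ)^2 = Polynomial.X^2 -
      Polynomial.C 2 * Polynomial.X + Polynomial.C 1 := by
    rw [Polynomial.C_1,
      show (Polynomial.C 2 : Polynomial ℚ) = 2 from map_ofNat Polynomial.C 2]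
    ring
  rw [e, Polynomial.coeff_add, Polynomial.coeff_sub, Polynomial.coeff_X_pow,
    Polynomial.coeff_C_mul_X, Polynomial.coeff_C]
  norm_num

theorem Rp_deg (a : ℕ) : (Rp a).natDegree ≤ a := by
  rcases a with _ | n
  · show (1 : Polynomial ℚ).natDegree ≤ 0
    simp
  · show (Polynomial.C (1 / (kap (n+2) - kap n)) *
      (H337CB.Ps (n+2) - (Polynomial.X - 1)^2 * H337CB.Ps n)).natDegree ≤ n + 1
    refine (Polynomial.natDegree_C_mul_le _ _).trans ?_
    have d2 : ((Polynomial.X - 1 : Polynomial ℚ)^2).natDegree ≤ 2 := by compute_degree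
    have h1 : (H337CB.Ps (n+2) - (Polynomial.X - 1)^2 * H337CB.Ps n).natDegree ≤ n + 2 := by
      refine (Polynomial.natDegree_sub_le _ _).trans (max_le (H337CB.natDegree_Ps_le _) ?_)
      have := H337CB.natDegree_Ps_le n
      exact Polynomial.natDegree_mul_le.trans (by omega)
    have h2 : (H337CB.Ps (n+2) - (Polynomial.X - 1)^2 * H337CB.Ps n).coeff (n+2) = 0 := by
      rw [Polynomial.coeff_sub, Ps_coeff_top, show n + 2 = 2 + n by ring,
        Polynomial.coeff_mul_add_eq_of_natDegree_le d2 (H337CB.natDegree_Ps_le _), sq_coeff_two,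
        Ps_coeff_top]
      norm_num
    rw [Polynomial.natDegree_le_iff_coeff_eq_zero]
    intro i hi
    rcases Nat.lt_or_ge (n+2) i with h | h
    · exact Polynomial.coeff_eq_zero_of_natDegree_lt (lt_of_le_of_lt h1 h)
    · have : i = n + 2 := by omega
      rw [this]; exact h2

theorem Rp_zero (a : ℕ) : (Rp a).coeff 0 = 1 := by
  rcases a with _ | n
  · show (1 : Polynomial ℚ).coeff 0 = 1
    simp
  · show (Polynomial.C (1 / (kap (n+2) - kap n)) *
      (H337CB.Ps (n+2) - (Polynomial.X - 1)^2 * H337CB.Ps n)).coeff 0 = 1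
    have h := (kap_lt n).trans (kap_lt (n+1))
    rw [Polynomial.coeff_C_mul, Polynomial.coeff_sub, Polynomial.mul_coeff_zero, Ps_coeff_zero,
      Ps_coeff_zero]
    have h1 : ((Polynomial.X - 1 : Polynomial ℚ)^2).coeff 0 = 1 := by
      rw [Polynomial.coeff_zero_eq_eval_zero]
      simp
    rw [h1, one_mul]
    have h2 : kap (n+2) - kap n ≠ 0 := (sub_pos.mpr h).ne'
    exact one_div_mul_cancel h2

theorem Rps_deg (a : ℕ) : (Rps a).natDegree ≤ a := by
  unfold Rps
  exact (Polynomial.natDegree_reflect_le).trans (max_le le_rfl (Rp_deg a))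

theorem Rps_top (a : ℕ) : (Rps a).coeff a = 1 := by
  unfold Rps
  rw [Polynomial.coeff_reflect, Polynomial.revAt_le le_rfl, Nat.sub_self, Rp_zero]

/-! ### residues -/

/-- divisibility by `X + 1` -/
theorem exists_F (a b : ℕ) (hb : Odd b) :
    ∃ F0 F2 : Polynomial ℚ,
      (Polynomial.X + 1) * F0 = (Polynomial.X - 1) * (Rp a * H337CB.P b +
        Polynomial.X * (Rps a * H337CB.Ps b) + Polynomial.X * (Rps a * H337CB.P b) -
        Polynomial.X * (Rp a * H337CB.Ps b)) ∧
      (Polynomial.X + 1) * F2 = (Polynomial.X - 1) * (Rp a * H337CB.P b +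
        Polynomial.X * (Rps a * H337CB.Ps b) + Rp a * H337CB.Ps b - Rps a * H337CB.P b) := by
  have h2 := NH38.HG5C.PPs_neg b hb
  have hd : ∀ F : Polynomial ℚ, F.eval (-1) = 0 → (Polynomial.X + 1) ∣ F := by
    intro F hF
    have h4 := Polynomial.dvd_iff_isRoot.mpr (show F.IsRoot (-1) from hF)
    have h5 : (Polynomial.X - Polynomial.C (-1) : Polynomial ℚ) = Polynomial.X + 1 := by
      rw [map_neg, Polynomial.C_1, sub_neg_eq_add]
    rwa [h5] at h4
  obtain ⟨F0, h3⟩ := hd ((Polynomial.X - 1) * (Rp a * H337CB.P b +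
        Polynomial.X * (Rps a * H337CB.Ps b) + Polynomial.X * (Rps a * H337CB.P b) -
        Polynomial.X * (Rp a * H337CB.Ps b))) (by
    simp only [Polynomial.eval_mul, Polynomial.eval_add, Polynomial.eval_sub, Polynomial.eval_X,
      Polynomial.eval_one]
    linear_combination (-2) * ((Rp a).eval (-1) - (Rps a).eval (-1)) * h2)
  obtain ⟨F2, h4⟩ := hd ((Polynomial.X - 1) * (Rp a * H337CB.P b +
        Polynomial.X * (Rps a * H337CB.Ps b) + Rp a * H337CB.Ps b - Rps a * H337CB.P b)) (by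
    simp only [Polynomial.eval_mul, Polynomial.eval_add, Polynomial.eval_sub, Polynomial.eval_X,
      Polynomial.eval_one]
    linear_combination (-2) * ((Rp a).eval (-1) - (Rps a).eval (-1)) * h2)
  exact ⟨F0, F2, h3.symm, h4.symm⟩

theorem res_total (a b k n N : ℕ) (hn : a + b + 1 = 2 * n) (hN : N = 2*n + 2*k + 1)
    (F0 F2 : Polynomial ℚ)
    (h0 : (Polynomial.X + 1) * F0 = (Polynomial.X - 1) * (Rp a * H337CB.P b +
        Polynomial.X * (Rps a * H337CB.Ps b) + Polynomial.X * (Rps a * H337CB.P b) -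
        Polynomial.X * (Rp a * H337CB.Ps b)))
    (h2 : (Polynomial.X + 1) * F2 = (Polynomial.X - 1) * (Rp a * H337CB.P b +
        Polynomial.X * (Rps a * H337CB.Ps b) + Rp a * H337CB.Ps b - Rps a * H337CB.P b)) :
    H337CB.R (2*n + N) (-2/3) (F0 * H337CB.Ps N) = 1 ∧
      H337CB.R (2*n + N) 0 (F2 * H337CB.Ps N) = 1 := by
  have dP := Rp_deg a
  have dPs := Rps_deg a
  have dPb := H337CB.natDegree_P_le b
  have dPsb := H337CB.natDegree_Ps_le b
  have dX : (Polynomial.X : Polynomial ℚ).natDegree ≤ 1 := Polynomial.natDegree_X_le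
  have dX1 : (Polynomial.X - 1 : Polynomial ℚ).natDegree ≤ 1 := by compute_degree
  have dPP : (Rp a * H337CB.P b).natDegree ≤ a + b :=
    Polynomial.natDegree_mul_le.trans (by omega)
  have dSS : (Rps a * H337CB.Ps b).natDegree ≤ a + b :=
    Polynomial.natDegree_mul_le.trans (by omega)
  have dPS : (Rp a * H337CB.Ps b).natDegree ≤ a + b :=
    Polynomial.natDegree_mul_le.trans (by omega)
  have dSP : (Rps a * H337CB.P b).natDegree ≤ a + b :=
    Polynomial.natDegree_mul_le.trans (by omega)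
  have dA0 : (Rp a * H337CB.P b +
        Polynomial.X * (Rps a * H337CB.Ps b) + Polynomial.X * (Rps a * H337CB.P b) -
        Polynomial.X * (Rp a * H337CB.Ps b)).natDegree ≤ 2*n := by
    refine (Polynomial.natDegree_sub_le _ _).trans (max_le
      ((Polynomial.natDegree_add_le _ _).trans (max_le
        ((Polynomial.natDegree_add_le _ _).trans (max_le (by omega) ?_)) ?_)) ?_)
    · exact Polynomial.natDegree_mul_le.trans (by omega)
    · exact Polynomial.natDegree_mul_le.trans (by omega)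
    · exact Polynomial.natDegree_mul_le.trans (by omega)
  have dA2 : (Rp a * H337CB.P b +
        Polynomial.X * (Rps a * H337CB.Ps b) + Rp a * H337CB.Ps b -
        Rps a * H337CB.P b).natDegree ≤ 2*n := by
    refine (Polynomial.natDegree_sub_le _ _).trans (max_le
      ((Polynomial.natDegree_add_le _ _).trans (max_le
        ((Polynomial.natDegree_add_le _ _).trans (max_le (by omega) ?_)) (by omega))) (by omega))
    exact Polynomial.natDegree_mul_le.trans (by omega)
  obtain ⟨dF0, -⟩ := NH38.Fork.H5.deg_of F0 _ (2*n) h0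
    (Polynomial.natDegree_mul_le.trans (by omega))
  obtain ⟨dF2, cF2⟩ := NH38.Fork.H5.deg_of F2 _ (2*n) h2
    (Polynomial.natDegree_mul_le.trans (by omega))
  have cS : (Rps a * H337CB.Ps b).coeff (a+b) = 1 := by
    rw [Polynomial.coeff_mul_add_eq_of_natDegree_le dPs dPsb, Rps_top, Ps_coeff_top]
    norm_num
  have cA2 : (Rp a * H337CB.P b +
        Polynomial.X * (Rps a * H337CB.Ps b) + Rp a * H337CB.Ps b -
        Rps a * H337CB.P b).coeff (2*n) = 1 := by
    rw [← hn, Polynomial.coeff_sub, Polynomial.coeff_add, Polynomial.coeff_add,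
      Polynomial.coeff_X_mul, cS,
      Polynomial.coeff_eq_zero_of_natDegree_lt (lt_of_le_of_lt dPP (Nat.lt_succ_self _)),
      Polynomial.coeff_eq_zero_of_natDegree_lt (lt_of_le_of_lt dPS (Nat.lt_succ_self _)),
      Polynomial.coeff_eq_zero_of_natDegree_lt (lt_of_le_of_lt dSP (Nat.lt_succ_self _))]
    norm_num
  have cF2' : F2.coeff (2*n) = 1 := by
    rw [cF2, sub_mul, one_mul, Polynomial.coeff_sub, Polynomial.coeff_X_mul, cA2,
      Polynomial.coeff_eq_zero_of_natDegree_lt (lt_of_le_of_lt dA2 (Nat.lt_succ_self _))]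
    norm_num
  have t3 : H337CB.R (2*n + N) 0 (F2 * H337CB.Ps N) = 1 := by
    have h := R_top (2*n + N) 0 (2*n + N) (F2 * H337CB.Ps N)
      (Polynomial.natDegree_mul_le.trans (add_le_add dF2 (H337CB.natDegree_Ps_le _))) (by omega)
    rw [Nat.cast_zero] at h
    rw [h, Polynomial.coeff_mul_add_eq_of_natDegree_le dF2 (H337CB.natDegree_Ps_le _), cF2',
      Ps_coeff_top]
    norm_num
  have c0 : F0.coeff 0 = -1 := by
    have h := congrArg (fun p : Polynomial ℚ => p.coeff 0) h0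
    simp only [Polynomial.mul_coeff_zero, Polynomial.coeff_add, Polynomial.coeff_sub,
      Polynomial.coeff_X_zero, Polynomial.coeff_one_zero, P_coeff_zero, Rp_zero] at h
    linear_combination h
  have t1 : H337CB.R (2*n + N) (-2/3) (F0 * H337CB.Ps N) = 1 := by
    have hsw := H337CB.R_swap (2*n + N) N (by omega) (-1) F0
    rw [show (-2/3 : ℚ) = -1 + 1/3 by norm_num, mul_comm F0, hsw, R_neg_one, mul_comm,
      Polynomial.mul_coeff_zero, P_coeff_zero, c0]
    · have : (-1 : ℚ)^(2*n + N) = -1 := Odd.neg_one_pow ⟨2*n + k, by omega⟩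
      rw [this]; norm_num
    · refine Polynomial.natDegree_mul_le.trans ?_
      have := H337CB.natDegree_P_le N
      omega
  exact ⟨t1, t3⟩

theorem refl_eval (N : ℕ) (p : Polynomial ℂ) (hp : p.natDegree ≤ N) (w : ℂ) (hw : w ≠ 0) :
    (Polynomial.reflect N p).eval w = w^N * p.eval w⁻¹ := by
  have hi : Invertible (w⁻¹) := ⟨w, mul_inv_cancel₀ hw, inv_mul_cancel₀ hw⟩
  have h := Polynomial.eval₂_reflect_mul_pow (RingHom.id ℂ) w⁻¹ N p hp
  have h1 : (⅟(w⁻¹) : ℂ) = w := by rw [invOf_eq_inv, inv_inv]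
  rw [h1] at h
  have h2 : (Polynomial.reflect N p).eval w * (w⁻¹)^N = p.eval w⁻¹ := h
  rw [← h2, inv_pow, mul_comm, mul_assoc, inv_mul_cancel₀ (pow_ne_zero _ hw), mul_one]

/-! ### the core -/

/-- **the core identity** -/
theorem core (a b k : ℕ) (hb : Odd b) (n N j : ℕ) (hn : a + b + 1 = 2 * n) (hj : j = n + k)
    (hN : N = 2*j + 1) (g H tN ts v1 v0 Ft F' : LP)
    (z zN m : ℂ) (hz : z ≠ 0)
    (H1 : C z * (g * (dl * (oL - 2)^(N-1))) +
      C zN * ((T 3 + T (-3) - 2)^k * ((1 + oA) * H)) = oA * v1 + v0)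
    (hv1 : v1 ∈ VV (N-1)) (hv0 : v0 ∈ VV (N-1))
    (H2 : C z * (tN * (dl * (oL - 2)^(N-1))) -
      C zN * ((T 3 + T (-3) - 2)^k * (ts * (dl * (oL - 2)^(2*n)))) = Ft)
    (hFt : Ft ∈ VV (N-1))
    (H3 : ts * (dl * (oL - 2)^(2*n)) = C z * bs (2*n) + F') (hF' : F' ∈ VV (2*n))
    (H4 : H + invert H = C ((q - q^2) * (z * m)) * (T (-(3*(n:ℤ))) *
      ((polyL (Rp a) - T 2 * polyL (Rps a)) *
        (polyL (H337CB.P b) - T 1 * polyL (H337CB.Ps b)))))
    (F1 : Polynomial ℚ)
    (hF1 : (Polynomial.X + 1) * F1 = (1 - Polynomial.X) * ((Rp a + Polynomial.X * Rps a) *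
      (H337CB.P b + H337CB.Ps b))) :
    2 * e1 g = (2 + ((H337CB.R (2*n + N) (-1/3) (F1 * H337CB.Ps N) : ℚ) : ℂ)) *
      (e1 tN * m) := by
  obtain ⟨F0, F2, h0, h2⟩ := exists_F a b hb
  obtain ⟨c0, hc0, hc⟩ := RR_lead N j (by omega)
  obtain ⟨t1, t3⟩ := res_total a b k n N hn (by omega) F0 F2 h0 h2
  set r : ℂ := ((H337CB.R (2*n + N) (-1/3) (F1 * H337CB.Ps N) : ℚ) : ℂ) with hr
  set K : LP := (T 3 + T (-3) - 2)^k with hK
  set h : LP := K * T (-(3*(n:ℤ)+1)) * (T 0 * polyL F0) +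
    K * T (-(3*(n:ℤ)+1)) * (T 1 * polyL F1) +
    K * T (-(3*(n:ℤ)+1)) * (T 2 * polyL F2) with hh
  have hRh : RR N j h = 2 + r := by
    rw [hh, RR_add, RR_add, hK, NH38.HG5C.RR_K k n N j hj hN, NH38.HG5C.RR_K k n N j hj hN,
      NH38.HG5C.RR_K k n N j hj hN,
      show (((0:ℤ):ℚ)/3 - 2/3 : ℚ) = -2/3 by norm_num,
      show (((1:ℤ):ℚ)/3 - 2/3 : ℚ) = -1/3 by norm_num,
      show (((2:ℤ):ℚ)/3 - 2/3 : ℚ) = 0 by norm_num, ← hr, t1, t3]
    push_cast
    ring
  set DN : LP := dl * (oL - 2)^(N-1) with hDN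
  set Da : LP := dl * (oL - 2)^(2*n) with hDa
  set Q : LP := K * T (-(3*(n:ℤ)+1)) * ((polyL (Rp a) - T 2 * polyL (Rps a)) *
        (polyL (H337CB.P b) - T 1 * polyL (H337CB.Ps b))) with hQ
  have iK : invert K = K := NH38.Fork.H5.invert_K k
  have iDN : invert DN = -DN := NH38.Fork.H5.invert_D (N-1)
  have KB : K * bs (2*n) - bs (2*n + 2*k) ∈ VV (2*n + 2*k) := NH38.Fork.H5.Kk_bs k (2*n)
  have KF : K * F' ∈ VV (2*n + 2*k) := NH38.Fork.H5.Kk_VV k hF'
  have hT3n : (T (-(3*(n:ℤ))) : LP) = T 1 * T (-(3*(n:ℤ)+1)) := by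
    rw [← LaurentPolynomial.T_add]
    congr 1
    ring
  have H4' : K * (H + invert H) = C ((q - q^2) * (z * m)) * (T 1 * Q) := by
    rw [H4, hQ, hT3n]
    ring
  -- the identity for `h`
  have e1' : (T 2 : LP) * T 1 = T 3 := (LaurentPolynomial.T_add _ _).symm
  have e2' : (T 1 : LP) * T 1 = T 2 := (LaurentPolynomial.T_add _ _).symm
  have hsq : (T 3 + 1 : LP) * h = (T 3 - 1) * (T 2 - T 1 + 1) * Q := by
    have q0 := congrArg polyL h0
    have q1 := congrArg polyL hF1
    have q2 := congrArg polyL h2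
    simp only [map_mul, map_add, map_sub, map_one, polyL_X] at q0 q1 q2
    rw [hh, hQ]
    simp only [LaurentPolynomial.T_zero]
    generalize (T (-(3*(n:ℤ)+1)) : LP) = V
    rw [← e1', ← e2'] at q0 q1 q2 ⊢
    generalize (T 1 : LP) = t at *
    generalize polyL (Rp a) = P at *
    generalize polyL (Rps a) = Q at *
    generalize polyL (H337CB.P b) = P' at *
    generalize polyL (H337CB.Ps b) = Q' at *
    linear_combination (K * V) * q0 + (t * K * V) * q1 + (t * t * K * V) * q2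
  clear_value DN Da K r Q h
  -- the total mass
  have hN1 : N - 1 = 2*n + 2*k := by omega
  have RK : RR N j (K * (C z * bs (2*n) + F')) = 2 * z := by
    have e : K * (C z * bs (2*n) + F') = C z * bs (N-1) +
        (C z * (K * bs (2*n) - bs (N-1)) + K * F') := by ring
    rw [e, RR_add, RR_C, RR_bs_top N j hN, RR_VV N j hN]
    · ring
    · refine Submodule.add_mem _ ?_ ?_
      · rw [← LaurentPolynomial.smul_eq_C_mul, hN1]
        exact Submodule.smul_mem _ _ KB
      · rw [hN1]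
        exact KF
  have M1 : c0 * e1 tN = 2 * zN := by
    have h1 := congrArg (RR N j) H2
    rw [RR_sub, RR_C, RR_C, hc, H3, RK, RR_VV N j hN hFt] at h1
    apply mul_left_cancel₀ hz
    linear_combination h1
  -- inversion of the formula
  have H1' : -(C z * (invert g * DN)) + C zN * (K * ((1 + oB) * invert H)) =
      -(oB * v1) - v0 := by
    have h1 := congrArg (fun x : LP => invert x) H1
    have i1 : invert (C z * (g * DN)) = -(C z * (invert g * DN)) := by
      rw [map_mul, map_mul, LaurentPolynomial.invert_C, iDN]; ring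
    have i2 : invert (C zN * (K * ((1 + oA) * H))) = C zN * (K * ((1 + oB) * invert H)) := by
      rw [map_mul, map_mul, map_mul, map_add, map_one, invert_oA, LaurentPolynomial.invert_C, iK]
    have i3 : invert (oA * v1 + v0) = -(oB * v1) - v0 := by
      rw [map_add, map_mul, invert_oA, invert_VV hv1, invert_VV hv0]; ring
    have h2 : invert (C z * (g * DN) + C zN * (K * ((1 + oA) * H))) = invert (oA * v1 + v0) := h1
    rw [map_add, i1, i2, i3] at h2
    exact h2
  have hAB := oA_oB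
  have hAmB := oA_sub_oB
  have hdl1 : (dl : LP) * T 1 = T 2 - 1 := by
    have h0 : (T 1 : LP) * T (-1) = 1 := T_mul_neg 1
    unfold dl
    linear_combination e2' - h0
  have hoL1 : (oL - 2 : LP) * T 1 = (T 1 - 1)^2 := by
    have h0 : (T 1 : LP) * T (-1) = 1 := T_mul_neg 1
    unfold oL
    linear_combination h0
  have hth : (C (q - q^2) : LP) * C (q - q^2) = -3 := by
    rw [← map_mul, show (q - q^2) * (q - q^2) = (-3 : ℂ) by
      linear_combination (q^2 - 3 * q + 3) * q_spec, map_neg,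
      show (C (3:ℂ) : LP) = 3 from map_ofNat C 3]
  have hCm : (C ((q - q^2) * (z * m)) : LP) = C (q - q^2) * C (z * m) := map_mul C _ _
  rw [hCm] at H4'
  -- the odd part
  have P1 : 2 * (C z * (g * DN) + C z * (invert g * DN)) =
      C (3 * (zN * (z * m))) * ((T 2 - 1) * Q) +
      (C zN * (K * ((oL - 2) * (H - invert H))) + (-(2 * (oL * v1)) + (2 * v0 + 2 * v0))) := by
    have e : (C (3 * (zN * (z * m))) : LP) = 3 * (C zN * C (z * m)) := by
      rw [map_mul, map_mul, show (C (3:ℂ) : LP) = 3 from map_ofNat C 3]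
    rw [e]
    linear_combination 2 * H1 - 2 * H1' + (2 * v1 - C zN * K * (H - invert H)) * hAB -
      (C zN * K * (H + invert H)) * hAmB - (C zN * C (q - q^2) * dl) * H4' -
      (C zN * C (z * m) * dl * T 1 * Q) * hth + (3 * C zN * C (z * m) * Q) * hdl1
  set A : LP := H - invert H with hA
  set ρ : ℂ := RR N j ((T 2 - 1) * Q) with hρ
  set σ : ℂ := RR N j (K * ((oL - 2) * A)) with hσ
  have c2 : (C (2:ℂ) : LP) = 2 := map_ofNat C 2
  have c3 : (C (3:ℂ) : LP) = 3 := map_ofNat C 3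
  have c4 : (C (4:ℂ) : LP) = 4 := map_ofNat C 4
  have E3 : 4 * (z * (c0 * e1 g)) = 3 * (zN * (z * m)) * ρ + zN * σ -
      2 * RR N j (oL * v1) := by
    have h1 := congrArg (RR N j) P1
    have h2 : RR N j (2 * (C z * (g * DN) + C z * (invert g * DN))) =
        4 * (z * (c0 * e1 g)) := by
      rw [← c2, RR_C, RR_add, RR_C, RR_C, hc, hc, e1_invert]
      ring
    have h3 : RR N j (C (3 * (zN * (z * m))) * ((T 2 - 1) * Q) +
        (C zN * (K * ((oL - 2) * A)) + (-(2 * (oL * v1)) + (2 * v0 + 2 * v0)))) =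
        3 * (zN * (z * m)) * ρ + zN * σ - 2 * RR N j (oL * v1) := by
      rw [← c2, RR_add, RR_C, ← hρ, RR_add, RR_C, c2, ← hσ, RR_add, NH38.Fork.H5.RR_neg, ← c2,
        RR_C, RR_add, RR_C, RR_VV N j hN hv0]
      ring
    rw [h2, h3] at h1
    exact h1
  -- the even part
  obtain ⟨u, hu, hu1⟩ := rho_T1
  have hT3 : (T 3 + 1 : LP) = (T 2 - T 1 + 1) * (T 1 + 1) := by
    linear_combination e2' - e1'
  have hpoly : (-((T 2 - T 1 + 1) * (T 1 - 1)^3) + 4 * ((T 3 - 1) * (T 2 - T 1 + 1)) -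
      3 * ((T 3 + 1) * (T 2 - 1)) : LP) = 0 := by
    rw [← e1', ← e2']
    ring
  have hord : PowerSeries.X^(2*N) ∣ rho (C 2 * ((oL - 2) * v1) - C zN * (K * ((oL - 2) * A)) +
      C (zN * (z * m)) * (C 4 * h - C 3 * ((T 2 - 1) * Q))) := by
    have hsum : C (q - q^2) * dl * (2 * v1) = 2 * (C z * ((g - invert g) * DN)) +
        C zN * K * ((2 - oL) * (H + invert H) + C (q - q^2) * dl * A) := by
      rw [hA]
      linear_combination (-2) * H1 - 2 * H1' + (-2 * v1 + C zN * K * (H - invert H)) * hAmB +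
        (C zN * K * (H + invert H)) * hAB
    have h1 : (T 3 + 1) * (C (q - q^2) * (C 2 * ((oL - 2) * v1) -
        C zN * (K * ((oL - 2) * A)) +
        C (zN * (z * m)) * (C 4 * h - C 3 * ((T 2 - 1) * Q)))) =
        (T 2 - T 1 + 1) * (T 1 - 1) * (C (2 * z) * ((g - invert g) * DN)) := by
      have h5 : (oL - 2 : LP) * (T 1 + 1) = (T 1 - 1) * dl := by
        have h0 : (T 1 : LP) * T (-1) = 1 := T_mul_neg 1
        unfold oL dl
        linear_combination 2 * h0
      have e4 : (C (zN * (z * m)) : LP) = C zN * C (z * m) := map_mul C _ _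
      have e5 : (C (2 * z) : LP) = 2 * C z := by rw [map_mul, c2]
      rw [c2, c3, c4, e4, e5]
      linear_combination (C (q - q^2) * (2 * v1 - C zN * K * A) * (oL - 2)) * hT3 +
        (C (q - q^2) * (2 * v1 - C zN * K * A) * (T 2 - T 1 + 1)) * h5 +
        ((T 2 - T 1 + 1) * (T 1 - 1)) * hsum +
        ((T 2 - T 1 + 1) * (T 1 - 1) * C zN * (2 - oL)) * H4' -
        ((T 2 - T 1 + 1) * (T 1 - 1) * C zN * C (q - q^2) * C (z * m) * Q) * hoL1 +
        (4 * C (q - q^2) * C zN * C (z * m)) * hsq +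
        (C (q - q^2) * C zN * C (z * m) * Q) * hpoly
    have h2 : PowerSeries.X^(2*N) ∣ rho ((T 3 + 1) * (C (q - q^2) * (C 2 * ((oL - 2) * v1) -
        C zN * (K * ((oL - 2) * A)) +
        C (zN * (z * m)) * (C 4 * h - C 3 * ((T 2 - 1) * Q))))) := by
      obtain ⟨c', hc'⟩ : ∃ c' : LP, c' = C (2 * z) := ⟨_, rfl⟩
      rw [h1, ← hc', hDN, fac_dl, map_mul, map_mul rho (T 2 - T 1 + 1), hu, map_mul rho c',
        map_mul, map_mul,
        map_pow, hu, mul_pow, show 2*N = 1 + (2*(N-1)+1) by omega, pow_add, pow_one]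
      exact Dvd.intro (rho (T 2 - T 1 + 1) * u * rho c' * rho (g - invert g) *
        rho (T (-(((N-1 : ℕ):ℤ)+1)) * (T 1 + 1)) * u^(2*(N-1)+1)) (by ring)
    rw [map_mul, map_mul rho (C (q - q^2)), rho_C, ← mul_assoc] at h2
    have hun : IsUnit (rho (T 3 + 1) * PowerSeries.C (q - q^2)) := by
      refine NH38.Fork.H5.unit_T1.mul ?_
      rw [PowerSeries.isUnit_iff_constantCoeff, PowerSeries.constantCoeff_C, isUnit_iff_ne_zero]
      exact q_sub_ne
    exact (hun.dvd_mul_left).mp h2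
  have hRv : 2 * RR N j (oL * v1) = zN * σ - zN * (z * m) * (4 * (2 + r) - 3 * ρ) := by
    have h1 := RR_high N j (by omega) hord
    rw [RR_add, RR_sub, RR_C, RR_C, RR_C, RR_sub, RR_C, RR_C, hRh, ← hρ, ← hσ] at h1
    have e : oL * v1 = (oL - 2) * v1 + C 2 * v1 := by
      rw [c2]; ring
    rw [e, RR_add, RR_C, RR_VV N j hN hv1]
    linear_combination h1
  rw [hRv] at E3
  have hfin : 4 * (z * c0) * (2 * e1 g) = 4 * (z * c0) * ((2 + r) * (e1 tN * m)) := by
    linear_combination 2 * E3 - (4 * z * (2 + r) * m) * M1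
  exact mul_left_cancel₀ (mul_ne_zero (by norm_num) (mul_ne_zero hz hc0)) hfin

end Pool.Agent.H965.K3.F1

namespace Pool.Agent.H965.K3

open Pool.Agent.NH38.Step.Hom
open Pool.Agent.NH38.Step (om prs zs on on_odd)
open Pool.Agent.NH38.Fork (zo NZ tt)
open Pool.Agent.H988R2.Perc (q q_spec q_cube q_ne_zero)
open LaurentPolynomial (C invert)
open Pool.Agent

/-- TASK F1 -/
theorem t3_HF (hHL : S3_HL) (hconf : S3_conf) (hNM : S3_NM) (hehw : S3_ehw) : S3_HF := by
  intro a b k F1 ha hb hF1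
  obtain ⟨n, hn⟩ : ∃ n, a + b + 1 = 2 * n := by
    obtain ⟨r, hr⟩ := ha
    obtain ⟨s, hs⟩ := hb
    exact ⟨r + s + 1, by omega⟩
  have ha1 : Odd (a+1) := ha.add_one
  have hla : Even (on a).length := by rw [on_len]; exact ha
  have hla1 : Odd (on (a+1)).length := on_odd ha1
  have hlb : Odd (on b).length := on_odd hb
  have nz0 : NZ ([] : List ℂ) := fun z hz => by simp at hz
  have hab : a + 1 + b = 2 * n := by omega
  obtain ⟨tN, htN⟩ := NH38.Fork.H5.lau_L (NH38.Fork.t_ttwid (on (a+1)) (on k) (on b) hla1 hlb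
    (on_ne _) (on_ne _) (on_ne _))
  obtain ⟨ts, hts⟩ := NH38.Fork.H5.lau_L (NH38.Fork.t_ttwid (on (a+1)) [] (on b) hla1 hlb
    (on_ne _) nz0 (on_ne _))
  obtain ⟨E, mE, hE⟩ := hehw (on a) (on k) (on b) 1 hla hlb (on_ne _) (on_ne _) (on_ne _)
    one_ne_zero
  obtain ⟨F, hF, hFe⟩ := hHL a b k ha hb
  unfold W0 at hF
  rw [Submodule.mem_sup] at hF
  obtain ⟨y, hy, v0, hv0, hyz⟩ := hF
  obtain ⟨v1, hv1, hv1e⟩ := hy
  have hv1e' : oA * v1 = y := hv1e
  obtain ⟨Ft, hFt, hFte⟩ := NH38.Fork.t_HLtg NH38.Fork.a_ZI NH38.Fork.t_regz (a+1) b k ha1 hb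
  obtain ⟨F', hF', hFe'⟩ := NH38.Fork.t_HTg NH38.Fork.t_ttwid (a+1) b ha1 hb
  obtain ⟨p, hp, hpe, hp0, hp1, hd1, hd2, hd3⟩ := hconf a b ha hb
  have h6 : 3*(a+b+1) = 6*n := by omega
  have h63 : 6*n/2 = 3*n := by omega
  rw [h6] at hp hp1 hd2 hd3
  rw [h6, h63] at hpe
  obtain ⟨e, -, hS, -⟩ := hNM a b n (ka a b) p ha hb hn hp hp0 hp1 hd1 hd2 hd3
  rw [hab] at hFt hFte hF' hFe'
  rw [hn] at hv0 hv1 hFe
  have htt : ∀ w, tt (on (a+1)) (on k) (on b) w =
      zo (w :: 1 :: (on a ++ (on b ++ on (2*k)))) := by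
    intro w
    unfold tt
    rw [NH38.Fork.H3.prs_on]
    rfl
  -- the thin slit
  have hconf' : ∀ w (hw : w ≠ 0), h3 a b 0 w * phi (on (2*n)) w =
      -((1 + om (q * w)) * (p.eval w * w^(-(3*(n:ℤ))))) := by
    intro w hw
    have h1 := hpe w hw
    have h2 : h3 a b 0 w = - (q * Dh3 (on a) w 1 (on b)) := by
      have e0 : h3 a b 0 w = mm3 (on a) (on b) * zo (w :: 1 :: (on a ++ (on b ++ []))) -
        eh3 (on a) [] (on b) w 1 := rfl
      rw [e0, List.append_nil]
      unfold Dh3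
      have := q_ne_zero
      field_simp
      ring
    have h3' : phi (on (2*n)) w = (om w - 2) * phi (on (a+b)) w := by
      rw [← hn, ← om_one, ← phi_cons]
      rfl
    have h4 : w^(-(3*(n:ℤ))) = (w^(3*n))⁻¹ := by
      rw [zpow_neg]
      norm_cast
    have hw3 : w^(3*n) ≠ 0 := pow_ne_zero _ hw
    have hqq : om (q * w) + 1 = q * ((w - q) * (1 - w⁻¹)) := by
      unfold om
      rw [mul_inv, q_inv']
      field_simp
      linear_combination w * q_spec
    have hom : (om w - 2) = (w - 1) * (1 - w⁻¹) := by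
      unfold om
      field_simp
      ring
    rw [h2, h3', h4, hom]
    have h5 : p.eval w * (w - q) * (w^(3*n))⁻¹ =
        Dh3 (on a) w 1 (on b) * (w - 1) * phi (on (a+b)) w := by
      rw [mul_comm (p.eval w), ← h1]
      field_simp
    linear_combination (q * (1 - w⁻¹)) * h5 + (p.eval w * (w^(3*n))⁻¹) * hqq
  set g : LP := C (mm3 (on a) (on b)) * tN -
    Polynomial.toLaurent E * LaurentPolynomial.T (-(mE:ℤ)) with hg
  have hge : ∀ w (hw : w ≠ 0), eL w hw g = h3 a b k w := by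
    intro w hw
    have h1 : eh3 (on a) (on k) (on b) w 1 = E.eval w * w^(-(mE:ℤ)) := by
      rw [← hE w hw, zpow_neg, zpow_natCast, mul_assoc, mul_inv_cancel₀ (pow_ne_zero _ hw),
        mul_one]
    rw [hg, map_sub, map_mul, map_mul, eL_C, htN, eL_poly, eL_T, htt, ← h1]
    rfl
  set H : LP := Polynomial.toLaurent p * LaurentPolynomial.T (-(3*(n:ℤ))) with hH
  have hHe : ∀ w (hw : w ≠ 0), eL w hw H = p.eval w * w^(-(3*(n:ℤ))) := by
    intro w hw
    rw [hH, map_mul, eL_poly, eL_T]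
  have hz : zs (on (2*n)) ≠ 0 := NH38.Fork.H5.zs_on_ne _
  have hN1 : a+b+2+2*k - 1 = 2*n + 2*k := by omega
  have key := _root_.Pool.Agent.H965.K3.F1.core a b k hb n (a+b+2+2*k) (n+k) hn rfl (by omega) g H tN ts v1 v0 Ft F'
    (zs (on (2*n))) (zs (on (2*n + 2*k))) (mm3 (on a) (on b)) hz
    (by
      apply LP_ext DD DD_inf
      intro w hw0 hw
      have h1 := hFe w hw
      rw [← hyz, ← hv1e'] at h1
      rw [← h1, hN1, hconf' w hw0]
      simp only [map_add, map_mul, map_one, NH38.Fork.H5.eL_phiO', NH38.Fork.H5.eL_K, eL_C, hge,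
        hHe, eL_oA]
      ring)
    (by rw [hN1]; exact hv1) (by rw [hN1]; exact hv0)
    (by
      apply LP_ext DD DD_inf
      intro w hw0 hw
      rw [← hFte w hw, hN1]
      simp only [map_sub, map_mul, NH38.Fork.H5.eL_phiO', NH38.Fork.H5.eL_K, eL_C, htN, hts])
    (by rw [hN1]; exact hFt)
    (by
      apply LP_ext DD DD_inf
      intro w hw0 hw
      rw [← hFe' w hw]
      simp only [map_mul, NH38.Fork.H5.eL_phiO', hts])
    hF'
    (by
      apply LP_ext DD DD_inf
      intro w hw0 hw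
      have h1 := congrArg (Polynomial.eval w) hS
      simp only [Polynomial.eval_add, Polynomial.eval_mul, Polynomial.eval_sub,
        Polynomial.eval_C, Polynomial.eval_X, Polynomial.eval_pow, Polynomial.expand_eval] at h1
      have h2 : (Polynomial.reflect (6*n) p).eval w * w^(-(3*(n:ℤ))) =
          p.eval w⁻¹ * (w⁻¹)^(-(3*(n:ℤ))) := by
        rw [_root_.Pool.Agent.H965.K3.F1.refl_eval (6*n) p hp w hw0, inv_zpow', neg_neg, mul_comm,
          ← mul_assoc, mul_comm]
        congr 1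
        rw [← zpow_natCast, ← zpow_add₀ hw0]
        congr 1
        push_cast
        ring
      rw [map_add, eL_invert, hHe, hHe, ← h2, ← add_mul, h1]
      simp only [map_mul, map_sub, eL_C, eL_T, NH38.Fork.H5.eL_polyL, zpow_one]
      unfold ka upC
      rw [hn]
      norm_cast
      ring)
    F1 hF1
  rw [NH38.Fork.H5.e1_eL, NH38.Fork.H5.e1_eL, hge, htN, htt] at key
  rw [hn]
  have h7 : h3 a b k 1 = mm3 (on a) (on b) * zo (1 :: 1 :: (on a ++ (on b ++ on (2*k)))) -
    eh3 (on a) (on k) (on b) 1 1 := rfl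
  rw [h7] at key
  push_cast
  linear_combination -key

end Pool.Agent.H965.K3
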