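import Pool.Agent.H965.K3.Stubs
import Pool.Graph.R_pool_sql_team_seeded_3dad9d7b.NH38.Fork.H6
import Pool.Graph.R_pool_sql_team_seeded_3dad9d7b.NH38.Fork.H7

/-!
Task F2: the polynomial identity `S3_AV` and the final algebra `S3_Alg`.
-/

namespace Pool.Agent.H965.K3

open Pool.Agent.H988R2.Perc hiding X
open Pool.Agent.NH38.Step (om prs EE zs prF Gen on cardy pom bev)
open Pool.Agent.NH38.Fork (zo mm sv vv kap mj)
open Polynomial

namespace F2

open H337CB (P Ps R)

theorem reflect_one' : reflect 1 (1 : ℚ[X]) = X := by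
  rw [← C_1, reflect_C, pow_one, C_1, one_mul]

theorem X_mul_reflect {n : ℕ} {D : ℚ[X]} (h : D.natDegree ≤ n) :
    X * reflect n D = reflect (n + 1) D := by
  have h1 := reflect_mul (1 : ℚ[X]) D (F := 1) (G := n) (by simp) h
  rw [one_mul, reflect_one', add_comm] at h1
  exact h1.symm

theorem sq_coeff_zero (n : ℕ) : ((X - 1 : ℚ[X])^2 * P n).coeff 0 = 1 := by
  rw [coeff_zero_eq_eval_zero, eval_mul, H337CB.eval_zero_P]
  simp

theorem reflect_sqP (n : ℕ) : reflect (n + 2) ((X - 1 : ℚ[X])^2 * P n) = (X - 1)^2 * Ps n := by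
  rw [show n + 2 = 2 + n by omega,
    reflect_mul _ _ (by compute_degree) (H337CB.natDegree_P_le n), H337CB.reflect_sq,
    H337CB.reflect_P]

theorem reflect_sqPs (n : ℕ) : reflect (n + 2) ((X - 1 : ℚ[X])^2 * Ps n) = (X - 1)^2 * P n := by
  rw [show n + 2 = 2 + n by omega,
    reflect_mul _ _ (by compute_degree) (H337CB.natDegree_Ps_le n), H337CB.reflect_sq,
    H337CB.reflect_Ps]

/-- the difference which defines `Rp` -/
noncomputable def DD (n : ℕ) : ℚ[X] := Ps (n + 2) - (X - 1)^2 * Ps n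

theorem DD_natDegree (n : ℕ) : (DD n).natDegree ≤ n + 1 := by
  rw [natDegree_le_iff_coeff_eq_zero]
  intro i hi
  unfold DD
  have d1 : ((X - 1 : ℚ[X])^2 * Ps n).natDegree ≤ n + 2 := by
    refine natDegree_mul_le.trans ?_
    have h1 : ((X - 1 : ℚ[X]) ^ 2).natDegree ≤ 2 := by compute_degree
    have h2 := H337CB.natDegree_Ps_le n
    omega
  rcases Nat.lt_or_ge (n + 2) i with h | h
  · rw [coeff_sub, coeff_eq_zero_of_natDegree_lt (lt_of_le_of_lt (H337CB.natDegree_Ps_le _) h),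
      coeff_eq_zero_of_natDegree_lt (lt_of_le_of_lt d1 h), sub_zero]
  · have hi' : i = n + 2 := by omega
    subst hi'
    rw [coeff_sub, ← reflect_sqP n, ← H337CB.reflect_P (n + 2), coeff_reflect, coeff_reflect,
      revAt_le le_rfl, Nat.sub_self, sq_coeff_zero, coeff_zero_eq_eval_zero, H337CB.eval_zero_P,
      sub_self]

theorem RR_succ (n : ℕ) : Rp (n + 1) + X * Rps (n + 1) = C (1 / (kap (n+2) - kap n)) *
    ((P (n + 2) + Ps (n + 2)) - (X - 1)^2 * (P n + Ps n)) := by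
  have h1 : X * reflect (n + 1) (DD n) = P (n + 2) - (X - 1)^2 * P n := by
    rw [X_mul_reflect (DD_natDegree n)]
    unfold DD
    rw [reflect_sub, show n + 1 + 1 = n + 2 from rfl, H337CB.reflect_Ps, reflect_sqPs]
  have h2 : Rp (n + 1) = C (1 / (kap (n+2) - kap n)) * DD n := rfl
  unfold Rps
  rw [h2, reflect_C_mul]
  have h3 : X * (C (1 / (kap (n+2) - kap n)) * reflect (n + 1) (DD n)) =
      C (1 / (kap (n+2) - kap n)) * (X * reflect (n + 1) (DD n)) := by ring
  rw [h3, h1]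
  unfold DD
  ring

theorem RR_eval {a : ℕ} (ha : Even a) (x : ℚ) (hx : x ≠ 1) :
    eval x (Rp a + X * Rps a) = (1 + x) * (1 - x)^a * eval (4 * x / (1 - x)^2) (dv a) := by
  have hx' : (1 - x) ≠ 0 := sub_ne_zero.mpr (Ne.symm hx)
  rcases a with _ | n
  · have h1 : Rp 0 = 1 := rfl
    have h2 : Rps 0 = 1 := by
      unfold Rps
      rw [h1, ← C_1, reflect_C, pow_zero, mul_one]
    have h3 : dv 0 = 1 := rfl
    rw [h1, h2, h3]
    simp
  · have hn : ¬ Even n := by
      intro h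
      rw [Nat.even_add_one] at ha
      exact ha h
    have hn2 : ¬ Even (n + 2) := by
      rw [Nat.even_add_one, Nat.even_add_one]
      simpa using hn
    rw [RR_succ]
    have h3 : dv (n + 1) = C (1 / (kap (n+2) - kap n)) * (sv (n + 2) - sv n) := rfl
    rw [h3]
    have e1 := NH38.Fork.HV6.sv_eval x hx n
    have e2 := NH38.Fork.HV6.sv_eval x hx (n + 2)
    rw [if_neg hn] at e1
    rw [if_neg hn2] at e2
    simp only [eval_mul, eval_sub, eval_add, eval_C, eval_X, eval_one, eval_pow]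
    rw [e1, e2]
    field_simp
    ring

theorem dv_natDegree (a : ℕ) (ha : Even a) : (dv a).natDegree ≤ a / 2 := by
  rcases a with _ | n
  · simp [dv]
  · have h3 : dv (n + 1) = C (1 / (kap (n+2) - kap n)) * (sv (n + 2) - sv n) := rfl
    rw [h3]
    refine (natDegree_C_mul_le _ _).trans ?_
    refine (natDegree_sub_le _ _).trans (max_le ?_ ?_)
    · have h := NH38.Fork.HV6.pv_natDegree 2 3 (n + 2)
      unfold sv
      obtain ⟨m, hm⟩ := ha
      omega
    · have h := NH38.Fork.HV6.pv_natDegree 2 3 n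
      unfold sv
      omega

theorem res (a b m N : ℕ) (hm : m = (a + b + 1) / 2) (h : 2*m < N + 1) :
    R (2*m + N) (-1/3) ((1 + X) * (∑ j ∈ Finset.range m, C (cd a b j) * (4 * X)^j *
      (1 - X)^(2*m - 1 - 2*j)) * Ps N) = - (2 * FK a b N) := by
  have h1 := H337CB.R_swap (2*m + N) N (by omega) (-2/3) ((1 + X) * (∑ j ∈ Finset.range m,
    C (cd a b j) * (4 * X)^j * (1 - X)^(2*m - 1 - 2*j)))
  rw [show (-2/3 + 1/3 : ℚ) = -1/3 by norm_num, mul_comm (Ps N)] at h1
  rw [h1]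
  have h2 : P N * ((1 + X) * (∑ j ∈ Finset.range m, C (cd a b j) * (4 * X)^j *
      (1 - X)^(2*m - 1 - 2*j))) = ∑ j ∈ Finset.range m, C (cd a b j * 4^j) *
        (X^j * ((1 - X)^(2*m - 1 - 2*j) * ((1 + X) * P N))) := by
    rw [Finset.mul_sum, Finset.mul_sum]
    refine Finset.sum_congr rfl fun j _ => ?_
    rw [C_mul, C_pow, mul_pow, show (C (4:ℚ) : ℚ[X]) = 4 from rfl]
    ring
  rw [h2, NH38.Fork.H7.R_sum]
  have h3 : ∀ j ∈ Finset.range m, R (2*m + N) (-2/3) (C (cd a b j * 4^j) *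
        (X^j * ((1 - X)^(2*m - 1 - 2*j) * ((1 + X) * P N)))) = - (cd a b j * mj N j) := by
    intro j hj
    rw [H337CB.R_C, NH38.Fork.H7.term m N j (Finset.mem_range.1 hj)]
    unfold mj
    ring
  rw [Finset.sum_congr rfl h3, Finset.sum_neg_distrib]
  unfold FK
  rw [← hm]
  ring

end F2

theorem t3_AV : S3_AV := by
  intro a b ha hb
  refine NH38.Fork.HV6.poly_eq fun x hx => ?_
  have hx' : (1 - x) ≠ 0 := sub_ne_zero.mpr (Ne.symm hx)
  have hneb : ¬ Even b := Nat.not_even_iff_odd.mpr hb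
  rw [eval_mul, eval_mul, F2.RR_eval ha x hx, eval_add, NH38.Fork.HV6.sv_eval x hx, if_neg hneb]
  have hdeg : (dv a * sv b).natDegree < (a + b + 1) / 2 := by
    refine lt_of_le_of_lt natDegree_mul_le ?_
    have h1 := F2.dv_natDegree a ha
    have h2 := NH38.Fork.HV6.pv_natDegree 2 3 b
    unfold sv
    obtain ⟨m, rfl⟩ := ha
    obtain ⟨m', rfl⟩ := hb
    omega
  have hev := eval_eq_sum_range' hdeg (4 * x / (1 - x)^2)
  rw [eval_mul] at hev
  have e1 : eval x (1 - X) * ((1 + x) * (1 - x)^a * eval (4 * x / (1 - x)^2) (dv a) *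
      ((1 - x)^b * ((1 + x) / (1 - x)) * eval (4 * x / (1 - x)^2) (sv b))) =
      (1 + x)^2 * ((1 - x)^(a+b) * (eval (4 * x / (1 - x)^2) (dv a) *
        eval (4 * x / (1 - x)^2) (sv b))) := by
    rw [pow_add, eval_sub, eval_one, eval_X]
    field_simp
  rw [e1, hev]
  simp only [eval_mul, eval_pow, eval_add, eval_one, eval_X, eval_finsetSum, eval_C, eval_sub,
    eval_ofNat]
  congr 1
  rw [Finset.mul_sum]
  refine Finset.sum_congr rfl fun j hj => ?_
  have hj' : j < (a + b + 1) / 2 := Finset.mem_range.mp hj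
  have e2 : a + b = (a + b - 2*j) + 2*j := by omega
  have e3 : (1 - x)^(a+b) = (1 - x)^(a + b - 2*j) * (1 - x)^(2*j) := by
    conv_lhs => rw [e2]
    rw [pow_add]
  unfold cd
  rw [e3, pow_mul, div_pow]
  field_simp

theorem t3_Alg (hHF : S3_HF) (hT : S3_Teq) : S3_Alg := by
  intro a k b ha hb
  obtain ⟨m, hm⟩ : ∃ m, a + b + 1 = 2 * m := by
    obtain ⟨x, hx⟩ := ha
    obtain ⟨y, hy⟩ := hb
    exact ⟨x + y + 1, by omega⟩
  have hm2 : m = (a + b + 1) / 2 := by omega
  have e1 : (X + 1) * ((1 + X) * (∑ j ∈ Finset.range m, C (cd a b j) * (4 * X)^j *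
      (1 - X)^(2*m - 1 - 2*j))) =
      (1 - X) * ((Rp a + X * Rps a) * (H337CB.P b + H337CB.Ps b)) := by
    rw [t3_AV a b ha hb, ← hm2]
    have e2 : ∀ j, a + b - 2 * j = 2 * m - 1 - 2 * j := fun j => by omega
    simp only [e2]
    ring
  have h1 := hHF a b k _ ha hb e1
  rw [show a + b + 1 + (a + b + 2 + 2 * k) = 2 * m + (a + b + 2 + 2 * k) by omega,
    F2.res a b m (a+b+2+2*k) hm2 (by omega)] at h1
  have h2 : eh3 (on a) (on k) (on b) 1 1 = ((FK a b (a+b+2+2*k) : ℚ) : ℂ) *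
      (zo (1 :: 1 :: (on a ++ (on b ++ on (2*k)))) * mm3 (on a) (on b)) := by
    have h3 : (2:ℂ) ≠ 0 := two_ne_zero
    apply mul_left_cancel₀ h3
    rw [h1]
    push_cast
    ring
  have hl : ∀ n, (on n).length = n := fun n => NH38.Step.Hom.on_len n
  have hp : ∀ n, (on n).prod = 1 := fun n => NH38.Step.Hom.on_prod n
  have hc : cs3 (on a) (on b) k (1 * 1) ≠ 0 := by
    unfold cs3
    simp only [hp, one_pow, one_mul]
    exact pow_ne_zero _ q_ne_zero
  unfold eh3 at h2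
  rw [hl k, div_eq_iff hc] at h2
  rw [h2, hT a k b ha hb, mul_one]
  ring

end Pool.Agent.H965.K3
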