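import Pool.Agent.H965.K3.Stubs
import Pool.Agent.H966.T1.G
import Pool.Graph.R_pool_sql_team_seeded_3dad9d7b.NH38.Fork.FTrunc

/-!
Forked channels of even width, the walls of the left arm to the inner wall of the right arm: all
widths, the scaling limit, bounded domains (helper164).
-/

namespace Pool.Agent.H965.K3

open Pool.Agent.H988R2.Perc hiding X
open Pool.Agent.NH38.Step (cardy)
open Pool.Agent.NH38.Fork (x1 x2)
open Pool.Agent.H966.T1 (FAdj1)
open Filter Topology MeasureTheory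

namespace G

open Pool.Agent.H966.T1.G (step SlitC CArm slitC_symm slitC_rtg_symm carm_le plane_zero lim_close2)

theorem mono_b (a m : ℕ) {b b' : ℕ} (hb : b ≤ b') : Cross3 a m b ⊆ Cross3 a m b' := by
  rintro ω ⟨x, y, h1, h2, h3, h4⟩
  refine ⟨x, y, h1, h2, h3, h4.lift id ?_⟩
  rintro p q ⟨e1, e2, e3, e4, e5, e6⟩
  have h2 : (b:ℤ) ≤ b' := by exact_mod_cast hb
  show FAdj1 a m b' ω p q
  refine ⟨e1, by linarith, ?_, by linarith, ?_, e6⟩
  · push_cast at e3 ⊢; linarith
  · push_cast at e5 ⊢; linarith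

/-- cut the path at its last visit of the column `-a` -/
theorem anti_a {a a' : ℕ} (ha : a ≤ a') (m b : ℕ) : Cross3 a' m b ⊆ Cross3 a m b := by
  rintro ω ⟨x, y, h1, h2, h3, h4⟩
  have haz : (a:ℤ) ≤ a' := by exact_mod_cast ha
  have key : ∀ z, Relation.ReflTransGen (FAdj1 a' m b ω) x z → z.1 - z.2 ≤ -(a:ℤ) ∨
      ∃ x' : ℤ × ℤ, (x'.1 - x'.2 = -(a:ℤ) ∨ (x'.1 - x'.2 = 0 ∧ 0 ≤ x'.1 + x'.2)) ∧
        Relation.ReflTransGen (FAdj1 a m b ω) x' z := by
    intro z hz
    induction hz with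
    | refl =>
      rcases h1 with h1 | h1
      · left; omega
      · right
        exact ⟨x, Or.inr h1, Relation.ReflTransGen.refl⟩
    | tail hpq hqr ih =>
      rename_i q r
      obtain ⟨e1, e2, e3, e4, e5, e6⟩ := hqr
      obtain ⟨s1, s2⟩ := step e1
      by_cases hr : r.1 - r.2 ≤ -(a:ℤ)
      · exact Or.inl hr
      · right
        by_cases hq : q.1 - q.2 = -(a:ℤ)
        · exact ⟨q, Or.inl hq, Relation.ReflTransGen.single
            ⟨e1, by omega, e3, by omega, e5, e6⟩⟩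
        · rcases ih with ih | ⟨x', hx', ih⟩
          · omega
          · exact ⟨x', hx', ih.tail ⟨e1, by omega, e3, by omega, e5, e6⟩⟩
  rcases key y h4 with h | ⟨x', hx', h⟩
  · have hm : (0:ℤ) ≤ m := by positivity
    have ha0 : (0:ℤ) ≤ a := by positivity
    exact ⟨y, y, Or.inl (by omega), h2, h3, Relation.ReflTransGen.refl⟩
  · exact ⟨x', y, hx', h2, h3, h⟩

/-- odd thickness: comparison with the next even thickness -/
theorem upper (a : ℕ) {m : ℕ} (hm : Odd m) (b : ℕ) : Cross3 a m b ⊆ Cross3 a (m+1) b := by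
  rintro ω ⟨x, y, h1, h3, h3', h4⟩
  have hm1 : 1 ≤ m := hm.pos
  obtain ⟨l, hl⟩ := hm
  have key : ∀ z, Relation.ReflTransGen (FAdj1 a m b ω) x z →
      (Relation.ReflTransGen (FAdj1 a (m+1) b ω) x z ∧ ¬ (z.1 - z.2 = (m:ℤ) + 1 ∧ 0 ≤ z.1 + z.2) ∧
        ¬ (z.1 - z.2 = m ∧ 0 ≤ z.1 + z.2)) ∨
        ∃ y : ℤ × ℤ, y.1 - y.2 = (m:ℤ) + 1 ∧ 0 ≤ y.1 + y.2 ∧
          Relation.ReflTransGen (FAdj1 a (m+1) b ω) x y := by
    intro z hz
    induction hz with
    | refl =>
      left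
      exact ⟨Relation.ReflTransGen.refl, by omega, by omega⟩
    | tail hpq hqr ih =>
      rename_i q r
      rcases ih with ⟨i1, i2, i3⟩ | i4
      · obtain ⟨e1, e2, e3, e4, e5, e6⟩ := hqr
        obtain ⟨s1, s2⟩ := step e1
        push_cast at e3 e5
        by_cases hr : r.1 - r.2 = m ∧ 0 ≤ r.1 + r.2
        · exfalso
          have hr2 := hr.1
          have hpar : 1 ≤ r.1 + r.2 := by omega
          omega
        · by_cases hr' : r.1 - r.2 = (m:ℤ) + 1 ∧ 0 ≤ r.1 + r.2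
          · right
            refine ⟨r, hr'.1, hr'.2, i1.tail ?_⟩
            refine ⟨e1, e2, by push_cast; omega, e4, by push_cast; omega, ?_⟩
            push_cast
            omega
          · left
            refine ⟨i1.tail ?_, hr', hr⟩
            refine ⟨e1, e2, by push_cast; omega, e4, by push_cast; omega, ?_⟩
            push_cast
            omega
      · exact Or.inr i4
  rcases key y h4 with ⟨_, _, h5⟩ | ⟨y', h5, h6, h7⟩
  · exact absurd ⟨h3, h3'⟩ h5
  · exact ⟨x, y', h1, by push_cast; exact h5, h6, h7⟩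

/-- odd thickness: comparison with the previous even thickness -/
theorem lower (a : ℕ) {K : ℕ} (hK : 1 ≤ K) (b : ℕ) :
    Cross3 a (2*K) b ⊆ Cross3 a (2*K+1) b ∪ CArm K := by
  rintro ω ⟨x, y, h1, h3, h3', h4⟩
  have key : ∀ z, Relation.ReflTransGen (FAdj1 a (2*K) b ω) x z →
      (Relation.ReflTransGen (FAdj1 a (2*K+1) b ω) x z ∧
        Relation.ReflTransGen (SlitC (2*K) ω) x z ∧
        ¬ (z.1 - z.2 = 2 * (K:ℤ) + 1 ∧ 0 ≤ z.1 + z.2) ∧
        ¬ (z.1 - z.2 = 2 * (K:ℤ) ∧ 0 ≤ z.1 + z.2)) ∨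
        (∃ y : ℤ × ℤ, y.1 - y.2 = 2 * (K:ℤ) + 1 ∧ 0 ≤ y.1 + y.2 ∧
          Relation.ReflTransGen (FAdj1 a (2*K+1) b ω) x y) ∨
        Relation.ReflTransGen (SlitC (2*K) ω) x ((K:ℤ), -(K:ℤ)) := by
    intro z hz
    induction hz with
    | refl =>
      left
      exact ⟨Relation.ReflTransGen.refl, Relation.ReflTransGen.refl, by omega, by omega⟩
    | tail hpq hqr ih =>
      rename_i q r
      rcases ih with ⟨i1, i1', i2, i3⟩ | i4 | i5
      · obtain ⟨e1, e2, e3, e4, e5, e6⟩ := hqr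
        obtain ⟨s1, s2⟩ := step e1
        push_cast at e3 e5 e6
        by_cases hr : r.1 - r.2 = 2 * (K:ℤ) ∧ 0 ≤ r.1 + r.2
        · right; right
          obtain ⟨r1, r2⟩ := hr
          have hr0 : r.1 + r.2 = 0 := by omega
          have hrr : r = ((K:ℤ), -(K:ℤ)) := by
            apply Prod.ext
            · show r.1 = K; omega
            · show r.2 = -K; omega
          rw [← hrr]
          refine i1'.tail ⟨e1, ?_⟩
          push_cast
          omega
        · by_cases hr' : r.1 - r.2 = 2 * (K:ℤ) + 1 ∧ 0 ≤ r.1 + r.2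
          · right; left
            refine ⟨r, hr'.1, hr'.2, i1.tail ?_⟩
            refine ⟨e1, e2, by push_cast; omega, e4, by push_cast; omega, ?_⟩
            push_cast
            omega
          · left
            refine ⟨i1.tail ?_, i1'.tail ?_, hr', hr⟩
            · refine ⟨e1, e2, by push_cast; omega, e4, by push_cast; omega, ?_⟩
              push_cast
              omega
            · refine ⟨e1, ?_⟩
              push_cast
              omega
      · exact Or.inr (Or.inl i4)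
      · exact Or.inr (Or.inr i5)
  push_cast at h3
  rcases key y h4 with ⟨_, _, _, h5⟩ | ⟨y', h5, h6, h7⟩ | h8
  · exact absurd ⟨h3, h3'⟩ h5
  · left
    exact ⟨x, y', h1, by push_cast; exact h5, h6, h7⟩
  · right
    have h9 : ∀ z, Relation.ReflTransGen (SlitC (2*K) ω) ((K:ℤ), -(K:ℤ)) z → 0 < z.1 - z.2 ∨
        ∃ x' : ℤ × ℤ, x'.1 - x'.2 = 0 ∧
          Relation.ReflTransGen (SlitC (2*K) ω) ((K:ℤ), -(K:ℤ)) x' := by
      intro z hz
      induction hz with
      | refl =>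
        left
        show 0 < (K:ℤ) - -(K:ℤ)
        omega
      | tail hpq hqr ih =>
        rename_i q r
        rcases ih with ih | ih
        · obtain ⟨s1, s2⟩ := step hqr.1
          by_cases hr : r.1 - r.2 = 0
          · exact Or.inr ⟨r, hr, hpq.tail hqr⟩
          · left; omega
        · exact Or.inr ih
    rcases h9 x (slitC_rtg_symm h8) with h | h
    · omega
    · exact h

/-! ## limits -/

open Pool.Agent.NH38.Fork.GF (lim_top)

/-- the limit value -/
noncomputable def val (ρ σ : ℝ) : ℝ :=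
  cardy ((1 - x2 (ρ^2) (σ^2)) / (1 - x1 (ρ^2) (σ^2)))

theorem even_lim (hE : S3_Exact) (hA : S3_Asy) {α γ β : ℝ} (hα : 0 < α) (hγ : 0 < γ) (hβ : 0 < β)
    {δ : ℕ → ℝ} {a k b : ℕ → ℕ} (hδ : ∀ n, 0 < δ n) (hδ0 : Tendsto δ atTop (𝓝 0))
    (ha : ∀ n, Even (a n)) (hb : ∀ n, Odd (b n))
    (h1 : Tendsto (fun n => δ n * a n) atTop (𝓝 α))
    (h2 : Tendsto (fun n => δ n * ((2 * k n + 2 : ℕ) : ℝ)) atTop (𝓝 γ))
    (h3 : Tendsto (fun n => δ n * b n) atTop (𝓝 β)) :
    Tendsto (fun n => perc.real (Cross3 (a n) (2 * k n + 2) (b n))) atTop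
      (𝓝 (val (α/(α+γ+β)) (β/(α+γ+β)))) := by
  have hs : 0 < α + γ + β := by positivity
  have hN : Tendsto (fun n => δ n * ((a n + b n + 2 + 2 * k n : ℕ) : ℝ)) atTop (𝓝 (α + γ + β)) := by
    refine ((h1.add h2).add h3).congr fun n => ?_
    push_cast
    ring
  have hN' : Tendsto (fun n => a n + b n + 2 + 2 * k n) atTop atTop := by
    rw [← tendsto_natCast_atTop_iff (R := ℝ)]
    exact lim_top hδ hδ0 hs hN
  have hr : Tendsto (fun n => (a n : ℝ) / ((a n + b n + 2 + 2 * k n : ℕ) : ℝ)) atTop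
      (𝓝 (α / (α + γ + β))) := by
    refine (h1.div hN hs.ne').congr fun n => ?_
    simp only [Pi.div_apply]
    rw [mul_div_mul_left _ _ (hδ n).ne']
  have hr' : Tendsto (fun n => (b n : ℝ) / ((a n + b n + 2 + 2 * k n : ℕ) : ℝ)) atTop
      (𝓝 (β / (α + γ + β))) := by
    refine (h3.div hN hs.ne').congr fun n => ?_
    simp only [Pi.div_apply]
    rw [mul_div_mul_left _ _ (hδ n).ne']
  have hρ1 : α / (α + γ + β) + β / (α + γ + β) < 1 := by
    rw [← add_div, div_lt_one hs]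
    linarith
  have e2 := (lim_top hδ hδ0 hα h1).eventually_ge_atTop 2
  refine (hA a b (fun n => a n + b n + 2 + 2 * k n) _ _ (by positivity) (by positivity) hρ1 ha hb
    (fun n => ?_) (fun n => by omega) hN' hr hr').congr' ?_
  · obtain ⟨p, hp⟩ := ha n
    obtain ⟨r, hr⟩ := hb n
    exact ⟨p + r + 1 + k n, by omega⟩
  · filter_upwards [e2] with n hn
    have hn' : 2 ≤ a n := by exact_mod_cast hn
    rw [hE (a n) (k n) (b n) (ha n) hn' (hb n)]

end G

open G Pool.Agent.H863R4 Pool.Agent.NH38.Fork.GF in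
open Pool.Agent.H966.T1.G (CArm carm_le plane_zero lim_close2) in
theorem t3_G : S3_G := by
  intro hE hA α γ β hα hγ hβ δ a m b hδ hδ0 ha hm hb
  have a1 : Tendsto (fun n => δ n * ((2 * (a n / 2) : ℕ) : ℝ)) atTop (𝓝 α) := by
    refine lim_close hδ hδ0 ha fun n => ?_
    have h1 : 2 * (a n / 2) ≤ a n + 1 := by omega
    have h2 : a n ≤ 2 * (a n / 2) + 1 := by omega
    have h1' : ((2 * (a n / 2) : ℕ) : ℝ) ≤ a n + 1 := by exact_mod_cast h1
    have h2' : (a n : ℝ) ≤ ((2 * (a n / 2) : ℕ) : ℝ) + 1 := by exact_mod_cast h2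
    rw [abs_le]; constructor <;> linarith
  have a2 : Tendsto (fun n => δ n * ((2 * ((a n + 1) / 2) : ℕ) : ℝ)) atTop (𝓝 α) := by
    refine lim_close hδ hδ0 ha fun n => ?_
    have h1 : 2 * ((a n + 1) / 2) ≤ a n + 1 := by omega
    have h2 : a n ≤ 2 * ((a n + 1) / 2) + 1 := by omega
    have h1' : ((2 * ((a n + 1) / 2) : ℕ) : ℝ) ≤ a n + 1 := by exact_mod_cast h1
    have h2' : (a n : ℝ) ≤ ((2 * ((a n + 1) / 2) : ℕ) : ℝ) + 1 := by exact_mod_cast h2
    rw [abs_le]; constructor <;> linarith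
  have b1 : Tendsto (fun n => δ n * ou (b n)) atTop (𝓝 β) := lim_close hδ hδ0 hb fun n => ou_dist _
  have b2 : Tendsto (fun n => δ n * od (b n)) atTop (𝓝 β) := lim_close hδ hδ0 hb fun n => od_dist _
  -- even thickness above and below
  have m1 : Tendsto (fun n => δ n * ((2 * ((m n - 1) / 2) + 2 : ℕ) : ℝ)) atTop (𝓝 γ) := by
    refine lim_close2 hδ hδ0 hm fun n => ?_
    have h1 : 2 * ((m n - 1) / 2) + 2 ≤ m n + 2 := by omega
    have h2 : m n ≤ 2 * ((m n - 1) / 2) + 2 + 2 := by omega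
    have h1' : ((2 * ((m n - 1) / 2) + 2 : ℕ) : ℝ) ≤ m n + 2 := by exact_mod_cast h1
    have h2' : (m n : ℝ) ≤ ((2 * ((m n - 1) / 2) + 2 : ℕ) : ℝ) + 2 := by exact_mod_cast h2
    rw [abs_le]; constructor <;> linarith
  have m2 : Tendsto (fun n => δ n * ((2 * ((m n - 2) / 2) + 2 : ℕ) : ℝ)) atTop (𝓝 γ) := by
    refine lim_close2 hδ hδ0 hm fun n => ?_
    have h1 : 2 * ((m n - 2) / 2) + 2 ≤ m n + 2 := by omega
    have h2 : m n ≤ 2 * ((m n - 2) / 2) + 2 + 2 := by omega
    have h1' : ((2 * ((m n - 2) / 2) + 2 : ℕ) : ℝ) ≤ m n + 2 := by exact_mod_cast h1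
    have h2' : (m n : ℝ) ≤ ((2 * ((m n - 2) / 2) + 2 : ℕ) : ℝ) + 2 := by exact_mod_cast h2
    rw [abs_le]; constructor <;> linarith
  have e2 := (lim_top hδ hδ0 hγ hm).eventually_ge_atTop 2
  have e3 := (lim_top hδ hδ0 hβ hb).eventually_ge_atTop 1
  have L1 := even_lim hE hA hα hγ hβ hδ hδ0 (a := fun n => 2 * (a n / 2))
    (fun n => even_two_mul (a n / 2)) (fun n => ou_odd (b n)) a1 m1 b1
  have L2 := even_lim hE hA hα hγ hβ hδ hδ0 (a := fun n => 2 * ((a n + 1) / 2))
    (fun n => even_two_mul ((a n + 1) / 2)) (fun n => od_odd (b n)) a2 m2 b2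
  have hmt : Tendsto (fun n => 2 * ((m n - 2) / 2) + 2) atTop atTop := by
    rw [← tendsto_natCast_atTop_iff (R := ℝ)]
    exact lim_top hδ hδ0 hγ m2
  have L3 : Tendsto (fun n => perc.real (Pool.Agent.H981R2.TP.PL.PlaneArm
      (2 * ((m n - 2) / 2) + 2))) atTop (𝓝 0) := plane_zero.comp hmt
  have L4 := L2.sub L3
  rw [sub_zero] at L4
  refine tendsto_of_tendsto_of_tendsto_of_le_of_le' L4 L1 ?_ ?_
  · filter_upwards [e2, e3] with n h2 h3
    have g2 : 2 ≤ m n := by exact_mod_cast h2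
    have g3 : 1 ≤ b n := by exact_mod_cast h3
    have g5 : od (b n) ≤ b n := od_le (by omega)
    have hsub : Cross3 (2 * ((a n + 1) / 2)) (2 * ((m n - 2) / 2) + 2) (od (b n)) ⊆
        Cross3 (a n) (m n) (b n) ∪ CArm ((m n - 2) / 2 + 1) := by
      refine ((G.mono_b _ _ g5).trans (G.anti_a (a := a n) (by omega) _ _)).trans ?_
      rcases Nat.even_or_odd (m n) with he | ho
      · obtain ⟨c, hc⟩ := he
        have : 2 * ((m n - 2) / 2) + 2 = m n := by omega
        rw [this]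
        exact Set.subset_union_left
      · obtain ⟨c, hc⟩ := ho
        have i1 : 2 * ((m n - 2) / 2) + 2 = 2 * ((m n - 2) / 2 + 1) := by ring
        have i2 : 2 * ((m n - 2) / 2 + 1) + 1 = m n := by omega
        have := G.lower (a n) (K := (m n - 2) / 2 + 1) (by omega) (b n)
        rw [i2] at this
        rw [i1]
        exact this
    have hle : perc.real (Cross3 (2 * ((a n + 1) / 2)) (2 * ((m n - 2) / 2) + 2) (od (b n))) ≤
        perc.real (Cross3 (a n) (m n) (b n)) + perc.real (CArm ((m n - 2) / 2 + 1)) :=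
      (measureReal_mono hsub).trans (measureReal_union_le _ _)
    have hc := carm_le ((m n - 2) / 2 + 1)
    have i3 : 2 * ((m n - 2) / 2 + 1) = 2 * ((m n - 2) / 2) + 2 := by ring
    rw [i3] at hc
    linarith
  · filter_upwards [e2] with n h2
    have g2 : 2 ≤ m n := by exact_mod_cast h2
    refine measureReal_mono ?_
    refine ((G.mono_b _ _ (le_ou _)).trans (G.anti_a (a := 2 * (a n / 2)) (by omega) _ _)).trans ?_
    rcases Nat.even_or_odd (m n) with he | ho
    · obtain ⟨c, hc⟩ := he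
      have : 2 * ((m n - 1) / 2) + 2 = m n := by omega
      rw [this]
    · have := G.upper (2 * (a n / 2)) ho (ou (b n))
      obtain ⟨c, hc⟩ := ho
      have i1 : 2 * ((m n - 1) / 2) + 2 = m n + 1 := by omega
      rw [i1]
      exact this

/-! ## bounded domains -/

open Pool.Agent.H980R4.Rect (Vert SS_symm vert_real)

namespace FT3

theorem crossH_sub (a m b H : ℕ) : Cross3H a m b H ⊆ Cross3 a m b := by
  rintro ω ⟨x, y, h1, -, h3, h4, -, h5⟩
  exact ⟨x, y, h1, h3, h4, Relation.ReflTransGen.mono (fun p r h => h.1) _ _ h5⟩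

theorem crossH_diff {a m b : ℕ} (hm : 1 ≤ m) (H : ℕ) :
    Cross3 a m b \ Cross3H a m b H ⊆
      Vert (-(a:ℤ)) (a+m+b) 0 H ∪ Vert (-(a:ℤ)) (a+m+b) (-(H:ℤ)) 0 := by
  rintro ω ⟨⟨x, y, hx, hy1, hy2, hr⟩, hn⟩
  by_contra hV
  rw [Set.mem_union, not_or] at hV
  obtain ⟨hV1, hV2⟩ := hV
  obtain ⟨z, hz, hxz⟩ : ∃ z : ℤ × ℤ, z.1 + z.2 ≤ 0 ∧
      Relation.ReflTransGen (Pool.Agent.NH38.Fork.FAdj a m b ω) x z := by
    rcases Pool.Agent.NH38.Fork.FT.low hm (by omega) hr with h | h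
    · exfalso
      rw [hy1] at h
      have : (1:ℤ) ≤ m := by exact_mod_cast hm
      omega
    · exact h
  have hb : ∀ p : ℤ × ℤ, Relation.ReflTransGen (Pool.Agent.NH38.Fork.FAdj a m b ω) x p →
      |p.1 + p.2| ≤ H := by
    intro p hp
    have hp' := Pool.Agent.NH38.Fork.FT.SS_of hp
    have hz' := SS_symm (Pool.Agent.NH38.Fork.FT.SS_of hxz)
    have hy' := Pool.Agent.NH38.Fork.FT.SS_of (a := a) (m := m) (b := b) hr
    rw [abs_le]
    constructor
    · by_contra hc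
      exact hV2 ⟨p, y, by omega, by omega, (SS_symm hp').trans hy'⟩
    · by_contra hc
      exact hV1 ⟨z, p, hz, by omega, hz'.trans hp'⟩
  apply hn
  refine ⟨x, y, hx, hb x Relation.ReflTransGen.refl, hy1, hy2, ?_, ?_⟩
  · have := hb y hr
    exact (le_abs_self _).trans this
  · clear hy1 hy2
    induction hr with
    | refl => exact Relation.ReflTransGen.refl
    | tail h1 h2 ih => exact ih.tail ⟨h2, hb _ h1, hb _ (h1.tail h2)⟩

end FT3

/-- comparison of the bounded domain with the channel, all parities -/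
theorem fork3_trunc {a m b : ℕ} (hm : 1 ≤ m) (H : ℕ) :
    |perc.real (Cross3H a m b H) - perc.real (Cross3 a m b)| ≤
      2 * (1 - (1/2 : ℝ)^188)^(H / (100 * (a + m + b))) := by
  have h0 : perc.real (Cross3H a m b H) ≤ perc.real (Cross3 a m b) :=
    measureReal_mono (FT3.crossH_sub a m b H)
  have h1 : Cross3 a m b ⊆ Cross3H a m b H ∪
      (Vert (-(a:ℤ)) (a+m+b) 0 H ∪ Vert (-(a:ℤ)) (a+m+b) (-(H:ℤ)) 0) := by
    intro ω hω
    by_cases hc : ω ∈ Cross3H a m b H
    · exact Or.inl hc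
    · exact Or.inr (FT3.crossH_diff hm H ⟨hω, hc⟩)
  have h2 : perc.real (Cross3 a m b) ≤ perc.real (Cross3H a m b H) +
      (perc.real (Vert (-(a:ℤ)) (a+m+b) 0 H) + perc.real (Vert (-(a:ℤ)) (a+m+b) (-(H:ℤ)) 0)) :=
    (measureReal_mono h1).trans ((measureReal_union_le _ _).trans
      (add_le_add_right (measureReal_union_le _ _) _))
  have h3 := vert_real (-(a:ℤ)) (L := a+m+b) (by omega) 0 H
  have h4 := vert_real (-(a:ℤ)) (L := a+m+b) (by omega) (-(H:ℤ)) H
  rw [zero_add] at h3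
  rw [neg_add_cancel] at h4
  rw [abs_le]
  have h5 : (0:ℝ) ≤ (1 - (1/2 : ℝ)^188)^(H / (100 * (a + m + b))) :=
    measureReal_nonneg.trans h3
  constructor <;> linarith

end Pool.Agent.H965.K3
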