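import Pool.Agent.H965.K3.Stubs
import Pool.Agent.H966.T1.H1
import Pool.Agent.H966.T1.Q7
import Pool.Graph.R_seed8.H492C.H2
import Pool.Graph.R_pool_sql_team_seeded_3dad9d7b.NH38.Fork.M8

/-!
Forked channels, the walls of the left arm to the inner wall of the right arm (helper965): task H
(helper278), the homogeneous limit of the formula `S3_M`.
-/

set_option autoImplicit false

namespace Pool.Agent.H965.K3

open Pool.Agent.H988R2.Perc hiding X
open Pool.Agent.H492C (comb comb2 pairG up1)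
open Pool.Agent.NH38.Step (om prs EE zs prF Gen on)
open Pool.Agent.NH38.Step.Hom (phi eL DD DD_ne W0 VV bs LP xs xs_zero xs_cont ev_gen phi_app phi_cons
  om_cube prF_len prF_ne on_ne on_len oA eL_oA eL_C Ev W0_closed prF_zero on_prod)
open Pool.Agent.NH38.Fork (zo mm gh gF NZ LR UL gm cc FP cst na t_regz)
open Pool.Agent.NH38.Fork.H2 (LR_cont PX PX_zero om_cont prod3_cont on_app list_zero cc_eq term_mem
  formula)
open Pool.Agent.NH38.Fork.Rg (vl vl_cons vl_app vl_length VLR vlr_psi vlr_comb2 vlr_single lr_pairG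
  ul_mul ul_pow ul_prod ul_prf prf vl_prf)
open Pool.Agent.NH38.Fork.M4 (lr_const ul_const)
open Pool.Agent.H966.T1.H1 (vt vt_zero vt_cont ev_fam ul_x ul_v cn cn_map cn_ul cn_len Lp Lp_map
  Lp_len Lp_ul)
open Pool.Agent.H966.T1.Q7 (vlr_up0)
open Filter Topology

namespace H

variable {P : Polynomial ℂ}

/-! ### regularity of `eh3` -/

/-- inverses, with zeros in front and at the end -/
noncomputable def iv00 (l : List (ℂ → ℂ → ℂ)) : List (ℂ → ℂ → ℂ) :=
  (fun _ _ => 0) :: (l.map (fun f t w => (f t w)⁻¹) ++ [fun _ _ => 0])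

theorem vl_iv00 (l : List (ℂ → ℂ → ℂ)) (t w : ℂ) :
    vl (iv00 l) t w = 0 :: ((vl l t w).map (fun x => x⁻¹) ++ [0]) := by
  unfold iv00
  rw [vl_cons, vl_app]
  unfold vl
  rw [List.map_map, List.map_map]
  rfl

theorem vlr_up00 (l : List (ℂ → ℂ → ℂ)) (h : ∀ f ∈ l, UL P f) :
    VLR P (fun t w => Psi (0 :: ((vl l t w).map (fun x => x⁻¹) ++ [0]))) := by
  have h1 := vlr_psi (P := P) (iv00 l) (fun f hf => by
    unfold iv00 at hf
    rcases List.mem_cons.mp hf with hf | hf
    · rw [hf]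
      exact lr_const 0
    rcases List.mem_append.mp hf with hf | hf
    · rw [List.mem_map] at hf
      obtain ⟨g, hg, rfl⟩ := hf
      exact (h g hg).2
    · rw [List.mem_singleton] at hf
      rw [hf]
      exact lr_const 0)
  refine (iff_of_eq (congrArg (VLR P) ?_)).mp h1
  funext t w
  rw [vl_iv00]

theorem vlr_U3 (A B : List (ℂ → ℂ → ℂ)) (m : ℕ) (hA : ∀ f ∈ A, UL P f) (hB : ∀ f ∈ B, UL P f) :
    VLR P (fun t w => U3 (vl A t w) m (vl B t w)) := by
  have h1 := vlr_comb2 (vlr_up00 A hA) (vlr_comb2 (vlr_single (P := P) St.bot) (vlr_up0 B hB) m)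
    ((A.length + 2)/2)
  refine (iff_of_eq (congrArg (VLR P) ?_)).mp h1
  funext t w
  unfold U3
  rw [vl_length]

theorem lr_E3 (A X B : List (ℂ → ℂ → ℂ)) (f h : ℂ → ℂ → ℂ) (hA : ∀ f ∈ A, UL P f)
    (hX : ∀ f ∈ X, UL P f) (hB : ∀ f ∈ B, UL P f) (hf : UL P f) (hh : UL P h) :
    LR P (fun t w => E3 (vl A t w) (vl X t w) (vl B t w) (f t w) (h t w)) := by
  have h1 := vlr_psi (P := P) ((fun _ _ => 0) :: (A ++ f :: (prf X ++ h :: B))) (fun g hg => by
    simp only [List.mem_append, List.mem_cons] at hg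
    rcases hg with hg | hg | hg | hg | hg | hg
    · rw [hg]; exact lr_const 0
    · exact (hA g hg).1
    · rw [hg]; exact hf.1
    · exact (ul_prf X hX g hg).1
    · rw [hg]; exact hh.1
    · exact (hB g hg).1)
  have h2 := lr_pairG h1 (vlr_U3 A B X.length hA hB) (A.length + 1) (A.length + 1 + 2 * X.length + 2)
  refine (iff_of_eq (congrArg (LR P) ?_)).mp h2
  funext t w
  unfold E3
  rw [vl_cons, vl_app, vl_cons, vl_app, vl_cons, vl_prf, vl_length, vl_length]

theorem ul_cs3 (A B : List (ℂ → ℂ → ℂ)) (f : ℂ → ℂ → ℂ) (k : ℕ) (hA : ∀ f ∈ A, UL P f)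
    (hB : ∀ f ∈ B, UL P f) (hf : UL P f) :
    UL P (fun t w => cs3 (vl A t w) (vl B t w) k (f t w)) := by
  have h1 := ul_mul (ul_mul (ul_mul (ul_pow hf ((A.length + 1 + B.length)/2 + k))
    (ul_pow (ul_prod A hA) ((B.length+1)/2 + k))) (ul_pow (ul_prod B hB) ((A.length+2)/2 + k)))
    (ul_const (P := P) (q^(((A.length + 1 + B.length)/2 + k + 1) *
      ((A.length + 1 + B.length)/2 + k) +
      (((A.length+2)/2) * (A.length/2) + ((B.length+1)/2) * ((B.length-1)/2)))))
  refine (iff_of_eq (congrArg (UL P) ?_)).mp h1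
  funext t w
  unfold cs3 na
  rw [vl_length, vl_length]

/-- regularity of `eh3` along families of parameters -/
theorem lr_eh3 (A X B : List (ℂ → ℂ → ℂ)) (f h : ℂ → ℂ → ℂ) (hA : ∀ f ∈ A, UL P f)
    (hX : ∀ f ∈ X, UL P f) (hB : ∀ f ∈ B, UL P f) (hf : UL P f) (hh : UL P h) :
    LR P (fun t w => eh3 (A.map (fun g => g t w)) (X.map (fun g => g t w))
      (B.map (fun g => g t w)) (f t w) (h t w)) := by
  have h1 := lr_E3 A X B f h hA hX hB hf hh
  have h2 := (ul_cs3 A B (fun t w => f t w * h t w) X.length hA hB (ul_mul hf hh)).2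
  refine (iff_of_eq (congrArg (LR P) ?_)).mp (h1.m4mul h2)
  funext t w
  rw [← div_eq_mul_inv]
  unfold eh3
  rw [List.length_map]
  rfl

/-! ### continuity along the family -/

theorem prF_empty {ι : Type} (x : ι → ℂ) : prF x ∅ = [] := by
  unfold prF
  rw [Finset.toList_empty]
  rfl

theorem eh3_cont (a b k : ℕ) (w : ℂ) (hw : w ≠ 0) :
    ContinuousAt (fun t => eh3 (on a) ((Finset.univ : Finset (Fin k)).toList.map (xs k t)) (on b) w
      (vt k t)) 0 := by
  have h := lr_eh3 (P := PX (k+1)) (cn a)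
    ((Finset.univ : Finset (Fin k)).toList.map (fun i => fun t _ => xs k t i)) (cn b)
    (fun _ w => w) (fun t _ => vt k t) (cn_ul _ a) (by
      intro g hg
      rw [List.mem_map] at hg
      obtain ⟨i, _, rfl⟩ := hg
      exact ul_x k i) (cn_ul _ b) UL.var (ul_v k)
  have h1 := LR_cont h (PX_zero (k+1)) w hw
  simp only [cn_map, List.map_map] at h1
  exact h1

theorem eh3_cont0 (a b k : ℕ) (w : ℂ) (hw : w ≠ 0) :
    ContinuousAt (fun t => eh3 (on a) [] (on b) w (vt k t)) 0 := by
  have h := lr_eh3 (P := PX (k+1)) (cn a) [] (cn b)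
    (fun _ w => w) (fun t _ => vt k t) (cn_ul _ a) (fun g hg => absurd hg List.not_mem_nil)
    (cn_ul _ b) UL.var (ul_v k)
  have h1 := LR_cont h (PX_zero (k+1)) w hw
  simp only [cn_map, List.map_nil] at h1
  exact h1

theorem zo_cont (a b k : ℕ) (hab : Odd (a + b)) (w : ℂ) (hw : w ≠ 0) :
    ContinuousAt (fun t => zo (w :: vt k t :: (on a ++ (on b ++ prF (xs k t) Finset.univ)))) 0 := by
  have h := (t_regz (PX (k+1)) ((fun _ w => w) :: (fun t _ => vt k t) ::
    (cn a ++ (cn b ++ Lp k))) (by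
      intro g hg
      rcases List.mem_cons.mp hg with rfl | hg
      · exact UL.var
      rcases List.mem_cons.mp hg with rfl | hg
      · exact ul_v k
      rcases List.mem_append.mp hg with hg | hg
      · exact cn_ul _ a g hg
      rcases List.mem_append.mp hg with hg | hg
      · exact cn_ul _ b g hg
      · exact Lp_ul k g hg)).2 (by
      obtain ⟨c, hc⟩ := hab
      refine ⟨c + k + 1, ?_⟩
      simp only [List.length_cons, List.length_append, cn_len, Lp_len]
      omega)
  have h1 := LR_cont h (PX_zero (k+1)) w hw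
  simp only [List.map_cons, List.map_append, cn_map, Lp_map] at h1
  exact h1

theorem zo_cont0 (a b k : ℕ) (hab : Odd (a + b)) (w : ℂ) (hw : w ≠ 0) :
    ContinuousAt (fun t => zo (w :: vt k t :: (on a ++ (on b ++ [])))) 0 := by
  have h := (t_regz (PX (k+1)) ((fun _ w => w) :: (fun t _ => vt k t) ::
    (cn a ++ (cn b ++ []))) (by
      intro g hg
      rcases List.mem_cons.mp hg with rfl | hg
      · exact UL.var
      rcases List.mem_cons.mp hg with rfl | hg
      · exact ul_v k
      rcases List.mem_append.mp hg with hg | hg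
      · exact cn_ul _ a g hg
      rcases List.mem_append.mp hg with hg | hg
      · exact cn_ul _ b g hg
      · exact absurd hg List.not_mem_nil)).2 (by
      obtain ⟨c, hc⟩ := hab
      refine ⟨c + 1, ?_⟩
      simp only [List.length_cons, List.length_append, cn_len, List.length_nil]
      omega)
  have h1 := LR_cont h (PX_zero (k+1)) w hw
  simp only [List.map_cons, List.map_append, cn_map, List.map_nil] at h1
  exact h1

theorem zs_cont (n k : ℕ) (hn : Odd n) :
    ContinuousAt (fun t => zs (vt k t :: (on n ++ prF (xs k t) Finset.univ))) 0 := by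
  have h := (t_regz (PX (k+1)) ((fun t _ => vt k t) :: (cn n ++ Lp k)) (by
      intro g hg
      rcases List.mem_cons.mp hg with rfl | hg
      · exact ul_v k
      rcases List.mem_append.mp hg with hg | hg
      · exact cn_ul _ n g hg
      · exact Lp_ul k g hg)).1 (by
      obtain ⟨c, hc⟩ := hn
      refine ⟨c + k + 1, ?_⟩
      simp only [List.length_cons, List.length_append, cn_len, Lp_len]
      omega)
  have h1 := LR_cont h (PX_zero (k+1)) 1 one_ne_zero
  simp only [List.map_cons, List.map_append, cn_map, Lp_map] at h1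
  exact h1

theorem zs_cont0 (n k : ℕ) (hn : Odd n) :
    ContinuousAt (fun t => zs (vt k t :: on n)) 0 := by
  have h := (t_regz (PX (k+1)) ((fun t _ => vt k t) :: cn n) (by
      intro g hg
      rcases List.mem_cons.mp hg with rfl | hg
      · exact ul_v k
      · exact cn_ul _ n g hg)).1 (by
      obtain ⟨c, hc⟩ := hn
      refine ⟨c + 1, ?_⟩
      simp only [List.length_cons, cn_len]
      omega)
  have h1 := LR_cont h (PX_zero (k+1)) 1 one_ne_zero
  simp only [List.map_cons, cn_map] at h1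
  exact h1

theorem phi_cont0 (n k : ℕ) (w : ℂ) : ContinuousAt (fun t => phi (vt k t :: on n) w) 0 := by
  simp only [phi_cons]
  refine ContinuousAt.mul (continuousAt_const.sub ?_) continuousAt_const
  exact om_cont (k+1) (Fin.last k)

/-! ### the formula along the family -/

/-- the left side of the formula along the family -/
noncomputable def ff (a b k : ℕ) (t w : ℂ) : ℂ :=
  zs (vt k t :: on (a + b)) * (hF3 (xs k t) Finset.univ (on a) (on b) w (vt k t) *
    phi (vt k t :: (on (a + b) ++ prF (xs k t) Finset.univ)) w) -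
  zs (vt k t :: (on (a + b) ++ prF (xs k t) Finset.univ)) *
    ((∏ i : Fin k, (om (w^3) - om ((xs k t i)^3))) *
      (hF3 (xs k t) ∅ (on a) (on b) w (vt k t) * phi (vt k t :: on (a + b)) w))

theorem ff_cont (a b k : ℕ) (hab : Odd (a + b)) (w : ℂ) (hw : w ≠ 0) :
    ContinuousAt (fun t => ff a b k t w) 0 := by
  unfold ff
  refine ContinuousAt.sub ?_ ?_
  · refine (zs_cont0 (a + b) k hab).mul (ContinuousAt.mul ?_
      (Pool.Agent.H966.T1.H1.phi_cont (a + b) k w))
    unfold hF3
    exact (continuousAt_const.mul (zo_cont a b k hab w hw)).sub (eh3_cont a b k w hw)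
  · refine (zs_cont (a + b) k hab).mul ((prod3_cont k w).mul (ContinuousAt.mul ?_
      (phi_cont0 (a + b) k w)))
    have e : (fun t => hF3 (xs k t) ∅ (on a) (on b) w (vt k t)) = fun t =>
        mm3 (on a) (on b) * zo (w :: vt k t :: (on a ++ (on b ++ []))) -
          eh3 (on a) [] (on b) w (vt k t) := by
      funext t
      unfold hF3
      rw [Finset.toList_empty, List.map_nil, prF_empty]
    rw [e]
    exact (continuousAt_const.mul (zo_cont0 a b k hab w hw)).sub (eh3_cont0 a b k w hw)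

theorem zo_ne (a b : ℕ) (hab : Odd (a + b)) : zo (on a ++ on b) ≠ 0 := by
  rw [on_app]
  exact Pool.Agent.NH38.Fork.M8.zo_ne_of (on_ne (a + b))
    (Pool.Agent.H492C.H2.Z_ones_zero_ne (a + b) hab)

open Classical in
theorem ff_mem (hM : S3_M) {ι : Type} (x : ι → ℂ) (hg : Gen x) (s : Finset ι) (a b : ℕ)
    (ha : Even a) (hb : Odd b) (v : ℂ) (hv : v ≠ 0) (hvx : ∀ j ∈ s, om v ≠ om (x j))
    (hvD : ∀ w ∈ DD, om w ≠ om v) :
    ∃ F ∈ W0 (a + b + 1 + 2*s.card), ∀ (w : ℂ) (hw : w ∈ DD),
    zs (v :: on (a + b)) * (hF3 x s (on a) (on b) w v * phi (v :: (on (a + b) ++ prF x s)) w) -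
      zs (v :: (on (a + b) ++ prF x s)) * ((∏ j ∈ s, (om (w^3) - om ((x j)^3))) *
        (hF3 x ∅ (on a) (on b) w v * phi (v :: on (a + b)) w)) = eL w (DD_ne hw) F := by
  have hx0 : ∀ i, x i ≠ 0 := fun i => (hg.1 i).1
  have hoa : Even (on a).length := by rw [on_len]; exact ha
  have hob : Odd (on b).length := by rw [on_len]; exact hb
  have h2a : on a ++ on b = on (a + b) := on_app a b
  have hab : Odd (a + b) := ha.add_odd hb
  obtain ⟨c, hc⟩ := hab
  have hT : ∀ i, ∃ F : LP, i ∈ s → F ∈ VV (a + b + 1 + 2*s.card) ∧ ∀ (w : ℂ) (hw : w ≠ 0),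
      eL w hw F = phi (x i :: ((v :: on (a + b)) ++ prF x (s.erase i))) w *
        zs (w :: x i :: ((v :: on (a + b)) ++ prF x (s.erase i))) := by
    intro i
    by_cases hi : i ∈ s
    · have hc1 : 0 < s.card := Finset.card_pos.mpr ⟨i, hi⟩
      obtain ⟨F, hF, hF'⟩ := term_mem (x i) (x i :: ((v :: on (a + b)) ++ prF x (s.erase i)))
        (c + s.card) (by
          rw [List.length_cons, List.length_append, List.length_cons, on_len, prF_len,
            Finset.card_erase_of_mem hi]
          omega) (by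
          intro c hc
          rcases List.mem_cons.mp hc with rfl | hc
          · exact hx0 i
          rcases List.mem_append.mp hc with hc | hc
          · rcases List.mem_cons.mp hc with rfl | hc
            · exact hv
            · exact on_ne _ c hc
          · exact prF_ne x _ hx0 c hc)
      refine ⟨F, fun _ => ⟨?_, hF'⟩⟩
      have : 2 * (c + s.card) + 2 = a + b + 1 + 2*s.card := by omega
      rw [this] at hF
      exact hF
    · exact ⟨0, fun h => absurd h hi⟩
  choose F hF using hT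
  set g0 : ℂ → ℂ := fun z => hF3 x ∅ (on a) (on b) z v with hg0
  set α : ι → ℂ := fun i => - (gm x s i * ((1 - q^2)/3 * q^2 * (g0 (x i) - g0 (x i)⁻¹) /
    (x i - (x i)⁻¹))) with hα
  set β : ι → ℂ := fun i => gm x s i * ((1 - q^2)/3 * (((x i)⁻¹ + q * x i) * g0 (x i) -
    (x i + q * (x i)⁻¹) * g0 (x i)⁻¹) / (x i - (x i)⁻¹)) with hβ
  refine ⟨oA * (∑ i ∈ s, α i • F i) + ∑ i ∈ s, β i • F i, ?_, ?_⟩
  · unfold W0
    refine Submodule.add_mem_sup ?_ ?_
    · exact ⟨∑ i ∈ s, α i • F i, Submodule.sum_mem _ fun i hi =>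
        Submodule.smul_mem _ _ (hF i hi).1, rfl⟩
    · exact Submodule.sum_mem _ fun i hi => Submodule.smul_mem _ _ (hF i hi).1
  · intro w hwD
    have hw : w ≠ 0 := DD_ne hwD
    have h0 := hM x hg s (on a) (on b) w v hoa hob (on_ne a) (on_ne b) hw hv
    have h1 : FP3 x (hF3 x) s (on a) (on b) w v = 0 := by
      rcases mul_eq_zero.mp h0 with h0 | h0
      · exfalso
        rcases mul_eq_zero.mp h0 with h0 | h0
        · rcases mul_eq_zero.mp h0 with h0 | h0
          · exact hvD w hwD (sub_eq_zero.mp h0)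
          · exact Finset.prod_ne_zero_iff.mpr (fun j hj => sub_ne_zero.mpr (hvx j hj)) h0
        · exact zo_ne a b ⟨c, hc⟩ h0
      · exact h0
    have h := formula x hg s (v :: on a) (on b) (fun s _ _ w => hF3 x s (on a) (on b) w v) w hw h1
    rw [List.cons_append, h2a] at h
    rw [← List.cons_append, h, map_add, map_mul, eL_oA, map_sum, map_sum,
      ← Finset.sum_neg_distrib, Finset.mul_sum, ← Finset.sum_add_distrib]
    refine Finset.sum_congr rfl fun i hi => ?_
    rw [LaurentPolynomial.smul_eq_C_mul, LaurentPolynomial.smul_eq_C_mul, map_mul, map_mul, eL_C,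
      eL_C, (hF i hi).2 w hw, cc_eq _ w (x i) hw (hx0 i)]
    simp only [hα, hβ, hg0]
    ring

theorem ev_D (k : ℕ) : ∀ᶠ t in 𝓝[≠] (0:ℂ), ∀ w ∈ DD, om w ≠ om (vt k t) := by
  have h0 : ContinuousAt (fun t => ‖vt k t‖) 0 := (vt_cont k).norm
  have h1 : ∀ᶠ t in 𝓝 (0:ℂ), ‖vt k t‖ < 2 := by
    refine h0.eventually_lt continuousAt_const ?_
    show ‖vt k 0‖ < 2
    rw [vt_zero, norm_one]
    norm_num
  have h2 : ∀ᶠ t in 𝓝 (0:ℂ), 1/2 < ‖vt k t‖ := by
    refine ContinuousAt.eventually_lt continuousAt_const h0 ?_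
    show 1/2 < ‖vt k 0‖
    rw [vt_zero, norm_one]
    norm_num
  refine ((h1.and h2).filter_mono nhdsWithin_le_nhds).mono ?_
  rintro t ⟨h3, h4⟩ w hw h
  have hw0 : w ≠ 0 := DD_ne hw
  have hw2 : (2:ℝ) ≤ ‖w‖ := hw
  have hv0 : vt k t ≠ 0 := by
    intro h5
    rw [h5, norm_zero] at h4
    norm_num at h4
  unfold om at h
  have h5 : (w - vt k t) * (w * vt k t - 1) = 0 := by
    field_simp at h
    linear_combination h
  rcases mul_eq_zero.mp h5 with h6 | h6
  · rw [sub_eq_zero.mp h6] at hw2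
    linarith
  · have h7 : ‖w‖ * ‖vt k t‖ = 1 := by
      rw [← norm_mul, sub_eq_zero.mp h6, norm_one]
    nlinarith

theorem lim_mem (hM : S3_M) (a b k : ℕ) (ha : Even a) (hb : Odd b) :
    (fun w : DD => ff a b k 0 w.1) ∈ (W0 (a + b + 1 + 2*k)).map Ev := by
  have hcl := W0_closed (a + b + 1 + 2*k)
  refine hcl.mem_of_tendsto (b := 𝓝[≠] (0:ℂ)) (f := fun t => fun w : DD => ff a b k t w.1) ?_ ?_
  · rw [tendsto_pi_nhds]
    intro w
    exact (ff_cont a b k (ha.add_odd hb) w.1 (DD_ne w.2)).tendsto.mono_left nhdsWithin_le_nhds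
  · filter_upwards [ev_fam k, ev_D k] with t ht hD
    obtain ⟨h1, h2, h3⟩ := ht
    obtain ⟨F, hF, hF'⟩ := ff_mem hM (xs k t) h1 Finset.univ a b ha hb (vt k t) h2 h3 hD
    rw [Finset.card_univ, Fintype.card_fin] at hF
    refine ⟨F, hF, ?_⟩
    funext w
    exact (hF' w.1 w.2).symm

theorem cons_on (n m : ℕ) : (1 : ℂ) :: (on n ++ on m) = on (n + 1 + m) := by
  rw [on_app]
  have : n + 1 + m = (n + m) + 1 := by ring
  rw [this]
  rfl

/-- the homogeneous limit of the formula -/
theorem main (hM : S3_M) : S3_HL := by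
  intro a b k ha hb
  obtain ⟨F, hF, hFe⟩ := lim_mem hM a b k ha hb
  refine ⟨F, hF, fun w hw => ?_⟩
  have h1 := congrFun hFe ⟨w, hw⟩
  have h2 : eL w (DD_ne hw) F = ff a b k 0 w := h1
  rw [h2]
  have e0 : (Finset.univ : Finset (Fin k)).toList.map (xs k 0) = on k := list_zero k
  have e1 : hF3 (xs k 0) Finset.univ (on a) (on b) w 1 = h3 a b k w := by
    unfold hF3 h3
    rw [e0, prF_zero]
  have e2 : hF3 (xs k 0) ∅ (on a) (on b) w 1 = h3 a b 0 w := by
    unfold hF3 h3
    rw [Finset.toList_empty, List.map_nil, prF_empty]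
    rfl
  have e3 : (1:ℂ) :: on (a + b) = on (a + b + 1) := rfl
  have e4 : om (1:ℂ) = 2 := by unfold om; norm_num
  unfold ff
  rw [vt_zero, e1, e2, prF_zero, cons_on, e3]
  simp only [xs_zero, one_pow, Finset.prod_const, Finset.card_univ, Fintype.card_fin, e4]

end H

/-- TASK H (the hypotheses `S3_ehw`, `S3_eh` are not needed, see `H.main`) -/
theorem t3_HL (hM : S3_M) (_hehw : S3_ehw) (_heh : S3_eh) : S3_HL := H.main hM

end Pool.Agent.H965.K3
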