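import Pool.Agent.H965.K3.Main
import Pool.Agent.H965.Both.Geo
import Pool.Agent.H966.T1.Main
import Pool.Agent.H966.T1.FT1
import Pool.Graph.R_pool_sql_team_seeded_3dad9d7b.NH38.Fork.GMain

/-!
Forked channels: the joint law of the two events that the inner wall of the right arm is joined to
the left wall, and that it is joined to the inner wall of the left arm (helper965).
-/

namespace Pool.Agent.H965.K3

open Pool.Agent.H988R2.Perc hiding X
open Pool.Agent.NH38.Step (cardy)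
open Pool.Agent.NH38.Fork (x1 x2 rr FCross FAdj)
open Pool.Agent.H966.T1 (FAdj1 FCross1 FCross1H)
open Filter Topology MeasureTheory

/-- the left wall is joined to the inner wall of the right arm -/
def CrossL (a m b : ℕ) : Set Conf :=
  {ω | ∃ x y : ℤ × ℤ, x.1 - x.2 = -(a:ℤ) ∧ y.1 - y.2 = (m : ℤ) ∧ 0 ≤ y.1 + y.2 ∧
    Relation.ReflTransGen (FAdj1 a m b ω) x y}

/-- the same in the bounded domain -/
def CrossLH (a m b H : ℕ) : Set Conf :=
  {ω | ∃ x y : ℤ × ℤ, x.1 - x.2 = -(a:ℤ) ∧ |x.1 + x.2| ≤ (H:ℤ) ∧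
    y.1 - y.2 = (m : ℤ) ∧ 0 ≤ y.1 + y.2 ∧ y.1 + y.2 ≤ H ∧
    Relation.ReflTransGen (fun p r => FAdj1 a m b ω p r ∧ |p.1 + p.2| ≤ H ∧ |r.1 + r.2| ≤ H) x y}

theorem cross3_union (a m b : ℕ) : Cross3 a m b = CrossL a m b ∪ FCross1 a m b := by
  ext ω
  constructor
  · rintro ⟨x, y, h1 | h1, h2, h3, h4⟩
    · exact Or.inl ⟨x, y, h1, h2, h3, h4⟩
    · exact Or.inr ⟨x, y, h1.1, h1.2, h2, h3, h4⟩
  · rintro (⟨x, y, h1, h2, h3, h4⟩ | ⟨x, y, h1, h1', h2, h3, h4⟩)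
    · exact ⟨x, y, Or.inl h1, h2, h3, h4⟩
    · exact ⟨x, y, Or.inr ⟨h1, h1'⟩, h2, h3, h4⟩

theorem cross3H_union (a m b H : ℕ) : Cross3H a m b H = CrossLH a m b H ∪ FCross1H a m b H := by
  ext ω
  constructor
  · rintro ⟨x, y, h1 | h1, hx, h2, h3, h3', h4⟩
    · exact Or.inl ⟨x, y, h1, hx, h2, h3, h3', h4⟩
    · exact Or.inr ⟨x, y, h1.1, h1.2, (le_abs_self _).trans hx, h2, h3, h3', h4⟩
  · rintro (⟨x, y, h1, hx, h2, h3, h3', h4⟩ | ⟨x, y, h1, h1', hx, h2, h3, h3', h4⟩)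
    · exact ⟨x, y, Or.inl h1, hx, h2, h3, h3', h4⟩
    · exact ⟨x, y, Or.inr ⟨h1, h1'⟩, by rw [abs_of_nonneg h1']; exact hx, h2, h3, h3', h4⟩

/-! ## measurability -/

theorem meas_F (a m b : ℕ) (x y : ℤ × ℤ) : MeasurableSet {ω : Conf | FAdj1 a m b ω x y} := by
  have e : {ω : Conf | FAdj1 a m b ω x y} = {ω | OpenAdj ω x y} ∩ {_ω |
    -(a:ℤ) ≤ x.1 - x.2 ∧ x.1 - x.2 ≤ ((m+b : ℕ) : ℤ) ∧
    -(a:ℤ) ≤ y.1 - y.2 ∧ y.1 - y.2 ≤ ((m+b : ℕ) : ℤ) ∧
    ¬ (0 ≤ x.1 + x.2 ∧ 0 ≤ y.1 + y.2 ∧ 0 ≤ x.1 - x.2 ∧ x.1 - x.2 ≤ m ∧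
      0 ≤ y.1 - y.2 ∧ y.1 - y.2 ≤ m)} := by
    ext ω
    rfl
  rw [e]
  exact (Both.meas_open x y).inter (MeasurableSet.const _)

theorem meas_FH (a m b H : ℕ) (x y : ℤ × ℤ) :
    MeasurableSet {ω : Conf | FAdj1 a m b ω x y ∧ |x.1 + x.2| ≤ (H:ℤ) ∧ |y.1 + y.2| ≤ (H:ℤ)} := by
  have e : {ω : Conf | FAdj1 a m b ω x y ∧ |x.1 + x.2| ≤ (H:ℤ) ∧ |y.1 + y.2| ≤ (H:ℤ)} =
      {ω | FAdj1 a m b ω x y} ∩ {_ω | |x.1 + x.2| ≤ (H:ℤ) ∧ |y.1 + y.2| ≤ (H:ℤ)} := by
    ext ω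
    rfl
  rw [e]
  exact (meas_F a m b x y).inter (MeasurableSet.const _)

theorem meas_two (r : Conf → ℤ × ℤ → ℤ × ℤ → Prop) (hr : ∀ x y, MeasurableSet {ω | r ω x y})
    (p q : ℤ × ℤ → Prop) :
    MeasurableSet {ω | ∃ x y, p x ∧ q y ∧ Relation.ReflTransGen (r ω) x y} := by
  have e : {ω | ∃ x y, p x ∧ q y ∧ Relation.ReflTransGen (r ω) x y} =
      ⋃ x : ℤ × ℤ, ({_ω | p x} ∩ {ω | ∃ y, q y ∧ Relation.ReflTransGen (r ω) x y}) := by
    ext ω
    simp only [Set.mem_iUnion]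
    constructor
    · rintro ⟨x, y, h1, h2, h3⟩
      exact ⟨x, h1, y, h2, h3⟩
    · rintro ⟨x, h1, y, h2, h3⟩
      exact ⟨x, y, h1, h2, h3⟩
  rw [e]
  exact MeasurableSet.iUnion fun x => (MeasurableSet.const _).inter (Both.meas_rtg r hr x q)

theorem meas_cross1 (a m b : ℕ) : MeasurableSet (FCross1 a m b) := by
  have h := meas_two (FAdj1 a m b) (meas_F a m b) (fun x => x.1 - x.2 = 0 ∧ 0 ≤ x.1 + x.2)
    (fun y => y.1 - y.2 = (m:ℤ) ∧ 0 ≤ y.1 + y.2)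
  convert h using 1
  ext ω
  constructor
  · rintro ⟨x, y, h1, h1', h2, h3, h4⟩
    exact ⟨x, y, ⟨h1, h1'⟩, ⟨h2, h3⟩, h4⟩
  · rintro ⟨x, y, ⟨h1, h1'⟩, ⟨h2, h3⟩, h4⟩
    exact ⟨x, y, h1, h1', h2, h3, h4⟩

theorem meas_crossL (a m b : ℕ) : MeasurableSet (CrossL a m b) := by
  have h := meas_two (FAdj1 a m b) (meas_F a m b) (fun x => x.1 - x.2 = -(a:ℤ))
    (fun y => y.1 - y.2 = (m:ℤ) ∧ 0 ≤ y.1 + y.2)
  convert h using 1
  ext ω
  constructor
  · rintro ⟨x, y, h1, h2, h3, h4⟩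
    exact ⟨x, y, h1, ⟨h2, h3⟩, h4⟩
  · rintro ⟨x, y, h1, ⟨h2, h3⟩, h4⟩
    exact ⟨x, y, h1, h2, h3, h4⟩

theorem meas_cross1H (a m b H : ℕ) : MeasurableSet (FCross1H a m b H) := by
  have h := meas_two (fun ω p r => FAdj1 a m b ω p r ∧ |p.1 + p.2| ≤ (H:ℤ) ∧ |r.1 + r.2| ≤ (H:ℤ))
    (meas_FH a m b H) (fun x => x.1 - x.2 = 0 ∧ 0 ≤ x.1 + x.2 ∧ x.1 + x.2 ≤ (H:ℤ))
    (fun y => y.1 - y.2 = (m:ℤ) ∧ 0 ≤ y.1 + y.2 ∧ y.1 + y.2 ≤ (H:ℤ))
  convert h using 1
  ext ω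
  constructor
  · rintro ⟨x, y, h1, h1', h1'', h2, h3, h3', h4⟩
    exact ⟨x, y, ⟨h1, h1', h1''⟩, ⟨h2, h3, h3'⟩, h4⟩
  · rintro ⟨x, y, ⟨h1, h1', h1''⟩, ⟨h2, h3, h3'⟩, h4⟩
    exact ⟨x, y, h1, h1', h1'', h2, h3, h3', h4⟩

theorem meas_crossLH (a m b H : ℕ) : MeasurableSet (CrossLH a m b H) := by
  have h := meas_two (fun ω p r => FAdj1 a m b ω p r ∧ |p.1 + p.2| ≤ (H:ℤ) ∧ |r.1 + r.2| ≤ (H:ℤ))
    (meas_FH a m b H) (fun x => x.1 - x.2 = -(a:ℤ) ∧ |x.1 + x.2| ≤ (H:ℤ))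
    (fun y => y.1 - y.2 = (m:ℤ) ∧ 0 ≤ y.1 + y.2 ∧ y.1 + y.2 ≤ (H:ℤ))
  convert h using 1
  ext ω
  constructor
  · rintro ⟨x, y, h1, h1', h2, h3, h3', h4⟩
    exact ⟨x, y, ⟨h1, h1'⟩, ⟨h2, h3, h3'⟩, h4⟩
  · rintro ⟨x, y, ⟨h1, h1'⟩, ⟨h2, h3, h3'⟩, h4⟩
    exact ⟨x, y, h1, h1', h2, h3, h3', h4⟩

theorem inter_eq (a m b : ℕ) : perc.real (CrossL a m b ∩ FCross1 a m b) =
    perc.real (CrossL a m b) + perc.real (FCross1 a m b) - perc.real (Cross3 a m b) := by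
  have h := measureReal_union_add_inter (μ := perc) (s := CrossL a m b) (meas_cross1 a m b)
  rw [← cross3_union] at h
  linarith

theorem interH_eq (a m b H : ℕ) : perc.real (CrossLH a m b H ∩ FCross1H a m b H) =
    perc.real (CrossLH a m b H) + perc.real (FCross1H a m b H) - perc.real (Cross3H a m b H) := by
  have h := measureReal_union_add_inter (μ := perc) (s := CrossLH a m b H) (meas_cross1H a m b H)
  rw [← cross3H_union] at h
  linarith

/-! ## the mirror image -/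

/-- mirror image of edges, `(u,v) ↦ (v+K, u-K)` -/
def mi2 (K : ℤ) : Edge ≃ Edge where
  toFun e := (e.2.1 + K, e.1 - K, !e.2.2)
  invFun e := (e.2.1 + K, e.1 - K, !e.2.2)
  left_inv e := by
    obtain ⟨a, b, c⟩ := e
    simp
  right_inv e := by
    obtain ⟨a, b, c⟩ := e
    simp

theorem openAdj_mi2 (K : ℤ) (ω : Conf) (x y : ℤ × ℤ) :
    OpenAdj (fun i => ω ((mi2 K).symm i)) (x.2 + K, x.1 - K) (y.2 + K, y.1 - K) ↔
      OpenAdj ω x y := by
  obtain ⟨x1, x2⟩ := x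
  obtain ⟨y1, y2⟩ := y
  unfold OpenAdj mi2
  simp only [Equiv.coe_fn_symm_mk, Prod.mk.injEq, Bool.not_false, Bool.not_true, sub_add_cancel,
    add_sub_cancel_right]
  have e1 : (y2 + K = x2 + K + 1 ∧ y1 - K = x1 - K) ↔ (y1 = x1 ∧ y2 = x2 + 1) := by omega
  have e2 : (x2 + K = y2 + K + 1 ∧ x1 - K = y1 - K) ↔ (x1 = y1 ∧ x2 = y2 + 1) := by omega
  have e3 : (y2 + K = x2 + K ∧ y1 - K = x1 - K + 1) ↔ (y1 = x1 + 1 ∧ y2 = x2) := by omega
  have e4 : (x2 + K = y2 + K ∧ x1 - K = y1 - K + 1) ↔ (x1 = y1 + 1 ∧ x2 = y2) := by omega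
  rw [e1, e2, e3, e4]
  exact Pool.Agent.H966.T1.G.or_rot

theorem openAdj_symm {ω : Conf} {x y : ℤ × ℤ} (h : OpenAdj ω x y) : OpenAdj ω y x := by
  unfold OpenAdj at h ⊢
  tauto

theorem fadj_symm {a m b : ℕ} {ω : Conf} {x y : ℤ × ℤ} (h : FAdj a m b ω x y) :
    FAdj a m b ω y x := by
  obtain ⟨h1, h2, h3, h4, h5, h6⟩ := h
  exact ⟨openAdj_symm h1, h4, h5, h2, h3, fun h => h6 ⟨h.2.1, h.1, h.2.2.2.2.1, h.2.2.2.2.2,
    h.2.2.1, h.2.2.2.1⟩⟩

theorem fadj_rtg_symm {a m b : ℕ} {ω : Conf} {x y : ℤ × ℤ}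
    (h : Relation.ReflTransGen (FAdj a m b ω) x y) :
    Relation.ReflTransGen (FAdj a m b ω) y x := by
  induction h with
  | refl => exact Relation.ReflTransGen.refl
  | tail _ h2 ih => exact ih.head (fadj_symm h2)

/-- the mirror image of the event -/
theorem crossL_eq (a K b : ℕ) : perc.real (CrossL a (2*K) b) = perc.real (FCross b (2*K) a) := by
  rw [← Pool.Agent.H863R4.perc_map (mi2 K) (FCross b (2*K) a)]
  congr 1
  have hstep : ∀ (ω : Conf) (x y : ℤ × ℤ), FAdj1 a (2*K) b ω x y ↔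
      FAdj b (2*K) a (fun i => ω ((mi2 K).symm i)) (x.2 + K, x.1 - K) (y.2 + K, y.1 - K) := by
    intro ω x y
    unfold FAdj1 FAdj
    rw [openAdj_mi2]
    simp only
    push_cast
    constructor
    · rintro ⟨e1, e2, e3, e4, e5, e6⟩
      exact ⟨e1, by omega, by omega, by omega, by omega, by omega⟩
    · rintro ⟨e1, e2, e3, e4, e5, e6⟩
      exact ⟨e1, by omega, by omega, by omega, by omega, by omega⟩
  ext ω
  constructor
  · rintro ⟨x, y, h1, h3, h3', h4⟩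
    refine ⟨(y.2 + K, y.1 - K), (x.2 + K, x.1 - K), ?_, ?_, ?_, ?_⟩
    · show y.2 + K - (y.1 - K) = 0
      push_cast at h3; omega
    · show 0 ≤ y.2 + K + (y.1 - K); omega
    · show x.2 + K - (x.1 - K) = ((2*K+a : ℕ) : ℤ)
      push_cast; omega
    · exact fadj_rtg_symm (h4.lift (fun z : ℤ × ℤ => (z.2 + K, z.1 - K))
        fun p q hpq => (hstep ω p q).mp hpq)
  · rintro ⟨y, x, h3, h3', h1, h4⟩
    refine ⟨(x.2 + K, x.1 - K), (y.2 + K, y.1 - K), ?_, ?_, ?_, ?_⟩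
    · show x.2 + K - (x.1 - K) = -(a:ℤ)
      push_cast at h1; omega
    · show y.2 + K - (y.1 - K) = ((2*K : ℕ) : ℤ)
      push_cast; omega
    · show 0 ≤ y.2 + K + (y.1 - K); omega
    · refine (fadj_rtg_symm h4).lift (fun z : ℤ × ℤ => (z.2 + K, z.1 - K)) fun p q hpq => ?_
      show FAdj1 a (2*K) b ω (p.2 + K, p.1 - K) (q.2 + K, q.1 - K)
      rw [hstep]
      simpa using hpq

/-! ## odd thickness -/

open Pool.Agent.H966.T1.G (step SlitC CArm slitC_symm slitC_rtg_symm carm_le plane_zero lim_close2)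

theorem upperL (a : ℕ) {m : ℕ} (hm : Odd m) (b : ℕ) : CrossL a m b ⊆ CrossL a (m+1) b := by
  rintro ω ⟨x, y, h1, h3, h3', h4⟩
  have hm1 : 1 ≤ m := hm.pos
  obtain ⟨l, hl⟩ := hm
  have key : ∀ z, Relation.ReflTransGen (FAdj1 a m b ω) x z →
      (Relation.ReflTransGen (FAdj1 a (m+1) b ω) x z ∧ ¬ (z.1 - z.2 = (m:ℤ) + 1 ∧ 0 ≤ z.1 + z.2) ∧
        ¬ (z.1 - z.2 = m ∧ 0 ≤ z.1 + z.2)) ∨
        ∃ y : ℤ × ℤ, y.1 - y.2 = (m:ℤ) + 1 ∧ 0 ≤ y.1 + y.2 ∧
          Relation.ReflTransGen (FAdj1 a (m+1) b ω) x y := by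
    intro z hz
    induction hz with
    | refl =>
      left
      exact ⟨Relation.ReflTransGen.refl, by omega, by omega⟩
    | tail hpq hqr ih =>
      rename_i q r
      rcases ih with ⟨i1, i2, i3⟩ | i4
      · obtain ⟨e1, e2, e3, e4, e5, e6⟩ := hqr
        obtain ⟨s1, s2⟩ := step e1
        push_cast at e3 e5
        by_cases hr : r.1 - r.2 = m ∧ 0 ≤ r.1 + r.2
        · exfalso
          have hr2 := hr.1
          have hpar : 1 ≤ r.1 + r.2 := by omega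
          omega
        · by_cases hr' : r.1 - r.2 = (m:ℤ) + 1 ∧ 0 ≤ r.1 + r.2
          · right
            refine ⟨r, hr'.1, hr'.2, i1.tail ?_⟩
            refine ⟨e1, e2, by push_cast; omega, e4, by push_cast; omega, ?_⟩
            push_cast
            omega
          · left
            refine ⟨i1.tail ?_, hr', hr⟩
            refine ⟨e1, e2, by push_cast; omega, e4, by push_cast; omega, ?_⟩
            push_cast
            omega
      · exact Or.inr i4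
  rcases key y h4 with ⟨_, _, h5⟩ | ⟨y', h5, h6, h7⟩
  · exact absurd ⟨h3, h3'⟩ h5
  · exact ⟨x, y', h1, by push_cast; exact h5, h6, h7⟩

theorem lowerL (a : ℕ) {K : ℕ} (hK : 1 ≤ K) (b : ℕ) :
    CrossL a (2*K) b ⊆ CrossL a (2*K+1) b ∪ CArm K := by
  rintro ω ⟨x, y, h1, h3, h3', h4⟩
  have key : ∀ z, Relation.ReflTransGen (FAdj1 a (2*K) b ω) x z →
      (Relation.ReflTransGen (FAdj1 a (2*K+1) b ω) x z ∧
        Relation.ReflTransGen (SlitC (2*K) ω) x z ∧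
        ¬ (z.1 - z.2 = 2 * (K:ℤ) + 1 ∧ 0 ≤ z.1 + z.2) ∧
        ¬ (z.1 - z.2 = 2 * (K:ℤ) ∧ 0 ≤ z.1 + z.2)) ∨
        (∃ y : ℤ × ℤ, y.1 - y.2 = 2 * (K:ℤ) + 1 ∧ 0 ≤ y.1 + y.2 ∧
          Relation.ReflTransGen (FAdj1 a (2*K+1) b ω) x y) ∨
        Relation.ReflTransGen (SlitC (2*K) ω) x ((K:ℤ), -(K:ℤ)) := by
    intro z hz
    induction hz with
    | refl =>
      left
      exact ⟨Relation.ReflTransGen.refl, Relation.ReflTransGen.refl, by omega, by omega⟩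
    | tail hpq hqr ih =>
      rename_i q r
      rcases ih with ⟨i1, i1', i2, i3⟩ | i4 | i5
      · obtain ⟨e1, e2, e3, e4, e5, e6⟩ := hqr
        obtain ⟨s1, s2⟩ := step e1
        push_cast at e3 e5 e6
        by_cases hr : r.1 - r.2 = 2 * (K:ℤ) ∧ 0 ≤ r.1 + r.2
        · right; right
          obtain ⟨r1, r2⟩ := hr
          have hr0 : r.1 + r.2 = 0 := by omega
          have hrr : r = ((K:ℤ), -(K:ℤ)) := by
            apply Prod.ext
            · show r.1 = K; omega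
            · show r.2 = -K; omega
          rw [← hrr]
          refine i1'.tail ⟨e1, ?_⟩
          push_cast
          omega
        · by_cases hr' : r.1 - r.2 = 2 * (K:ℤ) + 1 ∧ 0 ≤ r.1 + r.2
          · right; left
            refine ⟨r, hr'.1, hr'.2, i1.tail ?_⟩
            refine ⟨e1, e2, by push_cast; omega, e4, by push_cast; omega, ?_⟩
            push_cast
            omega
          · left
            refine ⟨i1.tail ?_, i1'.tail ?_, hr', hr⟩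
            · refine ⟨e1, e2, by push_cast; omega, e4, by push_cast; omega, ?_⟩
              push_cast
              omega
            · refine ⟨e1, ?_⟩
              push_cast
              omega
      · exact Or.inr (Or.inl i4)
      · exact Or.inr (Or.inr i5)
  push_cast at h3
  rcases key y h4 with ⟨_, _, _, h5⟩ | ⟨y', h5, h6, h7⟩ | h8
  · exact absurd ⟨h3, h3'⟩ h5
  · left
    exact ⟨x, y', h1, by push_cast; exact h5, h6, h7⟩
  · right
    have h9 : ∀ z, Relation.ReflTransGen (SlitC (2*K) ω) ((K:ℤ), -(K:ℤ)) z → 0 < z.1 - z.2 ∨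
        ∃ x' : ℤ × ℤ, x'.1 - x'.2 = 0 ∧
          Relation.ReflTransGen (SlitC (2*K) ω) ((K:ℤ), -(K:ℤ)) x' := by
      intro z hz
      induction hz with
      | refl =>
        left
        show 0 < (K:ℤ) - -(K:ℤ)
        omega
      | tail hpq hqr ih =>
        rename_i q r
        rcases ih with ih | ih
        · obtain ⟨s1, s2⟩ := step hqr.1
          by_cases hr : r.1 - r.2 = 0
          · exact Or.inr ⟨r, hr, hpq.tail hqr⟩
          · left; omega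
        · exact Or.inr ih
    rcases h9 x (slitC_rtg_symm h8) with h | h
    · omega
    · exact h

theorem x1_swap (A B : ℝ) : x1 B A = 1 - x2 A B := by
  have h : rr B A = rr A B := by
    unfold rr
    congr 1
    ring
  unfold x1 x2
  rw [h]
  ring

open Pool.Agent.NH38.Fork.GF (lim_top)

/-- the scaling limit -/
theorem limL (α γ β : ℝ) (hα : 0 < α) (hγ : 0 < γ) (hβ : 0 < β) (δ : ℕ → ℝ) (a m b : ℕ → ℕ)
    (hδ : ∀ n, 0 < δ n) (hδ0 : Tendsto δ atTop (𝓝 0)) (ha : Tendsto (fun n => δ n * a n) atTop (𝓝 α))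
    (hm : Tendsto (fun n => δ n * m n) atTop (𝓝 γ))
    (hb : Tendsto (fun n => δ n * b n) atTop (𝓝 β)) :
    Tendsto (fun n => perc.real (CrossL (a n) (m n) (b n))) atTop
      (𝓝 (cardy (1 - x2 ((α/(α+γ+β))^2) ((β/(α+γ+β))^2)))) := by
  have m1 : Tendsto (fun n => δ n * ((2 * ((m n + 1) / 2) : ℕ) : ℝ)) atTop (𝓝 γ) := by
    refine lim_close2 hδ hδ0 hm fun n => ?_
    have h1 : 2 * ((m n + 1) / 2) ≤ m n + 2 := by omega
    have h2 : m n ≤ 2 * ((m n + 1) / 2) + 2 := by omega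
    have h1' : ((2 * ((m n + 1) / 2) : ℕ) : ℝ) ≤ m n + 2 := by exact_mod_cast h1
    have h2' : (m n : ℝ) ≤ ((2 * ((m n + 1) / 2) : ℕ) : ℝ) + 2 := by exact_mod_cast h2
    rw [abs_le]; constructor <;> linarith
  have m2 : Tendsto (fun n => δ n * ((2 * (m n / 2) : ℕ) : ℝ)) atTop (𝓝 γ) := by
    refine lim_close2 hδ hδ0 hm fun n => ?_
    have h1 : 2 * (m n / 2) ≤ m n + 2 := by omega
    have h2 : m n ≤ 2 * (m n / 2) + 2 := by omega
    have h1' : ((2 * (m n / 2) : ℕ) : ℝ) ≤ m n + 2 := by exact_mod_cast h1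
    have h2' : (m n : ℝ) ≤ ((2 * (m n / 2) : ℕ) : ℝ) + 2 := by exact_mod_cast h2
    rw [abs_le]; constructor <;> linarith
  have hval : cardy (x1 ((β/(β+γ+α))^2) ((α/(β+γ+α))^2)) =
      cardy (1 - x2 ((α/(α+γ+β))^2) ((β/(α+γ+β))^2)) := by
    rw [x1_swap]
    have : β + γ + α = α + γ + β := by ring
    rw [this]
  have L1 := Pool.Agent.NH38.Fork.a_LimG β γ α hβ hγ hα δ b (fun n => 2 * ((m n + 1) / 2)) a hδ hδ0
    hb m1 ha
  have L2 := Pool.Agent.NH38.Fork.a_LimG β γ α hβ hγ hα δ b (fun n => 2 * (m n / 2)) a hδ hδ0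
    hb m2 ha
  rw [hval] at L1 L2
  have hmt : Tendsto (fun n => 2 * (m n / 2)) atTop atTop := by
    rw [← tendsto_natCast_atTop_iff (R := ℝ)]
    exact lim_top hδ hδ0 hγ m2
  have L3 : Tendsto (fun n => perc.real (Pool.Agent.H981R2.TP.PL.PlaneArm
      (2 * (m n / 2)))) atTop (𝓝 0) := plane_zero.comp hmt
  have L4 := L2.sub L3
  rw [sub_zero] at L4
  have e2 := (lim_top hδ hδ0 hγ hm).eventually_ge_atTop 2
  refine tendsto_of_tendsto_of_tendsto_of_le_of_le' L4 L1 ?_ ?_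
  · filter_upwards [e2] with n h2
    have g2 : 2 ≤ m n := by exact_mod_cast h2
    rw [← crossL_eq]
    have hsub : CrossL (a n) (2 * (m n / 2)) (b n) ⊆
        CrossL (a n) (m n) (b n) ∪ CArm (m n / 2) := by
      rcases Nat.even_or_odd (m n) with he | ho
      · obtain ⟨c, hc⟩ := he
        have : 2 * (m n / 2) = m n := by omega
        rw [this]
        exact Set.subset_union_left
      · obtain ⟨c, hc⟩ := ho
        have i2 : 2 * (m n / 2) + 1 = m n := by omega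
        have := lowerL (a n) (K := m n / 2) (by omega) (b n)
        rw [i2] at this
        exact this
    have hle : perc.real (CrossL (a n) (2 * (m n / 2)) (b n)) ≤
        perc.real (CrossL (a n) (m n) (b n)) + perc.real (CArm (m n / 2)) :=
      (measureReal_mono hsub).trans (measureReal_union_le _ _)
    have hc := carm_le (m n / 2)
    linarith
  · filter_upwards [e2] with n h2
    rw [← crossL_eq]
    refine measureReal_mono ?_
    rcases Nat.even_or_odd (m n) with he | ho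
    · obtain ⟨c, hc⟩ := he
      have : 2 * ((m n + 1) / 2) = m n := by omega
      rw [this]
    · have := upperL (a n) ho (b n)
      obtain ⟨c, hc⟩ := ho
      have i1 : 2 * ((m n + 1) / 2) = m n + 1 := by omega
      rw [i1]
      exact this

/-! ## bounded domains -/

open Pool.Agent.H980R4.Rect (Vert SS_symm vert_real)

theorem crossLH_sub (a m b H : ℕ) : CrossLH a m b H ⊆ CrossL a m b := by
  rintro ω ⟨x, y, h1, -, h3, h4, -, h5⟩
  exact ⟨x, y, h1, h3, h4, Relation.ReflTransGen.mono (fun p r h => h.1) _ _ h5⟩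

theorem crossLH_diff {a m b : ℕ} (hm : 1 ≤ m) (H : ℕ) :
    CrossL a m b \ CrossLH a m b H ⊆
      Vert (-(a:ℤ)) (a+m+b) 0 H ∪ Vert (-(a:ℤ)) (a+m+b) (-(H:ℤ)) 0 := by
  rintro ω ⟨⟨x, y, hx, hy1, hy2, hr⟩, hn⟩
  by_contra hV
  rw [Set.mem_union, not_or] at hV
  obtain ⟨hV1, hV2⟩ := hV
  obtain ⟨z, hz, hxz⟩ : ∃ z : ℤ × ℤ, z.1 + z.2 ≤ 0 ∧
      Relation.ReflTransGen (Pool.Agent.NH38.Fork.FAdj a m b ω) x z := by
    rcases Pool.Agent.NH38.Fork.FT.low hm (by omega) hr with h | h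
    · exfalso
      rw [hy1] at h
      have : (1:ℤ) ≤ m := by exact_mod_cast hm
      omega
    · exact h
  have hb : ∀ p : ℤ × ℤ, Relation.ReflTransGen (Pool.Agent.NH38.Fork.FAdj a m b ω) x p →
      |p.1 + p.2| ≤ H := by
    intro p hp
    have hp' := Pool.Agent.NH38.Fork.FT.SS_of hp
    have hz' := SS_symm (Pool.Agent.NH38.Fork.FT.SS_of hxz)
    have hy' := Pool.Agent.NH38.Fork.FT.SS_of (a := a) (m := m) (b := b) hr
    rw [abs_le]
    constructor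
    · by_contra hc
      exact hV2 ⟨p, y, by omega, by omega, (SS_symm hp').trans hy'⟩
    · by_contra hc
      exact hV1 ⟨z, p, hz, by omega, hz'.trans hp'⟩
  apply hn
  refine ⟨x, y, hx, hb x Relation.ReflTransGen.refl, hy1, hy2, ?_, ?_⟩
  · have := hb y hr
    exact (le_abs_self _).trans this
  · clear hy1 hy2
    induction hr with
    | refl => exact Relation.ReflTransGen.refl
    | tail h1 h2 ih => exact ih.tail ⟨h2, hb _ h1, hb _ (h1.tail h2)⟩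

/-- comparison of the bounded domain with the channel -/
theorem forkL_trunc {a m b : ℕ} (hm : 1 ≤ m) (H : ℕ) :
    |perc.real (CrossLH a m b H) - perc.real (CrossL a m b)| ≤
      2 * (1 - (1/2 : ℝ)^188)^(H / (100 * (a + m + b))) := by
  have h0 : perc.real (CrossLH a m b H) ≤ perc.real (CrossL a m b) :=
    measureReal_mono (crossLH_sub a m b H)
  have h1 : CrossL a m b ⊆ CrossLH a m b H ∪
      (Vert (-(a:ℤ)) (a+m+b) 0 H ∪ Vert (-(a:ℤ)) (a+m+b) (-(H:ℤ)) 0) := by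
    intro ω hω
    by_cases hc : ω ∈ CrossLH a m b H
    · exact Or.inl hc
    · exact Or.inr (crossLH_diff hm H ⟨hω, hc⟩)
  have h2 : perc.real (CrossL a m b) ≤ perc.real (CrossLH a m b H) +
      (perc.real (Vert (-(a:ℤ)) (a+m+b) 0 H) + perc.real (Vert (-(a:ℤ)) (a+m+b) (-(H:ℤ)) 0)) :=
    (measureReal_mono h1).trans ((measureReal_union_le _ _).trans
      (add_le_add_right (measureReal_union_le _ _) _))
  have h3 := vert_real (-(a:ℤ)) (L := a+m+b) (by omega) 0 H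
  have h4 := vert_real (-(a:ℤ)) (L := a+m+b) (by omega) (-(H:ℤ)) H
  rw [zero_add] at h3
  rw [neg_add_cancel] at h4
  rw [abs_le]
  have h5 : (0:ℝ) ≤ (1 - (1/2 : ℝ)^188)^(H / (100 * (a + m + b))) :=
    measureReal_nonneg.trans h3
  constructor <;> linarith

end Pool.Agent.H965.K3
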