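import Pool.Agent.H965.K3.Stubs

/-!
Task L12 (helper297, for helper965): leading behaviour of the normalised partition functions as
`t → 0`.
-/

set_option autoImplicit false

namespace Pool.Agent.H965.K3

open Pool.Agent.H988R2.Perc hiding X
open Pool.Agent.H492C (comb comb2 pairG up1)
open Pool.Agent.NH38.Step (om prs EE zs prF Gen on cardy pom bev)
open Pool.Agent.NH38.Fork (zo mm na cst gh Dh G T D U tt gF tF NZ ev LR UL Reg Lau PermInv cc gm
  x1 x2 sv vv kap rf mj EAdj UnifG Bt)
open Polynomial Filter Topology MeasureTheory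

namespace L12

theorem prod_ne {l : List ℂ} (hl : NZ l) : l.prod ≠ 0 := by
  exact List.prod_ne_zero fun h => hl 0 h rfl

theorem fac_zero (l : List ℂ) : fac 0 l = q^l.length * l.prod := by
  unfold fac
  induction l with
  | nil => simp
  | cons y l ih =>
    rw [List.map_cons, List.prod_cons, ih, List.length_cons, List.prod_cons]
    have := T20.q4
    linear_combination (y * (q^l.length * l.prod)) * this

/-- a parameter `0` on both sides -/
theorem Z_zero_zero (l : List ℂ) (hl : Even l.length) :
    Z (0 :: (l ++ [0])) = q^l.length * l.prod * Z l := by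
  have h1 : Z (0 :: (l ++ [0])) = Z (l ++ [0, 0]) := by
    refine Z_perm (by simp only [List.length_cons, List.length_append, List.length_nil]
                      exact hl.add (by decide : Even 2)) ?_
    have : l ++ [0, 0] = (l ++ [0]) ++ [0] := by simp
    rw [this]
    exact (List.perm_append_singleton _ _).symm
  have h2 : Z (l ++ [0, 0]) = q^l.length * l.prod * Z l := by
    unfold Z
    rw [Pool.Agent.H988C.Psi_zero_zero _ hl, T24.mass_smul, T24.mass_mapDomain, fac_zero]
  exact h1.trans h2

theorem Z_zero (l : List ℂ) (hl : Odd l.length) : Z (0 :: l) = Z (l ++ [0]) :=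
  Z_perm (by simpa using hl.add_one) (List.perm_append_singleton _ _).symm

end L12

theorem t3_zs : S3_zs := by
  intro l hl hz
  obtain ⟨P, _, hP⟩ := (Z_pd (l.length + 1) hl.add_one).univ [] l (by simp)
  simp only [List.nil_append] at hP
  have hp := L12.prod_ne hz
  have hq := q_ne_zero
  obtain ⟨r, hr⟩ := hl
  have e1 : (l.length - 1) / 2 = r := by omega
  have e2 : (l.length + 1) / 2 = r + 1 := by omega
  have e3 : (l.length + 1) / 2 - 1 = r := by omega
  refine ⟨C ((l.prod^r * q^((r+1)*r))⁻¹) * P, ?_, fun t ht => ?_⟩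
  · rw [eval_mul, eval_C, ← hP 0, L12.Z_zero l ⟨r, hr⟩]
    unfold zo
    rw [e1, e2]
    field_simp
  · rw [eval_mul, eval_C, ← hP t]
    unfold zs
    beta_reduce
    rw [List.length_cons, List.prod_cons, e3, e2, e1, mul_pow]
    field_simp

theorem t3_zo : S3_zo := by
  intro l hl hz
  obtain ⟨P, _, hP⟩ := (Z_pd (l.length + 2) (hl.add (by decide : Even 2))).univ [] (l ++ [0])
    (by simp)
  simp only [List.nil_append] at hP
  have hp := L12.prod_ne hz
  have hq := q_ne_zero
  have hev := hl
  obtain ⟨r, hr⟩ := hl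
  have e1 : l.length / 2 = r := by omega
  have e2 : (l.length + 1 - 1) / 2 = r := by omega
  have e3 : (l.length + 1 + 1) / 2 = r + 1 := by omega
  refine ⟨C ((l.prod^r * q^((r+1)*r))⁻¹) * P, ?_, fun t ht => ?_⟩
  · rw [eval_mul, eval_C, ← hP 0, L12.Z_zero_zero l hev]
    unfold zs
    rw [e1]
    rcases Nat.eq_zero_or_pos r with h0 | h0
    · have hl0 : l = [] := List.eq_nil_of_length_eq_zero (by omega)
      subst hl0
      subst h0
      simp
    · obtain ⟨s, rfl⟩ : ∃ s, r = s + 1 := ⟨r - 1, by omega⟩
      have e4 : (s + 1 + 1) * (s + 1) = l.length + (s + 1) * s := by rw [hr]; ring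
      rw [Nat.add_sub_cancel, e4, pow_add, pow_succ l.prod]
      field_simp
      ring
  · rw [eval_mul, eval_C, ← hP t]
    unfold zo
    beta_reduce
    rw [List.length_cons, List.prod_cons, e2, e3, e1, mul_pow, List.cons_append]
    field_simp

end Pool.Agent.H965.K3
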