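import Pool.Agent.H965.K3.Stubs
import Pool.Graph.R_seed8.H492C.G4

/-!
K3 (helper965), task L3, L4: the limit `t → 0` of the glued amplitudes.
-/

set_option autoImplicit false

namespace Pool.Agent.H965.K3

open Pool.Agent.H988R2.Perc hiding X
open Pool.Agent.H492C
open Pool.Agent.NH38.Step (om prs EE zs prF Gen on cardy pom bev)
open Pool.Agent.NH38.Fork (zo mm na cst gh G U NZ)
open Pool.Agent.H966.T1 (eh E1 U1)
open Polynomial

namespace L34

/-- polynomiality in the first parameter of both vectors -/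
theorem poly2 (p r k : ℕ) (l1 l2 : List ℂ) (H : St →₀ ℂ) (h1 : Odd l1.length)
    (h2 : Odd l2.length) : ∃ P : ℂ[X], ∀ t : ℂ,
      pairG p r (Psi (t :: l1)) (comb2 k (Psi (t :: l2)) H) = P.eval t := by
  classical
  obtain ⟨S, s1, s2, -⟩ := g4_supp (l1.length + 1) (l2.length + 1) 0
  obtain ⟨P, -, hP⟩ := g4_poly p r k (f := fun t => Psi (t :: l1)) (g := fun t => Psi (t :: l2))
    (h := fun _ => H) (S := S ∪ H.support) (d1 := l1.length - 1) (d2 := l2.length - 1) (d3 := 0)
    (fun t => (s1 _ (by simp)).trans Finset.subset_union_left)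
    (fun t => (s2 _ (by simp)).trans Finset.subset_union_left)
    (fun t => Finset.subset_union_right)
    (fun R => by
      obtain ⟨P, hP, hP'⟩ := g4_pd [] l1 (by
        rw [List.length_nil, zero_add]
        exact h1.add_one) R
      refine ⟨P, ?_, hP'⟩
      rw [List.length_nil, zero_add] at hP
      exact hP)
    (fun R => by
      obtain ⟨P, hP, hP'⟩ := g4_pd [] l2 (by
        rw [List.length_nil, zero_add]
        exact h2.add_one) R
      refine ⟨P, ?_, hP'⟩
      rw [List.length_nil, zero_add] at hP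
      exact hP)
    (fun R => g4_const _ R)
  exact ⟨P, hP⟩

/-- polynomiality in one parameter of the lower vector -/
theorem poly1 (p r k : ℕ) (u l : List ℂ) (g H : St →₀ ℂ) (h1 : Even (u.length + l.length + 1)) :
    ∃ P : ℂ[X], ∀ t : ℂ, pairG p r (Psi (u ++ t :: l)) (comb2 k g H) = P.eval t := by
  classical
  obtain ⟨S, s1, -, -⟩ := g4_supp (u.length + (l.length + 1)) 0 0
  obtain ⟨P, -, hP⟩ := g4_poly p r k (f := fun t => Psi (u ++ t :: l)) (g := fun _ => g)
    (h := fun _ => H) (S := S ∪ g.support ∪ H.support) (d1 := u.length + l.length - 1) (d2 := 0)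
    (d3 := 0)
    (fun t => (s1 _ (by simp)).trans
      (Finset.subset_union_left.trans Finset.subset_union_left))
    (fun t => Finset.subset_union_right.trans Finset.subset_union_left)
    (fun t => Finset.subset_union_right)
    (fun R => g4_pd u l h1 R) (fun R => g4_const _ R) (fun R => g4_const _ R)
  exact ⟨P, hP⟩

/-- the inverse parameter in the upper vector -/
theorem pair_inv (p r k : ℕ) (f : St →₀ ℂ) (l : List ℂ) (H : St →₀ ℂ) (h : Odd l.length) (t : ℂ)
    (ht : t ≠ 0) : pairG p r f (comb2 k (Psi (t⁻¹ :: l)) H) * t^(l.length - 1) =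
      pairG p r f (comb2 k (Psi (t :: l)) H) := by
  have e := Psi_inv1 t⁻¹ l (inv_ne_zero ht) h
  rw [inv_inv] at e
  rw [e, g4_smul_left, g4_pair_smul]
  have h1 : (t⁻¹)^(l.length - 1) * t^(l.length - 1) = 1 := by
    rw [← mul_pow, inv_mul_cancel₀ ht, one_pow]
  linear_combination (pairG p r f (comb2 k (Psi (t :: l)) H)) * h1

theorem cst_cons (A B : List ℂ) (k : ℕ) (t w : ℂ) :
    cst (t :: A) B k w = t^((B.length+1)/2 + k) * cs3 A B k w := by
  unfold cst cs3 na
  rw [List.length_cons, List.prod_cons, mul_pow, Nat.add_sub_cancel,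
    show A.length + 1 + 1 = A.length + 2 from rfl]
  ring

theorem cs3_ne {A B : List ℂ} (k : ℕ) {w : ℂ} (hA : NZ A) (hB : NZ B) (hw : w ≠ 0) :
    cs3 A B k w ≠ 0 := by
  unfold cs3
  refine mul_ne_zero (mul_ne_zero (mul_ne_zero (pow_ne_zero _ hw) (pow_ne_zero _ ?_))
    (pow_ne_zero _ ?_)) (pow_ne_zero _ q_ne_zero)
  · exact List.prod_ne_zero fun h => hA 0 h rfl
  · exact List.prod_ne_zero fun h => hB 0 h rfl

theorem length_prs (X : List ℂ) : (prs X).length = 2 * X.length := by
  unfold prs
  induction X with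
  | nil => rfl
  | cons a l ih =>
    rw [List.flatMap_cons, List.length_append, ih]
    simp only [List.length_cons, List.length_nil]
    ring

/-- the general limit -/
theorem lim (A B l : List ℂ) (r k : ℕ) (H : St →₀ ℂ) (w : ℂ) (hA : Even A.length)
    (hl : Odd l.length) (nA : NZ A) (nB : NZ B) (hw : w ≠ 0) (f : ℂ → ℂ)
    (hf : ∀ t, f t = pairG (A.length + 1) r (Psi (t :: l)) (comb2 ((A.length + 2) / 2)
      (Psi (t⁻¹ :: (A.map (fun x => x⁻¹) ++ [0]))) H) / cst (t :: A) B k w) :
    Lim0 f (A.length + (B.length+1)/2 + k)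
      (pairG (A.length + 1) r (Psi (0 :: l)) (comb2 ((A.length + 2) / 2)
        (Psi (0 :: (A.map (fun x => x⁻¹) ++ [0]))) H) / cs3 A B k w) := by
  have hlen : (A.map (fun x => x⁻¹) ++ [0]).length = A.length + 1 := by
    rw [List.length_append, List.length_map, List.length_singleton]
  have hodd : Odd (A.map (fun x => x⁻¹) ++ [0]).length := by
    rw [hlen]
    exact hA.add_one
  obtain ⟨P, hP⟩ := poly2 (A.length + 1) r ((A.length + 2) / 2) l
    (A.map (fun x => x⁻¹) ++ [0]) H hl hodd
  refine ⟨C (cs3 A B k w)⁻¹ * P, ?_, fun t ht => ?_⟩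
  · rw [eval_mul, eval_C, ← hP 0, div_eq_inv_mul]
  · have hc := cs3_ne k nA nB hw
    have e := pair_inv (A.length + 1) r ((A.length + 2) / 2) (Psi (t :: l))
      (A.map (fun x => x⁻¹) ++ [0]) H hodd t ht
    rw [hP t, hlen, Nat.add_sub_cancel] at e
    rw [hf t, eval_mul, eval_C, ← e, cst_cons, add_assoc, pow_add t A.length]
    have ht2 : t^((B.length+1)/2 + k) ≠ 0 := pow_ne_zero _ ht
    field_simp

end L34

open L34

theorem t3_eh : S3_eh := by
  intro A X B w v hA hB nA nX nB hw hv
  have hl : Odd (A ++ w :: (prs X ++ v :: B)).length := by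
    rw [List.length_append, List.length_cons, List.length_append, List.length_cons, length_prs]
    obtain ⟨m, hm⟩ := hA
    obtain ⟨n, hn⟩ := hB
    exact ⟨m + X.length + n + 1, by omega⟩
  exact lim A B (A ++ w :: (prs X ++ v :: B)) (A.length + 1 + 2 * X.length + 2) X.length
    (comb2 X.length (Finsupp.single St.bot 1) (Psi (0 :: B.map (fun x => x⁻¹)))) (w * v) hA hl nA nB
    (mul_ne_zero hw hv) (fun t => eh (t :: A) X B w v) (fun t => rfl)

theorem t3_gt : S3_gt := by
  intro A B w hA hB nA nB hw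
  have hl : Odd (A ++ (w :: (B ++ [0]))).length := by
    rw [List.length_append, List.length_cons, List.length_append, List.length_singleton]
    obtain ⟨m, hm⟩ := hA
    obtain ⟨n, hn⟩ := hB
    exact ⟨m + n + 1, by omega⟩
  have hf : ∀ t, gh (t :: A) [] B w = pairG (A.length + 1) (A.length + 1 + 1 + B.length)
      (Psi (t :: (A ++ (w :: (B ++ [0]))))) (comb2 ((A.length + 2) / 2)
        (Psi (t⁻¹ :: (A.map (fun x => x⁻¹) ++ [0])))
        (comb2 0 (Finsupp.single St.bot 1) (up1 B))) / cst (t :: A) B 0 w := by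
    intro t
    have h0 : prs [] = ([] : List ℂ) := rfl
    unfold gh G U
    rw [h0]
    simp only [List.length_cons, List.length_nil, List.cons_append, List.nil_append]
    rfl
  have h := lim A B (A ++ (w :: (B ++ [0]))) (A.length + 1 + 1 + B.length) 0
    (comb2 0 (Finsupp.single St.bot 1) (up1 B)) w hA hl nA nB hw
    (fun t => gh (t :: A) [] B w) hf
  rw [Nat.add_zero] at h
  unfold gt3
  exact h

theorem t3_ehw : S3_ehw := by
  intro A X B v hA hB nA nX nB hv
  have he : Even ((0 :: A : List ℂ).length + (prs X ++ v :: B).length + 1) := by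
    rw [List.length_cons, List.length_append, List.length_cons, length_prs]
    obtain ⟨m, hm⟩ := hA
    obtain ⟨n, hn⟩ := hB
    exact ⟨m + X.length + n + 2, by omega⟩
  obtain ⟨P, hP⟩ := poly1 (A.length + 1) (A.length + 1 + 2 * X.length + 2) ((A.length + 2) / 2)
    (0 :: A) (prs X ++ v :: B) (Psi (0 :: (A.map (fun x => x⁻¹) ++ [0])))
    (comb2 X.length (Finsupp.single St.bot 1) (Psi (0 :: B.map (fun x => x⁻¹)))) he
  have hc := cs3_ne X.length nA nB hv
  refine ⟨C (cs3 A B X.length v)⁻¹ * P, (A.length + 1 + B.length)/2 + X.length, fun w hw => ?_⟩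
  have e1 : E3 A X B w v = P.eval w := hP w
  have e2 : cs3 A B X.length (w * v) =
      w^((A.length + 1 + B.length)/2 + X.length) * cs3 A B X.length v := by
    unfold cs3
    rw [mul_pow]
    ring
  have hw2 : w^((A.length + 1 + B.length)/2 + X.length) ≠ 0 := pow_ne_zero _ hw
  unfold eh3
  rw [e1, e2, eval_mul, eval_C]
  field_simp

end Pool.Agent.H965.K3
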