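import Pool.Agent.H965.K3.Stubs
import Pool.Agent.H966.T1.P1

/-!
Forked channels, the walls of the left arm to the inner wall of the right arm: TASK L5, the total
mass of the homogeneous channel (helper962).
-/

namespace Pool.Agent.H965.K3

open Pool.Agent.H988R2.Perc hiding X
open Pool.Agent.NH38.Step (om prs zs on)
open Pool.Agent.NH38.Fork (zo mm na cst NZ)
open Pool.Agent.H966.T1.P1 (low_eq inv_on len_on)
open Pool.Agent.H965.Both (psiA psiB mass_psiA mass_psiB mass_psiA_ne mass_psiB_ne)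

namespace L5

theorem prod_on (n : ℕ) : (on n).prod = 1 := by
  unfold Pool.Agent.NH38.Step.on
  rw [List.prod_replicate, one_pow]

/-- the three masses -/
theorem TT3_on (a k b : ℕ) : TT3 (on a) (on k) (on b) 1 1 =
    mass (psiB (a+2+2*k+b)) * (mass (psiA a) * mass (psiB b)) := by
  unfold TT3
  rw [low_eq, inv_on, inv_on]
  rfl

theorem long_on (a k b : ℕ) :
    1 :: 1 :: (on a ++ (on b ++ on (2*k))) = on (a+2+2*k+b) := by
  unfold Pool.Agent.NH38.Step.on
  rw [← List.replicate_add, ← List.replicate_add, ← List.replicate_succ, ← List.replicate_succ]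
  congr 1
  ring

/-- `zo` of `1,…,1` -/
theorem zo_on (n : ℕ) (hn : Odd n) :
    zo (on n) = mass (psiB n) / q^(((n+1)/2) * ((n-1)/2)) := by
  unfold Pool.Agent.NH38.Fork.zo
  rw [prod_on, one_pow, one_mul, len_on, mass_psiB n hn]
  rfl

/-- `zs` of `1,…,1` -/
theorem zs_on (n : ℕ) : zs (on n) = Z (on n) / q^((n/2) * (n/2 - 1)) := by
  unfold Pool.Agent.NH38.Step.zs
  rw [prod_on, one_pow, one_mul, len_on]

theorem cs3_on (a k b : ℕ) : cs3 (on a) (on b) k 1 =
    q^(((a + 1 + b)/2 + k + 1) * ((a + 1 + b)/2 + k) +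
      (((a+2)/2) * (a/2) + ((b+1)/2) * ((b-1)/2))) := by
  unfold cs3 Pool.Agent.NH38.Fork.na
  rw [prod_on, prod_on, len_on, len_on, one_pow, one_pow, one_pow, one_mul, one_mul, one_mul]

end L5

open L5

theorem t3_Teq : S3_Teq := by
  intro a k b ha hb
  have hq := q_ne_zero
  obtain ⟨m, rfl⟩ := ha
  obtain ⟨n, rfl⟩ := hb
  have hN : Odd (m + m + 2 + 2 * k + (2 * n + 1)) := ⟨m + 1 + k + n, by ring⟩
  rw [TT3_on, long_on, cs3_on, zo_on _ hN]
  unfold mm3
  rw [zs_on, zo_on _ ⟨n, rfl⟩, mass_psiA (m+m) ⟨m, rfl⟩]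
  have e1 : (m + m + 2 + 2 * k + (2 * n + 1) + 1) / 2 = m + n + k + 2 := by omega
  have e2 : (m + m + 2 + 2 * k + (2 * n + 1) - 1) / 2 = m + n + k + 1 := by omega
  have e3 : (m + m + 1 + (2 * n + 1)) / 2 = m + n + 1 := by omega
  have e4 : (m + m + 2) / 2 = m + 1 := by omega
  have e5 : (m + m) / 2 = m := by omega
  have e6 : (2 * n + 1 + 1) / 2 = n + 1 := by omega
  have e7 : (2 * n + 1 - 1) / 2 = n := by omega
  rw [e1, e2, e3, e4, e5, e6, e7]
  have e8 : mass (Psi (List.replicate (m+m) 1)) = Z (on (m+m)) := rfl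
  rw [e8]
  have e9 : q^((m+1) * m) = q^(m + m) * q^(m * (m - 1)) := by
    rw [← pow_add]
    congr 1
    rcases m with _ | m
    · rfl
    · rw [Nat.add_sub_cancel]; ring
  rw [pow_add q ((m + n + 1 + k + 1) * (m + n + 1 + k)), pow_add q ((m + 1) * m), e9,
    show (m + n + 1 + k + 1) * (m + n + 1 + k) = (m + n + k + 2) * (m + n + k + 1) by ring]
  field_simp

theorem t3_TF : S3_TF := by
  intro a k b ha hb
  rw [TT3_on]
  have hN : Odd (a + 2 + 2 * k + b) := by
    obtain ⟨m, rfl⟩ := ha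
    obtain ⟨n, rfl⟩ := hb
    exact ⟨m + 1 + k + n, by ring⟩
  exact mul_ne_zero (mass_psiB_ne _ hN) (mul_ne_zero (mass_psiA_ne a ha) (mass_psiB_ne b hb))

end Pool.Agent.H965.K3
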