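import Pool.Agent.H965.K3.Stubs
import Pool.Agent.H966.T1.Main0
import Pool.Agent.H966.T1.Q34

/-!
Forked channels, the walls of the left arm to the inner wall of the right arm: the formula `FP3` as
the limit `t → 0` of the formula of `H966.T1` (task M, by helper44).
-/

namespace Pool.Agent.H965.K3

open Pool.Agent.H988R2.Perc hiding X
open Pool.Agent.H492C (comb comb2 pairG up1)
open Pool.Agent.NH38.Step (om prs EE zs prF Gen on cardy pom bev)
open Pool.Agent.NH38.Fork (zo mm na cst gh Dh G T D U tt gF tF NZ ev LR UL Reg Lau PermInv cc gm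
  x1 x2 sv vv kap rf mj EAdj UnifG Bt)
open Pool.Agent.H966.T1 (eh E1 U1 TT1 hF FP1 DD1 FAdj1 EAdj1)
open Polynomial Filter Topology MeasureTheory

namespace M

/-! ### a small calculus for `Lim0` -/

theorem l_congr {f g : ℂ → ℂ} {e : ℕ} {c : ℂ} (hg : Lim0 g e c) (h : ∀ t, t ≠ 0 → f t = g t) :
    Lim0 f e c := by
  obtain ⟨p, hp, h'⟩ := hg
  exact ⟨p, hp, fun t ht => by rw [h t ht]; exact h' t ht⟩

theorem l_cast {f : ℂ → ℂ} {e e' : ℕ} {c c' : ℂ} (hf : Lim0 f e c) (he : e = e') (hc : c = c') :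
    Lim0 f e' c' := by
  subst he; subst hc; exact hf

theorem l_const (c : ℂ) : Lim0 (fun _ => c) 0 c :=
  ⟨C c, by simp, fun t _ => by simp⟩

theorem l_add {f g : ℂ → ℂ} {e : ℕ} {c d : ℂ} (hf : Lim0 f e c) (hg : Lim0 g e d) :
    Lim0 (fun t => f t + g t) e (c + d) := by
  obtain ⟨p, hp, h1⟩ := hf
  obtain ⟨r, hr, h2⟩ := hg
  refine ⟨p + r, by rw [eval_add, hp, hr], fun t ht => ?_⟩
  rw [eval_add, add_mul, h1 t ht, h2 t ht]

theorem l_mul {f g : ℂ → ℂ} {e e' : ℕ} {c d : ℂ} (hf : Lim0 f e c) (hg : Lim0 g e' d) :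
    Lim0 (fun t => f t * g t) (e + e') (c * d) := by
  obtain ⟨p, hp, h1⟩ := hf
  obtain ⟨r, hr, h2⟩ := hg
  refine ⟨p * r, by rw [eval_mul, hp, hr], fun t ht => ?_⟩
  rw [eval_mul, ← h1 t ht, ← h2 t ht, pow_add]
  ring

theorem l_cmul {f : ℂ → ℂ} {e : ℕ} {c : ℂ} (d : ℂ) (hf : Lim0 f e c) :
    Lim0 (fun t => d * f t) e (d * c) :=
  l_cast (l_mul (l_const d) hf) (zero_add _) rfl

theorem l_mulc {f : ℂ → ℂ} {e : ℕ} {c : ℂ} (d : ℂ) (hf : Lim0 f e c) :
    Lim0 (fun t => f t * d) e (c * d) :=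
  l_cast (l_mul hf (l_const d)) (add_zero _) rfl

theorem l_divc {f : ℂ → ℂ} {e : ℕ} {c : ℂ} (d : ℂ) (hf : Lim0 f e c) :
    Lim0 (fun t => f t / d) e (c / d) := by
  simp only [div_eq_mul_inv]
  exact l_mulc _ hf

theorem l_neg {f : ℂ → ℂ} {e : ℕ} {c : ℂ} (hf : Lim0 f e c) : Lim0 (fun t => - f t) e (- c) :=
  l_cast (l_congr (l_cmul (-1) hf) fun t _ => by ring) rfl (by ring)

theorem l_sub {f g : ℂ → ℂ} {e : ℕ} {c d : ℂ} (hf : Lim0 f e c) (hg : Lim0 g e d) :
    Lim0 (fun t => f t - g t) e (c - d) := by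
  simp only [sub_eq_add_neg]
  exact l_add hf (l_neg hg)

theorem l_zero (e : ℕ) : Lim0 (fun _ => 0) e 0 := ⟨0, by simp, fun t _ => by simp⟩

theorem l_sum {ι : Type} (s : Finset ι) {f : ι → ℂ → ℂ} {e : ℕ} {c : ι → ℂ}
    (h : ∀ i ∈ s, Lim0 (f i) e (c i)) : Lim0 (fun t => ∑ i ∈ s, f i t) e (∑ i ∈ s, c i) := by
  classical
  induction s using Finset.induction_on with
  | empty => simpa using l_zero e
  | insert i s hi ih =>
    simp only [Finset.sum_insert hi]
    exact l_add (h i (Finset.mem_insert_self i s))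
      (ih fun j hj => h j (Finset.mem_insert_of_mem hj))

/-- uniqueness for the zero function -/
theorem l_uniq0 {f : ℂ → ℂ} {e : ℕ} {c : ℂ} (hf : Lim0 f e c) (h : ∀ t, t ≠ 0 → f t = 0) :
    c = 0 := by
  obtain ⟨p, hp, h1⟩ := hf
  have hp0 : p = 0 := by
    refine Polynomial.eq_zero_of_infinite_isRoot p ?_
    refine Set.Infinite.mono (s := {t : ℂ | t ≠ 0}) ?_ ?_
    · intro t ht
      have := h1 t ht
      rw [h t ht, zero_mul] at this
      exact this.symm
    · exact Set.Finite.infinite_compl (Set.finite_singleton (0:ℂ))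
  rw [← hp, hp0, eval_zero]

/-! ### the terms of the formula -/

theorem hx0 {ι : Type} {x : ι → ℂ} (hx : Gen x) : ∀ i, x i ≠ 0 := fun i => (hx.1 i).1

theorem lim_zs (hzs : S3_zs) (L : List ℂ) (hL : Odd L.length) (zL : NZ L) (P : List ℂ)
    (R : List ℂ) (hPR : P ++ R = L) {e : ℕ} (he : e = (L.length - 1)/2) :
    Lim0 (fun t => zs (P ++ t :: R)) e (zo L) := by
  subst he
  refine l_congr (hzs L hL zL) fun t _ => ?_
  refine Pool.Agent.NH38.Step.zs_perm ?_ ?_
  · rw [List.length_append, List.length_cons, ← add_assoc, ← List.length_append, hPR]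
    exact hL.add_one
  · rw [← hPR]
    exact List.perm_middle

theorem lim_zo (hzo : S3_zo) (L : List ℂ) (hL : Even L.length) (zL : NZ L) (P : List ℂ)
    (R : List ℂ) (hPR : P ++ R = L) {e : ℕ} (he : e = L.length/2) :
    Lim0 (fun t => zo (P ++ t :: R)) e (zs L) := by
  subst he
  refine l_congr (hzo L hL zL) fun t _ => ?_
  refine Pool.Agent.NH38.Fork.M4.zo_perm ?_ ?_
  · rw [List.length_append, List.length_cons, ← add_assoc, ← List.length_append, hPR]
    exact hL.add_one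
  · rw [← hPR]
    exact List.perm_middle

theorem lim_hF (hzs : S3_zs) (hzo : S3_zo) (heh : S3_eh) {ι : Type} {x : ι → ℂ} (hx : Gen x)
    (s : Finset ι) (A B : List ℂ) (w v : ℂ) (hA : Even A.length) (hB : Odd B.length) (zA : NZ A)
    (zB : NZ B) (hw : w ≠ 0) (hv : v ≠ 0) :
    Lim0 (fun t => hF x s (t :: A) B w v) (A.length + (B.length+1)/2 + s.card)
      (hF3 x s A B w v) := by
  unfold hF hF3 mm mm3
  have zX : NZ (s.toList.map x) := Pool.Agent.NH38.Fork.M7.NZ_map (hx0 hx) s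
  have zP : NZ (prF x s) := Pool.Agent.NH38.Fork.M7.NZ_prF (hx0 hx) s
  have hP : (prF x s).length = 2 * s.card := Pool.Agent.NH38.Step.prF_length x s
  obtain ⟨n, hn⟩ := hA
  obtain ⟨m, hm⟩ := hB
  refine l_sub ?_ ?_
  · have h1 := l_mulc (zo B) (hzo A ⟨n, hn⟩ zA)
    have h2 := lim_zs hzs (w :: v :: (A ++ (B ++ prF x s)))
      (by simp only [List.length_cons, List.length_append, hn, hm, hP]
          exact ⟨n + m + s.card + 1, by ring⟩)
      (Pool.Agent.NH38.Fork.M7.NZ_cons hw (Pool.Agent.NH38.Fork.M7.NZ_cons hv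
        (Pool.Agent.NH38.Fork.M7.NZ_app zA (Pool.Agent.NH38.Fork.M7.NZ_app zB zP)))) [w, v]
      (A ++ (B ++ prF x s)) rfl rfl
    refine l_cast (l_mul h1 h2) ?_ rfl
    simp only [List.length_cons, List.length_append, hn, hm, hP]
    omega
  · refine l_cast (heh A (s.toList.map x) B w v ⟨n, hn⟩ ⟨m, hm⟩ zA zX zB hw hv) ?_ rfl
    rw [List.length_map, Finset.length_toList]

theorem lim_cc {g : ℂ → ℂ → ℂ} {e : ℕ} {c : ℂ → ℂ} (w x : ℂ) (h1 : Lim0 (fun t => g t x) e (c x))
    (h2 : Lim0 (fun t => g t x⁻¹) e (c x⁻¹)) :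
    Lim0 (fun t => cc (g t) w x) e (cc c w x) := by
  unfold cc
  refine l_divc _ (l_cmul _ (l_sub (l_cmul _ h1) (l_cmul _ h2)))

end M

open M

open Classical in
theorem t3_M (hzs : S3_zs) (hzo : S3_zo) (heh : S3_eh) : S3_M := by
  intro ι x hx s A B w v hA hB zA zB hw hv
  have hx' := hx0 hx
  have hP : ∀ s : Finset ι, (prF x s).length = 2 * s.card :=
    fun s => Pool.Agent.NH38.Step.prF_length x s
  have zP : ∀ s : Finset ι, NZ (prF x s) := fun s => Pool.Agent.NH38.Fork.M7.NZ_prF hx' s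
  have zAB : NZ (A ++ B) := Pool.Agent.NH38.Fork.M7.NZ_app zA zB
  have zABs : ∀ s : Finset ι, NZ (A ++ (B ++ prF x s)) := fun s =>
    Pool.Agent.NH38.Fork.M7.NZ_app zA (Pool.Agent.NH38.Fork.M7.NZ_app zB (zP s))
  obtain ⟨n, hn⟩ := id hA
  obtain ⟨m, hm⟩ := id hB
  -- the formula of T1
  have key : ∀ t, t ≠ 0 → (om w - om v) * (∏ j ∈ s, (om v - om (x j))) * zs (t :: (A ++ B)) *
      FP1 x (hF x) s (t :: A) B w v = 0 := by
    intro t ht
    have zt : NZ (t :: A) := Pool.Agent.NH38.Fork.M7.NZ_cons ht zA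
    have ho : Odd (t :: A).length := by rw [List.length_cons]; exact hA.add_one
    have h1 := Pool.Agent.H966.T1.a_J x hx s (t :: A) B w v ho hB zt zB hw hv
    have h2 := Pool.Agent.H966.T1.a_M1 Pool.Agent.H966.T1.t1_permX Pool.Agent.H966.T1.t1_invX
      Pool.Agent.H966.T1.t1_node x hx s (t :: A) B w v ho hB zt zB hw hv
    rw [h2, mul_zero] at h1
    exact h1
  -- the limit
  have L1 : Lim0 (fun t => zs (t :: (A ++ B))) ((A.length + B.length - 1)/2) (zo (A ++ B)) :=
    l_cast (hzs (A ++ B) (by rw [List.length_append]; exact hA.add_odd hB) zAB)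
      (by rw [List.length_append]) rfl
  have L2 : Lim0 (fun t => zo (v :: (t :: A ++ B))) ((A.length + B.length + 1)/2)
      (zs (v :: (A ++ B))) := by
    refine lim_zo hzo (v :: (A ++ B)) ?_ (Pool.Agent.NH38.Fork.M7.NZ_cons hv zAB) [v] (A ++ B) rfl ?_
    · rw [List.length_cons, List.length_append]; exact (hA.add_odd hB).add_one
    · rw [List.length_cons, List.length_append]
  have L3 : Lim0 (fun t => zo (v :: (t :: A ++ (B ++ prF x s))))
      ((A.length + B.length + 1)/2 + s.card) (zs (v :: (A ++ (B ++ prF x s)))) := by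
    refine lim_zo hzo (v :: (A ++ (B ++ prF x s))) ?_
      (Pool.Agent.NH38.Fork.M7.NZ_cons hv (zABs s)) [v] (A ++ (B ++ prF x s)) rfl ?_
    · simp only [List.length_cons, List.length_append, hn, hm, hP]
      exact ⟨n + m + s.card + 1, by ring⟩
    · simp only [List.length_cons, List.length_append, hn, hm, hP]
      omega
  have L4 : ∀ i ∈ s, Lim0 (fun t => zo (w :: x i :: v :: (t :: A ++ (B ++ prF x (s.erase i)))))
      ((A.length + B.length + 1)/2 + s.card)
      (zs (w :: x i :: v :: (A ++ (B ++ prF x (s.erase i))))) := by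
    intro i hi
    have hc : (s.erase i).card + 1 = s.card := Finset.card_erase_add_one hi
    refine lim_zo hzo (w :: x i :: v :: (A ++ (B ++ prF x (s.erase i)))) ?_
      (Pool.Agent.NH38.Fork.M7.NZ_cons hw (Pool.Agent.NH38.Fork.M7.NZ_cons (hx' i)
        (Pool.Agent.NH38.Fork.M7.NZ_cons hv (zABs _)))) [w, x i, v]
      (A ++ (B ++ prF x (s.erase i))) rfl ?_
    · simp only [List.length_cons, List.length_append, hn, hm, hP]
      exact ⟨n + m + (s.erase i).card + 2, by ring⟩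
    · simp only [List.length_cons, List.length_append, hn, hm, hP]
      omega
  have LF : Lim0 (fun t => FP1 x (hF x) s (t :: A) B w v)
      (((A.length + B.length + 1)/2) + (A.length + (B.length+1)/2 + s.card))
      (FP3 x (hF3 x) s A B w v) := by
    unfold FP1 FP3
    refine l_add (l_sub ?_ ?_) (l_sum s fun i hi => ?_)
    · exact l_mul (l_cmul _ L2) (lim_hF hzs hzo heh hx s A B w v hA hB zA zB hw hv)
    · refine l_cast (l_mul (l_cmul _ L3) (lim_hF hzs hzo heh hx ∅ A B w v hA hB zA zB hw hv))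
        ?_ rfl
      rw [Finset.card_empty]
      omega
    · have h1 := lim_cc (g := fun t z => hF x ∅ (t :: A) B z v) (c := fun z => hF3 x ∅ A B z v)
        w (x i) (lim_hF hzs hzo heh hx ∅ A B (x i) v hA hB zA zB (hx' i) hv)
        (lim_hF hzs hzo heh hx ∅ A B (x i)⁻¹ v hA hB zA zB (inv_ne_zero (hx' i)) hv)
      refine l_cast (l_mul (l_cmul _ h1) (L4 i hi)) ?_ rfl
      rw [Finset.card_empty]
      omega
  exact l_uniq0 (l_mul (l_mul (l_const _) L1) LF) key

end Pool.Agent.H965.K3
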