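import Pool.Agent.H965.K3.Stubs
import Pool.Graph.R_seed8.H136R2.Cardy.One

/-!
Task K3 N: uniqueness of the polynomial of the thin slit (helper333).
-/

namespace Pool.Agent.H965.K3.N

open Polynomial
open Pool.Agent.H988R2.Perc (q q_spec q_cube)
open Pool.Agent.NH38.Fork (kap)
open Pool.Agent.H136R2.Cardy (part part_coeff part_natDegree part_sum comp_decomp Pade padeC van
  expand_zero isCoprime_X_sub_one_pow natDegree_reflect_le' eval_one_reflect up_coeff up_natDegree
  up_reflect P_eval_one c0_one)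

theorem rr {K : Type} [Semiring K] (N : ℕ) (f : K[X]) : reflect N (reflect N f) = f := by
  ext i; rw [coeff_reflect, coeff_reflect, revAt_invol]

theorem reflect_succ {K : Type} [Semiring K] (N : ℕ) (f : K[X]) (hf : f.natDegree ≤ N) :
    reflect (N+1) f = X * reflect N f := by
  ext i
  rw [coeff_reflect]
  rcases i with _ | i
  · rw [revAt_le (Nat.zero_le _), coeff_X_mul_zero, Nat.sub_zero,
      coeff_eq_zero_of_natDegree_lt (by omega)]
  · rw [coeff_X_mul, coeff_reflect]
    by_cases h : i ≤ N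
    · rw [revAt_le h, revAt_le (by omega)]
      congr 1; omega
    · rw [revAt_eq_self_of_lt (by omega), revAt_eq_self_of_lt (by omega),
        coeff_eq_zero_of_natDegree_lt (by omega), coeff_eq_zero_of_natDegree_lt (by omega)]

theorem reflect_X_sub_one_pow (k : ℕ) : reflect k ((X - 1 : ℂ[X])^k) = (1 - X)^k := by
  induction k with
  | zero => simp
  | succ k ih =>
    have h1 : (X - 1 : ℂ[X]).natDegree ≤ 1 := by compute_degree
    have hk : ((X - 1 : ℂ[X])^k).natDegree ≤ k :=
      natDegree_pow_le.trans (by have := Nat.mul_le_mul_left k h1; omega)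
    rw [pow_succ, reflect_mul _ _ hk h1, ih, pow_succ]
    congr 1
    rw [reflect_sub]
    have e1 : reflect 1 (X : ℂ[X]) = 1 := by
      have := reflect_C_mul_X_pow (R := ℂ) 1 1 (c := 1)
      rw [C_1, one_mul, one_mul, pow_one, revAt_le le_rfl] at this
      rw [this]; simp
    have e2 : reflect 1 (1 : ℂ[X]) = X := by
      have := reflect_C_mul_X_pow (R := ℂ) 1 0 (c := 1)
      rw [C_1, one_mul, one_mul, pow_zero, revAt_le (Nat.zero_le _)] at this
      rw [this]; simp
    rw [e1, e2]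

/-- the order at `1` of the reflection -/
theorem refl_dvd {k N : ℕ} {f : ℂ[X]} (hf : f.natDegree ≤ N) (hd : (X - 1)^k ∣ f) :
    (X - 1)^k ∣ reflect N f := by
  by_cases hf0 : f = 0
  · rw [hf0]; simp
  obtain ⟨g, hg⟩ := hd
  have hg0 : g ≠ 0 := by rintro rfl; exact hf0 (by rw [hg, mul_zero])
  have hX : (X - 1 : ℂ[X]) = X - C 1 := by rw [C_1]
  have hk : ((X - 1 : ℂ[X])^k).natDegree = k := by
    rw [hX, natDegree_pow, natDegree_X_sub_C, mul_one]
  have hk0 : ((X - 1 : ℂ[X])^k) ≠ 0 := by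
    rw [hX]; exact pow_ne_zero _ (X_sub_C_ne_zero 1)
  have hdeg : k + g.natDegree ≤ N := by
    rw [hg, natDegree_mul hk0 hg0, hk] at hf
    exact hf
  obtain ⟨M, rfl⟩ : ∃ M, N = k + M := ⟨N - k, by omega⟩
  rw [hg, reflect_mul _ _ hk.le (show g.natDegree ≤ M by omega), reflect_X_sub_one_pow]
  refine Dvd.dvd.mul_right ?_ _
  rw [show (1 - X : ℂ[X]) = -(X - 1) by ring, neg_pow]
  exact dvd_mul_left _ _

/-! ### The pair of exponent `2/3` -/

theorem kap_s (n : ℕ) : kap (n+1) = kap n * (((n:ℚ) + 4/3) / (n + 2/3)) := by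
  unfold kap; rw [Finset.prod_range_succ]

theorem kap_pos (n : ℕ) : 0 < kap n := by
  unfold kap
  exact Finset.prod_pos fun i _ => by positivity

theorem kap_lt (n : ℕ) : kap n < kap (n+1) := by
  rw [kap_s]
  have h := kap_pos n
  have h1 : 1 < ((n:ℚ) + 4/3) / (n + 2/3) := by
    rw [one_lt_div (by positivity)]; linarith
  nlinarith

theorem kap_ne (n : ℕ) : kap (n+2) - kap n ≠ 0 := by
  have h1 := kap_lt n
  have h2 := kap_lt (n+1)
  have : 0 < kap (n+2) - kap n := by
    rw [show n + 1 + 1 = n + 2 by ring] at h2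
    linarith
  exact this.ne'

theorem Ps_c0 (n : ℕ) : (H337CB.Ps n).coeff 0 = kap n := by
  have key : ∀ n, (H337CB.Ps n).coeff 0 = kap n ∧ (H337CB.Ps (n+1)).coeff 0 = kap (n+1) := by
    intro n
    induction n with
    | zero =>
      rw [H337CB.Ps_zero, zero_add, H337CB.Ps_one]
      refine ⟨by simp [kap], ?_⟩
      have e := kap_s 0
      rw [zero_add] at e
      rw [e]
      simp [kap]
      norm_num
    | succ n ih =>
      refine ⟨ih.2, ?_⟩
      have h := congrArg (eval 0) (H337CB.Ps_rec n)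
      simp only [eval_mul, eval_add, eval_sub, eval_X, eval_one, eval_natCast, eval_ofNat,
        eval_pow] at h
      simp only [← coeff_zero_eq_eval_zero] at h
      rw [ih.1, ih.2] at h
      have h3 : (3 * (n:ℚ) + 5) ≠ 0 := by positivity
      have e1 := kap_s n
      have e2 := kap_s (n+1)
      rw [show n + 1 + 1 = n + 2 by ring] at e2 ⊢
      apply mul_left_cancel₀ h3
      rw [h, e2, e1]
      push_cast
      field_simp
      ring
  exact (key n).1

theorem Ps_top (n : ℕ) : (H337CB.Ps n).coeff n = 1 := by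
  rw [← H337CB.reflect_P, coeff_reflect, revAt_le le_rfl, Nat.sub_self, coeff_zero_eq_eval_zero,
    H337CB.eval_zero_P]

theorem reflect_Ps (n : ℕ) : reflect n (H337CB.Ps n) = H337CB.P n := by
  rw [← H337CB.reflect_P, rr]

theorem sq_natDegree : ((X - 1 : ℚ[X])^2).natDegree ≤ 2 := by compute_degree

theorem sq_expand : (X - 1 : ℚ[X])^2 = X^2 - 2 * X + 1 := by ring

theorem sq_top : ((X - 1 : ℚ[X])^2).coeff 2 = 1 := by
  have h : (X - 1 : ℚ[X])^2 = X^2 - C 2 * X^1 + C 1 := by
    rw [pow_one, C_1, show (C (2:ℚ)) = (2:ℚ[X]) from map_ofNat C 2]; ring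
  rw [h, coeff_add, coeff_sub, coeff_X_pow, coeff_C_mul, coeff_X_pow, coeff_C]
  norm_num

theorem sq_zero : ((X - 1 : ℚ[X])^2).coeff 0 = 1 := by
  rw [coeff_zero_eq_eval_zero]; norm_num

theorem reflect_sq : reflect 2 ((X - 1 : ℚ[X])^2) = (X - 1)^2 := by
  have h : (X - 1 : ℚ[X])^2 = C 1 * X^2 - C 2 * X^1 + C 1 * X^0 := by
    rw [pow_one, pow_zero, C_1, show (C (2:ℚ)) = (2:ℚ[X]) from map_ofNat C 2]; ring
  rw [h, reflect_add, reflect_sub, reflect_C_mul_X_pow, reflect_C_mul_X_pow, reflect_C_mul_X_pow,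
    revAt_le (by norm_num), revAt_le (by norm_num), revAt_le (by norm_num)]
  norm_num
  ring

/-- the numerator -/
noncomputable def Dn (n : ℕ) : ℚ[X] := H337CB.Ps (n+2) - (X - 1)^2 * H337CB.Ps n

theorem Dn_natDegree (n : ℕ) : (Dn n).natDegree ≤ n + 1 := by
  have h1 : (Dn n).natDegree ≤ n + 2 := by
    unfold Dn
    refine (natDegree_sub_le _ _).trans (max_le (H337CB.natDegree_Ps_le _) ?_)
    refine natDegree_mul_le.trans ?_
    have := sq_natDegree
    have := H337CB.natDegree_Ps_le n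
    omega
  have h2 : (Dn n).coeff (n+2) = 0 := by
    unfold Dn
    rw [coeff_sub, Ps_top, show n + 2 = 2 + n by ring,
      coeff_mul_add_eq_of_natDegree_le sq_natDegree (H337CB.natDegree_Ps_le n), sq_top, Ps_top]
    norm_num
  rw [natDegree_le_iff_coeff_eq_zero]
  intro i hi
  rcases Nat.lt_or_ge (n+2) i with h | h
  · exact coeff_eq_zero_of_natDegree_lt (by omega)
  · have : i = n + 2 := by omega
    rw [this, h2]

theorem Dn_reflect (n : ℕ) : X * reflect (n+1) (Dn n) =
    H337CB.P (n+2) - (X - 1)^2 * H337CB.P n := by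
  rw [← reflect_succ _ _ (Dn_natDegree n)]
  unfold Dn
  rw [reflect_sub, show n + 1 + 1 = n + 2 by ring, reflect_Ps]
  congr 1
  rw [show n + 2 = 2 + n by ring, reflect_mul _ _ sq_natDegree (H337CB.natDegree_Ps_le n),
    reflect_sq, reflect_Ps]

theorem Rp_succ (n : ℕ) : Rp (n+1) = C (1 / (kap (n+2) - kap n)) * Dn n := rfl

/-- `(R, Rs)` is the pair of exponent `2/3` -/
structure PadeR (m : ℕ) (R Rs : ℂ[X]) : Prop where
  degP : R.natDegree ≤ m
  refl : Rs = reflect m R
  c0 : R.coeff 0 = 1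
  e1 : R.eval 1 ≠ 0
  dvd : (X - 1)^(2*m+1) ∣ expand ℂ 3 R - X^2 * expand ℂ 3 Rs

theorem upC_up (f : ℚ[X]) : upC f = Pool.Agent.H136R2.Cardy.up f := rfl

theorem padeR (m : ℕ) : PadeR m (upC (Rp m)) (upC (Rps m)) := by
  rcases m with _ | n
  · have e1 : upC (Rp 0) = 1 := by unfold upC Rp; simp
    have e2 : upC (Rps 0) = 1 := by
      unfold Rps upC Rp
      rw [show reflect 0 (1 : ℚ[X]) = 1 by
        have := reflect_C_mul_X_pow (R := ℚ) 0 0 (c := 1)
        rw [C_1, one_mul, one_mul, pow_zero, revAt_le le_rfl] at this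
        rw [this]; simp]
      simp
    rw [e1, e2]
    refine ⟨by simp, ?_, by simp, by simp, ?_⟩
    · have := reflect_C_mul_X_pow (R := ℂ) 0 0 (c := 1)
      rw [C_1, one_mul, one_mul, pow_zero, revAt_le le_rfl] at this
      rw [this]; simp
    · rw [map_one]
      exact ⟨-(1 + X), by ring⟩
  · set α : ℚ := 1 / (kap (n+2) - kap n) with hα
    have hα0 : α ≠ 0 := one_div_ne_zero (kap_ne n)
    have hdeg : (Rp (n+1)).natDegree ≤ n + 1 := by
      rw [Rp_succ]; exact (natDegree_C_mul_le _ _).trans (Dn_natDegree n)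
    refine ⟨?_, ?_, ?_, ?_, ?_⟩
    · exact up_natDegree _ _ hdeg
    · exact up_reflect _ _
    · rw [upC_up, up_coeff, Rp_succ, coeff_C_mul]
      unfold Dn
      rw [coeff_sub, mul_coeff_zero, Ps_c0, Ps_c0, sq_zero, one_mul, one_div_mul_cancel (kap_ne n)]
      norm_num
    · unfold upC
      rw [← map_one (algebraMap ℚ ℂ), eval_map_apply, Rp_succ]
      have h1 : (Dn n).eval 1 = (H337CB.P (n+2)).eval 1 := by
        unfold Dn
        rw [eval_sub, eval_mul, eval_pow, eval_sub, eval_X, eval_one, sub_self, H337CB.eval_one_eq]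
        ring
      rw [eval_mul, eval_C, h1]
      have h2 := P_eval_one (n+2)
      have h3 : α * (H337CB.P (n+2)).eval 1 ≠ 0 := mul_ne_zero hα0 h2.ne'
      exact fun h => h3 ((map_eq_zero _).1 h)
    · have hX : IsCoprime ((X - 1 : ℂ[X])^(2*(n+1)+1)) X := isCoprime_X_sub_one_pow (by simp)
      apply hX.dvd_of_dvd_mul_left
      have hd1 := (padeC (n+2)).dvd
      have hd2 := (padeC n).dvd
      have eR : upC (Rp (n+1)) = C (α : ℂ) * (Pool.Agent.H136R2.Cardy.up (H337CB.Ps (n+2)) -
          (X - 1)^2 * Pool.Agent.H136R2.Cardy.up (H337CB.Ps n)) := by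
        rw [Rp_succ, ← hα]
        unfold upC Pool.Agent.H136R2.Cardy.up Dn
        simp only [Polynomial.map_mul, Polynomial.map_C, Polynomial.map_sub, Polynomial.map_pow,
          Polynomial.map_X, Polynomial.map_one, eq_ratCast]
      have eRs : X * upC (Rps (n+1)) = C (α : ℂ) * (Pool.Agent.H136R2.Cardy.up (H337CB.P (n+2)) -
          (X - 1)^2 * Pool.Agent.H136R2.Cardy.up (H337CB.P n)) := by
        have h1 : X * Rps (n+1) = C α * (H337CB.P (n+2) - (X - 1)^2 * H337CB.P n) := by
          unfold Rps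
          rw [Rp_succ, reflect_C_mul, mul_left_comm, Dn_reflect]
        have h2 := congrArg upC h1
        unfold upC at h2 ⊢
        unfold Pool.Agent.H136R2.Cardy.up
        simpa using h2
      have eRs3 := congrArg (expand ℂ 3) eRs
      rw [map_mul, expand_X] at eRs3
      rw [mul_sub, show X * (X^2 * expand ℂ 3 (upC (Rps (n+1)))) =
        X^3 * expand ℂ 3 (upC (Rps (n+1))) by ring, eRs3, eR]
      simp only [map_mul, map_sub, map_pow, expand_C, expand_X, map_one]
      generalize expand ℂ 3 (Pool.Agent.H136R2.Cardy.up (H337CB.P (n+2))) = p2 at *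
      generalize expand ℂ 3 (Pool.Agent.H136R2.Cardy.up (H337CB.Ps (n+2))) = s2 at *
      generalize expand ℂ 3 (Pool.Agent.H136R2.Cardy.up (H337CB.P n)) = p0 at *
      generalize expand ℂ 3 (Pool.Agent.H136R2.Cardy.up (H337CB.Ps n)) = s0 at *
      rw [show X * (C (α : ℂ) * (s2 - (X^3 - 1)^2 * s0)) - C (α : ℂ) * (p2 - (X^3 - 1)^2 * p0) =
        C (α : ℂ) * (-(p2 - X * s2) + ((X - 1)^2 * (p0 - X * s0)) * (X^2 + X + 1)^2) by ring]
      refine Dvd.dvd.mul_left (dvd_add (dvd_neg.2 ?_) (Dvd.dvd.mul_right ?_ _)) _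
      · exact (pow_dvd_pow _ (by omega)).trans hd1
      · rw [show 2*(n+1)+1 = 2 + (2*n+1) by ring, pow_add]
        exact mul_dvd_mul_left _ hd2

namespace PadeR

variable {m : ℕ} {P Q : ℂ[X]}

theorem degQ (h : PadeR m P Q) : Q.natDegree ≤ m := by
  rw [h.refl]; exact natDegree_reflect_le' m P h.degP

theorem refl' (h : PadeR m P Q) : reflect m Q = P := by rw [h.refl, rr]

theorem topQ (h : PadeR m P Q) : Q.coeff m = 1 := by
  rw [h.refl, coeff_reflect, revAt_le le_rfl, Nat.sub_self, h.c0]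

theorem natDegQ (h : PadeR m P Q) : Q.natDegree = m :=
  le_antisymm h.degQ (le_natDegree_of_ne_zero (by rw [h.topQ]; exact one_ne_zero))

theorem Qe1 (h : PadeR m P Q) : Q.eval 1 ≠ 0 := by
  rw [h.refl, eval_one_reflect m P h.degP]; exact h.e1

theorem Qne (h : PadeR m P Q) : Q ≠ 0 := by
  intro h0; exact h.Qe1 (by rw [h0]; simp)

theorem Pne (h : PadeR m P Q) : P ≠ 0 := by
  intro h0; exact h.e1 (by rw [h0]; simp)

theorem coprime (h : PadeR m P Q) : IsCoprime P Q := by
  rw [Polynomial.isCoprime_iff_aeval_ne_zero_of_isAlgClosed (k := ℂ) (K := ℂ)]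
  intro r
  by_contra hcon
  push Not at hcon
  obtain ⟨h1, h2⟩ := hcon
  rw [coe_aeval_eq_eval] at h1 h2
  obtain ⟨P', hP'⟩ := dvd_iff_isRoot.mpr (show P.IsRoot r from h1)
  obtain ⟨Q', hQ'⟩ := dvd_iff_isRoot.mpr (show Q.IsRoot r from h2)
  have hr : (1 : ℂ) - r ≠ 0 := by
    intro h3
    apply h.e1
    rw [hP', eval_mul]; simp [h3]
  have hPd : P'.natDegree + 1 ≤ m := by
    have hne : P' ≠ 0 := by rintro rfl; exact h.Pne (by rw [hP', mul_zero])
    have := h.degP
    rw [hP', natDegree_mul (X_sub_C_ne_zero r) hne, natDegree_X_sub_C] at this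
    omega
  have hQd : Q'.natDegree + 1 ≤ m := by
    have hne : Q' ≠ 0 := by rintro rfl; exact h.Qne (by rw [hQ', mul_zero])
    have := h.degQ
    rw [hQ', natDegree_mul (X_sub_C_ne_zero r) hne, natDegree_X_sub_C] at this
    omega
  have hd : (X - 1)^(2*m+1) ∣ expand ℂ 3 P' - X^2 * expand ℂ 3 Q' := by
    have h3 := h.dvd
    rw [hP', hQ', map_mul, map_mul,
      show expand ℂ 3 (X - C r) * expand ℂ 3 P' - X^2 * (expand ℂ 3 (X - C r) * expand ℂ 3 Q')
        = expand ℂ 3 (X - C r) * (expand ℂ 3 P' - X^2 * expand ℂ 3 Q') by ring] at h3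
    refine (isCoprime_X_sub_one_pow ?_).dvd_of_dvd_mul_left h3
    rw [expand_eval]; simpa using hr
  have h0 : expand ℂ 3 P' - X^2 * expand ℂ 3 Q' = 0 := by
    apply van ((Finset.range m).image (fun i => 3 * i) ∪ (Finset.range m).image (fun i => 3 * i + 2))
      _ _ hd
    · intro j hj
      rw [Finset.mem_union, Finset.mem_image, Finset.mem_image]
      rw [coeff_sub] at hj
      by_cases hc : (expand ℂ 3 P').coeff j = 0
      · right
        rw [hc, zero_sub, neg_ne_zero] at hj
        rcases j with _ | _ | j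
        · exfalso; apply hj; rw [mul_coeff_zero]; simp
        · exfalso; apply hj; rw [pow_two, mul_assoc, coeff_X_mul, mul_coeff_zero]; simp
        · rw [show j + 1 + 1 = j + 2 by ring, coeff_X_pow_mul, coeff_expand (by norm_num)] at hj
          split_ifs at hj with h3
          · refine ⟨j/3, ?_, by omega⟩
            rw [Finset.mem_range]
            have := le_natDegree_of_ne_zero hj
            omega
          · exact absurd rfl hj
      · left
        rw [coeff_expand (by norm_num)] at hc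
        split_ifs at hc with h3
        · refine ⟨j/3, ?_, by omega⟩
          rw [Finset.mem_range]
          have := le_natDegree_of_ne_zero hc
          omega
        · exact absurd rfl hc
    · refine (Finset.card_union_le _ _).trans ?_
      have h1 : ((Finset.range m).image (fun i => 3 * i)).card ≤ m :=
        Finset.card_image_le.trans (by simp)
      have h2 : ((Finset.range m).image (fun i => 3 * i + 2)).card ≤ m :=
        Finset.card_image_le.trans (by simp)
      omega
  have hP0 : P' = 0 := by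
    ext i
    have h4 := congrArg (fun f => f.coeff (3*i)) h0
    simp only [coeff_sub, coeff_zero] at h4
    rw [coeff_expand_mul' (by norm_num)] at h4
    have h5 : (X^2 * expand ℂ 3 Q').coeff (3*i) = 0 := by
      rcases i with _ | i
      · rw [mul_zero, mul_coeff_zero]; simp
      · rw [show 3 * (i+1) = (3*i+1) + 2 by ring, coeff_X_pow_mul, coeff_expand (by norm_num),
          if_neg]
        omega
    rw [h5, sub_zero] at h4
    simpa using h4
  exact h.Pne (by rw [hP', hP0, mul_zero])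

end PadeR

/-- the uniqueness theorem -/
theorem uniq {a b : ℕ} {R Rs P Ps U Ur N1 N2 : ℂ[X]}
    (ha : PadeR a R Rs) (hb : Pade b P Ps) (hU : U.natDegree ≤ a + b)
    (hUr : Ur = reflect (a+b+1) U) (hN2 : N2.natDegree ≤ a + b)
    (hN1 : N1 = reflect (a+b) N2)
    (h1 : (X - 1)^(2*a+1) ∣ expand ℂ 3 U + X^2 * expand ℂ 3 N2)
    (h1' : (X - 1)^(2*a+1) ∣ expand ℂ 3 Ur + X * expand ℂ 3 N1)
    (h2 : (X - 1)^(2*b+1) ∣ expand ℂ 3 U + X * expand ℂ 3 N1)
    (h3 : (X - 1)^(2*(a+b)+2) ∣ expand ℂ 3 U + expand ℂ 3 Ur + X * expand ℂ 3 N1 +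
      X^2 * expand ℂ 3 N2) :
    ∃ c : ℂ, U = C c * (R * P) ∧ N1 = - (C c * (R * Ps)) ∧ N2 = - (C c * (Rs * P)) := by
  classical
  have hXa : IsCoprime ((X - 1 : ℂ[X])^(2*a+1)) X := isCoprime_X_sub_one_pow (by simp)
  have hN1d : N1.natDegree ≤ a + b := by rw [hN1]; exact natDegree_reflect_le' _ _ hN2
  have hUrd : Ur.natDegree ≤ a + b + 1 := by
    rw [hUr]; exact natDegree_reflect_le' _ _ (by omega)
  have hF : X * Ps * (U * Rs + N2 * R) + P * (Ur * R + X * N1 * Rs) = 0 := by
    apply expand_zero (k := 2*(a+b)+2)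
    · have e1 : (X * Ps * (U * Rs + N2 * R)).natDegree ≤ 2*(a+b)+1 := by
        have t1 : (U * Rs + N2 * R).natDegree ≤ a + b + a := by
          refine (natDegree_add_le _ _).trans (max_le ?_ ?_)
          · exact natDegree_mul_le.trans (add_le_add hU ha.degQ)
          · exact natDegree_mul_le.trans (add_le_add hN2 ha.degP)
        have t2 : (X * Ps).natDegree ≤ 1 + b :=
          natDegree_mul_le.trans (add_le_add natDegree_X_le hb.degQ)
        exact natDegree_mul_le.trans (by omega)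
      have e2 : (P * (Ur * R + X * N1 * Rs)).natDegree ≤ 2*(a+b)+1 := by
        have t1 : (Ur * R + X * N1 * Rs).natDegree ≤ a + b + 1 + a := by
          refine (natDegree_add_le _ _).trans (max_le ?_ ?_)
          · exact natDegree_mul_le.trans (add_le_add hUrd ha.degP)
          · refine natDegree_mul_le.trans (add_le_add ?_ ha.degQ)
            refine natDegree_mul_le.trans ?_
            have := natDegree_X_le (R := ℂ)
            omega
        have := hb.degP
        exact natDegree_mul_le.trans (by omega)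
      have := natDegree_add_le (X * Ps * (U * Rs + N2 * R)) (P * (Ur * R + X * N1 * Rs))
      omega
    · simp only [map_add, map_mul, expand_X]
      have hda := ha.dvd
      have hdb := hb.dvd
      generalize expand ℂ 3 U = u at *
      generalize expand ℂ 3 Ur = ur at *
      generalize expand ℂ 3 N1 = n1 at *
      generalize expand ℂ 3 N2 = n2 at *
      generalize expand ℂ 3 R = r at *
      generalize expand ℂ 3 Rs = rs at *
      generalize expand ℂ 3 P = p at *
      generalize expand ℂ 3 Ps = ps at *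
      have key : X^3 * ps * (u * rs + n2 * r) + p * (ur * r + X^3 * n1 * rs) =
          (ur + X * n1) * (p - X * ps) * r
          - (r - X^2 * rs) * (u + X * n1) * p
          + (r - X^2 * rs) * (p - X * ps) * u
          + (u + ur + X * n1 + X^2 * n2) * (X * ps * r) := by ring
      rw [key]
      have t1 : (X - 1 : ℂ[X])^(2*(a+b)+2) ∣ (ur + X * n1) * (p - X * ps) := by
        rw [show 2*(a+b)+2 = (2*a+1) + (2*b+1) by ring, pow_add]; exact mul_dvd_mul h1' hdb
      have t2 : (X - 1 : ℂ[X])^(2*(a+b)+2) ∣ (r - X^2 * rs) * (u + X * n1) := by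
        rw [show 2*(a+b)+2 = (2*a+1) + (2*b+1) by ring, pow_add]; exact mul_dvd_mul hda h2
      have t3 : (X - 1 : ℂ[X])^(2*(a+b)+2) ∣ (r - X^2 * rs) * (p - X * ps) := by
        rw [show 2*(a+b)+2 = (2*a+1) + (2*b+1) by ring, pow_add]; exact mul_dvd_mul hda hdb
      exact dvd_add (dvd_add (dvd_sub (t1.mul_right _) (t2.mul_right _)) (t3.mul_right _))
        (h3.mul_right _)
  have hPX : IsCoprime P X := by
    rw [isCoprime_comm, irreducible_X.coprime_iff_not_dvd, X_dvd_iff]
    exact hb.c0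
  obtain ⟨Y, hY⟩ : P ∣ U * Rs + N2 * R := by
    refine (hPX.mul_right hb.coprime).dvd_of_dvd_mul_left ⟨-(Ur * R + X * N1 * Rs), ?_⟩
    linear_combination hF
  have hY0 : Y = 0 := by
    by_contra hYne
    have hV : Ur * R + X * N1 * Rs = - (X * Ps * Y) := by
      apply mul_left_cancel₀ hb.Pne
      linear_combination hF - X * Ps * hY
    have hdegV : (X * Ps * Y).natDegree ≤ a + b + 1 + a := by
      rw [← natDegree_neg, ← hV]
      refine (natDegree_add_le _ _).trans (max_le ?_ ?_)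
      · exact natDegree_mul_le.trans (add_le_add hUrd ha.degP)
      · refine natDegree_mul_le.trans (add_le_add ?_ ha.degQ)
        refine natDegree_mul_le.trans ?_
        have := natDegree_X_le (R := ℂ)
        omega
    rw [natDegree_mul (mul_ne_zero X_ne_zero hb.Qne) hYne, natDegree_mul X_ne_zero hb.Qne,
      natDegree_X, hb.natDegQ] at hdegV
    apply hYne
    apply expand_zero (k := 2*a+1) (by omega)
    have hu : (X - 1 : ℂ[X])^(2*a+1) ∣ expand ℂ 3 P * expand ℂ 3 Y := by
      rw [← map_mul, ← hY]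
      apply (hXa.pow_right (n := 2)).dvd_of_dvd_mul_left
      simp only [map_add, map_mul]
      rw [show X^2 * (expand ℂ 3 U * expand ℂ 3 Rs + expand ℂ 3 N2 * expand ℂ 3 R) =
        (expand ℂ 3 U + X^2 * expand ℂ 3 N2) * expand ℂ 3 R -
        (expand ℂ 3 R - X^2 * expand ℂ 3 Rs) * expand ℂ 3 U by ring]
      exact dvd_sub (h1.mul_right _) (ha.dvd.mul_right _)
    refine (isCoprime_X_sub_one_pow ?_).dvd_of_dvd_mul_left hu
    rw [expand_eval, one_pow]; exact hb.e1
  rw [hY0, mul_zero] at hY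
  obtain ⟨Z, hZ⟩ : R ∣ U := by
    refine ha.coprime.dvd_of_dvd_mul_right ⟨-N2, ?_⟩
    linear_combination hY
  have hN2Z : N2 = - (Rs * Z) := by
    apply mul_right_cancel₀ ha.Pne
    rw [hZ] at hY
    linear_combination hY
  have hZd : Z.natDegree ≤ b := by
    by_cases hZ0 : Z = 0
    · rw [hZ0]; simp
    · rw [hN2Z, natDegree_neg, natDegree_mul ha.Qne hZ0, ha.natDegQ] at hN2
      omega
  set Zs := reflect b Z with hZs
  have hZsd : Zs.natDegree ≤ b := natDegree_reflect_le' _ _ hZd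
  have hN1Z : N1 = - (R * Zs) := by
    rw [hN1, hN2Z, reflect_neg, reflect_mul _ _ ha.degQ hZd, ha.refl']
  have hZ2 : (X - 1 : ℂ[X])^(2*b+1) ∣ expand ℂ 3 Z - X * expand ℂ 3 Zs := by
    have h4 := h2
    rw [hN1Z, hZ, map_neg, map_mul, map_mul, show expand ℂ 3 R * expand ℂ 3 Z +
      X * -(expand ℂ 3 R * expand ℂ 3 Zs) = expand ℂ 3 R *
      (expand ℂ 3 Z - X * expand ℂ 3 Zs) by ring] at h4
    refine (isCoprime_X_sub_one_pow ?_).dvd_of_dvd_mul_left h4
    rw [expand_eval, one_pow]; exact ha.e1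
  have hZ3 : Z * Ps - Zs * P = 0 := by
    apply expand_zero (k := 2*b+1)
    · have e1 : (Z * Ps).natDegree ≤ 2*b :=
        natDegree_mul_le.trans (by have := hb.degQ; omega)
      have e2 : (Zs * P).natDegree ≤ 2*b :=
        natDegree_mul_le.trans (by have := hb.degP; omega)
      have := natDegree_sub_le (Z * Ps) (Zs * P)
      omega
    · simp only [map_sub, map_mul]
      rw [show expand ℂ 3 Z * expand ℂ 3 Ps - expand ℂ 3 Zs * expand ℂ 3 P =
        (expand ℂ 3 Z - X * expand ℂ 3 Zs) * expand ℂ 3 Ps -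
        (expand ℂ 3 P - X * expand ℂ 3 Ps) * expand ℂ 3 Zs by ring]
      exact dvd_sub (hZ2.mul_right _) (hb.dvd.mul_right _)
  obtain ⟨Y', hY'⟩ : P ∣ Z := by
    refine hb.coprime.dvd_of_dvd_mul_right ⟨Zs, ?_⟩
    linear_combination hZ3
  have hZsY : Zs = Ps * Y' := by
    apply mul_right_cancel₀ hb.Pne
    rw [hY'] at hZ3
    linear_combination -hZ3
  have hY'd : Y'.natDegree = 0 := by
    by_cases hY0 : Y' = 0
    · rw [hY0]; simp
    · rw [hZsY, natDegree_mul hb.Qne hY0, hb.natDegQ] at hZsd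
      omega
  obtain ⟨c, hc⟩ := natDegree_eq_zero.mp hY'd
  refine ⟨c, ?_, ?_, ?_⟩
  · rw [hZ, hY', ← hc]; ring
  · rw [hN1Z, hZsY, ← hc]; ring
  · rw [hN2Z, hY', ← hc]; ring

/-! ### Reflections of the parts -/

theorem reflect_expand3 (M : ℕ) (g : ℂ[X]) :
    reflect (3*M) (expand ℂ 3 g) = expand ℂ 3 (reflect M g) := by
  ext k
  rw [coeff_reflect, coeff_expand (by norm_num), coeff_expand (by norm_num)]
  by_cases hk : k ≤ 3*M
  · rw [revAt_le hk]
    by_cases h3 : 3 ∣ k
    · rw [if_pos h3, if_pos (by omega), coeff_reflect, revAt_le (by omega)]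
      congr 1; omega
    · rw [if_neg h3, if_neg (by omega)]
  · rw [revAt_eq_self_of_lt (by omega)]
    by_cases h3 : 3 ∣ k
    · rw [if_pos h3, if_pos h3, coeff_reflect, revAt_eq_self_of_lt (by omega)]
    · rw [if_neg h3, if_neg h3]

theorem reflect_X_sq : reflect 2 (X^2 : ℂ[X]) = 1 := by
  have := reflect_C_mul_X_pow (R := ℂ) 2 2 (c := 1)
  rw [C_1, one_mul, one_mul, revAt_le le_rfl] at this
  rw [this]; simp

theorem part_top {n : ℕ} {p : ℂ[X]} (hp : p.natDegree ≤ 6*n) (hn : 1 ≤ n) {j : ℕ} (hj : 1 ≤ j)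
    (hj2 : j ≤ 2) : (part n j p).natDegree ≤ 2*n - 1 := by
  rw [natDegree_le_iff_coeff_eq_zero]
  intro i hi
  rw [part_coeff]
  split_ifs with h
  · exact coeff_eq_zero_of_natDegree_lt (by omega)
  · rfl

theorem part_refl0 {n : ℕ} (p : ℂ[X]) :
    part n 0 (reflect (6*n) p) = reflect (2*n) (part n 0 p) := by
  ext i
  rw [part_coeff, coeff_reflect, coeff_reflect, part_coeff]
  by_cases h : i < 2*n+1
  · rw [if_pos h, revAt_le (show 3*i+0 ≤ 6*n by omega), revAt_le (show i ≤ 2*n by omega),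
      if_pos (by omega)]
    congr 1; omega
  · rw [if_neg h, revAt_eq_self_of_lt (show 2*n < i by omega), if_neg h]

theorem part_refl {n : ℕ} {p : ℂ[X]} (hp : p.natDegree ≤ 6*n) (hn : 1 ≤ n) {j : ℕ} (hj : 1 ≤ j)
    (hj2 : j ≤ 2) : part n j (reflect (6*n) p) = reflect (2*n-1) (part n (3-j) p) := by
  ext i
  rw [part_coeff, coeff_reflect, coeff_reflect, part_coeff]
  by_cases h : i < 2*n
  · rw [if_pos (by omega), revAt_le (show 3*i+j ≤ 6*n by omega),
      revAt_le (show i ≤ 2*n-1 by omega), if_pos (by omega)]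
    congr 1; omega
  · by_cases h2 : i = 2*n
    · rw [if_pos (by omega), revAt_eq_self_of_lt (show 6*n < 3*i+j by omega),
        revAt_eq_self_of_lt (show 2*n-1 < i by omega), if_pos (by omega),
        coeff_eq_zero_of_natDegree_lt (show p.natDegree < 3*i+j by omega),
        coeff_eq_zero_of_natDegree_lt (show p.natDegree < 3*i+(3-j) by omega)]
    · rw [if_neg (by omega), revAt_eq_self_of_lt (show 2*n-1 < i by omega), if_neg (by omega)]

end Pool.Agent.H965.K3.N

namespace Pool.Agent.H965.K3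

open Polynomial
open Pool.Agent.H988R2.Perc (q q_spec q_cube)
open Pool.Agent.H136R2.Cardy (part part_coeff part_natDegree part_sum comp_decomp Pade padeC
  natDegree_reflect_le' c0_one)
open N

theorem t3_NM : S3_NM := by
  intro a b n κ p _ hb hab hp hp0 hp1 hpd hA hB
  have hn : 1 ≤ n := by obtain ⟨k, rfl⟩ := hb; omega
  have hab' : a + b = 2*n - 1 := by omega
  have hab1 : a + b + 1 = 2*n := hab
  have hq : q^2 + q + 1 = 0 := q_spec
  have hq3 : q^3 = 1 := q_cube
  have hq23 : (q^2)^3 = 1 := by rw [← pow_mul, show 2*3 = 3*2 by rfl, pow_mul, hq3, one_pow]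
  have hη : q - q^2 ≠ 0 := by
    intro h
    have h1 : q^2 = q := (sub_eq_zero.mp h).symm
    rw [h1] at hq
    have h2 : q = -1/2 := by linear_combination hq/2
    rw [h2] at h1; norm_num at h1
  set ps := reflect (6*n) p with hps
  have hpsd : ps.natDegree ≤ 6*n := natDegree_reflect_le' _ _ hp
  have hpsdv : (X - 1)^(2*(a+b)+2) ∣ ps := refl_dvd hp hpd
  have d1 := part_sum n p (by omega)
  have d2 := part_sum n ps (by omega)
  have r0 : part n 0 ps = reflect (2*n) (part n 0 p) := part_refl0 p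
  have r1 : part n 1 ps = reflect (2*n-1) (part n 2 p) := part_refl hp hn le_rfl (by norm_num)
  have r2 : part n 2 ps = reflect (2*n-1) (part n 1 p) := part_refl hp hn (by norm_num) le_rfl
  rw [r0, r1, r2] at d2
  have hd0 : (part n 0 p).natDegree ≤ 2*n := part_natDegree _ _ _
  have hd1 : (part n 1 p).natDegree ≤ 2*n - 1 := part_top hp hn le_rfl (by norm_num)
  have hd2 : (part n 2 p).natDegree ≤ 2*n - 1 := part_top hp hn (by norm_num) le_rfl
  have hx00 : (part n 0 p).coeff 0 = q * κ := by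
    rw [part_coeff, if_pos (by omega)]; exact hp0
  have hx0n : (part n 0 p).coeff (2*n) = -q^2 * κ := by
    rw [part_coeff, if_pos (by omega), ← hp1]; congr 1; ring
  set p0 := part n 0 p with hp0'
  set p1 := part n 1 p with hp1'
  set p2 := part n 2 p with hp2'
  -- the quantities
  set η : ℂ := (q - q^2)⁻¹ with hηd
  have hηη : η * (q - q^2) = 1 := inv_mul_cancel₀ hη
  set U : ℂ[X] := C (η * (1 - q^2)) * p0 - C (η * (1 - q)) * reflect (2*n) p0 with hU
  set N1 : ℂ[X] := p1 + reflect (2*n-1) p2 with hN1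
  set N2 : ℂ[X] := p2 + reflect (2*n-1) p1 with hN2
  have hUr : reflect (2*n) U = C (η * (1 - q^2)) * reflect (2*n) p0 - C (η * (1 - q)) * p0 := by
    rw [hU, reflect_sub, reflect_C_mul, reflect_C_mul, rr]
  have hN1r : N1 = reflect (a+b) N2 := by
    rw [hab', hN2, reflect_add, rr, hN1]; ring
  have hN2r : N2 = reflect (a+b) N1 := by
    rw [hN1r, rr]
  have hN2d : N2.natDegree ≤ a + b := by
    rw [hab']
    exact (natDegree_add_le _ _).trans (max_le hd2 (natDegree_reflect_le' _ _ hd1))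
  have hU0 : U.coeff 0 = (q - q^2) * κ := by
    rw [hU, coeff_sub, coeff_C_mul, coeff_C_mul, coeff_reflect, revAt_le (Nat.zero_le _),
      Nat.sub_zero, hx00, hx0n]
    apply mul_left_cancel₀ hη
    linear_combination ((1 - q^2) * (q * κ) - (1 - q) * (-q^2*κ)) * hηη - κ * q * hq3
  have hUtop : U.coeff (2*n) = 0 := by
    rw [hU, coeff_sub, coeff_C_mul, coeff_C_mul, coeff_reflect, revAt_le le_rfl,
      Nat.sub_self, hx00, hx0n]
    have : η * (1 - q ^ 2) * (-q ^ 2 * κ) - η * (1 - q) * (q * κ) = η * κ * (q * (q^3 - 1)) := by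
      ring
    rw [this, hq3]; ring
  have hUd : U.natDegree ≤ a + b := by
    have h1 : U.natDegree ≤ 2*n := by
      rw [hU]
      refine (natDegree_sub_le _ _).trans (max_le ?_ ?_)
      · exact (natDegree_C_mul_le _ _).trans hd0
      · exact (natDegree_C_mul_le _ _).trans (natDegree_reflect_le' _ _ hd0)
    rw [natDegree_le_iff_coeff_eq_zero]
    intro i hi
    rcases Nat.lt_or_ge (2*n) i with h | h
    · exact coeff_eq_zero_of_natDegree_lt (by omega)
    · have : i = 2*n := by omega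
      rw [this, hUtop]
  -- expanded forms
  have eA : dA3 (6*n) p = (expand ℂ 3 p0 + C (q^2) * (X * expand ℂ 3 p1) +
      C ((q^2)^2) * (X^2 * expand ℂ 3 p2)) - (expand ℂ 3 (reflect (2*n) p0) +
      C q * (X * expand ℂ 3 (reflect (2*n-1) p2)) +
      C (q^2) * (X^2 * expand ℂ 3 (reflect (2*n-1) p1))) := by
    unfold dA3
    rw [← hps]
    conv_lhs => rw [d1, d2]
    rw [comp_decomp _ hq23, comp_decomp _ hq3]
  have eB : dB3 (6*n) p = (expand ℂ 3 p0 + C q * (X * expand ℂ 3 p1) +
      C (q^2) * (X^2 * expand ℂ 3 p2)) - (expand ℂ 3 (reflect (2*n) p0) +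
      C (q^2) * (X * expand ℂ 3 (reflect (2*n-1) p2)) +
      C ((q^2)^2) * (X^2 * expand ℂ 3 (reflect (2*n-1) p1))) := by
    unfold dB3
    rw [← hps]
    conv_lhs => rw [d1, d2]
    rw [comp_decomp _ hq23, comp_decomp _ hq3]
  have hQ3 : (C q : ℂ[X])^3 = 1 := by rw [← C_pow, hq3, C_1]
  have hQ : (C q : ℂ[X])^2 + C q + 1 = 0 := by
    rw [← C_pow, ← C_add, ← C_1, ← C_add, hq, C_0]
  have hH : (C η : ℂ[X]) * (C q - (C q)^2) = 1 := by
    rw [← C_pow, ← C_sub, ← C_mul, hηη, C_1]
  have xU : expand ℂ 3 U = C η * (1 - (C q)^2) * expand ℂ 3 p0 -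
      C η * (1 - C q) * expand ℂ 3 (reflect (2*n) p0) := by
    rw [hU]
    simp only [map_sub, map_mul, map_pow, map_one, expand_C]
  have xUr : expand ℂ 3 (reflect (2*n) U) = C η * (1 - (C q)^2) * expand ℂ 3 (reflect (2*n) p0) -
      C η * (1 - C q) * expand ℂ 3 p0 := by
    rw [hUr]
    simp only [map_sub, map_mul, map_pow, map_one, expand_C]
  have xN1 : expand ℂ 3 N1 = expand ℂ 3 p1 + expand ℂ 3 (reflect (2*n-1) p2) := by
    rw [hN1, map_add]
  have xN2 : expand ℂ 3 N2 = expand ℂ 3 p2 + expand ℂ 3 (reflect (2*n-1) p1) := by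
    rw [hN2, map_add]
  have i1 : (X - 1)^(2*a+1) ∣ expand ℂ 3 U + X^2 * expand ℂ 3 N2 := by
    have key : expand ℂ 3 U + X^2 * expand ℂ 3 N2 =
        C η * (dA3 (6*n) p - C q ^ 2 * p + C q * ps) := by
      rw [xU, xN2, eA]
      conv_rhs => rw [d1, d2]
      simp only [C_pow]
      generalize expand ℂ 3 p0 = x0
      generalize expand ℂ 3 p1 = x1
      generalize expand ℂ 3 p2 = x2
      generalize expand ℂ 3 (reflect (2*n) p0) = y0
      generalize expand ℂ 3 (reflect (2*n-1) p1) = y2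
      generalize expand ℂ 3 (reflect (2*n-1) p2) = y1
      generalize (C q : ℂ[X]) = Q at hQ3 hH ⊢
      generalize (C η : ℂ[X]) = H at hH ⊢
      linear_combination (-(X^2*x2) - X^2*y2)*hH - H*Q*X^2*x2*hQ3
    rw [key]
    refine Dvd.dvd.mul_left (dvd_add (dvd_sub hA ?_) ?_) _
    · exact ((pow_dvd_pow _ (by omega)).trans hpd).mul_left _
    · exact ((pow_dvd_pow _ (by omega)).trans hpsdv).mul_left _
  have i2 : (X - 1)^(2*b+1) ∣ expand ℂ 3 U + X * expand ℂ 3 N1 := by
    have key : expand ℂ 3 U + X * expand ℂ 3 N1 =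
        C η * (dB3 (6*n) p - C q ^ 2 * p + C q * ps) := by
      rw [xU, xN1, eB]
      conv_rhs => rw [d1, d2]
      simp only [C_pow]
      generalize expand ℂ 3 p0 = x0
      generalize expand ℂ 3 p1 = x1
      generalize expand ℂ 3 p2 = x2
      generalize expand ℂ 3 (reflect (2*n) p0) = y0
      generalize expand ℂ 3 (reflect (2*n-1) p1) = y2
      generalize expand ℂ 3 (reflect (2*n-1) p2) = y1
      generalize (C q : ℂ[X]) = Q at hQ3 hH ⊢
      generalize (C η : ℂ[X]) = H at hH ⊢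
      linear_combination (-(X*x1) - X*y1)*hH + H*Q*X^2*y2*hQ3
    rw [key]
    refine Dvd.dvd.mul_left (dvd_add (dvd_sub hB ?_) ?_) _
    · exact ((pow_dvd_pow _ (by omega)).trans hpd).mul_left _
    · exact ((pow_dvd_pow _ (by omega)).trans hpsdv).mul_left _
  have i3e : expand ℂ 3 U + expand ℂ 3 (reflect (2*n) U) + X * expand ℂ 3 N1 +
      X^2 * expand ℂ 3 N2 = p + ps := by
    rw [xU, xUr, xN1, xN2]
    conv_rhs => rw [d1, d2]
    generalize expand ℂ 3 p0 = x0
    generalize expand ℂ 3 p1 = x1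
    generalize expand ℂ 3 p2 = x2
    generalize expand ℂ 3 (reflect (2*n) p0) = y0
    generalize expand ℂ 3 (reflect (2*n-1) p1) = y2
    generalize expand ℂ 3 (reflect (2*n-1) p2) = y1
    generalize (C q : ℂ[X]) = Q at hQ3 hH ⊢
    generalize (C η : ℂ[X]) = H at hH ⊢
    linear_combination (x0 + y0) * hH
  have i3 : (X - 1)^(2*(a+b)+2) ∣ expand ℂ 3 U + expand ℂ 3 (reflect (2*n) U) +
      X * expand ℂ 3 N1 + X^2 * expand ℂ 3 N2 := by
    rw [i3e]; exact dvd_add hpd hpsdv
  have i1' : (X - 1)^(2*a+1) ∣ expand ℂ 3 (reflect (2*n) U) + X * expand ℂ 3 N1 := by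
    have hN2d' : (expand ℂ 3 N2).natDegree ≤ 3*(2*n-1) := by
      rw [natDegree_expand]; omega
    have hXd : (X^2 : ℂ[X]).natDegree ≤ 2 := natDegree_X_pow_le 2
    have hXN : (X^2 * expand ℂ 3 N2).natDegree ≤ 2 + 3*(2*n-1) :=
      natDegree_mul_le.trans (add_le_add hXd hN2d')
    have e : reflect (6*n) (expand ℂ 3 U + X^2 * expand ℂ 3 N2) =
        expand ℂ 3 (reflect (2*n) U) + X * expand ℂ 3 N1 := by
      rw [reflect_add]
      congr 1
      · rw [show 6*n = 3*(2*n) by ring, reflect_expand3]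
      · rw [show 6*n = (2 + 3*(2*n-1)) + 1 by omega, reflect_succ _ _ hXN,
          reflect_mul _ _ hXd hN2d', reflect_X_sq, one_mul, reflect_expand3, ← hab', ← hN1r]
    rw [← e]
    refine refl_dvd ?_ i1
    refine (natDegree_add_le _ _).trans (max_le ?_ (by omega))
    rw [natDegree_expand]; omega
  obtain ⟨c, hc1, hc2, hc3⟩ := uniq (padeR a) (padeC b) hUd (by rw [hab1]) hN2d hN1r i1 i1' i2 i3
  set R : ℂ[X] := upC (Rp a) with hR
  set Rs : ℂ[X] := upC (Rps a) with hRs
  have hPup : Pool.Agent.H136R2.Cardy.up (H337CB.P b) = upC (H337CB.P b) := rfl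
  have hPsup : Pool.Agent.H136R2.Cardy.up (H337CB.Ps b) = upC (H337CB.Ps b) := rfl
  have hPb := padeC b
  have hRa := padeR a
  rw [← hR, ← hRs] at hRa
  rw [hPup, hPsup] at hPb
  rw [hPup] at hc1 hc3
  rw [hPsup] at hc2
  set P : ℂ[X] := upC (H337CB.P b) with hP
  set Ps : ℂ[X] := upC (H337CB.Ps b) with hPs
  have hcv : c = (q - q^2) * κ := by
    rw [← hU0, hc1, coeff_C_mul, mul_coeff_zero, hRa.c0]
    have : P.coeff 0 = 1 := c0_one b
    rw [this]; ring
  have hUr2 : reflect (2*n) U = C c * (X * (Rs * Ps)) := by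
    have h1 : (R * P).natDegree ≤ a + b := natDegree_mul_le.trans (add_le_add hRa.degP hPb.degP)
    rw [hc1, reflect_C_mul, ← hab1, reflect_succ _ _ h1, reflect_mul _ _ hRa.degP hPb.degP,
      ← hRa.refl, ← hPb.refl]
  refine ⟨p1 - reflect (2*n-1) p2, ?_, ?_, ?_⟩
  · exact (natDegree_sub_le _ _).trans (max_le hd1 (natDegree_reflect_le' _ _ hd2))
  · rw [← hcv, ← i3e, hUr2, hc1, hc2, hc3]
    simp only [map_mul, map_neg, expand_C, expand_X]
    ring
  · have hx : expand ℂ 3 p0 - expand ℂ 3 (reflect (2*n) p0) =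
        - (C κ * (expand ℂ 3 R * expand ℂ 3 P - X^3 * (expand ℂ 3 Rs * expand ℂ 3 Ps))) := by
      have h1 : expand ℂ 3 U = C c * (expand ℂ 3 R * expand ℂ 3 P) := by
        rw [hc1]; simp only [map_mul, expand_C]
      have h2 : expand ℂ 3 (reflect (2*n) U) = C c * (X^3 * (expand ℂ 3 Rs * expand ℂ 3 Ps)) := by
        rw [hUr2]; simp only [map_mul, expand_C, expand_X]
      have h3 : (C c : ℂ[X]) = (C q - (C q)^2) * C κ := by
        rw [hcv, C_mul, C_sub, C_pow]
      rw [xU, h3] at h1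
      rw [xUr, h3] at h2
      have h4 : (3 : ℂ[X]) ≠ 0 := by
        rw [show (3 : ℂ[X]) = C 3 from (map_ofNat C 3).symm]
        exact C_ne_zero.2 (by norm_num)
      apply mul_left_cancel₀ h4
      generalize expand ℂ 3 p0 = x0 at *
      generalize expand ℂ 3 (reflect (2*n) p0) = y0 at *
      generalize expand ℂ 3 R = r at *
      generalize expand ℂ 3 Rs = rs at *
      generalize expand ℂ 3 P = pp at *
      generalize expand ℂ 3 Ps = pps at *
      generalize (C κ : ℂ[X]) = k at *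
      generalize (C q : ℂ[X]) = Q at *
      generalize (C η : ℂ[X]) = H at *
      have h5 : H * (2 - Q - Q^2) * (x0 - y0) = (Q - Q^2) * k * (r * pp - X^3 * (rs * pps)) := by
        linear_combination h1 - h2
      have h6 : (2 - Q - Q^2 : ℂ[X]) = 3 := by linear_combination -hQ
      have h7 : ((Q - Q^2)^2 : ℂ[X]) = -3 := by linear_combination (Q^2 - 3*Q + 3) * hQ
      rw [h6] at h5
      linear_combination (Q - Q^2) * h5 - 3 * (x0 - y0) * hH + k * (r * pp - X^3 * (rs * pps)) * h7
    have e1 : expand ℂ 3 (upC (Rp a * H337CB.P b - X * (Rps a * H337CB.Ps b))) =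
        expand ℂ 3 R * expand ℂ 3 P - X^3 * (expand ℂ 3 Rs * expand ℂ 3 Ps) := by
      rw [hR, hP, hRs, hPs]
      unfold upC
      simp only [Polynomial.map_sub, Polynomial.map_mul, Polynomial.map_X, map_sub, map_mul,
        expand_X]
    have e2 : expand ℂ 3 (reflect (2*n-1) (p1 - reflect (2*n-1) p2)) =
        expand ℂ 3 (reflect (2*n-1) p1) - expand ℂ 3 p2 := by
      rw [reflect_sub, rr, map_sub]
    rw [e1, ← hx, e2, map_sub]
    conv_lhs => rw [d1, d2]
    ring

end Pool.Agent.H965.K3
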