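import Pool.Agent.H965.K3.L5
import Pool.Agent.H965.Both.Prob
import Pool.Agent.H966.T1.PM

/-!
Forked channels, the walls of the left arm to the inner wall of the right arm: TASK P1, the
percolation link (helper962).  The event of project T1 (left arm of width `a+1`) in the
configuration `fo ω` (edges between the columns `0` and `1` opened).
-/

namespace Pool.Agent.H965.K3

open Pool.Agent.H988R2.Perc Pool.Agent.H980R3.Slit Relation MeasureTheory Finset Filter Topology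
open Pool.Agent.NH38.Step (on prs)
open Pool.Agent.H492C (comb comb2 pairG up1 jn)
open Pool.Agent.NH38.Fork (NZ)
open Pool.Agent.H966.T1 (ECross1)
open Pool.Agent.H966.T1.P1
open Pool.Agent.H965.Both (fo fo_ne force law1 law1_eq law1_odd law1_even psiA psiB mass_psiA_ne
  mass_psiB_ne X_fo_past X_fo_fut Xf_past Xf_fut)

namespace P1

/-- the state of the right arm does not see the forced edges -/
theorem X_fo_futM (N b M : ℕ) (hN : b + 1 ≤ N) (ω : Conf) :
    X b (actBit (oFutM N (fo ω) M)) M = X b (actBit (oFutM N ω M)) M := by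
  apply T23.X_congr
  intro k i _ h1 h2
  unfold actBit oFutM
  rw [fo_ne ω _ _ (by omega)]

/-- the window event -/
def WinG (a k b M : ℕ) : Set Conf :=
  {ω | conn3 (a+1) (2*k+1) (X (a+1+2+2*k+b) (force (actBit (oPast ω M))) M)
    (X (a+1) (force (actBit (oFut ω M))) M)
    (rs k b (X b (actBit (oFutM (a+1+2+2*k+b) ω M)) M))}

theorem winG_fo (a k b M : ℕ) : WinG a k b M = {ω | fo ω ∈ WinF1 (a+1) k b M} := by
  ext ω
  unfold WinG WinF1
  rw [Set.mem_ofPred_eq, Set.mem_ofPred_eq, Set.mem_ofPred_eq, X_fo_past, X_fo_fut,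
    X_fo_futM (a+1+2+2*k+b) b M (by omega) ω]
  exact Iff.rfl

theorem winG_mono {a b : ℕ} (k : ℕ) (ha : Even a) (hb : Odd b) : Monotone (WinG a k b) := by
  intro M M' hM
  rw [winG_fo, winG_fo]
  intro ω h
  exact win_mono k ha.add_one hb hM h

theorem iUnion_winG {a b : ℕ} (k : ℕ) (ha : Even a) (hb : Odd b) :
    ⋃ M, WinG a k b M = {ω | fo ω ∈ ECross1 (a+1) k b} := by
  ext ω
  rw [Set.mem_iUnion, Set.mem_ofPred_eq, ← iUnion_win k ha.add_one hb, Set.mem_iUnion]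
  refine exists_congr fun M => ?_
  rw [winG_fo]
  exact Iff.rfl

open Classical in
/-- the good cells -/
noncomputable def goodG (a k b M : ℕ) : Finset C10.Tr :=
  ((T23.SS (a+1+2+2*k+b) M).powerset ×ˢ ((T23.SS (a+1) M).powerset ×ˢ
    (T23.SS b M).powerset)).filter
    (fun p => conn3 (a+1) (2*k+1) (X (a+1+2+2*k+b) (force (actBit (T23.bits p.1))) M)
      (X (a+1) (force (actBit (T23.bits p.2.1))) M) (rs k b (X b (actBit (T23.bits p.2.2)) M)))

theorem mem_goodG {a k b M : ℕ} {p : C10.Tr} :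
    p ∈ goodG a k b M ↔ (p.1 ⊆ T23.SS (a+1+2+2*k+b) M ∧ p.2.1 ⊆ T23.SS (a+1) M ∧
      p.2.2 ⊆ T23.SS b M) ∧
      conn3 (a+1) (2*k+1) (X (a+1+2+2*k+b) (force (actBit (T23.bits p.1))) M)
        (X (a+1) (force (actBit (T23.bits p.2.1))) M)
        (rs k b (X b (actBit (T23.bits p.2.2)) M)) := by
  classical
  unfold goodG
  rw [Finset.mem_filter, Finset.mem_product, Finset.mem_product, Finset.mem_powerset,
    Finset.mem_powerset, Finset.mem_powerset]

theorem winG_eq (a k b M : ℕ) :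
    WinG a k b M = ⋃ p ∈ goodG a k b M, cellF (a+1) k b M p.1 p.2.1 p.2.2 := by
  ext ω
  simp only [WinG, Set.mem_ofPred_eq, Set.mem_iUnion, exists_prop]
  rw [Xf_past, Xf_fut, X_futM]
  constructor
  · intro h
    refine ⟨(T23.tP (a+1+2+2*k+b) M ω, T23.tF (a+1) M ω, tM (a+1+2+2*k+b) b M ω), ?_, rfl, rfl,
      rfl⟩
    rw [mem_goodG]
    exact ⟨⟨filter_subset _ _, filter_subset _ _, filter_subset _ _⟩, h⟩
  · rintro ⟨⟨p1, p2, p3⟩, hp, h1, h2, h3⟩
    simp only at h1 h2 h3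
    subst h1 h2 h3
    rw [mem_goodG] at hp
    exact hp.2

open Classical in
theorem sum_goodG (a k b M : ℕ) :
    (∑ t0 ∈ (T23.SS (a+1+2+2*k+b) M).powerset, ∑ t1 ∈ (T23.SS (a+1) M).powerset,
        ∑ t2 ∈ (T23.SS b M).powerset,
        (if conn3 (a+1) (2*k+1) (X (a+1+2+2*k+b) (force (actBit (T23.bits t0))) M)
          (X (a+1) (force (actBit (T23.bits t1))) M)
          (rs k b (X b (actBit (T23.bits t2)) M)) then (1 : ℂ) else 0)) =
      ((goodG a k b M).card : ℂ) := by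
  unfold goodG
  rw [Finset.natCast_card_filter, Finset.sum_product]
  refine Finset.sum_congr rfl fun t0 _ => ?_
  rw [Finset.sum_product]

theorem prob_winG (a k b M : ℕ) : ((perc.real (WinG a k b M) : ℝ) : ℂ) =
    pair3 (a+1) (2*k+1) (law1 (a+1+2+2*k+b) M) (law1 (a+1) M) (sh k b (law b M)) := by
  classical
  have hc : ∀ p ∈ goodG a k b M, MeasurableSet (cellF (a+1) k b M p.1 p.2.1 p.2.2) ∧
      perc (cellF (a+1) k b M p.1 p.2.1 p.2.2) =
        (1/2) ^ (2*M*(a+1+2+2*k+b) + 2*M*(a+1) + 2*M*b) := by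
    intro p hp
    obtain ⟨⟨h1, h2, h3⟩, _⟩ := mem_goodG.1 hp
    exact cellF_prob (a+1) k b M p.1 p.2.1 p.2.2 h1 h2 h3
  have hs : sh k b (law b M) = ((1/2 : ℂ))^(2*M*b) • ∑ t ∈ (T23.SS b M).powerset,
      Finsupp.single (rs k b (X b (actBit (T23.bits t)) M)) (1:ℂ) := by
    rw [T23.law_eq, sh_smul]
    congr 1
    unfold sh
    rw [Finsupp.mapDomain_finsetSum]
    refine Finset.sum_congr rfl fun t _ => ?_
    rw [Finsupp.mapDomain_single]
  rw [hs, law1_eq, law1_eq, t_C09, winG_eq, measureReal_biUnion_finset]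
  · have h1 : ∀ p ∈ goodG a k b M, perc.real (cellF (a+1) k b M p.1 p.2.1 p.2.2) =
        (1/2 : ℝ)^(2*M*(a+1+2+2*k+b) + 2*M*(a+1) + 2*M*b) := by
      intro p hp
      rw [measureReal_def, (hc p hp).2]
      simp
    rw [Finset.sum_congr rfl h1, Finset.sum_const, nsmul_eq_mul]
    rw [sum_goodG]
    push_cast
    rw [← pow_add, ← pow_add, mul_comm]
  · intro p _ p' _ hne
    rw [Function.onFun, Set.disjoint_left]
    rintro ω ⟨h1, h2, h3⟩ ⟨h4, h5, h6⟩
    exact hne (Prod.ext (h1.symm.trans h4) (Prod.ext (h2.symm.trans h5) (h3.symm.trans h6)))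
  · intro p hp
    exact (hc p hp).1

theorem finalG (a k b : ℕ) (ha : Even a) (hb : Odd b) :
    ((perc.real {ω | fo ω ∈ ECross1 (a+1) k b} : ℝ) : ℂ) =
      pair3 (a+1) (2*k+1) (psiB (a+2+2*k+b)) (psiA a) (sh k b (psi1 b)) /
        (mass (psiB (a+2+2*k+b)) * mass (psiA a) * mass (psi1 b)) := by
  have hN : Odd (a+2+2*k+b) := by
    obtain ⟨m, rfl⟩ := ha
    obtain ⟨n, rfl⟩ := hb
    exact ⟨m + 1 + k + n, by ring⟩
  have hl0 := law1_even (a+2+2*k+b) hN
  rw [show a+2+2*k+b+1 = a+1+2+2*k+b by ring] at hl0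
  have hl1 := law1_odd a ha
  have e1 : Tendsto (fun M => perc.real (WinG a k b M)) atTop
      (𝓝 (perc.real {ω | fo ω ∈ ECross1 (a+1) k b})) := by
    have h1 : Tendsto (fun M => perc (WinG a k b M)) atTop (𝓝 (perc (⋃ M, WinG a k b M))) :=
      tendsto_measure_iUnion_atTop (winG_mono k ha hb)
    rw [iUnion_winG k ha hb] at h1
    exact (ENNReal.tendsto_toReal (measure_ne_top perc {ω | fo ω ∈ ECross1 (a+1) k b})).comp h1
  have e2 : Tendsto (fun M => ((perc.real (WinG a k b M) : ℝ) : ℂ)) atTop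
      (𝓝 ((perc.real {ω | fo ω ∈ ECross1 (a+1) k b} : ℝ) : ℂ)) :=
    (Complex.continuous_ofReal.tendsto _).comp e1
  have hlim : Tendsto (fun M => T24.nrm (sh k b (law b M) + (-1 : ℂ) •
      sh k b ((mass (psi1 b))⁻¹ • psi1 b))) atTop (𝓝 0) := by
    refine squeeze_zero (fun _ => T24.nrm_nonneg _) (fun M => ?_) (psi1_law t_C12 b hb)
    rw [← sh_smul]
    unfold sh
    rw [← Finsupp.mapDomain_add]
    exact T24.nrm_mapDomain_le _ _
  have e3 := t_C13 t_C11 (a+1) (2*k+1) (law1 (a+1+2+2*k+b)) (law1 (a+1))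
    (fun M => sh k b (law b M)) _ _ _ hl0 hl1 hlim
  have e4 : Tendsto (fun M => ((perc.real (WinG a k b M) : ℝ) : ℂ)) atTop
      (𝓝 (pair3 (a+1) (2*k+1) ((mass (psiB (a+2+2*k+b)))⁻¹ • psiB (a+2+2*k+b))
        ((mass (psiA a))⁻¹ • psiA a) (sh k b ((mass (psi1 b))⁻¹ • psi1 b)))) := by
    refine e3.congr fun M => ?_
    rw [prob_winG a k b M]
  have e5 := tendsto_nhds_unique e2 e4
  obtain ⟨_, _, _, s1, s2, s3, _⟩ := t_C11
  rw [e5, s1, s2, sh_smul, s3]
  have n0 := mass_psiB_ne _ hN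
  have n1 := mass_psiA_ne a ha
  have n2 := psi1_mass_ne b hb
  field_simp

theorem E3_on (a k b : ℕ) (ha : Even a) (hb : Odd b) :
    E3 (on a) (on k) (on b) 1 1 =
      pair3 (a+1) (2*k+1) (psiB (a+2+2*k+b)) (psiA a) (sh k b (psi1 b)) := by
  unfold E3 U3
  rw [low_eq, len_on, len_on, Pool.Agent.H966.T1.P1.inv_on, Pool.Agent.H966.T1.P1.inv_on,
    psi0_on Pool.Agent.H966.T1.t1_PsiM0 b hb, sh_eq,
    show a + 1 + 2*k + 2 = a + 1 + (2*k+1) + 1 by ring, show a + 2 = a + 1 + 1 by ring,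
    Pool.Agent.NH38.Fork.PP.pairG_eq (a+1) (2*k+1) ha.add_one]
  rfl

theorem TT3_on1 (a k b : ℕ) (hb : Odd b) : TT3 (on a) (on k) (on b) 1 1 =
    mass (psiB (a+2+2*k+b)) * (mass (psiA a) * mass (psi1 b)) := by
  rw [L5.TT3_on, Pool.Agent.H965.Both.mass_psiB b hb]
  rfl

end P1

open P1

theorem t3_P1 : S3_P1 := by
  intro a k b ha _ hb
  have hN : Odd (a+2+2*k+b) := by
    obtain ⟨m, rfl⟩ := ha
    obtain ⟨n, rfl⟩ := hb
    exact ⟨m + 1 + k + n, by ring⟩
  have n0 := mass_psiB_ne _ hN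
  have n1 := mass_psiA_ne a ha
  have n2 := psi1_mass_ne b hb
  rw [TT3_on1 a k b hb, E3_on a k b ha hb, finalG a k b ha hb]
  field_simp

end Pool.Agent.H965.K3
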