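import Pool.Agent.H965.K3.Stubs

/-!
Task S: in a strip with two wired walls the walls are joined.
-/

set_option autoImplicit false

namespace Pool.Agent.H965.K3.S

open Pool.Agent.H988R2.Perc hiding X
open Pool.Agent.H988R2.Perc.T24
open Pool.Agent.H965.Both
open Pool.Agent.H492C (comb comb2 pairG up1 jn)
open Pool.Agent.NH38.Step (zs on)
open Pool.Agent.NH38.Fork (zo na)

/-! ### vectors supported on the states with a property -/

/-- all the states of the support have the property -/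
def Sp (P : St → Prop) (f : St →₀ ℂ) : Prop := ∀ R ∈ f.support, P R

theorem Sp.mono {P P' : St → Prop} {f : St →₀ ℂ} (h : Sp P f) (hP : ∀ R, P R → P' R) :
    Sp P' f := fun R hR => hP R (h R hR)

theorem Sp.add {P : St → Prop} {f g : St →₀ ℂ} (hf : Sp P f) (hg : Sp P g) : Sp P (f + g) := by
  classical
  intro R hR
  rcases Finset.mem_union.mp (Finsupp.support_add hR) with h | h
  · exact hf R h
  · exact hg R h

theorem Sp.smul {P : St → Prop} {f : St →₀ ℂ} (hf : Sp P f) (c : ℂ) : Sp P (c • f) :=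
  fun R hR => hf R (Finsupp.support_smul hR)

theorem Sp.map {P P' : St → Prop} {f : St →₀ ℂ} (hf : Sp P f) {φ : St → St}
    (hφ : ∀ R, P R → P' (φ R)) : Sp P' (Finsupp.mapDomain φ f) := by
  classical
  intro R hR
  obtain ⟨R', hR', rfl⟩ := Finset.mem_image.mp (Finsupp.mapDomain_support hR)
  exact hφ _ (hf _ hR')

theorem Sp.tile {P : St → Prop} {i : ℕ} (hi : ∀ R, P R → P (St.act i R)) {f : St →₀ ℂ}
    (hf : Sp P f) : Sp P (Pool.Agent.H988R2.Perc.tile i f) :=
  (hf.add (hf.map hi)).smul _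

/-! ### the two walls -/

/-- the first wall is joined to the last face -/
def P1 (N : ℕ) (R : St) : Prop := R.rel 1 N

def P3 (N : ℕ) (R : St) : Prop := R.rel 3 N

theorem act1_P1 {N : ℕ} (hN : N % 2 = 1) (R : St) (h : P3 N R) :
    P1 N (St.act 1 R) :=
  Or.inr ⟨by omega, hN, by omega, by omega, Or.inr (Or.inl ⟨R.eqv.refl _, h⟩)⟩

theorem act1_P3 {N : ℕ} (hN : N % 2 = 1) (R : St) (h : P1 N R) :
    P3 N (St.act 1 R) :=
  Or.inr ⟨by omega, hN, by omega, by omega, Or.inr (Or.inr ⟨R.eqv.refl _, h⟩)⟩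

theorem act_P1 {N i : ℕ} (hN : N % 2 = 1) (hi : 1 ≤ i) (hiN : i + 2 ≤ N) (R : St) (h : P1 N R) :
    P1 N (St.act i R) :=
  Or.inr ⟨by omega, hN, by omega, by omega, Or.inl h⟩

theorem sp_tile1 {N i : ℕ} (hN : N % 2 = 1) (hi : 1 ≤ i) (hiN : i + 2 ≤ N) {f : St →₀ ℂ}
    (h : Sp (P1 N) f) : Sp (P1 N) (tile1 i f) := by
  unfold tile1
  split_ifs with h1
  · subst h1
    exact h.map (act_P1 hN le_rfl hiN)
  · exact h.tile (act_P1 hN hi hiN)

theorem sp_fwd1 {N j : ℕ} (hN : N % 2 = 1) (hj : j + 3 ≤ N) {f : St →₀ ℂ}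
    (h : Sp (P3 N) f) : Sp (P1 N) (fwd1 (j+1) f) := by
  induction j with
  | zero =>
    simp only [fwd1, tile1, Nat.zero_add, if_true]
    exact h.map (act1_P1 hN)
  | succ j ih =>
    rw [fwd1]
    exact sp_tile1 hN (by omega) (by omega) (ih (by omega))

theorem sp_bwd1 {N j : ℕ} (hN : N % 2 = 1) (hj : j + 3 ≤ N) {f : St →₀ ℂ}
    (h : Sp (P1 N) f) : Sp (P3 N) (bwd1 (j+1) f) := by
  induction j generalizing f with
  | zero =>
    simp only [bwd1, tile1, Nat.zero_add, if_true]
    exact h.map (act1_P3 hN)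
  | succ j ih =>
    rw [bwd1]
    exact ih (by omega) (sp_tile1 hN (by omega) (by omega) h)

theorem ins0_P3 {L : ℕ} (hL : L % 2 = 1) (R : St) (h : P1 L R) :
    P3 (L+2) (St.ins 0 R) := by
  refine Or.inr ⟨by omega, by omega, by omega, by omega, ?_⟩
  have e1 : St.low 0 3 = 1 := by unfold St.low; rw [if_neg (by omega)]
  have e2 : St.low 0 (L+2) = L := by unfold St.low; rw [if_neg (by omega)]; omega
  rw [e1, e2]
  exact h

theorem cap0_P1 {L : ℕ} (hL : L % 2 = 1) (R : St) (h : P3 (L+2) R) :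
    P1 L (St.cap 0 R) := by
  change (St.act 0 R).rel (St.up 0 1) (St.up 0 L)
  have e1 : St.up 0 1 = 3 := by unfold St.up; rw [if_neg (by omega)]
  have e2 : St.up 0 L = L + 2 := by unfold St.up; rw [if_neg (by omega)]
  rw [e1, e2]
  exact Or.inr ⟨by omega, by omega, by omega, by omega, Or.inl h⟩

/-- the double row keeps the walls joined -/
theorem sp_T1 {k : ℕ} (hk : Even k) {f : St →₀ ℂ} (h : Sp (P1 (k+1)) f) :
    Sp (P1 (k+1)) (T1 (k+1) f) := by
  obtain ⟨t, ht⟩ := hk
  unfold T1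
  exact (sp_bwd1 (by omega) (by omega) (sp_fwd1 (by omega) (by omega)
    (h.map (ins0_P3 (by omega))))).map (cap0_P1 (by omega))

theorem full_P1 {k : ℕ} (hk : Even k) : P1 (k+1) (full (k+1)) := by
  obtain ⟨t, ht⟩ := hk
  exact Or.inr ⟨by omega, by omega, by omega, by omega⟩

/-! ### the bad part -/

open Classical in
/-- the bad part of a vector -/
noncomputable def bad (L : ℕ) (f : St →₀ ℂ) : St →₀ ℂ := f.filter fun R => ¬ P1 L R

open Classical in
noncomputable def gd (L : ℕ) (f : St →₀ ℂ) : St →₀ ℂ := f.filter fun R => P1 L R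

theorem gd_add_bad (L : ℕ) (f : St →₀ ℂ) : gd L f + bad L f = f := by
  classical
  exact Finsupp.filter_add_filter_not f _

theorem sp_gd (L : ℕ) (f : St →₀ ℂ) : Sp (P1 L) (gd L f) := by
  classical
  intro R hR
  unfold gd at hR
  rw [Finsupp.support_filter, Finset.mem_filter] at hR
  exact hR.2

theorem bad_eq_zero {L : ℕ} {f : St →₀ ℂ} (h : Sp (P1 L) f) : bad L f = 0 := by
  classical
  unfold bad
  rw [Finsupp.filter_eq_zero_iff]
  intro R hR
  by_contra hf
  exact hR (h R (Finsupp.mem_support_iff.mpr hf))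

theorem bad_add (L : ℕ) (f g : St →₀ ℂ) : bad L (f + g) = bad L f + bad L g := by
  classical
  exact Finsupp.filter_add

theorem nrm_bad_le (L : ℕ) (f : St →₀ ℂ) : nrm (bad L f) ≤ nrm f := by
  classical
  have hs : (bad L f).support ⊆ f.support := by
    unfold bad
    rw [Finsupp.support_filter]
    exact Finset.filter_subset _ _
  rw [nrm_eq (bad L f) f.support hs, nrm_eq f f.support (Finset.Subset.refl _)]
  refine Finset.sum_le_sum fun R _ => ?_
  have h1 : bad L f R = if ¬ P1 L R then f R else 0 := Finsupp.filter_apply _ _ _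
  rw [h1]
  split_ifs with h2
  · rw [norm_zero]
    exact norm_nonneg _
  · exact le_refl ‖f R‖

theorem bdV_bad {K L : ℕ} {f : St →₀ ℂ} (h : BdV K f) : BdV K (bad L f) := by
  classical
  intro R hR
  unfold bad at hR
  rw [Finsupp.support_filter, Finset.mem_filter] at hR
  exact h R hR.1

theorem eq_zero_of_nrm {f : St →₀ ℂ} (h : nrm f = 0) : f = 0 := by
  rw [nrm_eq f f.support (Finset.Subset.refl _)] at h
  have h1 := (Finset.sum_eq_zero_iff_of_nonneg (fun R _ => norm_nonneg (f R))).mp h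
  ext R
  by_cases hR : R ∈ f.support
  · simpa using h1 R hR
  · simpa using hR

/-- a fixed vector is supported on the states with joined walls -/
theorem sp_fixed {k : ℕ} (hk : Even k) {f : St →₀ ℂ} (hf : BdV (k+1+1) f)
    (hT : T1 (k+1) f = f) : Sp (P1 (k+1)) f := by
  have hD := dob_T1 (k+1)
  set ε : ℝ := (1/2)^(k+1) * (1/2)^(k+1) with hε
  set b := bad (k+1) f with hb
  have hbB : BdV (k+1+1) b := bdV_bad hf
  have e1 : b = bad (k+1) (T1 (k+1) b) := by
    have h1 : T1 (k+1) f = T1 (k+1) (gd (k+1) f) + T1 (k+1) b := by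
      rw [← hD.add, hb, gd_add_bad]
    have h2 : bad (k+1) (T1 (k+1) (gd (k+1) f)) = 0 := bad_eq_zero (sp_T1 hk (sp_gd _ _))
    rw [hT] at h1
    have h3 := congrArg (bad (k+1)) h1
    rw [bad_add, h2, zero_add] at h3
    exact h3
  have e2 : bad (k+1) (T1 (k+1) b) =
      bad (k+1) (T1 (k+1) b - (ε : ℂ) • Finsupp.mapDomain (gTo (k+1)) b) := by
    have h1 : T1 (k+1) b = (T1 (k+1) b - (ε : ℂ) • Finsupp.mapDomain (gTo (k+1)) b) +
        (ε : ℂ) • Finsupp.mapDomain (gTo (k+1)) b := by abel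
    have h2 : bad (k+1) ((ε : ℂ) • Finsupp.mapDomain (gTo (k+1)) b) = 0 := by
      refine bad_eq_zero (Sp.smul ?_ _)
      rw [mapDomain_gTo hbB]
      intro R hR
      have h3 := Finsupp.support_single_subset hR
      rw [Finset.mem_singleton] at h3
      rw [h3]
      exact full_P1 hk
    have h3 := congrArg (bad (k+1)) h1
    rw [bad_add, h2, add_zero] at h3
    exact h3
  have h4 : nrm b ≤ (1 - ε) * nrm b := by
    calc nrm b = nrm (bad (k+1) (T1 (k+1) b - (ε : ℂ) • Finsupp.mapDomain (gTo (k+1)) b)) := by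
          rw [← e2, ← e1]
      _ ≤ _ := (nrm_bad_le _ _).trans (hD.dec b)
  have hε0 : 0 < ε := by positivity
  have h5 : nrm b = 0 := by
    have := nrm_nonneg b
    nlinarith
  have h6 : b = 0 := eq_zero_of_nrm h5
  have h7 := gd_add_bad (k+1) f
  rw [← hb, h6, add_zero] at h7
  rw [← h7]
  exact sp_gd _ _

theorem sp_psiA {k : ℕ} (hk : Even k) : Sp (P1 (k+1)) (psiA k) := by
  refine sp_fixed hk ?_ (stat_odd k hk)
  intro R hR x y h
  have := Psi_supp (0 :: (List.replicate k 1 ++ [0])) (by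
    simp only [List.length_cons, List.length_append, List.length_replicate,
      List.length_nil]; exact hk.add (by decide : Even 2)) R hR x y h
  simpa using this

/-! ### the pairing -/

theorem mass_comb2 (k : ℕ) (f g : St →₀ ℂ) : mass (comb2 k f g) = mass f * mass g := by
  have h0 : ∀ (s : Finset St) (F : St → (St →₀ ℂ)), mass (∑ i ∈ s, F i) = ∑ i ∈ s, mass (F i) := by
    intro s F
    classical
    induction s using Finset.induction_on with
    | empty => simp [mass]
    | insert a s ha ih => rw [Finset.sum_insert ha, Finset.sum_insert ha, T24.mass_add, ih]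
  have e1 : mass f = ∑ R ∈ f.support, f R := rfl
  have e2 : mass g = ∑ R ∈ g.support, g R := rfl
  unfold comb2 Finsupp.sum
  rw [h0, e1, e2, Finset.sum_mul]
  refine Finset.sum_congr rfl fun R _ => ?_
  rw [h0, Finset.mul_sum]
  exact Finset.sum_congr rfl fun R' _ => T24.mass_single _ _

theorem sp_comb2 {P P' P'' : St → Prop} (k : ℕ) {f g : St →₀ ℂ} (hf : Sp P f) (hg : Sp P' g)
    (h : ∀ R R', P R → P' R' → P'' (comb k R R')) : Sp P'' (comb2 k f g) := by
  classical
  intro S hS
  unfold comb2 Finsupp.sum at hS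
  obtain ⟨R, hR, hS⟩ := Finset.mem_biUnion.mp (Finsupp.support_finsetSum hS)
  obtain ⟨R', hR', hS⟩ := Finset.mem_biUnion.mp (Finsupp.support_finsetSum hS)
  have h3 := Finsupp.support_single_subset hS
  rw [Finset.mem_singleton] at h3
  rw [h3]
  exact h R R' (hf R hR) (hg R' hR')

theorem pairG_certain {P P' : St → Prop} {p r : ℕ} {f g : St →₀ ℂ} (hf : Sp P f) (hg : Sp P' g)
    (h : ∀ R R', P R → P' R' → jn p r R R') : pairG p r f g = mass f * mass g := by
  classical
  have e1 : mass f = ∑ R ∈ f.support, f R := rfl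
  have e2 : mass g = ∑ R ∈ g.support, g R := rfl
  unfold pairG Finsupp.sum
  rw [e1, e2, Finset.sum_mul]
  refine Finset.sum_congr rfl fun R hR => ?_
  rw [Finset.mul_sum]
  refine Finset.sum_congr rfl fun R' hR' => ?_
  change f R * g R' * (if jn p r R R' then 1 else 0) = f R * g R'
  rw [if_pos (h R R' (hf R hR) (hg R' hR')), mul_one]

theorem on_map_inv (n : ℕ) : (on n).map (fun x => x⁻¹) = on n := by
  unfold on
  rw [List.map_replicate, inv_one]

theorem on_prod (n : ℕ) : (on n).prod = 1 := by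
  unfold on
  rw [List.prod_replicate, one_pow]

theorem on_length (n : ℕ) : (on n).length = n := by
  unfold on
  rw [List.length_replicate]

end Pool.Agent.H965.K3.S

namespace Pool.Agent.H965.K3

open Pool.Agent.H988R2.Perc hiding X
open Pool.Agent.H988R2.Perc.T24
open Pool.Agent.H965.Both
open Pool.Agent.H492C (comb comb2 pairG up1 jn)
open Pool.Agent.NH38.Step (zs on)
open Pool.Agent.NH38.Fork (zo na mm)
open S

theorem t3_cert : S3_cert := by
  intro a b ha hb
  obtain ⟨m, hm⟩ := ha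
  obtain ⟨l, hl⟩ := hb
  have ha : Even a := ⟨m, hm⟩
  have hab : Even (a + b + 1) := ⟨m + l + 1, by omega⟩
  have e1 : (0 :: (on a ++ (1 :: (on b ++ [0]))) : List ℂ) =
      0 :: (List.replicate (a+b+1) 1 ++ [0]) := by
    unfold on
    rw [show a + b + 1 = a + (b + 1) by omega, List.replicate_add, List.replicate_succ]
    simp
  have hk : 2 * ((a + 2) / 2) = a + 2 := by omega
  have key : pairG (a + 1) (a + 1 + 1 + b) (psiA (a+b+1))
      (comb2 ((a + 2) / 2) (psiA a) (comb2 0 (Finsupp.single St.bot 1) (up1 (on b)))) =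
      mass (psiA (a+b+1)) * (mass (psiA a) * (1 * mass (up1 (on b)))) := by
    rw [pairG_certain (P := P1 (a+b+1+1)) (P' := P1 (a+1)) (sp_psiA hab)
      (sp_comb2 (P' := fun _ => True) _ (sp_psiA ha) (fun _ _ => trivial) ?_) ?_, mass_comb2,
      mass_comb2, T24.mass_single]
    · intro R R' h _
      exact Or.inr (Or.inl ⟨by omega, by omega, h⟩)
    · intro R R' h h'
      refine Relation.EqvGen.trans _ _ _ (Relation.EqvGen.symm _ _ (Relation.EqvGen.rel 1 (a+1) (Or.inr h'))) ?_
      refine Relation.EqvGen.rel _ _ (Or.inl ?_)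
      rw [show a + 1 + 1 + b = a + b + 1 + 1 by omega]
      exact h
  have hZ1 : mass (Psi (List.replicate a 1)) = Z (on a) := rfl
  have hZ2 : mass (Psi (List.replicate (a+b+1) 1)) = Z (on (a+b+1)) := rfl
  have hZ3 : mass (up1 (on b)) = Z (on b ++ [0]) := by
    unfold up1
    rw [on_map_inv]
    rfl
  have hg : gt3 (on a) (on b) 1 = (q^(a+b+1) * Z (on (a+b+1))) * ((q^a * Z (on a)) *
      (1 * Z (on b ++ [0]))) / cs3 (on a) (on b) 0 1 := by
    unfold gt3
    rw [on_length, on_length, on_map_inv, e1]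
    have e2 : (0 :: (on a ++ [0]) : List ℂ) = 0 :: (List.replicate a 1 ++ [0]) := rfl
    rw [e2]
    have key' := key
    unfold psiA at key'
    rw [key']
    have m1 := mass_psiA a ha
    have m2 := mass_psiA (a+b+1) hab
    unfold psiA at m1 m2
    rw [m1, m2, hZ1, hZ2, hZ3]
  rw [hg]
  unfold ka mm3 zs zo cs3 na
  simp only [on_length, on_prod, one_pow, one_mul, add_zero]
  have hq := q_ne_zero
  have h1 : (a + 1 + b) / 2 = m + l + 1 := by omega
  have h2 : (a + 2) / 2 = m + 1 := by omega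
  have h3 : a / 2 = m := by omega
  have h4 : (b + 1) / 2 = l + 1 := by omega
  have h5 : (b - 1) / 2 = l := by omega
  have h6 : (a + b + 1) / 2 = m + l + 1 := by omega
  rw [h1, h2, h3, h4, h5, h6]
  have hq1 : q^(a + b + 1) = q^(2 * (m + l + 1)) := by congr 1; omega
  have hq2 : q^a = q^(2 * m) := by congr 1; omega
  have hm1 : q^(m * (m - 1)) * q^(2 * m) = q^((m + 1) * m) := by
    rw [← pow_add]
    congr 1
    rcases m with _ | m
    · rfl
    · rw [Nat.add_sub_cancel]; ring
  have hm2 : q^((m + l + 1) * (m + l + 1 - 1)) * q^(2 * (m + l + 1)) =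
      q^((m + l + 1 + 1) * (m + l + 1)) := by
    rw [← pow_add, Nat.add_sub_cancel]
    congr 1
    ring
  rw [hq1, hq2, pow_add, pow_add, ← hm1, ← hm2]
  field_simp

end Pool.Agent.H965.K3
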