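import Pool.Agent.H965.K3.A1
import Pool.Agent.H965.K3.A3
import Pool.Agent.H965.K3.A4
import Pool.Agent.H965.K3.A5
import Pool.Agent.H965.K3.B1
import Pool.Agent.H965.K3.B2
import Pool.Agent.H965.K3.F1
import Pool.Agent.H965.K3.F2
import Pool.Agent.H965.K3.G
import Pool.Agent.H965.K3.H
import Pool.Agent.H965.K3.L12
import Pool.Agent.H965.K3.L34
import Pool.Agent.H965.K3.L5
import Pool.Agent.H965.K3.M
import Pool.Agent.H965.K3.N
import Pool.Agent.H965.K3.P1
import Pool.Agent.H965.K3.P2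
import Pool.Agent.H965.K3.S

/-!
Forked channels, the walls of the left arm to the inner wall of the right arm: assembly
(helper965).
-/

namespace Pool.Agent.H965.K3

open Pool.Agent.H988R2.Perc hiding X
open MeasureTheory

theorem t3_M' : S3_M := t3_M t3_zs t3_zo t3_eh

theorem t3_HL' : S3_HL := t3_HL t3_M' t3_ehw t3_eh

theorem t3_conf' : S3_conf := t3_conf t3_cfA t3_zs t3_zo t3_eh t3_gt t3_cert

theorem t3_HF' : S3_HF := t3_HF t3_HL' t3_conf' t3_NM t3_ehw

theorem t3_Alg' : S3_Alg := t3_Alg t3_HF' t3_Teq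

/-- the exact formula -/
theorem t3_Exact : S3_Exact := exact3_of (pf_of t3_P1 t3_P2) t3_TF t3_Alg'

theorem t3_FKle : S3_FKle := by
  intro a b ha ha2 hb
  have h := t3_Exact a 0 b ha ha2 hb
  have h1 : perc.real (Cross3 a (2*0+2) b) ≤ 1 := measureReal_le_one
  rw [h] at h1
  simp only [Nat.mul_zero, Nat.add_zero] at h1
  exact_mod_cast h1

theorem t3_F4' : S3_F4 := t3_F4 t3_WI

theorem t3_Asy' : S3_Asy := t3_Asy t3_F4' t3_dvA t3_pos t3_FKle

/-- the scaling limit -/
theorem t3_Lim : S3_Lim := t3_G t3_Exact t3_Asy'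

end Pool.Agent.H965.K3

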