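import Pool.Agent.H965.K3.Stubs
import Pool.Agent.H965.Both.Geo
import Pool.Graph.R_seed8.H863R4.AllPar

/-!
K3 P2: geometry of the wired left wall (helper253).
-/

namespace Pool.Agent.H965.K3

open Pool.Agent.H988R2.Perc hiding X
open Pool.Agent.H965.Both (fo of_fo fo_mono fo_one)
open Pool.Agent.H966.T1 (FAdj1 EAdj1 ECross1)
open Filter Topology MeasureTheory Relation ProbabilityTheory

namespace P2

/-- the probability that finitely many edges are open -/
theorem perc_open (F : Finset Edge) : perc {ω : Conf | ∀ e ∈ F, ω e = true} = (2:ENNReal)⁻¹ ^ F.card := by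
  have h : {ω : Conf | ∀ e ∈ F, ω e = true} = Set.pi F (fun _ => ({true} : Set Bool)) := by
    ext ω
    simp [Set.mem_pi]
  rw [h]
  unfold perc
  rw [Measure.infinitePi_pi _ (fun _ _ => MeasurableSet.of_discrete)]
  have hc : coin {true} = 2⁻¹ := by
    unfold coin
    rw [PMF.toMeasure_apply_singleton _ _ (MeasurableSet.of_discrete)]
    simp
  rw [Finset.prod_congr rfl fun _ _ => hc, Finset.prod_const]

/-- the edges of a straight path -/
def dg (a : ℕ) (p r : ℤ) (v : ℕ) : Finset Edge :=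
  (Finset.range a).image fun j : ℕ => ((v:ℤ) + p + (j:ℤ), (v:ℤ) + r, false)

theorem card_dg (a : ℕ) (p r : ℤ) (v : ℕ) : (dg a p r v).card = a := by
  unfold dg
  rw [Finset.card_image_of_injective, Finset.card_range]
  intro i j h
  simpa using h

theorem disj_dg (a : ℕ) (p r : ℤ) {v w : ℕ} (h : v ≠ w) : Disjoint (dg a p r v) (dg a p r w) := by
  rw [Finset.disjoint_left]
  intro e h1 h2
  unfold dg at h1 h2
  rw [Finset.mem_image] at h1 h2
  obtain ⟨i, _, rfl⟩ := h1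
  obtain ⟨j, _, hj⟩ := h2
  simp only [Prod.mk.injEq] at hj
  omega

theorem ae_diag (a : ℕ) (p r : ℤ) : ∀ᵐ ω ∂perc, ∃ v : ℕ, ∀ j : ℕ, j < a →
    ω ((v:ℤ) + p + j, (v:ℤ) + r, false) = true := by
  set s : ℕ → Set Conf := fun v => {ω : Conf | ∀ e ∈ dg a p r v, ω e = true} with hs
  have hm : ∀ F : Finset Edge, MeasurableSet {ω : Conf | ∀ e ∈ F, ω e = true} := by
    intro F
    have h : {ω : Conf | ∀ e ∈ F, ω e = true} = ⋂ e ∈ F, {ω : Conf | ω e = true} := by
      ext ω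
      simp
    rw [h]
    refine Finset.measurableSet_biInter _ fun e _ => ?_
    have h2 : {ω : Conf | ω e = true} = (fun ω : Conf => ω e) ⁻¹' {true} := rfl
    rw [h2]
    exact measurable_pi_apply e MeasurableSet.of_discrete
  have hind : iIndepSet s perc := by
    rw [iIndepSet_iff_meas_biInter (fun v => hm _)]
    intro S
    have h1 : (⋂ v ∈ S, s v) = {ω : Conf | ∀ e ∈ S.biUnion (dg a p r), ω e = true} := by
      ext ω
      simp only [hs, Set.mem_iInter, Finset.mem_biUnion]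
      constructor
      · rintro h e ⟨v, hv, he⟩
        exact h v hv e he
      · intro h v hv e he
        exact h e ⟨v, hv, he⟩
    rw [h1, perc_open, Finset.card_biUnion (fun v _ w _ hvw => disj_dg a p r hvw),
      Finset.sum_congr rfl fun v _ => card_dg a p r v]
    rw [Finset.prod_congr rfl fun v _ => (perc_open _).trans (by rw [card_dg a p r v])]
    rw [Finset.prod_const, Finset.sum_const, smul_eq_mul, ← pow_mul, mul_comm]
  have hsum : (∑' n, perc (s n)) = ⊤ := by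
    have : ∀ n, perc (s n) = (2:ENNReal)⁻¹ ^ a := fun n => by
      rw [hs]; simp only; rw [perc_open, card_dg]
    simp_rw [this]
    rw [ENNReal.tsum_const]
    simp
  have hlim := measure_limsup_eq_one (fun v => hm _) hind hsum
  have h2 : ∀ᵐ ω ∂perc, ω ∈ limsup s atTop := by
    rw [← mem_ae_iff_prob_eq_one] at hlim
    · exact hlim
    · exact MeasurableSet.measurableSet_limsup fun v => hm _
  filter_upwards [h2] with ω hω
  rw [mem_limsup_iff_frequently_mem] at hω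
  obtain ⟨v, hv⟩ := hω.exists
  refine ⟨v, fun j hj => ?_⟩
  refine hv _ ?_
  unfold dg
  rw [Finset.mem_image]
  exact ⟨j, Finset.mem_range.2 hj, rfl⟩

/-- the steps change the column by one -/
theorem step {ω : Conf} {x y : ℤ × ℤ} (h : OpenAdj ω x y) :
    (y.1 - y.2 = x.1 - x.2 + 1 ∨ y.1 - y.2 = x.1 - x.2 - 1) := by
  rcases h with ⟨h, _⟩ | ⟨h, _⟩ | ⟨h, _⟩ | ⟨h, _⟩ <;> rw [h] <;> simp <;> omega

theorem adj_symm {ω : Conf} {x y : ℤ × ℤ} (h : OpenAdj ω x y) : OpenAdj ω y x := by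
  rcases h with h | h | h | h
  · exact Or.inr (Or.inl h)
  · exact Or.inl h
  · exact Or.inr (Or.inr (Or.inr h))
  · exact Or.inr (Or.inr (Or.inl h))

theorem eadj_symm {a k b : ℕ} {ω : Conf} {x y : ℤ × ℤ} (h : EAdj1 a k b ω x y) :
    EAdj1 a k b ω y x := by
  obtain ⟨h1, h2, h3, h4⟩ := h
  exact ⟨adj_symm h1, h3, h2, fun h => h4 ⟨h.2.1, h.1, h.2.2.2.2.1, h.2.2.2.2.2, h.2.2.1, h.2.2.2.1⟩⟩

theorem rtg_symm {a k b : ℕ} {ω : Conf} {x y : ℤ × ℤ} (h : ReflTransGen (EAdj1 a k b ω) x y) :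
    ReflTransGen (EAdj1 a k b ω) y x := by
  induction h with
  | refl => exact .refl
  | tail _ h ih => exact ReflTransGen.head (eadj_symm h) ih

/-- the edges between the columns `0` and `1` -/
theorem fo_adj1 (ω : Conf) (v : ℤ) : OpenAdj (fo ω) (v + 1, v) (v + 1, v + 1) := by
  refine Or.inr (Or.inr (Or.inl ⟨rfl, ?_⟩))
  unfold fo
  rw [if_pos]
  left
  exact ⟨rfl, rfl⟩

theorem fo_adj2 (ω : Conf) (v : ℤ) : OpenAdj (fo ω) (v, v) (v + 1, v) := by
  refine Or.inl ⟨rfl, ?_⟩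
  unfold fo
  rw [if_pos]
  right
  exact ⟨rfl, rfl⟩

/-- the vertices of the column `1` are joined -/
theorem col_one {a k b : ℕ} (ha : 2 ≤ a) (ω : Conf) (v : ℤ) (n : ℕ) :
    ReflTransGen (EAdj1 (a+1) k b (fo ω)) (v + 1, v) (v + n + 1, v + n) := by
  induction n with
  | zero => simpa using ReflTransGen.refl
  | succ n ih =>
    refine (ih.tail (b := (v + n + 1, v + n)) (c := (v + n + 1, v + n + 1)) ?_).tail ?_
    · refine ⟨fo_adj1 ω (v + n), ?_, ?_, ?_⟩ <;> dsimp only <;> push_cast <;> omega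
    · have h := fo_adj2 ω (v + n + 1)
      have e : (v + n + 1 + 1, v + n + 1) = ((v + ((n + 1 : ℕ) : ℤ) + 1, v + ((n + 1 : ℕ) : ℤ)) : ℤ × ℤ) := by
        push_cast; ring_nf
      rw [← e]
      refine ⟨h, ?_, ?_, ?_⟩ <;> dsimp only <;> push_cast <;> omega

theorem col_one' {a k b : ℕ} (ha : 2 ≤ a) (ω : Conf) (v w : ℤ) :
    ReflTransGen (EAdj1 (a+1) k b (fo ω)) (v + 1, v) (w + 1, w) := by
  rcases le_total v w with h | h
  · have := col_one (k := k) (b := b) ha ω v (w - v).toNat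
    rwa [Int.toNat_of_nonneg (by omega), add_sub_cancel] at this
  · have := col_one (k := k) (b := b) ha ω w (v - w).toNat
    rw [Int.toNat_of_nonneg (by omega), add_sub_cancel] at this
    exact rtg_symm this

/-- the straight path -/
theorem diag {a k b : ℕ} (ω : Conf) (v : ℤ)
    (h : ∀ j : ℕ, j < a → ω (v + 1 + j, v, false) = true) (n : ℕ) (hn : n ≤ a) :
    ReflTransGen (EAdj1 (a+1) k b (fo ω)) (v + 1, v) (v + 1 + n, v) := by
  induction n with
  | zero => simpa using ReflTransGen.refl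
  | succ n ih =>
    refine (ih (by omega)).tail ?_
    have e : ((v + 1 + ((n + 1 : ℕ) : ℤ), v) : ℤ × ℤ) = (v + 1 + n + 1, v) := by
      push_cast; ring_nf
    rw [e]
    refine ⟨fo_mono ω (Or.inl ⟨rfl, h n (by omega)⟩), ?_, ?_, ?_⟩ <;> dsimp only <;> push_cast <;> omega

/-- last visit of the columns `0`, `1` -/
theorem last {a k b : ℕ} (ω : Conf) {p y : ℤ × ℤ} (hy : 2 ≤ y.1 - y.2)
    (h : ReflTransGen (EAdj1 (a+1) k b (fo ω)) p y) :
    (∃ z : ℤ × ℤ, z.1 - z.2 = 1 ∧ ReflTransGen (fun p q => EAdj1 (a+1) k b ω p q ∧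
      1 ≤ p.1 - p.2 ∧ 1 ≤ q.1 - q.2) z y) ∨
    (2 ≤ p.1 - p.2 ∧ ReflTransGen (fun p q => EAdj1 (a+1) k b ω p q ∧
      1 ≤ p.1 - p.2 ∧ 1 ≤ q.1 - q.2) p y) := by
  induction h using ReflTransGen.head_induction_on with
  | refl => exact Or.inr ⟨hy, .refl⟩
  | @head p c h1 _ ih =>
    rcases ih with ih | ⟨ih1, ih2⟩
    · exact Or.inl ih
    · have hs := step h1.1
      have h2 : 1 ≤ p.1 - p.2 := by omega
      have h3 : EAdj1 (a+1) k b ω p c :=
        ⟨adj_symm (of_fo ω (adj_symm h1.1) ih1 h2), h1.2⟩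
      rcases (by omega : p.1 - p.2 = 1 ∨ 2 ≤ p.1 - p.2) with h4 | h4
      · exact Or.inl ⟨p, h4, ReflTransGen.head ⟨h3, h2, by omega⟩ ih2⟩
      · exact Or.inr ⟨h4, ReflTransGen.head ⟨h3, h2, by omega⟩ ih2⟩

open Pool.Agent.H863R4 (sh perc_map openAdj_sh)

theorem main_iff {a k b : ℕ} {l : ℕ} (hl : a = 2 * l) (ha : 2 ≤ a) (ω : Conf)
    (hω : ∃ v : ℕ, ∀ j : ℕ, j < a → ω ((v:ℤ) + (-l) + j, (v:ℤ) + l, false) = true) :
    ω ∈ Cross3 a (2*k+2) b ↔
      fo (fun i => ω ((sh (l+1) (-l)).symm i)) ∈ ECross1 (a+1) k b := by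
  have hlz : (a:ℤ) = 2 * l := by exact_mod_cast hl
  set ω' : Conf := fun i => ω ((sh (l+1) (-l)).symm i) with hω'
  have hstep : ∀ (x y : ℤ × ℤ), FAdj1 a (2*k+2) b ω x y ↔
      (EAdj1 (a+1) k b ω' (x.1 + (l+1), x.2 + (-l)) (y.1 + (l+1), y.2 + (-l)) ∧
        1 ≤ (x.1 + (l+1)) - (x.2 + (-l)) ∧ 1 ≤ (y.1 + (l+1)) - (y.2 + (-l))) := by
    intro x y
    unfold FAdj1 EAdj1
    rw [hω', openAdj_sh]
    simp only
    push_cast
    constructor
    · rintro ⟨e1, e2, e3, e4, e5, e6⟩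
      exact ⟨⟨e1, ⟨by omega, by omega⟩, ⟨by omega, by omega⟩, by omega⟩, by omega, by omega⟩
    · rintro ⟨⟨e1, ⟨e2, e3⟩, ⟨e4, e5⟩, e6⟩, e7, e8⟩
      exact ⟨e1, by omega, by omega, by omega, by omega, by omega⟩
  constructor
  · rintro ⟨x, y, h1, h2, h3, h4⟩
    have hpath : ReflTransGen (EAdj1 (a+1) k b (fo ω')) (x.1 + (l+1), x.2 + (-l))
        (y.1 + (l+1), y.2 + (-l)) := by
      refine h4.lift (fun z : ℤ × ℤ => (z.1 + (l+1), z.2 + (-l))) fun p q hpq => ?_
      have h5 := ((hstep p q).1 hpq).1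
      exact ⟨fo_mono ω' h5.1, h5.2⟩
    rcases h1 with h1 | ⟨h1, h1'⟩
    · obtain ⟨v, hv⟩ := hω
      refine ⟨((v:ℤ) + 1 + a, (v:ℤ)), (y.1 + (l+1), y.2 + (-l)), ?_, ?_, ?_, ?_, ?_⟩
      · dsimp only; push_cast; ring
      · dsimp only; omega
      · dsimp only; push_cast at h2 ⊢; omega
      · dsimp only; omega
      · have hd := diag (k := k) (b := b) (a := a) ω' (v:ℤ) (fun j hj => by
          have h6 := hv j hj
          rw [hω']
          unfold sh
          simp only [Equiv.coe_fn_symm_mk]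
          have e : ((v:ℤ) + 1 + j - (l + 1), (v:ℤ) - (-l), false) =
              ((v:ℤ) + (-l) + j, (v:ℤ) + l, false) := by ring_nf
          rw [e]
          exact h6) a le_rfl
        have hc := col_one' (k := k) (b := b) ha ω' (v:ℤ) (x.2 + (-l))
        have e : ((x.2 + (-l) + 1, x.2 + (-l)) : ℤ × ℤ) = (x.1 + (l+1), x.2 + (-l)) := by
          apply Prod.ext
          · dsimp only; omega
          · rfl
        rw [e] at hc
        exact (rtg_symm hd).trans (hc.trans hpath)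
    · refine ⟨(x.1 + (l+1), x.2 + (-l)), (y.1 + (l+1), y.2 + (-l)), ?_, ?_, ?_, ?_, hpath⟩
      · dsimp only; push_cast; omega
      · dsimp only; omega
      · dsimp only; push_cast at h2 ⊢; omega
      · dsimp only; omega
  · rintro ⟨x, y, h1, h2, h3, h3', h4⟩
    have hback : ∀ z : ℤ × ℤ, ReflTransGen (fun p q => EAdj1 (a+1) k b ω' p q ∧
        1 ≤ p.1 - p.2 ∧ 1 ≤ q.1 - q.2) z y →
        ReflTransGen (FAdj1 a (2*k+2) b ω) (z.1 - (l+1), z.2 - (-l)) (y.1 - (l+1), y.2 - (-l)) := by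
      intro z hz
      refine hz.lift (fun z : ℤ × ℤ => (z.1 - (l+1), z.2 - (-l))) fun p q hpq => ?_
      show FAdj1 a (2*k+2) b ω (p.1 - (l+1), p.2 - (-l)) (q.1 - (l+1), q.2 - (-l))
      rw [hstep]
      simpa using hpq
    rcases last ω' (by push_cast at h3; omega) h4 with ⟨z, hz1, hz2⟩ | ⟨hz1, hz2⟩
    · refine ⟨(z.1 - (l+1), z.2 - (-l)), (y.1 - (l+1), y.2 - (-l)), Or.inl ?_, ?_, ?_, hback z hz2⟩
      · dsimp only; omega
      · dsimp only; push_cast at h3 ⊢; omega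
      · dsimp only; omega
    · refine ⟨(x.1 - (l+1), x.2 - (-l)), (y.1 - (l+1), y.2 - (-l)), Or.inr ⟨?_, ?_⟩, ?_, ?_,
        hback x hz2⟩
      · dsimp only; push_cast at h1; omega
      · dsimp only; omega
      · dsimp only; push_cast at h3 ⊢; omega
      · dsimp only; omega

end P2

open P2 in
/-- P2 -/
theorem t3_P2 : S3_P2 := by
  intro a k b ha ha2 _
  obtain ⟨l, hl⟩ := ha
  have hl' : a = 2 * l := by omega
  rw [← Pool.Agent.H863R4.perc_map (Pool.Agent.H863R4.sh (l + 1) (-l))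
    {ω | fo ω ∈ ECross1 (a+1) k b}]
  refine measureReal_congr ?_
  filter_upwards [ae_diag a (-l) l] with ω hω
  refine propext ?_
  exact (main_iff hl' ha2 ω hω).symm

end Pool.Agent.H965.K3
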