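import Pool.Agent.H965.K3.Defs
import Pool.Agent.H965.Both.Win

/-!
Forked channels, the walls of the left arm to the inner wall of the right arm (helper965):
statements of the tasks (nothing is proved here).
-/

namespace Pool.Agent.H965.K3

open Pool.Agent.H988R2.Perc hiding X
open Pool.Agent.H492C (comb comb2 pairG up1)
open Pool.Agent.NH38.Step (om prs EE zs prF Gen on cardy pom bev)
open Pool.Agent.NH38.Step.Hom (phi eL DD DD_ne W0 VV bs LP)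
open Pool.Agent.NH38.Fork (zo mm na cst gh Dh G T D U tt gF tF NZ ev LR UL Reg Lau PermInv cc gm
  x1 x2 sv vv kap rf mj EAdj UnifG Bt)
open Pool.Agent.H966.T1 (eh E1 U1 TT1 hF FP1 DD1 FAdj1 EAdj1)
open Polynomial Filter Topology MeasureTheory

/-! ## TASK L: limits `t → 0` -/

/-- L1 -/
def S3_zs : Prop := ∀ l : List ℂ, Odd l.length → NZ l →
  Lim0 (fun t => zs (t :: l)) ((l.length - 1)/2) (zo l)

def S3_zo : Prop := ∀ l : List ℂ, Even l.length → NZ l →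
  Lim0 (fun t => zo (t :: l)) (l.length/2) (zs l)

/-- L2 -/
def S3_eh : Prop := ∀ (A X B : List ℂ) (w v : ℂ), Even A.length → Odd B.length → NZ A → NZ X →
  NZ B → w ≠ 0 → v ≠ 0 → Lim0 (fun t => eh (t :: A) X B w v)
    (A.length + (B.length+1)/2 + X.length) (eh3 A X B w v)

/-- L3 -/
def S3_gt : Prop := ∀ (A B : List ℂ) (w : ℂ), Even A.length → Odd B.length → NZ A →
  NZ B → w ≠ 0 → Lim0 (fun t => gh (t :: A) [] B w) (A.length + (B.length+1)/2) (gt3 A B w)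

/-- L4: polynomiality of `eh3` in `w` -/
def S3_ehw : Prop := ∀ (A X B : List ℂ) (v : ℂ), Even A.length → Odd B.length → NZ A → NZ X →
  NZ B → v ≠ 0 → ∃ (F : ℂ[X]) (m : ℕ), ∀ w, w ≠ 0 → eh3 A X B w v * w^m = F.eval w

/-- L5: total mass, `A = B = X = 1,…,1` -/
def S3_Teq : Prop := ∀ a k b : ℕ, Even a → Odd b → TT3 (on a) (on k) (on b) 1 1 =
  cs3 (on a) (on b) k 1 * (zo (1 :: 1 :: (on a ++ (on b ++ on (2*k)))) * mm3 (on a) (on b))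

/-! ## TASK M: the formula -/

open Classical in
def S3_M : Prop := ∀ {ι : Type} (x : ι → ℂ), Gen x → ∀ (s : Finset ι) (A B : List ℂ) (w v : ℂ),
  Even A.length → Odd B.length → NZ A → NZ B → w ≠ 0 → v ≠ 0 →
  (om w - om v) * (∏ j ∈ s, (om v - om (x j))) * zo (A ++ B) * FP3 x (hF3 x) s A B w v = 0

/-! ## TASK H: homogeneous limit of the formula -/

def S3_HL : Prop := ∀ a b k : ℕ, Even a → Odd b → ∃ F ∈ W0 (a + b + 1 + 2*k), ∀ (w : ℂ)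
  (hw : w ∈ DD), zs (on (a + b + 1)) * (h3 a b k w * phi (on (a + b + 1 + 2*k)) w) -
    zs (on (a + b + 1 + 2*k)) * ((om (w^3) - 2)^k * (h3 a b 0 w * phi (on (a + b + 1)) w)) =
      eL w (DD_ne hw) F

/-! ## TASK S: the support of the vector of a strip with two wired walls -/

/-- S: the amplitude with certain connection -/
def S3_cert : Prop := ∀ a b : ℕ, Even a → Odd b → gt3 (on a) (on b) 1 = ka a b

/-! ## TASK B: the thin slit -/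

/-- the polynomial of the thin slit, `N = 3 (a+b+1)`: reflection defects -/
noncomputable def dA3 (N : ℕ) (p : ℂ[X]) : ℂ[X] :=
  p.comp (C (q^2) * X) - (reflect N p).comp (C q * X)

noncomputable def dB3 (N : ℕ) (p : ℂ[X]) : ℂ[X] :=
  p.comp (C q * X) - (reflect N p).comp (C (q^2) * X)

/-- B1: reflection defects for the list `t :: 1,…,1` (`D = 3(a+b+1)+2`) -/
def S3_cfA : Prop := ∀ (a b : ℕ) (t : ℂ), Even a → Odd b → t ≠ 0 → ∃ p : ℂ[X],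
  p.natDegree ≤ 3*(a+b+1) + 2 ∧
  (∀ w, w ≠ 0 → Dh (t :: on a) w 1 (on b) * (w - 1) * phi (t :: on (a+b)) w *
    w^(3*(a+b+1)/2 + 1) = (w - q) * p.eval w) ∧
  (X - 1)^(2*a+1) ∣ p.comp (C (q^2) * X) - reflect (3*(a+b+1) + 2) (p.comp (C (q^2) * X)) ∧
  (X - 1)^(2*b+1) ∣ p.comp (C q * X) - reflect (3*(a+b+1) + 2) (p.comp (C q * X))

/-- B2: the limit `t → 0` -/
def S3_conf : Prop := ∀ a b : ℕ, Even a → Odd b → ∃ p : ℂ[X], p.natDegree ≤ 3*(a+b+1) ∧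
  (∀ w, w ≠ 0 → Dh3 (on a) w 1 (on b) * (w - 1) * phi (on (a+b)) w * w^(3*(a+b+1)/2) =
    (w - q) * p.eval w) ∧
  p.coeff 0 = q * ka a b ∧ p.coeff (3*(a+b+1)) = -q^2 * ka a b ∧
  (X - 1)^(2*(a+b)+2) ∣ p ∧ (X - 1)^(2*a+1) ∣ dA3 (3*(a+b+1)) p ∧
  (X - 1)^(2*b+1) ∣ dB3 (3*(a+b+1)) p

/-! ## TASK N: uniqueness -/

/-- `ℚ[X] → ℂ[X]` -/
noncomputable def upC (p : ℚ[X]) : ℂ[X] := p.map (algebraMap ℚ ℂ)

/-- N -/
def S3_NM : Prop := ∀ (a b n : ℕ) (κ : ℂ) (p : ℂ[X]), Even a → Odd b → a + b + 1 = 2*n →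
  p.natDegree ≤ 6*n → p.coeff 0 = q * κ → p.coeff (6*n) = -q^2 * κ →
  (X - 1)^(2*(a+b)+2) ∣ p → (X - 1)^(2*a+1) ∣ dA3 (6*n) p → (X - 1)^(2*b+1) ∣ dB3 (6*n) p →
  ∃ e : ℂ[X], e.natDegree ≤ 2*n - 1 ∧
    p + reflect (6*n) p = C ((q - q^2) * κ) *
      ((expand ℂ 3 (upC (Rp a)) - X^2 * expand ℂ 3 (upC (Rps a))) *
        (expand ℂ 3 (upC (H337CB.P b)) - X * expand ℂ 3 (upC (H337CB.Ps b)))) ∧
    p - reflect (6*n) p = - (C κ * expand ℂ 3 (upC (Rp a * H337CB.P b -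
      X * (Rps a * H337CB.Ps b)))) + X * expand ℂ 3 e - X^2 * expand ℂ 3 (reflect (2*n-1) e)

/-! ## TASK F: the residue formula and the final algebra -/

/-- the residue formula -/
def S3_HF : Prop := ∀ (a b k : ℕ) (F1 : ℚ[X]), Even a → Odd b →
  (X + 1) * F1 = (1 - X) * ((Rp a + X * Rps a) * (H337CB.P b + H337CB.Ps b)) →
  2 * eh3 (on a) (on k) (on b) 1 1 =
    ((- H337CB.R ((a+b+1) + (a+b+2+2*k)) (-1/3) (F1 * H337CB.Ps (a+b+2+2*k)) : ℚ) : ℂ) *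
      (zo (1 :: 1 :: (on a ++ (on b ++ on (2*k)))) * mm3 (on a) (on b))

/-- polynomial identity -/
def S3_AV : Prop := ∀ a b : ℕ, Even a → Odd b →
  (1 - X) * ((Rp a + X * Rps a) * (H337CB.P b + H337CB.Ps b)) =
    (1 + X)^2 * ∑ j ∈ Finset.range ((a+b+1)/2), C (cd a b j) * (4 * X)^j * (1 - X)^(a+b-2*j)

/-- output: the amplitude -/
def S3_Alg : Prop := ∀ a k b : ℕ, Even a → Odd b →
  E3 (on a) (on k) (on b) 1 1 = ((FK a b (a+b+2+2*k) : ℚ) : ℂ) * TT3 (on a) (on k) (on b) 1 1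

/-! ## TASK A: asymptotics -/

/-- A1: positivity -/
def S3_pos : Prop := ∀ n j : ℕ, Even n → 0 ≤ (dv n).coeff j

/-- A2: asymptotics of the coefficients of `dv` -/
def S3_dvA : Prop := ∀ j : ℕ, Tendsto
  (fun i : ℕ => (((dv (2*i)).coeff j : ℚ) : ℝ) / ((2*i : ℕ) : ℝ)^(2*j)) atTop
  (𝓝 (1 / (4^j * rf (1/3) j * (Nat.factorial j : ℝ))))

/-- coefficients of Appell's function `F_4(4/3, 2/3; 1/3, 4/3; A, B)` -/
noncomputable def wp3 (A B : ℝ) (m : ℕ) : ℝ := ∑ i ∈ Finset.range (m+1),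
  rf (4/3) m * rf (2/3) m / (rf (4/3) i * (Nat.factorial i : ℝ) * (rf (1/3) (m-i) *
    (Nat.factorial (m-i) : ℝ))) * B^i * A^(m-i)

/-- coefficients of Appell's function `F_4(1/3, 2/3; 1/3, 4/3; A, B)` -/
noncomputable def ap3 (A B : ℝ) (m : ℕ) : ℝ := ∑ i ∈ Finset.range (m+1),
  rf (1/3) m * rf (2/3) m / (rf (4/3) i * (Nat.factorial i : ℝ) * (rf (1/3) (m-i) *
    (Nat.factorial (m-i) : ℝ))) * B^i * A^(m-i)

/-- A3: the algebraic generating function -/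
def S3_WI : Prop := ∀ A B : ℝ, 0 < A → 0 < B → Real.sqrt A + Real.sqrt B < 1 →
  HasSum (wp3 A B) ((x1 A B + x2 A B) * (x2 A B - x1 A B)^(-(5:ℝ)/3))

/-- A4: the limit function -/
def S3_F4 : Prop := ∀ ρ σ : ℝ, 0 < ρ → 0 < σ → ρ + σ < 1 →
  HasSum (fun m => (2*σ)^((2:ℝ)/3) * (3 / Bt) * ap3 (ρ^2) (σ^2) m)
    (2 * cardy ((1 - x2 (ρ^2) (σ^2)) / (1 - x1 (ρ^2) (σ^2))))

/-- A5: the asymptotics -/
def S3_Asy : Prop := ∀ (a b N : ℕ → ℕ) (ρ σ : ℝ), 0 < ρ → 0 < σ → ρ + σ < 1 →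
  (∀ i, Even (a i)) → (∀ i, Odd (b i)) → (∀ i, Odd (N i)) → (∀ i, a i + b i < N i) →
  Tendsto N atTop atTop → Tendsto (fun i => (a i : ℝ) / N i) atTop (𝓝 ρ) →
  Tendsto (fun i => (b i : ℝ) / N i) atTop (𝓝 σ) →
  Tendsto (fun i => ((FK (a i) (b i) (N i) : ℚ) : ℝ)) atTop
    (𝓝 (cardy ((1 - x2 (ρ^2) (σ^2)) / (1 - x1 (ρ^2) (σ^2)))))

/-- bound (a probability) -/
def S3_FKle : Prop := ∀ a b : ℕ, Even a → 2 ≤ a → Odd b → FK a b (a+b+2) ≤ 1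

/-! ## TASK P: percolation -/

open Pool.Agent.H965.Both (fo)
open Pool.Agent.H966.T1 (ECross1)

/-- P1: `fo ω` is `ω` with the edges between the columns `0` and `1` opened (wired left wall) -/
def S3_P1 : Prop := ∀ a k b : ℕ, Even a → 2 ≤ a → Odd b →
  ((perc.real {ω | fo ω ∈ ECross1 (a+1) k b} : ℝ) : ℂ) * TT3 (on a) (on k) (on b) 1 1 =
    E3 (on a) (on k) (on b) 1 1

/-- P2 -/
def S3_P2 : Prop := ∀ a k b : ℕ, Even a → 2 ≤ a → Odd b →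
  perc.real {ω | fo ω ∈ ECross1 (a+1) k b} = perc.real (Cross3 a (2*k+2) b)

def S3_PF : Prop := ∀ a k b : ℕ, Even a → 2 ≤ a → Odd b →
  ((perc.real (Cross3 a (2*k+2) b) : ℝ) : ℂ) * TT3 (on a) (on k) (on b) 1 1 =
    E3 (on a) (on k) (on b) 1 1

def S3_TF : Prop := ∀ a k b : ℕ, Even a → Odd b → TT3 (on a) (on k) (on b) 1 1 ≠ 0

/-- the exact formula -/
def S3_Exact : Prop := ∀ a k b : ℕ, Even a → 2 ≤ a → Odd b →
  perc.real (Cross3 a (2*k+2) b) = ((FK a b (a+b+2+2*k) : ℚ) : ℝ)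

theorem pf_of (h1 : S3_P1) (h2 : S3_P2) : S3_PF := by
  intro a k b ha ha2 hb
  rw [← h2 a k b ha ha2 hb]
  exact h1 a k b ha ha2 hb

theorem exact3_of (hP : S3_PF) (hT : S3_TF) (hA : S3_Alg) : S3_Exact := by
  intro a k b ha ha2 hb
  have h := hP a k b ha ha2 hb
  rw [hA a k b ha hb] at h
  exact_mod_cast mul_right_cancel₀ (hT a k b ha hb) h

/-! ## TASK G: all widths, the scaling limit -/

def S3_Lim : Prop := ∀ (α γ β : ℝ), 0 < α → 0 < γ → 0 < β → ∀ (δ : ℕ → ℝ) (a m b : ℕ → ℕ),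
  (∀ n, 0 < δ n) → Tendsto δ atTop (𝓝 0) → Tendsto (fun n => δ n * a n) atTop (𝓝 α) →
  Tendsto (fun n => δ n * m n) atTop (𝓝 γ) → Tendsto (fun n => δ n * b n) atTop (𝓝 β) →
  Tendsto (fun n => perc.real (Cross3 (a n) (m n) (b n))) atTop
    (𝓝 (cardy ((1 - x2 ((α/(α+γ+β))^2) ((β/(α+γ+β))^2)) /
      (1 - x1 ((α/(α+γ+β))^2) ((β/(α+γ+β))^2)))))

def S3_G : Prop := S3_Exact → S3_Asy → S3_Lim

/-- the same event in the bounded domain (heights in `[-H,H]`) -/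
def Cross3H (a m b H : ℕ) : Set Conf :=
  {ω | ∃ x y : ℤ × ℤ, (x.1 - x.2 = -(a:ℤ) ∨ (x.1 - x.2 = 0 ∧ 0 ≤ x.1 + x.2)) ∧
    |x.1 + x.2| ≤ (H:ℤ) ∧ y.1 - y.2 = (m : ℤ) ∧ 0 ≤ y.1 + y.2 ∧ y.1 + y.2 ≤ H ∧
    Relation.ReflTransGen (fun p r => FAdj1 a m b ω p r ∧ |p.1 + p.2| ≤ H ∧ |r.1 + r.2| ≤ H) x y}

end Pool.Agent.H965.K3
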